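import Pool.Agent.V11185.PPackG

/-!
Packing the progressions with all differences up to `n`: asymptotics of the lower bound.
-/

set_option autoImplicit false

namespace Pool.Agent.V11185.PPack

open Finset Filter Topology

lemma third_tendsto : Tendsto (fun n : ℕ => ((n / 3 : ℕ) : ℝ) / n) atTop (𝓝 (1 / 3)) := by
  have h := (tendsto_nat_floor_mul_div_atTop (R := ℝ) (a := 1 / 3) (by norm_num)).comp
    (tendsto_natCast_atTop_atTop (R := ℝ))
  refine h.congr fun n => ?_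
  simp only [Function.comp_apply]
  have : ⌊(1 / 3 : ℝ) * n⌋₊ = n / 3 := by
    rw [one_div_mul_eq_div]
    exact_mod_cast Nat.floor_div_eq_div (K := ℝ) n 3
  rw [this]

lemma div_three_atTop : Tendsto (fun n : ℕ => n / 3) atTop atTop := by
  rw [tendsto_atTop]
  intro b
  filter_upwards [eventually_ge_atTop (3 * b)] with n hn
  omega

lemma psum_third (k : ℕ) :
    Tendsto (fun n : ℕ => (∑ p ∈ primesLE (n / 3), (p : ℝ) ^ k) * Real.log n /
      (n : ℝ) ^ (k + 1)) atTop (𝓝 (1 / (k + 1) * (1 / 3) ^ (k + 1))) := by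
  have h1 := (psum_tendsto k).comp div_three_atTop
  have hlog : Tendsto (fun n : ℕ => Real.log n) atTop atTop :=
    Real.tendsto_log_atTop.comp tendsto_natCast_atTop_atTop
  have h2 : Tendsto (fun n : ℕ => Real.log ((n / 3 : ℕ) : ℝ) / Real.log n) atTop (𝓝 1) := by
    have h3 : Tendsto (fun n : ℕ => 1 + Real.log (((n / 3 : ℕ) : ℝ) / n) * (Real.log n)⁻¹) atTop
        (𝓝 (1 + Real.log (1 / 3) * 0)) := by
      refine tendsto_const_nhds.add (Tendsto.mul ?_ (tendsto_inv_atTop_zero.comp hlog))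
      exact (Real.continuousAt_log (by norm_num)).tendsto.comp third_tendsto
    rw [mul_zero, add_zero] at h3
    refine h3.congr' ?_
    filter_upwards [eventually_ge_atTop 3] with n hn
    have hn0 : (n : ℝ) ≠ 0 := by positivity
    have hn3 : ((n / 3 : ℕ) : ℝ) ≠ 0 := by
      have : n / 3 ≠ 0 := by omega
      exact_mod_cast this
    have hl : Real.log n ≠ 0 := (Real.log_pos (by
      have : 1 < n := by omega
      exact_mod_cast this)).ne'
    rw [Real.log_div hn3 hn0]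
    field_simp
    ring
  have h := (h1.div h2 one_ne_zero).mul (third_tendsto.pow (k + 1))
  rw [div_one] at h
  refine h.congr' ?_
  filter_upwards [eventually_ge_atTop 6] with n hn
  have hn0 : (n : ℝ) ≠ 0 := by positivity
  have hn3 : ((n / 3 : ℕ) : ℝ) ≠ 0 := by
    have : n / 3 ≠ 0 := by omega
    exact_mod_cast this
  have hl : Real.log n ≠ 0 := (Real.log_pos (by
    have : 1 < n := by omega
    exact_mod_cast this)).ne'
  have hl3 : Real.log ((n / 3 : ℕ) : ℝ) ≠ 0 := (Real.log_pos (by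
    have : 1 < n / 3 := by omega
    exact_mod_cast this)).ne'
  simp only [Function.comp_apply, Pi.div_apply]
  rw [div_pow]
  field_simp

lemma sum_oddP {n : ℕ} (hn : 2 ≤ n) (f : ℕ → ℝ) :
    ∑ p ∈ oddP n, f p = ∑ p ∈ primesLE n, f p - f 2 := by
  have h2 : 2 ∈ primesLE n := by
    unfold primesLE
    rw [Finset.mem_filter, Finset.mem_Icc]
    exact ⟨⟨by omega, hn⟩, Nat.prime_two⟩
  unfold oddP
  rw [← Finset.add_sum_erase _ _ h2]
  ring

lemma small_tendsto (a c : ℝ) :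
    Tendsto (fun n : ℕ => (a * n + c) * Real.log n / (n : ℝ) ^ 3) atTop (𝓝 0) := by
  have hinv : Tendsto (fun n : ℕ => ((n : ℝ))⁻¹) atTop (𝓝 0) :=
    tendsto_inv_atTop_zero.comp tendsto_natCast_atTop_atTop
  have h := ((hinv.const_mul a).add ((hinv.mul hinv).const_mul c)).mul log_div_tendsto
  rw [mul_zero] at h
  refine h.congr' ?_
  filter_upwards [eventually_ge_atTop 1] with n hn
  have hn0 : (n : ℝ) ≠ 0 := by positivity
  field_simp

/-- the lower bound `19 / 108` -/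
theorem all_liminf {M : ℕ → ℕ}
    (hM : ∀ n, IsLeast {m | Packs (Icc 1 n) (fun d => mult d n) m} (M n)) (ε : ℝ) (hε : 0 < ε) :
    ∀ᶠ n : ℕ in atTop, 19 / 108 - ε < (M n : ℝ) * Real.log n / (n : ℝ) ^ 3 := by
  have h1 := (psum_tendsto 1).sub (psum_tendsto 2)
  have h2 := (psum_third 1).sub ((psum_third 2).const_mul 3)
  have h3 := small_tendsto 2 (-4)
  have h4 := small_tendsto 2 (-12)
  have h := ((h1.sub h3).const_mul 2).add (h2.sub h4)
  have e : (2 : ℝ) * (1 / ((1 : ℕ) + 1) - 1 / ((2 : ℕ) + 1) - 0) +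
      (1 / ((1 : ℕ) + 1) * (1 / 3) ^ (1 + 1) - 3 * (1 / ((2 : ℕ) + 1) * (1 / 3) ^ (2 + 1)) - 0) =
      2 * (19 / 108) := by norm_num
  rw [e] at h
  have h5 := h.eventually (lt_mem_nhds (show 2 * (19 / 108) - 2 * ε < 2 * (19 / 108) by linarith))
  filter_upwards [h5, eventually_ge_atTop 6] with n h5 hn
  have hn0 : (0 : ℝ) < n := by positivity
  have hl : 0 < Real.log n := Real.log_pos (by
    have : 1 < n := by omega
    exact_mod_cast this)
  have hw : 0 < Real.log n / (n : ℝ) ^ 3 := by positivity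
  have key := all_lower (hM n).1
  have key' : 2 * ∑ p ∈ oddP n, ((p : ℝ) * n - (p : ℝ) ^ 2) +
      ∑ p ∈ oddP (n / 3), ((p : ℝ) * n - 3 * (p : ℝ) ^ 2) ≤ 2 * (M n : ℝ) := by
    exact_mod_cast key
  rw [sum_oddP (by omega), sum_oddP (by omega)] at key'
  have key2 := mul_le_mul_of_nonneg_right key' hw.le
  have e1 : ∑ p ∈ primesLE n, ((p : ℝ) * n - (p : ℝ) ^ 2) =
      (∑ p ∈ primesLE n, (p : ℝ) ^ 1) * n - ∑ p ∈ primesLE n, (p : ℝ) ^ 2 := by
    rw [Finset.sum_sub_distrib, ← Finset.sum_mul]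
    simp only [pow_one]
  have e2 : ∑ p ∈ primesLE (n / 3), ((p : ℝ) * n - 3 * (p : ℝ) ^ 2) =
      (∑ p ∈ primesLE (n / 3), (p : ℝ) ^ 1) * n - 3 * ∑ p ∈ primesLE (n / 3), (p : ℝ) ^ 2 := by
    rw [Finset.sum_sub_distrib, ← Finset.sum_mul, ← Finset.mul_sum]
    simp only [pow_one]
  rw [e1, e2] at key2
  have e3 : (2 : ℝ) * ((∑ p ∈ primesLE n, (p : ℝ) ^ 1) * Real.log n / (n : ℝ) ^ (1 + 1) -
      (∑ p ∈ primesLE n, (p : ℝ) ^ 2) * Real.log n / (n : ℝ) ^ (2 + 1) -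
      (2 * n + -4) * Real.log n / (n : ℝ) ^ 3) +
      ((∑ p ∈ primesLE (n / 3), (p : ℝ) ^ 1) * Real.log n / (n : ℝ) ^ (1 + 1) -
      3 * ((∑ p ∈ primesLE (n / 3), (p : ℝ) ^ 2) * Real.log n / (n : ℝ) ^ (2 + 1)) -
      (2 * n + -12) * Real.log n / (n : ℝ) ^ 3) =
      (2 * ((∑ p ∈ primesLE n, (p : ℝ) ^ 1) * n - ∑ p ∈ primesLE n, (p : ℝ) ^ 2 -
        (((2 : ℕ) : ℝ) * n - ((2 : ℕ) : ℝ) ^ 2)) +
        ((∑ p ∈ primesLE (n / 3), (p : ℝ) ^ 1) * n - 3 * ∑ p ∈ primesLE (n / 3), (p : ℝ) ^ 2 -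
        (((2 : ℕ) : ℝ) * n - 3 * ((2 : ℕ) : ℝ) ^ 2))) * (Real.log n / (n : ℝ) ^ 3) := by
    push_cast
    field_simp
    ring
  rw [e3] at h5
  have e4 : (M n : ℝ) * Real.log n / (n : ℝ) ^ 3 = (M n : ℝ) * (Real.log n / (n : ℝ) ^ 3) := by
    ring
  rw [e4]
  linarith

theorem all_not_tendsto {M : ℕ → ℕ}
    (hM : ∀ n, IsLeast {m | Packs (Icc 1 n) (fun d => mult d n) m} (M n)) :
    ¬ Tendsto (fun n : ℕ => (M n : ℝ) * Real.log n / (n : ℝ) ^ 3) atTop (𝓝 (1 / 6)) := by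
  intro h
  have h1 := h.eventually (gt_mem_nhds (show (1 / 6 : ℝ) < 37 / 216 by norm_num))
  have h2 := all_liminf hM (1 / 216) (by norm_num)
  obtain ⟨n, h3, h4⟩ := (h1.and h2).exists
  have : (19 / 108 - 1 / 216 : ℝ) = 37 / 216 := by norm_num
  linarith

end Pool.Agent.V11185.PPack
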