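import Mathlib

/-!
# Temporal 4-colouring of bipartite temporal graphs of grow pace 1

Core construction.  Instead of the colourings `c j` we construct for every transition `j → j+1`
and every vertex `x` a set `S j x` of colours (a superset of `{c j x, c (j+1) x}`), such that
adjacent vertices of `G j ∪ G (j+1)` get disjoint sets and `S j x`, `S (j+1) x` always meet.
The four colours are `Bool × Bool`; the sets are classes of one of the two coordinates, cut down to
a single colour at the ends of at most one edge.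
-/

set_option autoImplicit false

namespace Pool.Agent.V11185.TC

abbrev Col := Bool × Bool

/-- one of the two coordinates -/
def ell (m : Bool) (c : Col) : Bool := if m then c.2 else c.1

/-- the colour with prescribed coordinates -/
def mk (m p q : Bool) : Col := if m then (q, p) else (p, q)

theorem ell_mk (m p q : Bool) : ell m (mk m p q) = p := by
  cases m <;> rfl

theorem ell_not_mk (m p q : Bool) : ell (!m) (mk m p q) = q := by
  cases m <;> rfl

theorem col_ext (m : Bool) {c d : Col} (h1 : ell m c = ell m d) (h2 : ell (!m) c = ell (!m) d) :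
    c = d := by
  revert m c d
  decide

variable {V : Type*}

/-- `φ` is a proper 2-colouring of `G` -/
def Pr (G : SimpleGraph V) (φ : V → Bool) : Prop := ∀ x y, G.Adj x y → φ x ≠ φ y

/-- a class, cut down to `s x` at the vertices of `N` -/
def cl (m : Bool) (φ : V → Bool) (s : V → Col) (N : Set V) (x : V) : Set Col :=
  {c | ell m c = φ x ∧ (x ∈ N → c = s x)}

/-- ends of a monochromatic edge of `B` not in `A` -/
def mono (A B : SimpleGraph V) (φ : V → Bool) : Set V :=
  {x | ∃ y, B.Adj x y ∧ ¬ A.Adj x y ∧ φ x = φ y}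

theorem cl_disj {A B : SimpleGraph V} {m : Bool} {φ : V → Bool} {s : V → Col}
    (hφ : Pr A φ)
    (hs : ∀ x y, B.Adj x y → ¬ A.Adj x y → φ x = φ y → s x ≠ s y)
    {x y : V} (h : A.Adj x y ∨ B.Adj x y) :
    Disjoint (cl m φ s (mono A B φ) x) (cl m φ s (mono A B φ) y) := by
  rw [Set.disjoint_left]
  rintro c ⟨h1, h2⟩ ⟨h3, h4⟩
  have hxy : φ x = φ y := h1.symm.trans h3
  have hA : ¬ A.Adj x y := fun hA => hφ x y hA hxy
  have hB : B.Adj x y := h.resolve_left hA
  have e1 := h2 ⟨y, hB, hA, hxy⟩
  have e2 := h4 ⟨x, hB.symm, fun h => hA h.symm, hxy.symm⟩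
  exact hs x y hB hA hxy (e1.symm.trans e2)

/-- the state reached after treating the transition `j` -/
def EState (G : ℕ → SimpleGraph V) (j : ℕ) (S : V → Set Col) : Prop :=
  ∃ (m : Bool) (φ : V → Bool) (s : V → Col), Pr (G j) φ ∧ (∀ x, ell m (s x) = φ x) ∧
    (∀ x y, (G (j + 1)).Adj x y → ¬ (G j).Adj x y → φ x = φ y → s x ≠ s y) ∧
    S = cl m φ s (mono (G j) (G (j + 1)) φ)

/-- good assignments up to the transition `j` -/
def Good (G : ℕ → SimpleGraph V) (j : ℕ) : Prop :=
  ∃ S : ℕ → V → Set Col,
    (∀ i ≤ j, ∀ x y, (G i).Adj x y ∨ (G (i + 1)).Adj x y → Disjoint (S i x) (S i y)) ∧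
    (∀ i < j, ∀ x, (S i x ∩ S (i + 1) x).Nonempty) ∧ EState G j (S j)

/-- at most one edge of `B` is missing in `A` -/
def OneNew (A B : SimpleGraph V) : Prop :=
  ∀ x y x' y', B.Adj x y → ¬ A.Adj x y → B.Adj x' y' → ¬ A.Adj x' y' →
    (x = x' ∧ y = y') ∨ (x = y' ∧ y = x')

/-- choice of the colours at the ends of a monochromatic new edge, respecting `t` on `R` -/
theorem exists_r {A B : SimpleGraph V} (h1 : OneNew A B) (m : Bool) (φ : V → Bool)
    (t : V → Col) (R : Set V) (ht : ∀ x, ell m (t x) = φ x)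
    (hR : ∀ x y, x ∈ R → y ∈ R → x ≠ y → φ x = φ y → t x ≠ t y) :
    ∃ r : V → Col, (∀ x, ell m (r x) = φ x) ∧
      (∀ x y, B.Adj x y → ¬ A.Adj x y → φ x = φ y → r x ≠ r y) ∧ (∀ x ∈ R, r x = t x) := by
  classical
  by_cases hex : ∃ u v, B.Adj u v ∧ ¬ A.Adj u v ∧ φ u = φ v
  · obtain ⟨u, v, hB, hA, huv⟩ := hex
    -- choose the name so that `v ∈ R → u ∈ R`
    have key : ∀ u v, B.Adj u v → ¬ A.Adj u v → φ u = φ v → (v ∈ R → u ∈ R) →
        ∃ r : V → Col, (∀ x, ell m (r x) = φ x) ∧
          (∀ x y, B.Adj x y → ¬ A.Adj x y → φ x = φ y → r x ≠ r y) ∧ (∀ x ∈ R, r x = t x) := by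
      intro u v hB hA huv hvu
      have hne : u ≠ v := hB.ne
      by_cases htv : t v = t u
      · refine ⟨Function.update t v (mk m (φ v) (!(ell (!m) (t u)))), ?_, ?_, ?_⟩
        · intro x
          by_cases hx : x = v
          · subst hx
            rw [Function.update_self, ell_mk]
          · rw [Function.update_of_ne hx]
            exact ht x
        · intro x y hxy hxy' hφ
          have hd : mk m (φ v) (!(ell (!m) (t u))) ≠ t u := by
            intro h
            have := congrArg (ell (!m)) h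
            rw [ell_not_mk] at this
            simp at this
          rcases h1 x y u v hxy hxy' hB hA with ⟨rfl, rfl⟩ | ⟨rfl, rfl⟩
          · rw [Function.update_self, Function.update_of_ne hne]
            exact hd.symm
          · rw [Function.update_self, Function.update_of_ne hne]
            exact hd
        · intro x hx
          by_cases hxv : x = v
          · subst hxv
            exact absurd htv (hR x u hx (hvu hx) hne.symm huv.symm)
          · rw [Function.update_of_ne hxv]
      · refine ⟨t, ht, ?_, fun _ _ => rfl⟩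
        intro x y hxy hxy' hφ
        rcases h1 x y u v hxy hxy' hB hA with ⟨rfl, rfl⟩ | ⟨rfl, rfl⟩
        · exact fun h => htv h.symm
        · exact htv
    by_cases hu : u ∈ R
    · exact key u v hB hA huv (fun _ => hu)
    · exact key v u hB.symm (fun h => hA h.symm) huv.symm (fun h => absurd h hu)
  · refine ⟨t, ht, ?_, fun _ _ => rfl⟩
    intro x y h h' h''
    exact absurd ⟨x, y, h, h', h''⟩ hex

/-- start -/
theorem good_zero (G : ℕ → SimpleGraph V) (hb : ∀ j, ∃ φ, Pr (G j) φ)
    (ha : ∀ j, OneNew (G j) (G (j + 1))) : Good G 0 := by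
  obtain ⟨φ, hφ⟩ := hb 0
  obtain ⟨r, hr1, hr2, -⟩ := exists_r (ha 0) false φ (fun x => mk false (φ x) false) ∅
    (fun x => ell_mk _ _ _) (fun x y hx => absurd hx (Set.notMem_empty x))
  refine ⟨fun _ => cl false φ r (mono (G 0) (G 1) φ), ?_, ?_, ?_⟩
  · intro i hi x y h
    obtain rfl : i = 0 := by omega
    exact cl_disj hφ hr2 h
  · intro i hi
    omega
  · exact ⟨false, φ, r, hφ, hr1, hr2, rfl⟩

/-- one or two further transitions -/
theorem good_step (G : ℕ → SimpleGraph V) (hb : ∀ j, ∃ φ, Pr (G j) φ)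
    (ha : ∀ j, OneNew (G j) (G (j + 1))) (hr : ∀ j, OneNew (G (j + 1)) (G j)) (j : ℕ)
    (h : Good G j) : Good G (j + 1) ∨ Good G (j + 2) := by
  classical
  obtain ⟨S, hS1, hS2, m, φ, s, hφ, hs1, hs2, hSj⟩ := h
  -- is the new edge monochromatic, and can `G (j+2)` be coloured with this edge not monochromatic?
  by_cases hgood : ∃ ψ, Pr (G (j + 2)) ψ ∧
      ∀ u v, (G (j + 1)).Adj u v → ¬ (G j).Adj u v → φ u = φ v → ψ u ≠ ψ v
  · right
    -- flip
    obtain ⟨ψ, hψ, hψe, hψs⟩ : ∃ ψ, Pr (G (j + 2)) ψ ∧
        (∀ u v, (G (j + 1)).Adj u v → ¬ (G j).Adj u v → φ u = φ v → ψ u ≠ ψ v) ∧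
        ∀ x ∈ mono (G j) (G (j + 1)) φ, ell (!m) (s x) = ψ x := by
      obtain ⟨ψ, hψ, hψe⟩ := hgood
      by_cases hex : ∃ u v, (G (j + 1)).Adj u v ∧ ¬ (G j).Adj u v ∧ φ u = φ v
      · obtain ⟨u, v, huv, huv', hφuv⟩ := hex
        refine ⟨fun x => xor (ψ x) (xor (ψ u) (ell (!m) (s u))), ?_, ?_, ?_⟩
        · intro x y hxy hh
          exact hψ x y hxy (Bool.xor_left_inj.mp hh)
        · intro x y h1 h2 h3 hh
          exact hψe x y h1 h2 h3 (Bool.xor_left_inj.mp hh)
        · rintro x ⟨y, h1, h2, h3⟩
          have hsuv := hs2 u v huv huv' hφuv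
          have hψuv := hψe u v huv huv' hφuv
          have e1 : ell (!m) (s u) ≠ ell (!m) (s v) := by
            intro h
            exact hsuv (col_ext m (by rw [hs1, hs1, hφuv]) h)
          rcases ha j x y u v h1 h2 huv huv' with ⟨rfl, rfl⟩ | ⟨rfl, rfl⟩
          · simp only
            generalize ell (!m) (s x) = p
            generalize ψ x = q
            revert p q
            decide
          · simp only
            revert e1 hψuv
            generalize ell (!m) (s x) = p
            generalize ell (!m) (s y) = p'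
            generalize ψ x = q
            generalize ψ y = q'
            revert p p' q q'
            decide
      · refine ⟨ψ, hψ, hψe, ?_⟩
        rintro x ⟨y, h1, h2, h3⟩
        exact absurd ⟨x, y, h1, h2, h3⟩ hex
    set t : V → Col := fun x => mk m (φ x) (ψ x) with ht
    have ht1 : ∀ x, ell m (t x) = φ x := fun x => ell_mk _ _ _
    have ht2 : ∀ x, ell (!m) (t x) = ψ x := fun x => ell_not_mk _ _ _
    -- colours at the ends of the removed edge differ
    have hrem : ∀ x y, (G (j + 1)).Adj x y → ¬ (G (j + 2)).Adj x y → ψ x = ψ y → t x ≠ t y := by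
      intro x y h1 h2 h3 h4
      have e := congrArg (ell m) h4
      rw [ht1, ht1] at e
      by_cases h5 : (G j).Adj x y
      · exact hφ x y h5 e
      · exact hψe x y h1 h5 e h3
    set R := mono (G (j + 2)) (G (j + 1)) ψ with hR
    have hRt : ∀ x y, x ∈ R → y ∈ R → x ≠ y → ψ x = ψ y → t x ≠ t y := by
      rintro x y ⟨x', h1, h2, h3⟩ ⟨y', h4, h5, h6⟩ hne hxy
      rcases hr (j + 1) x x' y y' h1 h2 h4 h5 with ⟨e, -⟩ | ⟨e, e'⟩
      · exact absurd e hne
      · rw [← e'] at *
        exact hrem x x' h1 h2 h3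
    obtain ⟨r, hr1, hr2, hr3⟩ := exists_r (ha (j + 2)) (!m) ψ t R ht2 hRt
    refine ⟨fun i => if i ≤ j then S i else if i = j + 1 then cl (!m) ψ t R
      else cl (!m) ψ r (mono (G (j + 2)) (G (j + 3)) ψ), ?_, ?_, ?_⟩
    · intro i hi x y hxy
      simp only
      by_cases h1 : i ≤ j
      · rw [if_pos h1]
        exact hS1 i h1 x y hxy
      · rw [if_neg h1]
        by_cases h2 : i = j + 1
        · rw [if_pos h2]
          subst h2
          exact cl_disj (A := G (j + 2)) (B := G (j + 1)) hψ hrem hxy.symm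
        · rw [if_neg h2]
          obtain rfl : i = j + 2 := by omega
          exact cl_disj hψ hr2 hxy
    · intro i hi x
      simp only
      by_cases h1 : i < j
      · rw [if_pos h1.le, if_pos (by omega : i + 1 ≤ j)]
        exact hS2 i h1 x
      · by_cases h2 : i = j
        · subst h2
          rw [if_pos le_rfl, if_neg (by omega), if_pos rfl, hSj]
          refine ⟨t x, ⟨ht1 x, ?_⟩, ht2 x, fun _ => rfl⟩
          intro hx
          exact col_ext m (by rw [ht1, hs1]) (by rw [ht2, hψs x hx])
        · obtain rfl : i = j + 1 := by omega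
          rw [if_neg (by omega), if_pos rfl, if_neg (by omega), if_neg (by omega)]
          exact ⟨r x, ⟨hr1 x, fun hx => hr3 x hx⟩, hr1 x, fun _ => rfl⟩
    · simp only
      rw [if_neg (by omega), if_neg (by omega)]
      exact ⟨!m, ψ, r, hψ, hr1, hr2, rfl⟩
  · left
    -- the new edge `u v` is monochromatic and gone in `G (j+2)`
    have hex : ∃ u v, (G (j + 1)).Adj u v ∧ ¬ (G j).Adj u v ∧ φ u = φ v := by
      by_contra hno
      obtain ⟨ψ, hψ⟩ := hb (j + 2)
      exact hgood ⟨ψ, hψ, fun u v h1 h2 h3 => absurd ⟨u, v, h1, h2, h3⟩ hno⟩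
    obtain ⟨u, v, huv, huv', hφuv⟩ := hex
    have hall : ∀ χ, Pr (G (j + 2)) χ → χ u = χ v := by
      intro χ hχ
      by_contra hne
      apply hgood
      refine ⟨χ, hχ, ?_⟩
      intro x y h1 h2 h3
      rcases ha j x y u v h1 h2 huv huv' with ⟨rfl, rfl⟩ | ⟨rfl, rfl⟩
      · exact hne
      · exact fun h => hne h.symm
    have hgone : ¬ (G (j + 2)).Adj u v := by
      intro h
      obtain ⟨χ, hχ⟩ := hb (j + 2)
      exact hχ u v h (hall χ hχ)
    obtain ⟨ψ, hψ, hψs⟩ : ∃ ψ, Pr (G (j + 1)) ψ ∧
        ∀ x ∈ mono (G j) (G (j + 1)) φ, ell (!m) (s x) = ψ x := by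
      obtain ⟨ψ, hψ⟩ := hb (j + 1)
      refine ⟨fun x => xor (ψ x) (xor (ψ u) (ell (!m) (s u))), ?_, ?_⟩
      · intro x y hxy hh
        exact hψ x y hxy (Bool.xor_left_inj.mp hh)
      · rintro x ⟨y, h1, h2, h3⟩
        have hsuv := hs2 u v huv huv' hφuv
        have hψuv := hψ u v huv
        have e1 : ell (!m) (s u) ≠ ell (!m) (s v) := by
          intro h
          exact hsuv (col_ext m (by rw [hs1, hs1, hφuv]) h)
        rcases ha j x y u v h1 h2 huv huv' with ⟨rfl, rfl⟩ | ⟨rfl, rfl⟩
        · simp only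
          generalize ell (!m) (s x) = p
          generalize ψ x = q
          revert p q
          decide
        · simp only
          revert e1 hψuv
          generalize ell (!m) (s x) = p
          generalize ell (!m) (s y) = p'
          generalize ψ x = q
          generalize ψ y = q'
          revert p p' q q'
          decide
    set t : V → Col := fun x => mk m (φ x) (ψ x) with ht
    have ht1 : ∀ x, ell m (t x) = φ x := fun x => ell_mk _ _ _
    have ht2 : ∀ x, ell (!m) (t x) = ψ x := fun x => ell_not_mk _ _ _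
    -- the edge added next, if monochromatic for `ψ`, is not monochromatic for `φ`
    have hnext : ∀ x y, (G (j + 2)).Adj x y → ¬ (G (j + 1)).Adj x y → ψ x = ψ y → t x ≠ t y := by
      intro x y h1 h2 h3 h4
      have e := congrArg (ell m) h4
      rw [ht1, ht1] at e
      obtain ⟨χ, hχ⟩ := hb (j + 2)
      have hD : Pr (G (j + 2)) (fun z => xor (χ z) (xor (φ z) (ψ z))) := by
        intro a b hab hh
        have hχab := hχ a b hab
        simp only at hh
        by_cases hab1 : (G (j + 1)).Adj a b
        · have hab0 : (G j).Adj a b := by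
            by_contra hab0
            rcases ha j a b u v hab1 hab0 huv huv' with ⟨rfl, rfl⟩ | ⟨rfl, rfl⟩
            · exact hgone hab
            · exact hgone hab.symm
          have hφab := hφ a b hab0
          have hψab := hψ a b hab1
          revert hh hχab hφab hψab
          generalize χ a = p1
          generalize χ b = p2
          generalize φ a = p3
          generalize φ b = p4
          generalize ψ a = p5
          generalize ψ b = p6
          revert p1 p2 p3 p4 p5 p6
          decide
        · have hab' : φ a = φ b ∧ ψ a = ψ b := by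
            rcases ha (j + 1) a b x y hab hab1 h1 h2 with ⟨rfl, rfl⟩ | ⟨rfl, rfl⟩
            · exact ⟨e, h3⟩
            · exact ⟨e.symm, h3.symm⟩
          rw [hab'.1, hab'.2] at hh
          exact hχab (Bool.xor_left_inj.mp hh)
      have h5 := hall _ hD
      have h6 := hall χ hχ
      have h7 := hψ u v huv
      rw [h6, hφuv] at h5
      revert h5 h7
      generalize χ v = p1
      generalize φ v = p2
      generalize ψ u = p3
      generalize ψ v = p4
      revert p1 p2 p3 p4
      decide
    refine ⟨fun i => if i ≤ j then S i else cl (!m) ψ t (mono (G (j + 1)) (G (j + 2)) ψ),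
      ?_, ?_, ?_⟩
    · intro i hi x y hxy
      simp only
      by_cases h1 : i ≤ j
      · rw [if_pos h1]
        exact hS1 i h1 x y hxy
      · rw [if_neg h1]
        obtain rfl : i = j + 1 := by omega
        exact cl_disj hψ hnext hxy
    · intro i hi x
      simp only
      by_cases h1 : i < j
      · rw [if_pos h1.le, if_pos (by omega : i + 1 ≤ j)]
        exact hS2 i h1 x
      · obtain rfl : i = j := by omega
        rw [if_pos le_rfl, if_neg (by omega), hSj]
        refine ⟨t x, ⟨ht1 x, ?_⟩, ht2 x, fun _ => rfl⟩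
        intro hx
        exact col_ext m (by rw [ht1, hs1]) (by rw [ht2, hψs x hx])
    · simp only
      rw [if_neg (by omega)]
      exact ⟨!m, ψ, t, hψ, ht2, hnext, rfl⟩

theorem good_large (G : ℕ → SimpleGraph V) (hb : ∀ j, ∃ φ, Pr (G j) φ)
    (ha : ∀ j, OneNew (G j) (G (j + 1))) (hr : ∀ j, OneNew (G (j + 1)) (G j)) (n : ℕ) :
    ∃ j, n ≤ j ∧ Good G j := by
  induction n with
  | zero => exact ⟨0, le_rfl, good_zero G hb ha⟩
  | succ n ih =>
    obtain ⟨j, hj, hg⟩ := ih
    rcases good_step G hb ha hr j hg with h | h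
    · exact ⟨j + 1, by omega, h⟩
    · exact ⟨j + 2, by omega, h⟩

/-- the colourings up to any time -/
theorem exists_col (G : ℕ → SimpleGraph V) (hb : ∀ j, ∃ φ, Pr (G j) φ)
    (ha : ∀ j, OneNew (G j) (G (j + 1))) (hr : ∀ j, OneNew (G (j + 1)) (G j)) (n : ℕ) :
    ∃ c : ℕ → V → Col, ∀ i < n, ∀ x y, (G i).Adj x y ∨ (G (i + 1)).Adj x y →
      ∀ a b, (a = i ∨ a = i + 1) → (b = i ∨ b = i + 1) → c a x ≠ c b y := by
  classical
  obtain ⟨j, hj, S, hS1, hS2, m, φ, s, hφ, hs1, hs2, hSj⟩ := good_large G hb ha hr (n + 1)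
  have hne : ∀ i x, i < j → (S i x ∩ S (i + 1) x).Nonempty := fun i x hi => hS2 i hi x
  -- colours
  have h0 : ∀ x, ∃ c, c ∈ S 0 x := fun x => by
    obtain ⟨c, hc⟩ := hne 0 x (by omega)
    exact ⟨c, hc.1⟩
  choose c0 hc0 using h0
  have h1 : ∀ i x, ∃ c, i < j → c ∈ S i x ∩ S (i + 1) x := fun i x => by
    by_cases hi : i < j
    · obtain ⟨c, hc⟩ := hne i x hi
      exact ⟨c, fun _ => hc⟩
    · exact ⟨(false, false), fun h => absurd h hi⟩
  choose c1 hc1 using h1
  set c : ℕ → V → Col := fun i => if i = 0 then c0 else c1 (i - 1) with hc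
  have hmem : ∀ i x, i < n → ∀ a, (a = i ∨ a = i + 1) → c a x ∈ S i x := by
    intro i x hi a ha'
    rcases ha' with rfl | rfl
    · rcases Nat.eq_zero_or_pos a with h | h
      · subst h
        simp only [hc, if_true]
        exact hc0 x
      · simp only [hc]
        rw [if_neg (by omega)]
        have := (hc1 (a - 1) x (by omega)).2
        rwa [Nat.sub_add_cancel h] at this
    · simp only [hc]
      rw [if_neg (by omega), Nat.add_sub_cancel]
      exact (hc1 i x (by omega)).1
  refine ⟨c, ?_⟩
  intro i hi x y hxy a b ha' hb' heq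
  have hd := hS1 i (by omega) x y hxy
  rw [Set.disjoint_left] at hd
  exact hd (hmem i x hi a ha') (heq ▸ hmem i y hi b hb')

end Pool.Agent.V11185.TC
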