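import Mathlib

set_option autoImplicit false

/-!
Fractional packing of the progressions with `n` terms and differences `1, ..., k` in an interval:
the weights `q K r` and the bounds for the load of a position.
-/

namespace Pool.Agent.V11185.Prog

open Finset

/-- the weights -/
noncomputable def q (K r : ℕ) : ℝ := if r = K then 1 / (K : ℝ) else 1 / ((r : ℝ) * (r + 1))

lemma q_nonneg (K r : ℕ) : 0 ≤ q K r := by
  unfold q
  split_ifs <;> positivity

lemma q_pos (K r : ℕ) (hr : 1 ≤ r) : 0 < q K r := by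
  unfold q
  have : (1 : ℝ) ≤ r := by exact_mod_cast hr
  split_ifs with h
  · subst h; positivity
  · positivity

lemma q_sum (K : ℕ) : ∀ m a : ℕ, 1 ≤ a → a + m = K → ∑ r ∈ Icc a K, q K r = 1 / (a : ℝ) := by
  intro m
  induction m with
  | zero =>
    intro a ha h
    have : a = K := by omega
    subst this
    simp [q]
  | succ m ih =>
    intro a ha h
    have h1 : a ≤ K := by omega
    rw [Finset.Icc_eq_cons_Ioc h1, Finset.sum_cons]
    have h2 : Ioc a K = Icc (a + 1) K := by
      ext x; simp only [mem_Ioc, mem_Icc]; omega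
    rw [h2, ih (a + 1) (by omega) (by omega)]
    have h3 : a ≠ K := by omega
    have h4 : (0 : ℝ) < a := by exact_mod_cast ha
    rw [q, if_neg h3]
    push_cast
    field_simp
    ring

lemma q_sum' {K a : ℕ} (ha : 1 ≤ a) (h : a ≤ K) : ∑ r ∈ Icc a K, q K r = 1 / (a : ℝ) :=
  q_sum K (K - a) a ha (by omega)

/-- progression with `n` terms, difference `d` and first term `t` -/
def prog (n d t : ℕ) : Finset ℕ := (range n).image fun j => t + j * d

lemma mem_prog {n d t x : ℕ} : x ∈ prog n d t ↔ ∃ j < n, t + j * d = x := by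
  simp [prog]

lemma prog_range {n d r i x : ℕ} (hn : 1 ≤ n) (hd : d ≤ r) (hi : i < d)
    (hx : x ∈ prog n d (n * (r - d) + i)) : r ≤ x / n + d ∧ x / n < r := by
  rw [mem_prog] at hx
  obtain ⟨j, hj, rfl⟩ := hx
  obtain ⟨c, rfl⟩ := Nat.exists_eq_add_of_le hd
  have hc : d + c - d = c := by omega
  rw [hc]
  constructor
  · have : c ≤ (n * c + i + j * d) / n := by
      rw [Nat.le_div_iff_mul_le (by omega)]
      nlinarith
    omega
  · rw [Nat.div_lt_iff_lt_mul (by omega)]
    have h1 : j + 1 ≤ n := hj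
    have h2 : (j + 1) * d ≤ n * d := Nat.mul_le_mul_right _ h1
    nlinarith

lemma prog_uniq {n d c i i' x : ℕ} (hi : i < d) (hi' : i' < d)
    (hx : x ∈ prog n d (c + i)) (hx' : x ∈ prog n d (c + i')) : i = i' := by
  rw [mem_prog] at hx hx'
  obtain ⟨j, -, h⟩ := hx
  obtain ⟨j', -, h'⟩ := hx'
  have h1 : i + j * d = i' + j' * d := by omega
  have h2 : (i + j * d) % d = (i' + j' * d) % d := by rw [h1]
  rw [Nat.add_mul_mod_self_right, Nat.add_mul_mod_self_right, Nat.mod_eq_of_lt hi,
    Nat.mod_eq_of_lt hi'] at h2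
  exact h2

open Classical in
/-- the contribution of the piece `(d, r, i)` to the load of `x` -/
noncomputable def F (n K d r i x : ℕ) : ℝ :=
  if d ≤ r ∧ i < d ∧ x ∈ prog n d (n * (r - d) + i) then q K r else 0

lemma F_nonneg (n K d r i x : ℕ) : 0 ≤ F n K d r i x := by
  unfold F
  split_ifs
  · exact q_nonneg _ _
  · exact le_rfl

lemma F_sum_i {n : ℕ} (hn : 1 ≤ n) (K d r k x : ℕ) :
    ∑ i ∈ range k, F n K d r i x ≤
      if d ≤ r ∧ r ≤ x / n + d ∧ x / n < r then q K r else 0 := by
  classical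
  by_cases h : ∃ i ∈ range k, d ≤ r ∧ i < d ∧ x ∈ prog n d (n * (r - d) + i)
  · obtain ⟨i, hik, hd, hi, hx⟩ := h
    rw [Finset.sum_eq_single i]
    · obtain ⟨h1, h2⟩ := prog_range hn hd hi hx
      rw [if_pos ⟨hd, h1, h2⟩, F, if_pos ⟨hd, hi, hx⟩]
    · intro i' _ hne
      rw [F, if_neg]
      rintro ⟨_, hi', hx'⟩
      exact hne (prog_uniq hi' hi hx' hx)
    · intro h; exact absurd hik h
  · rw [Finset.sum_eq_zero]
    · split_ifs
      · exact q_nonneg _ _
      · exact le_rfl
    · intro i hi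
      rw [F, if_neg]
      intro h'
      exact h ⟨i, hi, h'⟩

/-- For a fixed difference the load of a position is small. -/
lemma load_one {n : ℕ} (hn : 1 ≤ n) {K d : ℕ} (hd : 1 ≤ d) (hdK : d ≤ K) (k x : ℕ) :
    ∑ r ∈ Icc 1 K, ∑ i ∈ range k, F n K d r i x ≤ 2 / (d : ℝ) := by
  classical
  have hd0 : (0 : ℝ) < d := by exact_mod_cast hd
  have hK0 : (0 : ℝ) < K := by exact_mod_cast (lt_of_lt_of_le hd hdK)
  have h1 : ∀ r ∈ Icc 1 K, ∑ i ∈ range k, F n K d r i x ≤
      (if r ∈ Icc (x / n + 1) (x / n + d) then 1 / ((d : ℝ) * (d + 1)) else 0) +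
        (if r = K then 1 / (K : ℝ) else 0) := by
    intro r hr
    refine (F_sum_i hn K d r k x).trans ?_
    by_cases h : d ≤ r ∧ r ≤ x / n + d ∧ x / n < r
    · rw [if_pos h, if_pos (by rw [mem_Icc]; omega)]
      have h5 : 0 ≤ 1 / ((d : ℝ) * (d + 1)) := by positivity
      by_cases hrK : r = K
      · rw [if_pos hrK, q, if_pos hrK]
        linarith
      · rw [if_neg hrK, q, if_neg hrK, add_zero]
        have h6 : (d : ℝ) ≤ r := by exact_mod_cast h.1
        exact one_div_le_one_div_of_le (by positivity) (by nlinarith)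
    · rw [if_neg h]
      split_ifs <;> positivity
  refine (Finset.sum_le_sum h1).trans ?_
  rw [Finset.sum_add_distrib, ← Finset.sum_filter, Finset.sum_const, nsmul_eq_mul]
  have h2 : ((Icc 1 K).filter fun r => r ∈ Icc (x / n + 1) (x / n + d)).card ≤ d := by
    calc _ ≤ (Icc (x / n + 1) (x / n + d)).card := card_le_card (by
          intro r hr; exact (mem_filter.1 hr).2)
      _ = d := by rw [Nat.card_Icc]; omega
  have h3 : ∑ r ∈ Icc 1 K, (if r = K then 1 / (K : ℝ) else 0) ≤ 1 / (d : ℝ) := by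
    rw [Finset.sum_ite_eq' (Icc 1 K) K (fun _ => 1 / (K : ℝ))]
    split_ifs
    · exact one_div_le_one_div_of_le hd0 (by exact_mod_cast hdK)
    · positivity
  have h4 : (((Icc 1 K).filter fun r => r ∈ Icc (x / n + 1) (x / n + d)).card : ℝ) *
      (1 / ((d : ℝ) * (d + 1))) ≤ 1 / (d : ℝ) := by
    have h2' : (((Icc 1 K).filter fun r => r ∈ Icc (x / n + 1) (x / n + d)).card : ℝ) ≤ d := by
      exact_mod_cast h2
    calc _ ≤ (d : ℝ) * (1 / ((d : ℝ) * (d + 1))) :=
          mul_le_mul_of_nonneg_right h2' (by positivity)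
      _ = 1 / ((d : ℝ) + 1) := by field_simp
      _ ≤ 1 / (d : ℝ) := one_div_le_one_div_of_le hd0 (by linarith)
  calc _ ≤ 1 / (d : ℝ) + 1 / (d : ℝ) := add_le_add h4 h3
    _ = 2 / (d : ℝ) := by ring

/-- The load of a position. -/
lemma load_all {n : ℕ} (hn : 1 ≤ n) {K k h : ℕ} (hK : K = k + h) (k' D0 x : ℕ)
    (hx : x / n < K) :
    ∑ d ∈ Ioc D0 k, ∑ r ∈ Icc 1 K, ∑ i ∈ range k', F n K d r i x ≤
      1 - (min (x / n + 1) h : ℕ) / (K : ℝ) := by
  classical
  have hF := fun d r => F_sum_i hn K d r k' x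
  obtain ⟨y, hy⟩ : ∃ y, x / n = y := ⟨_, rfl⟩
  rw [hy] at hx ⊢
  simp only [hy] at hF
  have hK0 : (0 : ℝ) < K := by
    have : 0 < K := by omega
    exact_mod_cast this
  have h1 : ∑ d ∈ Ioc D0 k, ∑ r ∈ Icc 1 K, ∑ i ∈ range k', F n K d r i x ≤
      ∑ d ∈ Icc 1 k, ∑ r ∈ Icc 1 K, (if d ≤ r ∧ r ≤ y + d ∧ y < r then q K r else 0) := by
    refine (Finset.sum_le_sum fun d _ => Finset.sum_le_sum fun r _ => hF d r).trans ?_
    refine Finset.sum_le_sum_of_subset_of_nonneg ?_ ?_
    · intro d hd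
      rw [mem_Ioc] at hd
      rw [mem_Icc]; omega
    · intro d _ _
      refine Finset.sum_nonneg fun r _ => ?_
      split_ifs
      · exact q_nonneg _ _
      · exact le_rfl
  refine h1.trans ?_
  rw [Finset.sum_comm]
  have h2 : ∀ r ∈ Icc 1 K, ∑ d ∈ Icc 1 k, (if d ≤ r ∧ r ≤ y + d ∧ y < r then q K r else 0) ≤
      (if r ∈ Icc (y + 1) K then q K r * (y + 1) else 0) -
        (if r = K then (min (y + 1) h : ℕ) / (K : ℝ) else 0) := by
    intro r hr
    rw [mem_Icc] at hr
    by_cases hyr : y < r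
    · have h3 : ∑ d ∈ Icc 1 k, (if d ≤ r ∧ r ≤ y + d ∧ y < r then q K r else 0) =
          ((Icc 1 k).filter fun d => d ≤ r ∧ r ≤ y + d ∧ y < r).card * q K r := by
        rw [← Finset.sum_filter, Finset.sum_const, nsmul_eq_mul]
      rw [h3, if_pos (by rw [mem_Icc]; omega)]
      by_cases hrK : r = K
      · rw [if_pos hrK]
        have h4 : ((Icc 1 k).filter fun d => d ≤ r ∧ r ≤ y + d ∧ y < r).card + min (y + 1) h ≤
            y + 1 := by
          have h5 : ((Icc 1 k).filter fun d => d ≤ r ∧ r ≤ y + d ∧ y < r).card ≤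
              (Icc (K - y) k).card := by
            refine card_le_card ?_
            intro d hd
            simp only [mem_filter, mem_Icc] at hd ⊢
            omega
          rw [Nat.card_Icc] at h5
          omega
        have h6 : (((Icc 1 k).filter fun d => d ≤ r ∧ r ≤ y + d ∧ y < r).card : ℝ) +
            ((min (y + 1) h : ℕ) : ℝ) ≤ y + 1 := by exact_mod_cast h4
        have h7 : q K r = 1 / (K : ℝ) := by rw [q, if_pos hrK]
        rw [h7, mul_one_div, one_div_mul_eq_div, ← sub_div]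
        refine div_le_div_of_nonneg_right ?_ hK0.le
        linarith
      · rw [if_neg hrK, sub_zero, mul_comm]
        refine mul_le_mul_of_nonneg_left ?_ (q_nonneg _ _)
        have h4 : ((Icc 1 k).filter fun d => d ≤ r ∧ r ≤ y + d ∧ y < r).card ≤ y + 1 := by
          have h5 : ((Icc 1 k).filter fun d => d ≤ r ∧ r ≤ y + d ∧ y < r).card ≤
              (Icc (r - y) r).card := by
            refine card_le_card ?_
            intro d hd
            simp only [mem_filter, mem_Icc] at hd ⊢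
            omega
          rw [Nat.card_Icc] at h5
          omega
        exact_mod_cast h4
    · have hrK : r ≠ K := by omega
      rw [if_neg hrK, if_neg (by rw [mem_Icc]; omega), sub_zero]
      refine (Finset.sum_eq_zero fun d _ => ?_).le
      rw [if_neg (by tauto)]
  refine (Finset.sum_le_sum h2).trans ?_
  rw [Finset.sum_sub_distrib, ← Finset.sum_filter]
  have h8 : (Icc 1 K).filter (fun r => r ∈ Icc (y + 1) K) = Icc (y + 1) K := by
    ext r; simp only [mem_filter, mem_Icc]; omega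
  rw [h8, ← Finset.sum_mul, q_sum' (by omega) (by omega),
    Finset.sum_ite_eq' (Icc 1 K) K (fun _ => ((min (y + 1) h : ℕ) : ℝ) / (K : ℝ)),
    if_pos (by rw [mem_Icc]; omega)]
  have h9 : (1 : ℝ) / ((y + 1 : ℕ) : ℝ) * ((y : ℝ) + 1) = 1 := by
    push_cast
    field_simp
  rw [h9]

/-- Total weight of a difference. -/
lemma total_one {K d : ℕ} (hd : 1 ≤ d) (hdK : d ≤ K) {k : ℕ} (hk : d ≤ k) :
    ∑ r ∈ Icc 1 K, ∑ i ∈ range k, (if d ≤ r ∧ i < d then q K r else 0) = 1 := by
  classical
  have h1 : ∀ r ∈ Icc 1 K, ∑ i ∈ range k, (if d ≤ r ∧ i < d then q K r else 0) =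
      if r ∈ Icc d K then (d : ℝ) * q K r else 0 := by
    intro r hr
    rw [mem_Icc] at hr
    by_cases h : d ≤ r
    · rw [if_pos (by rw [mem_Icc]; omega), ← Finset.sum_filter, Finset.sum_const, nsmul_eq_mul]
      congr 2
      have : (range k).filter (fun i => d ≤ r ∧ i < d) = range d := by
        ext i; simp only [mem_filter, mem_range]; omega
      rw [this, card_range]
    · rw [if_neg (by rw [mem_Icc]; omega)]
      refine Finset.sum_eq_zero fun i _ => ?_
      rw [if_neg (by tauto)]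
  rw [Finset.sum_congr rfl h1, ← Finset.sum_filter]
  have h8 : (Icc 1 K).filter (fun r => r ∈ Icc d K) = Icc d K := by
    ext r; simp only [mem_filter, mem_Icc]; omega
  rw [h8, ← Finset.mul_sum, q_sum' hd hdK]
  have : (0 : ℝ) < d := by exact_mod_cast hd
  field_simp

end Pool.Agent.V11185.Prog
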