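import Mathlib
import Pool.Agent.V11181.Nib
import Pool.Agent.V11185.ProgA

set_option autoImplicit false

/-!
A packing of almost all progressions by the weighted nibble theorem.
-/

namespace Pool.Agent.V11185.Prog

open Finset

theorem nibble_fin (r : ℕ) (θ : ℝ) (hθ : 0 < θ) : ∃ κ : ℝ, 0 < κ ∧
    ∀ (β α : Type) [DecidableEq β] [DecidableEq α] (S : Finset β) (A : β → Finset α) (w : β → ℝ),
      (∀ e ∈ S, 0 ≤ w e) → (∀ e ∈ S, (A e).Nonempty) → (∀ e ∈ S, (A e).card ≤ r) →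
      (∀ v, ∑ e ∈ S.filter (fun e => v ∈ A e), w e ≤ 1) →
      (∀ u v, u ≠ v → ∑ e ∈ S.filter (fun e => u ∈ A e ∧ v ∈ A e), w e ≤ κ) →
      (∀ e ∈ S, w e ≤ κ) →
      ∃ M : Finset β, M ⊆ S ∧ (∀ e ∈ M, ∀ f ∈ M, e ≠ f → Disjoint (A e) (A f)) ∧
        (1 - θ) * ∑ e ∈ S, w e ≤ (M.card : ℝ) := by
  obtain ⟨κ, hκ, H⟩ := Pool.Agent.V11181.Nib.nibble' r θ hθ
  refine ⟨κ, hκ, ?_⟩
  intro β α _ _ S A w h1 h2 h3 h4 h5 h6
  have key : ∀ P : β → Prop, ∀ [DecidablePred P],
      ∑ e ∈ (univ : Finset {e // e ∈ S}).filter (fun e => P e.1), w e.1 =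
        ∑ e ∈ S.filter P, w e := by
    intro P _
    rw [Finset.sum_filter, Finset.sum_filter, ← Finset.sum_coe_sort S
      (fun e => if P e then w e else 0)]
  obtain ⟨M, hM1, -, hM3⟩ := H {e // e ∈ S} α (fun e => A e.1) (fun e => w e.1)
    (fun e => h1 e.1 e.2) (fun e => h2 e.1 e.2) (fun e => h3 e.1 e.2)
    (fun v => by rw [key (fun e => v ∈ A e)]; exact h4 v)
    (fun u v huv => by rw [key (fun e => u ∈ A e ∧ v ∈ A e)]; exact h5 u v huv)
    (fun e => h6 e.1 e.2)
  refine ⟨M.map (Function.Embedding.subtype _), ?_, ?_, ?_⟩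
  · intro e he
    rw [mem_map] at he
    obtain ⟨a, -, rfl⟩ := he
    exact a.2
  · intro e he f hf hne
    rw [mem_map] at he hf
    obtain ⟨a, ha, rfl⟩ := he
    obtain ⟨b, hb, rfl⟩ := hf
    exact hM1 a ha b hb (fun h => hne (by rw [h]))
  · rw [card_map]
    have : ∑ e ∈ S, w e = ∑ e : {e // e ∈ S}, w e.1 := (Finset.sum_coe_sort S w).symm
    rw [this]
    exact hM3

/-- position, read from the left or from the right -/
def pos (N : ℕ) (b : Bool) (x : ℕ) : ℕ := if b then x else N - 1 - x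

lemma pos_pos {N x : ℕ} (b : Bool) (hx : x < N) : pos N b (pos N b x) = x := by
  unfold pos
  cases b
  · simp only [Bool.false_eq_true, if_false]; omega
  · simp

lemma pos_lt {N x : ℕ} (b : Bool) (hx : x < N) : pos N b x < N := by
  unfold pos
  cases b <;> simp <;> omega

/-- pieces: orientation, difference, number of cells, offset -/
abbrev Ed := Bool × ℕ × ℕ × ℕ

/-- the first term (read in the orientation) -/
def st (n : ℕ) (e : Ed) : ℕ := n * (e.2.2.1 - e.2.1) + e.2.2.2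

/-- no position is a multiple of one of the given numbers -/
def good (n N : ℕ) (p : ℕ → ℕ) (e : Ed) : Prop :=
  ∀ z ∈ prog n e.2.1 (st n e), ∀ l < n, ¬ p l ∣ pos N e.1 z

/-- the hyperedge of a piece -/
def A (n N : ℕ) (e : Ed) : Finset (ℕ ⊕ ℕ) :=
  insert (Sum.inl e.2.1) ((prog n e.2.1 (st n e)).image fun z => Sum.inr (pos N e.1 z))

/-- all index tuples -/
def box (K k D0 : ℕ) : Finset Ed :=
  (univ : Finset Bool) ×ˢ (Ioc D0 k ×ˢ (Icc 1 K ×ˢ range k))

open Classical in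
/-- the pieces used -/
noncomputable def S (n K k D0 : ℕ) (p : ℕ → ℕ) : Finset Ed :=
  (box K k D0).filter fun e => e.2.1 ≤ e.2.2.1 ∧ e.2.2.2 < e.2.1 ∧ good n (n * K) p e

lemma mem_S {n K k D0 : ℕ} {p : ℕ → ℕ} {e : Ed} : e ∈ S n K k D0 p ↔
    (D0 < e.2.1 ∧ e.2.1 ≤ k) ∧ (1 ≤ e.2.2.1 ∧ e.2.2.1 ≤ K) ∧ e.2.1 ≤ e.2.2.1 ∧
      e.2.2.2 < e.2.1 ∧ good n (n * K) p e := by
  unfold S box
  simp only [mem_filter, mem_product, mem_univ, true_and, mem_Ioc, mem_Icc, mem_range]
  constructor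
  · rintro ⟨⟨h1, h2, h3⟩, h4, h5, h6⟩
    exact ⟨h1, h2, h4, h5, h6⟩
  · rintro ⟨h1, h2, h4, h5, h6⟩
    exact ⟨⟨h1, h2, by omega⟩, h4, h5, h6⟩

lemma lt_N {n K : ℕ} {e : Ed} (hn : 1 ≤ n) (h1 : e.2.1 ≤ e.2.2.1) (h2 : e.2.2.2 < e.2.1)
    (h3 : e.2.2.1 ≤ K) {z : ℕ} (hz : z ∈ prog n e.2.1 (st n e)) : z < n * K := by
  have := (prog_range hn h1 h2 hz).2
  have h4 : z / n < K := by omega
  rwa [Nat.div_lt_iff_lt_mul (by omega), mul_comm] at h4

open Classical in
/-- the weight of the good pieces with difference `d` -/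
noncomputable def g (n K k : ℕ) (p : ℕ → ℕ) (d : ℕ) : ℝ :=
  ∑ b : Bool, ∑ r ∈ Icc 1 K, ∑ i ∈ range k,
    if d ≤ r ∧ i < d ∧ good n (n * K) p (b, d, r, i) then q K r / 2 else 0

/-- the weight of a piece -/
noncomputable def w (n K k : ℕ) (p : ℕ → ℕ) (e : Ed) : ℝ :=
  q K e.2.2.1 / (2 * g n K k p e.2.1)

lemma g_nonneg (n K k : ℕ) (p : ℕ → ℕ) (d : ℕ) : 0 ≤ g n K k p d := by
  unfold g
  refine Finset.sum_nonneg fun b _ => Finset.sum_nonneg fun r _ => Finset.sum_nonneg fun i _ => ?_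
  split_ifs
  · have := q_nonneg K r; positivity
  · exact le_rfl

lemma w_nonneg (n K k : ℕ) (p : ℕ → ℕ) (e : Ed) : 0 ≤ w n K k p e := by
  unfold w
  have h1 := q_nonneg K e.2.2.1
  have h2 := g_nonneg n K k p e.2.1
  positivity

lemma count_mod {d p : ℕ} (T : Finset ℕ) (hT : T ⊆ range d) (hp : 0 < p)
    (h : ∀ i ∈ T, ∀ i' ∈ T, i ≡ i' [MOD p]) : T.card ≤ d / p + 1 := by
  have h1 : T.card ≤ (range (d / p + 1)).card := by
    refine Finset.card_le_card_of_injOn (fun i => i / p) ?_ ?_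
    · intro i hi
      have := mem_range.1 (hT hi)
      rw [coe_range, Set.mem_Iio]
      have : i / p ≤ d / p := Nat.div_le_div_right (by omega)
      show i / p < d / p + 1
      omega
    · intro i hi i' hi' hii
      have h2 : i % p = i' % p := h i hi i' hi'
      have h3 : i / p = i' / p := hii
      rw [← Nat.div_add_mod i p, ← Nat.div_add_mod i' p, h2, h3]
  rwa [card_range] at h1

open Classical in
lemma bad_count {n K d r k Q : ℕ} {p : ℕ → ℕ} (hn : 1 ≤ n) (b : Bool) (hdr : d ≤ r) (hrK : r ≤ K)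
    (hQ : 0 < Q) (hp : ∀ l < n, Q ≤ p l) :
    ((range k).filter fun i => d ≤ r ∧ i < d ∧ ¬ good n (n * K) p (b, d, r, i)).card ≤
      n * n * (d / Q + 1) := by
  have h1 : ((range k).filter fun i => d ≤ r ∧ i < d ∧ ¬ good n (n * K) p (b, d, r, i)) ⊆
      (range n ×ˢ range n).biUnion fun jl => (range d).filter fun i =>
        p jl.2 ∣ pos (n * K) b (n * (r - d) + i + jl.1 * d) := by
    intro i hi
    rw [mem_filter] at hi
    obtain ⟨_, _, hid, hg⟩ := hi
    unfold good at hg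
    push Not at hg
    obtain ⟨z, hz, l, hl, hdiv⟩ := hg
    rw [mem_prog] at hz
    obtain ⟨j, hj, rfl⟩ := hz
    rw [mem_biUnion]
    refine ⟨(j, l), by simp [hj, hl], ?_⟩
    rw [mem_filter, mem_range]
    exact ⟨hid, hdiv⟩
  refine (card_le_card h1).trans (card_biUnion_le.trans ?_)
  have h2 : ∀ jl ∈ range n ×ˢ range n, ((range d).filter fun i =>
        p jl.2 ∣ pos (n * K) b (n * (r - d) + i + jl.1 * d)).card ≤ d / Q + 1 := by
    rintro ⟨j, l⟩ hjl
    rw [mem_product, mem_range, mem_range] at hjl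
    obtain ⟨hj, hl⟩ := hjl
    have hpl : 0 < p l := by have := hp l hl; omega
    refine (count_mod (p := p l) _ (filter_subset _ _) hpl ?_).trans ?_
    · intro i hi i' hi'
      rw [mem_filter, mem_range] at hi hi'
      have hb : ∀ i < d, n * (r - d) + i + j * d < n * K := by
        intro i hi
        have : n * (r - d) + i + j * d ∈ prog n d (n * (r - d) + i) := mem_prog.2 ⟨j, hj, rfl⟩
        exact lt_N (e := (b, d, r, i)) hn hdr hi hrK this
      cases b with
      | true =>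
        have h3 := hi.2
        have h4 := hi'.2
        simp only [pos, if_true] at h3 h4
        have h5 : n * (r - d) + i + j * d ≡ n * (r - d) + i' + j * d [MOD p l] :=
          ((Nat.modEq_zero_iff_dvd.2 h3).trans (Nat.modEq_zero_iff_dvd.2 h4).symm)
        have h6 : n * (r - d) + i ≡ n * (r - d) + i' [MOD p l] := Nat.ModEq.add_right_cancel' _ h5
        exact Nat.ModEq.add_left_cancel' _ h6
      | false =>
        have h3 := hi.2
        have h4 := hi'.2
        simp only [pos, Bool.false_eq_true, if_false] at h3 h4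
        have h7 := hb i hi.1
        have h8 := hb i' hi'.1
        have h9 : n * (r - d) + i + j * d ≡ n * K - 1 [MOD p l] :=
          (Nat.modEq_iff_dvd' (by omega)).2 h3
        have h10 : n * (r - d) + i' + j * d ≡ n * K - 1 [MOD p l] :=
          (Nat.modEq_iff_dvd' (by omega)).2 h4
        have h5 := h9.trans h10.symm
        have h6 : n * (r - d) + i ≡ n * (r - d) + i' [MOD p l] := Nat.ModEq.add_right_cancel' _ h5
        exact Nat.ModEq.add_left_cancel' _ h6
    · have := Nat.div_le_div_left (hp l hl) hQ (a := d)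
      omega
  refine (Finset.sum_le_sum h2).trans ?_
  rw [Finset.sum_const, card_product, card_range, smul_eq_mul]

lemma g_ge {n K k d Q : ℕ} {p : ℕ → ℕ} {ρ : ℝ} (hn : 1 ≤ n) (hd : 1 ≤ d) (hdK : d ≤ K)
    (hk : d ≤ k) (hQ : 0 < Q) (hp : ∀ l < n, Q ≤ p l) (hρ : (n : ℝ) ^ 2 / Q + (n : ℝ) ^ 2 / d ≤ ρ) :
    1 - ρ ≤ g n K k p d := by
  classical
  have hd0 : (0 : ℝ) < d := by exact_mod_cast hd
  have hQ0 : (0 : ℝ) < Q := by exact_mod_cast hQ
  have h1 : g n K k p d + ∑ b : Bool, ∑ r ∈ Icc 1 K, ∑ i ∈ range k,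
      (if d ≤ r ∧ i < d ∧ ¬ good n (n * K) p (b, d, r, i) then q K r / 2 else 0) = 1 := by
    unfold g
    rw [← Finset.sum_add_distrib]
    have h2 : ∀ b : Bool, (∑ r ∈ Icc 1 K, ∑ i ∈ range k,
        (if d ≤ r ∧ i < d ∧ good n (n * K) p (b, d, r, i) then q K r / 2 else 0)) +
        (∑ r ∈ Icc 1 K, ∑ i ∈ range k,
        (if d ≤ r ∧ i < d ∧ ¬ good n (n * K) p (b, d, r, i) then q K r / 2 else 0)) = 1 / 2 := by
      intro b
      rw [← Finset.sum_add_distrib]
      have h3 := total_one hd hdK hk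
      have h4 : ∑ r ∈ Icc 1 K, ((∑ i ∈ range k,
          (if d ≤ r ∧ i < d ∧ good n (n * K) p (b, d, r, i) then q K r / 2 else 0)) +
          (∑ i ∈ range k,
          (if d ≤ r ∧ i < d ∧ ¬ good n (n * K) p (b, d, r, i) then q K r / 2 else 0))) =
          (∑ r ∈ Icc 1 K, ∑ i ∈ range k, (if d ≤ r ∧ i < d then q K r else 0)) / 2 := by
        rw [Finset.sum_div]
        refine Finset.sum_congr rfl fun r _ => ?_
        rw [← Finset.sum_add_distrib, Finset.sum_div]
        refine Finset.sum_congr rfl fun i _ => ?_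
        by_cases hc : d ≤ r ∧ i < d
        · by_cases hg : good n (n * K) p (b, d, r, i)
          · simp [hc, hg]
          · simp [hc, hg]
        · rw [if_neg (by tauto), if_neg (by tauto), if_neg hc]
          simp
      rw [h4, h3]
    rw [Finset.sum_congr rfl fun b _ => h2 b]
    simp
  have h2 : ∑ b : Bool, ∑ r ∈ Icc 1 K, ∑ i ∈ range k,
      (if d ≤ r ∧ i < d ∧ ¬ good n (n * K) p (b, d, r, i) then q K r / 2 else 0) ≤ ρ := by
    have h3 : ∀ b : Bool, ∀ r ∈ Icc 1 K, ∑ i ∈ range k,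
        (if d ≤ r ∧ i < d ∧ ¬ good n (n * K) p (b, d, r, i) then q K r / 2 else 0) ≤
        (if r ∈ Icc d K then ((n : ℝ) ^ 2 * (d / Q + 1)) * (q K r / 2) else 0) := by
      intro b r hr
      rw [mem_Icc] at hr
      by_cases hdr : d ≤ r
      · rw [if_pos (by rw [mem_Icc]; omega), ← Finset.sum_filter, Finset.sum_const, nsmul_eq_mul]
        refine mul_le_mul_of_nonneg_right ?_ (by have := q_nonneg K r; positivity)
        have h4 := bad_count (k := k) hn b hdr hr.2 hQ hp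
        have h5 : (((range k).filter fun i => d ≤ r ∧ i < d ∧
            ¬ good n (n * K) p (b, d, r, i)).card : ℝ) ≤ ((n * n * (d / Q + 1) : ℕ) : ℝ) := by
          exact_mod_cast h4
        refine h5.trans ?_
        push_cast
        have h6 : ((d / Q : ℕ) : ℝ) ≤ (d : ℝ) / Q := Nat.cast_div_le
        have h7 : (0 : ℝ) ≤ (n : ℝ) ^ 2 := by positivity
        nlinarith
      · refine le_of_eq_of_le (Finset.sum_eq_zero fun i _ => ?_) ?_
        · rw [if_neg (by tauto)]
        · rw [if_neg (by rw [mem_Icc]; omega)]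
    have h4 : ∀ b : Bool, ∑ r ∈ Icc 1 K, ∑ i ∈ range k,
        (if d ≤ r ∧ i < d ∧ ¬ good n (n * K) p (b, d, r, i) then q K r / 2 else 0) ≤
        ((n : ℝ) ^ 2 * (d / Q + 1)) / (2 * d) := by
      intro b
      refine (Finset.sum_le_sum (h3 b)).trans ?_
      rw [← Finset.sum_filter]
      have h8 : (Icc 1 K).filter (fun r => r ∈ Icc d K) = Icc d K := by
        ext r; simp only [mem_filter, mem_Icc]; omega
      rw [h8, ← Finset.mul_sum, ← Finset.sum_div, q_sum' hd hdK]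
      refine le_of_eq ?_
      field_simp
    refine (Finset.sum_le_sum fun b _ => h4 b).trans ?_
    rw [Finset.sum_const, card_univ, Fintype.card_bool, nsmul_eq_mul]
    refine le_trans (le_of_eq ?_) hρ
    push_cast
    field_simp
  linarith

/-- summing over the pieces -/
lemma sumS_le {n K k D0 : ℕ} {p : ℕ → ℕ} (P : Ed → Prop) [DecidablePred P]
    (f : Bool → ℕ → ℕ → ℕ → ℝ) (hf0 : ∀ b d r i, 0 ≤ f b d r i)
    (hf : ∀ e ∈ S n K k D0 p, P e → w n K k p e ≤ f e.1 e.2.1 e.2.2.1 e.2.2.2) :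
    ∑ e ∈ (S n K k D0 p).filter P, w n K k p e ≤
      ∑ b : Bool, ∑ d ∈ Ioc D0 k, ∑ r ∈ Icc 1 K, ∑ i ∈ range k, f b d r i := by
  classical
  have h1 : ∑ b : Bool, ∑ d ∈ Ioc D0 k, ∑ r ∈ Icc 1 K, ∑ i ∈ range k, f b d r i =
      ∑ e ∈ box K k D0, f e.1 e.2.1 e.2.2.1 e.2.2.2 := by
    unfold box
    rw [Finset.sum_product]
    refine Finset.sum_congr rfl fun b _ => ?_
    rw [Finset.sum_product]
    refine Finset.sum_congr rfl fun d _ => ?_
    rw [Finset.sum_product]
  rw [h1]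
  refine (Finset.sum_le_sum (f := w n K k p)
    (g := fun e => f e.1 e.2.1 e.2.2.1 e.2.2.2) fun e he => ?_).trans
    (Finset.sum_le_sum_of_subset_of_nonneg ?_ fun e _ _ => hf0 _ _ _ _)
  · rw [mem_filter] at he
    exact hf e he.1 he.2
  · intro e he
    rw [mem_filter] at he
    exact (mem_filter.1 he.1).1

end Pool.Agent.V11185.Prog
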