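import Mathlib
import Pool.Agent.V11185.ProgB

set_option autoImplicit false

/-!
A packing of almost all progressions by the weighted nibble theorem: the sums at the vertices and
the conclusion.
-/

namespace Pool.Agent.V11185.Prog

open Finset

lemma mem_A_inl {n N d : ℕ} {e : Ed} : Sum.inl d ∈ A n N e ↔ d = e.2.1 := by
  unfold A
  simp

lemma mem_A_inr {n K x : ℕ} {e : Ed} (hn : 1 ≤ n) (h1 : e.2.1 ≤ e.2.2.1) (h2 : e.2.2.2 < e.2.1)
    (h3 : e.2.2.1 ≤ K) (h : Sum.inr x ∈ A n (n * K) e) :
    x < n * K ∧ pos (n * K) e.1 x ∈ prog n e.2.1 (st n e) := by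
  unfold A at h
  simp only [mem_insert, reduceCtorEq, mem_image, Sum.inr.injEq, false_or] at h
  obtain ⟨z, hz, rfl⟩ := h
  have h4 := lt_N hn h1 h2 h3 hz
  refine ⟨pos_lt _ h4, ?_⟩
  rw [pos_pos _ h4]
  exact hz

section
variable {n K k h D0 Q : ℕ} {p : ℕ → ℕ} {ρ : ℝ}

/-- all numerical conditions -/
structure Cond (n K k h D0 Q : ℕ) (p : ℕ → ℕ) (ρ : ℝ) : Prop where
  hn : 1 ≤ n
  hK : K = k + h
  hh : 2 * h ≤ K
  hD0 : 0 < D0
  hD0k : D0 < k
  hQ : 0 < Q
  hp : ∀ l < n, Q ≤ p l
  hρ0 : 0 < ρ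
  hρ1 : ρ ≤ 1 / 2
  hρK : 2 * ρ * K ≤ h
  hρQ : (n : ℝ) ^ 2 / Q ≤ ρ / 2
  hρD : (n : ℝ) ^ 2 / D0 ≤ ρ / 2

lemma Cond.g_ge (c : Cond n K k h D0 Q p ρ) {d : ℕ} (hd : D0 < d) (hdk : d ≤ k) :
    1 - ρ ≤ g n K k p d := by
  have h0 := c.hD0
  have hK := c.hK
  refine Prog.g_ge c.hn (by omega) (by omega) hdk c.hQ c.hp ?_
  have h1 : (n : ℝ) ^ 2 / d ≤ (n : ℝ) ^ 2 / D0 := by
    refine div_le_div_of_nonneg_left (by positivity) (by exact_mod_cast h0) ?_
    exact_mod_cast hd.le
  have := c.hρQ
  have := c.hρD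
  linarith

lemma Cond.w_le (c : Cond n K k h D0 Q p ρ) {e : Ed} (he : e ∈ S n K k D0 p) :
    w n K k p e ≤ q K e.2.2.1 / (2 * (1 - ρ)) := by
  rw [mem_S] at he
  have h1 := c.g_ge he.1.1 he.1.2
  have h2 := c.hρ1
  unfold w
  refine div_le_div_of_nonneg_left (q_nonneg _ _) (by linarith) (by linarith)

lemma Cond.w_le_F (c : Cond n K k h D0 Q p ρ) {e : Ed} (he : e ∈ S n K k D0 p) {x : ℕ}
    (hx : Sum.inr x ∈ A n (n * K) e) :
    w n K k p e ≤ (1 / (2 * (1 - ρ))) *
      F n K e.2.1 e.2.2.1 e.2.2.2 (pos (n * K) e.1 x) := by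
  have he' := mem_S.1 he
  obtain ⟨h1, h2, h3, h4, h5⟩ := he'
  have hx' := mem_A_inr c.hn h3 h4 h2.2 hx
  have h6 : F n K e.2.1 e.2.2.1 e.2.2.2 (pos (n * K) e.1 x) = q K e.2.2.1 := by
    rw [F, if_pos ⟨h3, h4, hx'.2⟩]
  rw [h6]
  refine (c.w_le he).trans (le_of_eq ?_)
  ring

lemma div_rev {n K x : ℕ} (hn : 1 ≤ n) (hx : x < n * K) :
    (n * K - 1 - x) / n = K - 1 - x / n := by
  have h1 := Nat.div_add_mod x n
  have h2 := Nat.mod_lt x (show 0 < n by omega)
  have h3 : x / n < K := by rw [Nat.div_lt_iff_lt_mul (by omega), mul_comm]; exact hx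
  obtain ⟨a, ha⟩ := Nat.exists_eq_add_of_lt h3
  have h4 : K - 1 - x / n = a := by omega
  rw [h4]
  have h5 : n * K - 1 - x = a * n + (n - 1 - x % n) := by
    have : n * K = n * (x / n) + n * a + n := by rw [ha]; ring
    have h6 : a * n = n * a := mul_comm _ _
    omega
  rw [h5, add_comm, Nat.add_mul_div_right _ _ (by omega), Nat.div_eq_of_lt (by omega), zero_add]

lemma Cond.vertex_pos (c : Cond n K k h D0 Q p ρ) (x : ℕ) :
    ∑ e ∈ (S n K k D0 p).filter (fun e => Sum.inr x ∈ A n (n * K) e), w n K k p e ≤ 1 := by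
  have hρ1 := c.hρ1
  have hρ0 := c.hρ0
  have hD0k := c.hD0k
  have hKh := c.hK
  have hK0 : (0 : ℝ) < K := by
    have : 0 < K := by omega
    exact_mod_cast this
  by_cases hx : x < n * K
  · have hc : 0 ≤ 1 / (2 * (1 - ρ)) := by
      have : 0 < 1 - ρ := by linarith
      positivity
    refine (sumS_le (fun e => Sum.inr x ∈ A n (n * K) e)
      (fun b d r i => (1 / (2 * (1 - ρ))) * F n K d r i (pos (n * K) b x))
      (fun b d r i => mul_nonneg hc (F_nonneg _ _ _ _ _ _))
      (fun e he hxe => c.w_le_F he hxe)).trans ?_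
    simp only [← Finset.mul_sum]
    rw [Fintype.sum_bool]
    have hxK : x / n < K := by
      rw [Nat.div_lt_iff_lt_mul (by have := c.hn; omega), mul_comm]; exact hx
    have h1 := load_all c.hn c.hK k D0 (pos (n * K) true x) (by simpa [pos] using hxK)
    have h2 := load_all c.hn c.hK k D0 (pos (n * K) false x) (by
      simp only [pos, Bool.false_eq_true, if_false]
      rw [div_rev c.hn hx]
      generalize x / n = y at *
      omega)
    have h3 : ((min (pos (n * K) true x / n + 1) h : ℕ) : ℝ) +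
        ((min (pos (n * K) false x / n + 1) h : ℕ) : ℝ) ≥ h := by
      have h4 : min (pos (n * K) true x / n + 1) h + min (pos (n * K) false x / n + 1) h ≥ h := by
        simp only [pos, Bool.false_eq_true, if_false, if_true]
        rw [div_rev c.hn hx]
        have := c.hh
        generalize x / n = y at *
        omega
      exact_mod_cast h4
    have h5 : (h : ℝ) / K ≥ 2 * ρ := by
      rw [ge_iff_le, le_div_iff₀ hK0]; exact c.hρK
    have h6 : ((min (pos (n * K) true x / n + 1) h : ℕ) : ℝ) / K +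
        ((min (pos (n * K) false x / n + 1) h : ℕ) : ℝ) / K ≥ h / K := by
      rw [← add_div]
      exact div_le_div_of_nonneg_right h3 hK0.le
    have h7 : 0 < 1 - ρ := by linarith
    have h8 := add_le_add h1 h2
    refine (mul_le_mul_of_nonneg_left (h8.trans (show _ ≤ 2 * (1 - ρ) by linarith)) hc).trans
      (le_of_eq ?_)
    field_simp
  · have : (S n K k D0 p).filter (fun e => Sum.inr x ∈ A n (n * K) e) = ∅ := by
      refine Finset.filter_eq_empty_iff.2 ?_
      intro e he hxe
      have he' := mem_S.1 he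
      obtain ⟨h1, h2, h3, h4, h5⟩ := he'
      exact hx (mem_A_inr c.hn h3 h4 h2.2 hxe).1
    rw [this, Finset.sum_empty]
    exact zero_le_one

open Classical in
lemma Cond.total_d (c : Cond n K k h D0 Q p ρ) {d : ℕ} (hd : D0 < d) (hdk : d ≤ k) :
    ∑ b : Bool, ∑ r ∈ Icc 1 K, ∑ i ∈ range k,
      (if d ≤ r ∧ i < d ∧ good n (n * K) p (b, d, r, i) then w n K k p (b, d, r, i) else 0) = 1 := by
  have h1 := c.g_ge hd hdk
  have h2 := c.hρ1
  have h3 : 0 < g n K k p d := by linarith
  have h4 : ∑ b : Bool, ∑ r ∈ Icc 1 K, ∑ i ∈ range k,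
      (if d ≤ r ∧ i < d ∧ good n (n * K) p (b, d, r, i) then w n K k p (b, d, r, i) else 0) =
      (∑ b : Bool, ∑ r ∈ Icc 1 K, ∑ i ∈ range k,
        if d ≤ r ∧ i < d ∧ good n (n * K) p (b, d, r, i) then q K r / 2 else 0) *
        (1 / g n K k p d) := by
    rw [Finset.sum_mul]
    refine Finset.sum_congr rfl fun b _ => ?_
    rw [Finset.sum_mul]
    refine Finset.sum_congr rfl fun r _ => ?_
    rw [Finset.sum_mul]
    refine Finset.sum_congr rfl fun i _ => ?_
    split_ifs
    · rw [w]
      simp only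
      rw [div_mul_div_comm, mul_one]
    · rw [zero_mul]
  rw [h4]
  change g n K k p d * (1 / g n K k p d) = 1
  field_simp

lemma Cond.vertex_col (c : Cond n K k h D0 Q p ρ) (d : ℕ) :
    ∑ e ∈ (S n K k D0 p).filter (fun e => Sum.inl d ∈ A n (n * K) e), w n K k p e ≤ 1 := by
  classical
  by_cases hd : D0 < d ∧ d ≤ k
  · refine (sumS_le (fun e => Sum.inl d ∈ A n (n * K) e)
      (fun b d' r i => if d' = d then
        (if d ≤ r ∧ i < d ∧ good n (n * K) p (b, d, r, i) then w n K k p (b, d, r, i) else 0)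
        else 0) ?_ ?_).trans ?_
    · intro b d' r i
      split_ifs
      · exact w_nonneg _ _ _ _ _
      · exact le_rfl
      · exact le_rfl
    · rintro ⟨b, d', r, i⟩ he hde
      have hde' : d = d' := by simpa using (mem_A_inl.1 hde)
      subst hde'
      have he' := mem_S.1 he
      obtain ⟨h1, h2, h3, h4, h5⟩ := he'
      simp only at h3 h4
      simp only [if_true]
      rw [if_pos ⟨h3, h4, h5⟩]
    · have h6 : ∀ b : Bool, ∑ d' ∈ Ioc D0 k, ∑ r ∈ Icc 1 K, ∑ i ∈ range k,
          (if d' = d then (if d ≤ r ∧ i < d ∧ good n (n * K) p (b, d, r, i) then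
            w n K k p (b, d, r, i) else 0) else 0) =
          ∑ r ∈ Icc 1 K, ∑ i ∈ range k, (if d ≤ r ∧ i < d ∧ good n (n * K) p (b, d, r, i) then
            w n K k p (b, d, r, i) else 0) := by
        intro b
        rw [Finset.sum_eq_single d]
        · simp
        · intro d' _ hne
          simp [hne]
        · intro hnot
          exact absurd (mem_Ioc.2 hd) hnot
      rw [Finset.sum_congr rfl fun b _ => h6 b, c.total_d hd.1 hd.2]
  · have : (S n K k D0 p).filter (fun e => Sum.inl d ∈ A n (n * K) e) = ∅ := by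
      refine Finset.filter_eq_empty_iff.2 ?_
      intro e he hxe
      have he' := mem_S.1 he
      have h1 := mem_A_inl.1 hxe
      exact hd ⟨by rw [h1]; exact he'.1.1, by rw [h1]; exact he'.1.2⟩
    rw [this, Finset.sum_empty]
    exact zero_le_one

lemma Cond.total (c : Cond n K k h D0 Q p ρ) :
    ∑ e ∈ S n K k D0 p, w n K k p e = (k : ℝ) - D0 := by
  classical
  have h1 : ∑ e ∈ S n K k D0 p, w n K k p e = ∑ b : Bool, ∑ d ∈ Ioc D0 k, ∑ r ∈ Icc 1 K,
      ∑ i ∈ range k, (if d ≤ r ∧ i < d ∧ good n (n * K) p (b, d, r, i) then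
            w n K k p (b, d, r, i) else 0) := by
    unfold S box
    rw [Finset.sum_filter, Finset.sum_product]
    refine Finset.sum_congr rfl fun b _ => ?_
    rw [Finset.sum_product]
    refine Finset.sum_congr rfl fun d _ => ?_
    rw [Finset.sum_product]
  rw [h1, Finset.sum_comm]
  have h2 : ∀ d ∈ Ioc D0 k, ∑ b : Bool, ∑ r ∈ Icc 1 K,
      ∑ i ∈ range k, (if d ≤ r ∧ i < d ∧ good n (n * K) p (b, d, r, i) then
            w n K k p (b, d, r, i) else 0) = 1 := by
    intro d hd
    rw [mem_Ioc] at hd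
    exact c.total_d hd.1 hd.2
  rw [Finset.sum_congr rfl h2, Finset.sum_const, Nat.card_Ioc, nsmul_eq_mul, mul_one,
    Nat.cast_sub c.hD0k.le]

/-- sums over pieces through a position with differences in a small set -/
lemma Cond.pair (c : Cond n K k h D0 Q p ρ) (E : Finset ℕ) (hE : E.card ≤ n) (x : ℕ)
    (P : Ed → Prop) [DecidablePred P]
    (hP : ∀ e ∈ S n K k D0 p, P e → e.2.1 ∈ E ∧ Sum.inr x ∈ A n (n * K) e) :
    ∑ e ∈ (S n K k D0 p).filter P, w n K k p e ≤ 4 * n / D0 := by
  classical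
  have hρ1 := c.hρ1
  have hKh := c.hK
  have hD0 : (0 : ℝ) < D0 := by exact_mod_cast c.hD0
  have h7 : 0 < 1 - ρ := by linarith
  have hc : 0 ≤ 1 / (2 * (1 - ρ)) := by positivity
  have hc1 : 1 / (2 * (1 - ρ)) ≤ 1 := by
    rw [div_le_one (by positivity)]; linarith
  refine (sumS_le P
      (fun b d r i => if d ∈ E then (1 / (2 * (1 - ρ))) * F n K d r i (pos (n * K) b x) else 0)
      ?_ ?_).trans ?_
  · intro b d r i
    split_ifs
    · exact mul_nonneg hc (F_nonneg _ _ _ _ _ _)
    · exact le_rfl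
  · intro e he hPe
    obtain ⟨h1, h2⟩ := hP e he hPe
    rw [if_pos h1]
    exact c.w_le_F he h2
  · have h1 : ∀ b : Bool, ∑ d ∈ Ioc D0 k, ∑ r ∈ Icc 1 K, ∑ i ∈ range k,
        (if d ∈ E then (1 / (2 * (1 - ρ))) * F n K d r i (pos (n * K) b x) else 0) ≤
        n * (2 / D0) := by
      intro b
      have h2 : ∀ d ∈ Ioc D0 k, ∑ r ∈ Icc 1 K, ∑ i ∈ range k,
          (if d ∈ E then (1 / (2 * (1 - ρ))) * F n K d r i (pos (n * K) b x) else 0) ≤
          if d ∈ E then 2 / (D0 : ℝ) else 0 := by
        intro d hd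
        rw [mem_Ioc] at hd
        by_cases hdE : d ∈ E
        · simp only [if_pos hdE, ← Finset.mul_sum]
          have h3 := load_one c.hn (K := K) (d := d) (by omega) (by omega) k (pos (n * K) b x)
          have h4 : (2 : ℝ) / d ≤ 2 / D0 := by
            refine div_le_div_of_nonneg_left (by norm_num) hD0 ?_
            exact_mod_cast hd.1.le
          have h5 : 0 ≤ ∑ r ∈ Icc 1 K, ∑ i ∈ range k, F n K d r i (pos (n * K) b x) :=
            Finset.sum_nonneg fun r _ => Finset.sum_nonneg fun i _ => F_nonneg _ _ _ _ _ _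
          calc _ ≤ 1 * ∑ r ∈ Icc 1 K, ∑ i ∈ range k, F n K d r i (pos (n * K) b x) :=
                mul_le_mul_of_nonneg_right hc1 h5
            _ ≤ _ := by linarith
        · simp only [if_neg hdE]
          simp
      refine (Finset.sum_le_sum h2).trans ?_
      rw [← Finset.sum_filter, Finset.sum_const, nsmul_eq_mul]
      refine mul_le_mul_of_nonneg_right ?_ (by positivity)
      have h6 : ((Ioc D0 k).filter fun d => d ∈ E).card ≤ n :=
        (card_le_card fun d hd => (mem_filter.1 hd).2).trans hE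
      exact_mod_cast h6
    refine (Finset.sum_le_sum fun b _ => h1 b).trans ?_
    rw [Finset.sum_const, card_univ, Fintype.card_bool, nsmul_eq_mul]
    refine le_of_eq ?_
    push_cast
    ring

lemma prog_rev {n d s N : ℕ} (h : s + (n - 1) * d < N) :
    prog n d (N - 1 - (s + (n - 1) * d)) = (prog n d s).image (pos N false) := by
  ext z
  simp only [mem_prog, mem_image, pos, Bool.false_eq_true, if_false]
  have h1 : ∀ j < n, (n - 1 - j) * d + j * d = (n - 1) * d := by
    intro j hj
    rw [← add_mul]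
    congr 1
    omega
  constructor
  · rintro ⟨j, hj, rfl⟩
    refine ⟨s + (n - 1 - j) * d, ⟨n - 1 - j, by omega, rfl⟩, ?_⟩
    have := h1 j hj
    omega
  · rintro ⟨y, ⟨j, hj, rfl⟩, rfl⟩
    refine ⟨n - 1 - j, by omega, ?_⟩
    have := h1 j hj
    omega

end

theorem partial_packing (n : ℕ) (θ : ℝ) (hθ : 0 < θ) : ∃ κ : ℝ, 0 < κ ∧
    ∀ (K k h D0 Q : ℕ) (p : ℕ → ℕ) (ρ : ℝ), Cond n K k h D0 Q p ρ → 4 * n / D0 ≤ κ →
      ∃ (C : Finset ℕ) (t : ℕ → ℕ), C ⊆ Ioc D0 k ∧ (1 - θ) * ((k : ℝ) - D0) ≤ C.card ∧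
        (∀ d ∈ C, ∀ z ∈ prog n d (t d), z < n * K ∧ ∀ l < n, ¬ p l ∣ z) ∧
        (∀ d ∈ C, ∀ d' ∈ C, d ≠ d' → Disjoint (prog n d (t d)) (prog n d' (t d'))) := by
  classical
  obtain ⟨κ, hκ, H⟩ := nibble_fin (n + 1) θ hθ
  refine ⟨κ, hκ, ?_⟩
  intro K k h D0 Q p ρ c hκD
  have hn := c.hn
  have hne : ∀ d s, (prog n d s).Nonempty := fun d s => ⟨s + 0 * d, mem_prog.2 ⟨0, hn, rfl⟩⟩
  obtain ⟨M, hMS, hMd, hMc⟩ := H Ed (ℕ ⊕ ℕ) (S n K k D0 p) (A n (n * K)) (w n K k p)
    (fun e _ => w_nonneg _ _ _ _ _)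
    (fun e _ => by unfold A; exact insert_nonempty _ _)
    (fun e _ => by
      unfold A
      refine (card_insert_le _ _).trans ?_
      have h1 : ((prog n e.2.1 (st n e)).image fun z => (Sum.inr (pos (n * K) e.1 z) : ℕ ⊕ ℕ)).card
          ≤ n := card_image_le.trans (by unfold prog; exact card_image_le.trans (by simp))
      omega)
    (fun v => by
      rcases v with d | x
      · exact c.vertex_col d
      · exact c.vertex_pos x)
    (fun u v huv => by
      rcases u with d | x <;> rcases v with d' | x'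
      · have : (S n K k D0 p).filter (fun e => Sum.inl d ∈ A n (n * K) e ∧
            Sum.inl d' ∈ A n (n * K) e) = ∅ := by
          refine Finset.filter_eq_empty_iff.2 ?_
          rintro e he ⟨h1, h2⟩
          rw [mem_A_inl] at h1 h2
          exact huv (by rw [h1, h2])
        rw [this, Finset.sum_empty]
        exact hκ.le
      · refine (c.pair {d} (by simpa using hn) x' _ ?_).trans hκD
        rintro e he ⟨h1, h2⟩
        rw [mem_A_inl] at h1
        exact ⟨by simp [h1], h2⟩
      · refine (c.pair {d'} (by simpa using hn) x _ ?_).trans hκD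
        rintro e he ⟨h1, h2⟩
        rw [mem_A_inl] at h2
        exact ⟨by simp [h2], h1⟩
      · have hxx : x ≠ x' := fun h => huv (by rw [h])
        refine (c.pair ((Icc 1 n).image fun j => (max x x' - min x x') / j) ?_ x _ ?_).trans hκD
        · refine card_image_le.trans ?_
          simp
        · rintro e he ⟨h1, h2⟩
          refine ⟨?_, h1⟩
          have he' := mem_S.1 he
          obtain ⟨h3, h4, h5, h6, h7⟩ := he'
          obtain ⟨hx, hpx⟩ := mem_A_inr hn h5 h6 h4.2 h1
          obtain ⟨hx', hpx'⟩ := mem_A_inr hn h5 h6 h4.2 h2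
          rw [mem_prog] at hpx hpx'
          obtain ⟨j, hj, hjx⟩ := hpx
          obtain ⟨j', hj', hjx'⟩ := hpx'
          rw [mem_image]
          have hjj : j ≠ j' := by
            rintro rfl
            apply hxx
            have h8 : pos (n * K) e.1 x = pos (n * K) e.1 x' := by rw [← hjx, ← hjx']
            have h9 := congrArg (pos (n * K) e.1) h8
            rwa [pos_pos _ hx, pos_pos _ hx'] at h9
          refine ⟨max j j' - min j j', by rw [mem_Icc]; omega, ?_⟩
          have h10 : max x x' - min x x' = (max j j' - min j j') * e.2.1 := by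
            have h11 : (max j j' - min j j') * e.2.1 =
                max (j * e.2.1) (j' * e.2.1) - min (j * e.2.1) (j' * e.2.1) := by
              rcases le_total j j' with hle | hle
              · have := Nat.mul_le_mul_right e.2.1 hle
                rw [max_eq_right hle, min_eq_left hle, max_eq_right this, min_eq_left this,
                  Nat.sub_mul]
              · have := Nat.mul_le_mul_right e.2.1 hle
                rw [max_eq_left hle, min_eq_right hle, max_eq_left this, min_eq_right this,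
                  Nat.sub_mul]
            rw [h11]
            have h12 : (0 : ℕ) ≤ j * e.2.1 := Nat.zero_le _
            generalize j * e.2.1 = u at *
            generalize j' * e.2.1 = u' at *
            generalize n * K = N at *
            generalize st n e = s at *
            cases hb : e.1
            · simp only [hb, pos, Bool.false_eq_true, if_false] at hjx hjx'
              omega
            · simp only [hb, pos, if_true] at hjx hjx'
              omega
          rw [h10]
          exact Nat.mul_div_cancel_left _ (by omega))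
    (fun e he => by
      have h1 : w n K k p e = ∑ e' ∈ (S n K k D0 p).filter (fun e' => e' = e), w n K k p e' := by
        rw [Finset.filter_eq' (S n K k D0 p) e, if_pos he, Finset.sum_singleton]
      rw [h1]
      obtain ⟨z, hz⟩ := hne e.2.1 (st n e)
      refine (c.pair {e.2.1} (by simpa using hn) (pos (n * K) e.1 z) _ ?_).trans hκD
      rintro e' he' rfl
      refine ⟨by simp, ?_⟩
      unfold A
      rw [mem_insert, mem_image]
      exact Or.inr ⟨z, hz, rfl⟩)
  have hcol : ∀ d ∈ M.image (fun e => e.2.1), ∃ e ∈ M, e.2.1 = d := by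
    intro d hd
    rw [mem_image] at hd
    exact hd
  choose! ε hεM hεd using hcol
  let t : ℕ → ℕ := fun d => if (ε d).1 then st n (ε d) else
    n * K - 1 - (st n (ε d) + (n - 1) * d)
  have ht : ∀ d ∈ M.image (fun e => e.2.1), prog n d (t d) =
      (prog n (ε d).2.1 (st n (ε d))).image (pos (n * K) (ε d).1) := by
    intro d hd
    have h1 := hεM d hd
    have h2 := hεd d hd
    have h3 := mem_S.1 (hMS h1)
    rw [h2]
    cases hb : (ε d).1
    · have h4 : t d = n * K - 1 - (st n (ε d) + (n - 1) * d) := by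
        simp only [t, hb]
        simp
      rw [h4, prog_rev]
      have h5 : st n (ε d) + (n - 1) * d ∈ prog n (ε d).2.1 (st n (ε d)) :=
        mem_prog.2 ⟨n - 1, by omega, by rw [h2]⟩
      exact lt_N hn h3.2.2.1 h3.2.2.2.1 h3.2.1.2 h5
    · have h4 : t d = st n (ε d) := by
        simp only [t, hb]
        simp
      rw [h4]
      ext z
      simp [pos]
  refine ⟨M.image (fun e => e.2.1), t, ?_, ?_, ?_, ?_⟩
  · intro d hd
    have h1 := hεM d hd
    have h2 := hεd d hd
    have h3 := mem_S.1 (hMS h1)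
    rw [mem_Ioc, ← h2]
    exact h3.1
  · rw [c.total] at hMc
    refine hMc.trans ?_
    rw [card_image_of_injOn]
    intro e he f hf hef
    by_contra hne'
    have h1 := hMd e he f hf hne'
    refine (Finset.disjoint_left.1 h1) (a := Sum.inl e.2.1) ?_ ?_
    · exact mem_A_inl.2 rfl
    · exact mem_A_inl.2 hef
  · intro d hd z hz
    rw [ht d hd, mem_image] at hz
    obtain ⟨y, hy, rfl⟩ := hz
    have h1 := hεM d hd
    have h3 := mem_S.1 (hMS h1)
    have h4 := lt_N hn h3.2.2.1 h3.2.2.2.1 h3.2.1.2 hy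
    exact ⟨pos_lt _ h4, h3.2.2.2.2 y hy⟩
  · intro d hd d' hd' hdd
    rw [ht d hd, ht d' hd']
    have h1 := hMd (ε d) (hεM d hd) (ε d') (hεM d' hd')
      (fun h => hdd (by rw [← hεd d hd, ← hεd d' hd', h]))
    rw [Finset.disjoint_left] at h1 ⊢
    intro z hz hz'
    rw [mem_image] at hz hz'
    obtain ⟨y, hy, rfl⟩ := hz
    obtain ⟨y', hy', hyy⟩ := hz'
    refine h1 (a := Sum.inr (pos (n * K) (ε d).1 y)) ?_ ?_
    · unfold A
      rw [mem_insert, mem_image]
      exact Or.inr ⟨y, hy, rfl⟩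
    · unfold A
      rw [mem_insert, mem_image]
      exact Or.inr ⟨y', hy', by rw [hyy]⟩

end Pool.Agent.V11185.Prog
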