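import Mathlib
import Pool.Agent.V11185.ProgC

set_option autoImplicit false

/-!
The reservoir of multiples of `n` primes, the greedy completion, and the upper bound.
-/

namespace Pool.Agent.V11185.Prog

open Finset

lemma greedy (n : ℕ) (D : Finset ℕ) (T : ℕ → Finset ℕ) :
    (∀ d ∈ D, D.card * n * n < (T d).card) → ∃ t : ℕ → ℕ, (∀ d ∈ D, t d ∈ T d) ∧
      ∀ d ∈ D, ∀ d' ∈ D, d ≠ d' → Disjoint (prog n d (t d)) (prog n d' (t d')) := by
  classical
  induction D using Finset.induction with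
  | empty => intro _; exact ⟨fun _ => 0, by simp, by simp⟩
  | insert a D ha ih =>
    intro hT
    rw [card_insert_of_notMem ha] at hT
    obtain ⟨t, ht1, ht2⟩ := ih (fun d hd => by
      have := hT d (mem_insert_of_mem hd)
      have h2 : D.card * n * n ≤ (D.card + 1) * n * n :=
        Nat.mul_le_mul_right _ (Nat.mul_le_mul_right _ (Nat.le_succ _))
      omega)
    let F : Finset ℕ := D.biUnion fun d => (prog n d (t d)).biUnion fun z =>
      (range n).image fun j => z - j * a
    have hF : F.card ≤ D.card * n * n := by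
      refine card_biUnion_le.trans ?_
      have h1 : ∀ d ∈ D, ((prog n d (t d)).biUnion fun z =>
          (range n).image fun j => z - j * a).card ≤ n * n := by
        intro d _
        refine card_biUnion_le.trans ?_
        have h2 : ∀ z ∈ prog n d (t d), ((range n).image fun j => z - j * a).card ≤ n := by
          intro z _
          exact card_image_le.trans (by simp)
        refine (Finset.sum_le_sum h2).trans ?_
        rw [Finset.sum_const, smul_eq_mul]
        refine Nat.mul_le_mul_right _ ?_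
        unfold prog
        exact card_image_le.trans (by simp)
      refine (Finset.sum_le_sum h1).trans ?_
      rw [Finset.sum_const, smul_eq_mul, mul_assoc]
    have h3 : (T a \ F).Nonempty := by
      rw [← card_pos]
      have h4 := hT a (mem_insert_self _ _)
      have h5 : D.card * n * n ≤ (D.card + 1) * n * n :=
        Nat.mul_le_mul_right _ (Nat.mul_le_mul_right _ (Nat.le_succ _))
      have h6 := le_card_sdiff F (T a)
      omega
    obtain ⟨u, hu⟩ := h3
    rw [mem_sdiff] at hu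
    have hdis : ∀ d ∈ D, Disjoint (prog n a u) (prog n d (t d)) := by
      intro d hd
      rw [Finset.disjoint_left]
      intro z hz hz'
      apply hu.2
      obtain ⟨j, hj, rfl⟩ := mem_prog.1 hz
      simp only [F, mem_biUnion, mem_image, mem_range]
      exact ⟨d, hd, _, hz', j, hj, by omega⟩
    refine ⟨Function.update t a u, ?_, ?_⟩
    · intro d hd
      rcases eq_or_ne d a with rfl | hda
      · rw [Function.update_self]; exact hu.1
      · rw [Function.update_of_ne hda]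
        exact ht1 d (by simpa [hda] using hd)
    · intro d hd d' hd' hne
      rcases eq_or_ne d a with rfl | hda
      · have hd'a : d' ≠ d := hne.symm
        rw [Function.update_self, Function.update_of_ne hd'a]
        exact hdis d' (by simpa [hd'a] using hd')
      · rw [Function.update_of_ne hda]
        rcases eq_or_ne d' a with rfl | hda'
        · rw [Function.update_self]
          exact (hdis d (by simpa [hda] using hd)).symm
        · rw [Function.update_of_ne hda']
          exact ht2 d (by simpa [hda] using hd) d' (by simpa [hda'] using hd') hne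

lemma crt (n : ℕ) (p : ℕ → ℕ) (hp : ∀ l < n, (p l).Prime)
    (hinj : ∀ l < n, ∀ l' < n, l ≠ l' → p l ≠ p l') (d : ℕ) :
    ∃ c < ∏ l ∈ range n, p l, ∀ j < n, p j ∣ c + j * d := by
  have h1 : ∀ i ∈ range n, p i ≠ 0 := fun i hi => (hp i (mem_range.1 hi)).ne_zero
  have h2 : Set.Pairwise (↑(range n)) (Function.onFun Nat.Coprime p) := by
    intro i hi j hj hij
    rw [coe_range, Set.mem_Iio] at hi hj
    exact (Nat.coprime_primes (hp i hi) (hp j hj)).2 (hinj i hi j hj hij)
  obtain ⟨c, hc⟩ : ∃ c, c = Nat.chineseRemainderOfFinset (fun j => j * d * (p j - 1)) p (range n)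
    h1 h2 := ⟨_, rfl⟩
  refine ⟨(c : ℕ), ?_, ?_⟩
  · rw [hc]
    exact Nat.chineseRemainderOfFinset_lt_prod _ _ h1 h2
  · intro j hj
    have h3 : (c : ℕ) ≡ j * d * (p j - 1) [MOD p j] := c.2 j (mem_range.2 hj)
    have h4 : (c : ℕ) + j * d ≡ j * d * (p j - 1) + j * d [MOD p j] := Nat.ModEq.add_right _ h3
    have h5 : j * d * (p j - 1) + j * d = j * d * p j := by
      have : 1 ≤ p j := (hp j hj).one_lt.le
      obtain ⟨v, hv⟩ := Nat.exists_eq_add_of_le this
      rw [hv]
      have : 1 + v - 1 = v := by omega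
      rw [this]
      ring
    rw [h5] at h4
    exact (Nat.modEq_zero_iff_dvd.1 (h4.trans (Nat.modEq_zero_iff_dvd.2 (Dvd.intro_left _ rfl))))

/-- completion of a partial packing which avoids the multiples of the primes -/
lemma complete {n K k : ℕ} (hn : 1 ≤ n) (hkK : k ≤ K) (p : ℕ → ℕ) (hp : ∀ l < n, (p l).Prime)
    (hinj : ∀ l < n, ∀ l' < n, l ≠ l' → p l ≠ p l') (C : Finset ℕ) (t : ℕ → ℕ)
    (hC : C ⊆ Icc 1 k)
    (h1 : ∀ d ∈ C, ∀ z ∈ prog n d (t d), z < n * K ∧ ∀ l < n, ¬ p l ∣ z)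
    (h2 : ∀ d ∈ C, ∀ d' ∈ C, d ≠ d' → Disjoint (prog n d (t d)) (prog n d' (t d')))
    (h3 : (k - C.card) * n * n < K / (∏ l ∈ range n, p l)) :
    ∃ t' : ℕ → ℕ, (∀ d ∈ Icc 1 k, ∀ z ∈ prog n d (t' d), z < n * K) ∧
      ∀ d ∈ Icc 1 k, ∀ d' ∈ Icc 1 k, d ≠ d' → Disjoint (prog n d (t' d)) (prog n d' (t' d')) := by
  classical
  set P := ∏ l ∈ range n, p l with hP
  have hP0 : 0 < P := Finset.prod_pos fun l hl => (hp l (mem_range.1 hl)).pos
  choose c hcP hc using crt n p hp hinj
  let T : ℕ → Finset ℕ := fun d => (range (K / P)).image fun u => c d + P * u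
  have hTc : ∀ d, (T d).card = K / P := by
    intro d
    simp only [T]
    rw [card_image_of_injective, card_range]
    intro u u' h
    have h' : c d + P * u = c d + P * u' := h
    have : P * u = P * u' := by omega
    exact Nat.eq_of_mul_eq_mul_left hP0 this
  have hDc : (Icc 1 k \ C).card = k - C.card := by
    rw [card_sdiff_of_subset hC, Nat.card_Icc]
    omega
  obtain ⟨s, hs1, hs2⟩ := greedy n (Icc 1 k \ C) T (fun d _ => by rw [hTc, hDc]; exact h3)
  have hTt : ∀ d, ∀ u ∈ T d, u < K ∧ ∀ j < n, p j ∣ u + j * d := by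
    intro d u hu
    simp only [T, mem_image, mem_range] at hu
    obtain ⟨v, hv, rfl⟩ := hu
    constructor
    · have h4 : P * (v + 1) ≤ P * (K / P) := Nat.mul_le_mul_left _ hv
      have h5 : P * (K / P) ≤ K := Nat.mul_div_le _ _
      have := hcP d
      have h6 : P * (v + 1) = P * v + P := by ring
      omega
    · intro j hj
      have h4 := hc d j hj
      have h5 : p j ∣ P * v := Dvd.dvd.mul_right (Finset.dvd_prod_of_mem p (mem_range.2 hj)) v
      have h6 : c d + P * v + j * d = (c d + j * d) + P * v := by ring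
      rw [h6]
      exact dvd_add h4 h5
  refine ⟨fun d => if d ∈ C then t d else s d, ?_, ?_⟩
  · intro d hd z hz
    by_cases hdC : d ∈ C
    · simp only [if_pos hdC] at hz
      exact (h1 d hdC z hz).1
    · simp only [if_neg hdC] at hz
      obtain ⟨j, hj, rfl⟩ := mem_prog.1 hz
      have h4 := (hTt d _ (hs1 d (mem_sdiff.2 ⟨hd, hdC⟩))).1
      rw [mem_Icc] at hd
      have h5 : j * d ≤ (n - 1) * K := Nat.mul_le_mul (by omega) (by omega)
      have h6 : (n - 1) * K + K = n * K := by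
        obtain ⟨v, hv⟩ := Nat.exists_eq_add_of_le hn
        rw [hv]
        have : 1 + v - 1 = v := by omega
        rw [this]
        ring
      omega
  · have mixed : ∀ d ∈ C, ∀ d' ∈ Icc 1 k \ C, Disjoint (prog n d (t d)) (prog n d' (s d')) := by
      intro d hd d' hd'
      rw [Finset.disjoint_left]
      intro z hz hz'
      obtain ⟨j, hj, rfl⟩ := mem_prog.1 hz'
      exact (h1 d hd _ hz).2 j hj ((hTt d' _ (hs1 d' hd')).2 j hj)
    intro d hd d' hd' hne
    by_cases hdC : d ∈ C <;> by_cases hdC' : d' ∈ C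
    · simp only [if_pos hdC, if_pos hdC']
      exact h2 d hdC d' hdC' hne
    · simp only [if_pos hdC, if_neg hdC']
      exact mixed d hdC d' (mem_sdiff.2 ⟨hd', hdC'⟩)
    · simp only [if_neg hdC, if_pos hdC']
      exact (mixed d' hdC' d (mem_sdiff.2 ⟨hd, hdC⟩)).symm
    · simp only [if_neg hdC, if_neg hdC']
      exact hs2 d (mem_sdiff.2 ⟨hd, hdC⟩) d' (mem_sdiff.2 ⟨hd', hdC'⟩) hne

/-- The upper bound. -/
theorem upper (n : ℕ) (hn : 1 ≤ n) (ε : ℝ) (hε : 0 < ε) (hε1 : ε ≤ 1) : ∃ k0 : ℕ, ∀ k : ℕ, k0 ≤ k →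
    ∃ t : ℕ → ℕ, (∀ d ∈ Icc 1 k, ∀ z ∈ prog n d (t d), z < n * (k + ⌊ε * k⌋₊)) ∧
      ∀ d ∈ Icc 1 k, ∀ d' ∈ Icc 1 k, d ≠ d' → Disjoint (prog n d (t d)) (prog n d' (t d')) := by
  obtain ⟨ρ, hρ⟩ : ∃ ρ : ℝ, ρ = ε / 6 := ⟨_, rfl⟩
  have hρ0 : 0 < ρ := by rw [hρ]; positivity
  have hn0 : (1 : ℝ) ≤ n := by exact_mod_cast hn
  obtain ⟨Q, hQ⟩ := exists_nat_gt (2 * (n : ℝ) ^ 2 / ρ)
  have hQ0 : 0 < Q := by
    have : (0 : ℝ) < Q := lt_of_le_of_lt (by positivity) hQ
    exact_mod_cast this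
  let p : ℕ → ℕ := fun l => Nat.nth Nat.Prime (Q + l)
  have hpp : ∀ l < n, (p l).Prime := fun l _ => Nat.prime_nth_prime _
  have hsm : StrictMono (Nat.nth Nat.Prime) := Nat.nth_strictMono Nat.infinite_setOf_prime
  have hinj : ∀ l < n, ∀ l' < n, l ≠ l' → p l ≠ p l' := by
    intro l _ l' _ hne h
    have := hsm.injective h
    omega
  have hpQ : ∀ l < n, Q ≤ p l := by
    intro l _
    exact (Nat.le_add_right Q l).trans (hsm.le_apply (x := Q + l))
  obtain ⟨P, hP⟩ : ∃ P : ℕ, P = ∏ l ∈ range n, p l := ⟨_, rfl⟩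
  have hP0 : 0 < P := by
    rw [hP]
    exact Finset.prod_pos fun l hl => (hpp l (mem_range.1 hl)).pos
  have hP0' : (1 : ℝ) ≤ P := by exact_mod_cast hP0
  obtain ⟨θ, hθ⟩ : ∃ θ : ℝ, θ = 1 / (4 * (n : ℝ) ^ 2 * P) := ⟨_, rfl⟩
  have hθ0 : 0 < θ := by rw [hθ]; positivity
  have hθ1 : θ ≤ 1 / 4 := by
    rw [hθ]
    refine one_div_le_one_div_of_le (by norm_num) ?_
    have : (1 : ℝ) ≤ (n : ℝ) ^ 2 := one_le_pow₀ hn0
    nlinarith
  obtain ⟨κ, hκ, H⟩ := partial_packing n θ hθ0
  obtain ⟨k1, hk1⟩ := exists_nat_gt ((2 * (n : ℝ) ^ 2 / ρ + 4 * n / κ + 2) / θ)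
  obtain ⟨k2, hk2⟩ := exists_nat_gt (3 / ε)
  refine ⟨k1 + k2 + 2 * P + 2, fun k hk => ?_⟩
  have hkR : (k1 : ℝ) + k2 + 2 * P + 2 ≤ k := by exact_mod_cast hk
  have hk1' : (2 * (n : ℝ) ^ 2 / ρ + 4 * n / κ + 2) / θ < k := by
    have : (0 : ℝ) ≤ k2 := Nat.cast_nonneg _
    linarith
  have hk2' : 3 / ε < k := by
    have : (0 : ℝ) ≤ k1 := Nat.cast_nonneg _
    linarith
  have hk3 : 2 * (P : ℝ) ≤ k := by
    have : (0 : ℝ) ≤ k1 := Nat.cast_nonneg _
    have : (0 : ℝ) ≤ k2 := Nat.cast_nonneg _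
    linarith
  rw [div_lt_iff₀ hθ0] at hk1'
  rw [div_lt_iff₀ hε] at hk2'
  obtain ⟨h, hh⟩ : ∃ h : ℕ, h = ⌊ε * k⌋₊ := ⟨_, rfl⟩
  obtain ⟨D0, hD0⟩ : ∃ D0 : ℕ, D0 = ⌊θ * k⌋₊ := ⟨_, rfl⟩
  have hk0 : (0 : ℝ) ≤ k := Nat.cast_nonneg _
  have hh1 : (h : ℝ) ≤ ε * k := by rw [hh]; exact Nat.floor_le (by positivity)
  have hh2 : ε * k < h + 1 := by rw [hh]; exact Nat.lt_floor_add_one _
  have hD1 : (D0 : ℝ) ≤ θ * k := by rw [hD0]; exact Nat.floor_le (by positivity)
  have hD2 : θ * k < D0 + 1 := by rw [hD0]; exact Nat.lt_floor_add_one _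
  have ha : 0 ≤ 2 * (n : ℝ) ^ 2 / ρ := by positivity
  have hb : 0 ≤ 4 * (n : ℝ) / κ := by positivity
  have hD3 : 2 * (n : ℝ) ^ 2 / ρ + 4 * n / κ + 1 < D0 := by linarith
  have hD4 : (0 : ℝ) < D0 := by linarith
  have hkh : h ≤ k := by
    have : (h : ℝ) ≤ k := hh1.trans (by nlinarith)
    exact_mod_cast this
  have hcond : Cond n (k + h) k h D0 Q p ρ :=
    { hn := hn
      hK := rfl
      hh := by omega
      hD0 := by exact_mod_cast hD4
      hD0k := by
        have : (D0 : ℝ) < k := by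
          have : (1 : ℝ) ≤ k := by linarith
          nlinarith
        exact_mod_cast this
      hQ := hQ0
      hp := hpQ
      hρ0 := hρ0
      hρ1 := by rw [hρ]; linarith
      hρK := by
        push_cast
        rw [hρ]
        have : (h : ℝ) ≤ k := by exact_mod_cast hkh
        nlinarith
      hρQ := by
        have hQ' : (0 : ℝ) < Q := by exact_mod_cast hQ0
        rw [div_le_iff₀ hQ']
        rw [div_lt_iff₀ hρ0] at hQ
        linarith
      hρD := by
        rw [div_le_iff₀ hD4]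
        have h5 : 2 * (n : ℝ) ^ 2 / ρ < D0 := by linarith
        rw [div_lt_iff₀ hρ0] at h5
        linarith }
  obtain ⟨C, t, hC1, hC2, hC3, hC4⟩ := H (k + h) k h D0 Q p ρ hcond (by
    rw [div_le_iff₀ hD4]
    have h5 : 4 * (n : ℝ) / κ < D0 := by linarith
    rw [div_lt_iff₀ hκ] at h5
    linarith)
  rw [← hh]
  have hCk : C ⊆ Icc 1 k := fun d hd => by
    have := mem_Ioc.1 (hC1 hd)
    rw [mem_Icc]; omega
  refine complete hn (by omega) p hpp hinj C t hCk hC3 hC4 ?_
  rw [← hP]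
  have hCc : C.card ≤ k := by
    have := card_le_card hCk
    rwa [Nat.card_Icc, Nat.add_sub_cancel] at this
  have h6 : (((k - C.card) * n * n : ℕ) : ℝ) < (((k + h) / P : ℕ) : ℝ) := by
    push_cast [Nat.cast_sub hCc]
    have h7 : (k : ℝ) - C.card ≤ 2 * θ * k := by
      have h8 : (0 : ℝ) ≤ D0 := hD4.le
      nlinarith
    have h9 : ((k : ℝ) - C.card) * n * n ≤ k / (2 * P) := by
      calc ((k : ℝ) - C.card) * n * n = ((k : ℝ) - C.card) * (n ^ 2) := by ring
        _ ≤ (2 * θ * k) * (n ^ 2) := mul_le_mul_of_nonneg_right h7 (by positivity)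
        _ = k / (2 * P) := by
          rw [hθ]
          have : (n : ℝ) ≠ 0 := by positivity
          have : (P : ℝ) ≠ 0 := by positivity
          field_simp
          ring
    have h10 : ((k + h : ℕ) : ℝ) < P * ((((k + h) / P : ℕ) : ℝ) + 1) := by
      have h11 : k + h < P * ((k + h) / P + 1) := by
        have := Nat.div_add_mod (k + h) P
        have h12 := Nat.mod_lt (k + h) hP0
        have h13 : P * ((k + h) / P + 1) = P * ((k + h) / P) + P := by ring
        omega
      exact_mod_cast h11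
    have h14 : (k : ℝ) / P < (((k + h) / P : ℕ) : ℝ) + 1 := by
      rw [div_lt_iff₀ (by positivity)]
      push_cast at h10 ⊢
      have : (0 : ℝ) ≤ h := Nat.cast_nonneg _
      linarith
    have h15 : (1 : ℝ) ≤ k / (2 * P) := by
      rw [le_div_iff₀ (by positivity)]; linarith
    have h16 : (k : ℝ) / P = k / (2 * P) + k / (2 * P) := by
      field_simp
      ring
    push_cast at h14
    linarith
  exact_mod_cast h6

end Pool.Agent.V11185.Prog
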