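import Pool.Agent.V11185.GPMod

/-!
# Generalized Petersen graphs: even `k`
-/

namespace Pool.Agent.V11185.GP

theorem run_even (k i : ℕ) (hk : k % 2 = 0) (hk0 : 0 < k) (h1 : (i + i / k) % 2 = 1)
    (h2 : (i + 1 + (i + 1) / k) % 2 = 1) : ∃ a, i + 1 = k * (2 * a + 1) := by
  rw [Nat.succ_div] at h2
  split_ifs at h2 with hd
  · obtain ⟨c, hc⟩ := hd
    have h3 : (i + 1) / k = i / k + 1 := by
      rw [Nat.succ_div, if_pos ⟨c, hc⟩]
    have h4 : (i + 1) / k = c := by rw [hc]; exact Nat.mul_div_cancel_left c hk0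
    have h5 : (k * c) % 2 = 0 := by rw [Nat.mul_mod, hk]; simp
    refine ⟨c / 2, ?_⟩
    rw [hc]
    congr 1
    omega
  · omega

/-- The general step for even `k`: the alternating pattern of period `2 k`, with the inner
vertices with index in `[A, B)` removed. -/
theorem good_even_aux (n k q A B c s : ℕ) (hk : k % 2 = 0) (hk0 : 0 < k) (hA : 0 < A)
    (hwrap : ∀ i, i < n → n ≤ i + k → ¬ (A ≤ i ∧ i < B) → (i + i / k) % 2 = 0 →
      (i + k - n) % 2 = 1)
    (hrun : ∀ a, k * (2 * a + 1) < n → q ≤ a →
      (A ≤ k * (2 * a + 1) - 1 ∧ k * (2 * a + 1) - 1 < B) ∨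
      (A ≤ k * (2 * a + 1) ∧ k * (2 * a + 1) < B))
    (hexcl : ∀ i, i + 1 < n → ((A ≤ i ∧ i < B) ∨ (A ≤ i + 1 ∧ i + 1 < B)) →
      (∃ a < s, c + 2 * a = i) ∨ (∃ a < s, c + 2 * a = i + 1) ∨
      (¬ (A ≤ i ∧ i < B) ∧ (i + i / k) % 2 = 0))
    (hcard : q + s ≤ (n + 4) / 5) : Good n k := by
  classical
  refine ⟨fun i => (i + i / k) % 2 = 0 ∧ ¬ (A ≤ i ∧ i < B),
    (Finset.range q).image (fun a => k * (2 * a + 1)) ∪
      (Finset.range s).image (fun a => c + 2 * a), ?_, ?_, ?_, ?_, ?_⟩
  · rintro i hi ⟨h1, _⟩ ⟨h2, _⟩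
    rw [Nat.add_div_right i hk0] at h2
    omega
  · rintro i hi hi' ⟨h1, h1'⟩ ⟨h2, _⟩
    have h3 := hwrap i hi hi' h1' h1
    rw [Nat.div_eq_of_lt (show i + k - n < k by omega)] at h2
    omega
  · intro i hi
    simp only [Finset.mem_union, Finset.mem_image, Finset.mem_range]
    by_cases hE : (A ≤ i ∧ i < B) ∨ (A ≤ i + 1 ∧ i + 1 < B)
    · rcases hexcl i hi hE with h | h | h
      · exact Or.inr (Or.inr (Or.inl (Or.inr h)))
      · exact Or.inr (Or.inr (Or.inr (Or.inr h)))
      · exact Or.inl ⟨h.2, h.1⟩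
    · rw [not_or] at hE
      by_cases h1 : (i + i / k) % 2 = 0
      · exact Or.inl ⟨h1, hE.1⟩
      · by_cases h2 : (i + 1 + (i + 1) / k) % 2 = 0
        · exact Or.inr (Or.inl ⟨h2, hE.2⟩)
        · obtain ⟨a, ha⟩ := run_even k i hk hk0 (by omega) (by omega)
          right; right; right; left
          refine ⟨a, ?_, ha.symm⟩
          by_contra hlt
          rcases hrun a (by omega) (by omega) with h | h
          · exact hE.1 (by rw [← ha] at h; simpa using h)
          · exact hE.2 (by rw [← ha] at h; exact h)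
  · right; left
    exact ⟨by simp, by omega⟩
  · refine (Finset.card_union_le _ _).trans ?_
    refine (add_le_add Finset.card_image_le Finset.card_image_le).trans ?_
    simp only [Finset.card_range]
    exact hcard

theorem div_block (k m i : ℕ) (h1 : k * m ≤ i) (h2 : i < k * m + k) : i / k = m := by
  have hk0 : 0 < k := by omega
  rw [Nat.div_eq_of_lt_le]
  · rw [mul_comm]; exact h1
  · have : (m + 1) * k = k * m + k := by ring
    omega

theorem good_even (n k : ℕ) (hk : k % 2 = 0) (hk4 : 4 ≤ k) (hn : 2 * k < n)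
    (h : n % 2 = 0 ∨ 3 * k < n) : Good n k := by
  obtain ⟨q, r, hr, rfl⟩ : ∃ q r, r < 2 * k ∧ n = 2 * k * q + r :=
    ⟨n / (2 * k), n % (2 * k), Nat.mod_lt _ (by omega), (Nat.div_add_mod n (2 * k)).symm⟩
  have hq : 1 ≤ q := by
    by_contra hq
    have : q = 0 := by omega
    subst this
    omega
  have e0 : 2 * k * q = k * (2 * q) := by ring
  set P := k * q with hP
  have eP : 2 * k * q = 2 * P := by rw [hP]; ring
  have hP1 : k + 4 * q ≤ P + 4 := by
    obtain ⟨a, ha⟩ := Nat.exists_eq_add_of_le hk4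
    obtain ⟨b, hb⟩ := Nat.exists_eq_add_of_le hq
    rw [hP, ha, hb]
    nlinarith [Nat.zero_le (a * b)]
  have hk0 : 0 < k := by omega
  have hPpar : (2 * P) % 2 = 0 := by omega
  have hPk : k ≤ P := by rw [hP]; exact Nat.le_mul_of_pos_right k hq
  have ea : ∀ a, q ≤ a → 2 * P + k ≤ k * (2 * a + 1) := by
    intro a ha
    have : k * (2 * q + 1) ≤ k * (2 * a + 1) := Nat.mul_le_mul_left k (by omega)
    have e : k * (2 * q + 1) = 2 * P + k := by rw [hP]; ring
    omega
  have ea' : ∀ a, k * (2 * a + 1) < 2 * P + 2 * k → a ≤ q := by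
    intro a ha
    by_contra hlt
    have : k * (2 * (q + 1) + 1) ≤ k * (2 * a + 1) := Nat.mul_le_mul_left k (by omega)
    have e : k * (2 * (q + 1) + 1) = 2 * P + 2 * k + k := by rw [hP]; ring
    omega
  have eq1 : k * (2 * q + 1) = 2 * P + k := by rw [hP]; ring
  -- values of i / k
  have d1 : ∀ i, 2 * P ≤ i → i < 2 * P + k → i / k = 2 * q := fun i h1 h2 =>
    div_block k (2 * q) i (by omega) (by omega)
  have d2 : ∀ i, 2 * P + k ≤ i → i < 2 * P + 2 * k → i / k = 2 * q + 1 := fun i h1 h2 =>
    div_block k (2 * q + 1) i (by omega) (by omega)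
  have d3 : ∀ i, 2 * P ≤ i + k → i < 2 * P → (i / k) % 2 = 1 := by
    intro i h1 h2
    have e : k * (2 * q - 1) + k = 2 * P := by
      obtain ⟨b, hb⟩ := Nat.exists_eq_add_of_le hq
      rw [hP, hb, show 2 * (1 + b) - 1 = 2 * b + 1 by omega]
      ring
    rw [div_block k (2 * q - 1) i (by omega) (by omega)]
    omega
  rcases Nat.even_or_odd' r with ⟨r', hr' | hr'⟩
  · -- r even
    rcases Nat.lt_or_ge k r with hkr | hkr
    · -- k < r
      refine good_even_aux _ k q (2 * P + (r - k)) (2 * P + k) (2 * P + (r - k))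
        ((2 * k - r) / 2 + 1) hk hk0 (by omega) ?_ ?_ ?_ ?_
      · intro i h1 h2 h3 h4
        rw [d2 i (by omega) (by omega)] at h4
        omega
      · intro a h1 h2
        have h5 := ea' a (by omega)
        have : a = q := by omega
        subst this
        left
        omega
      · intro i h1 h2
        by_cases h3 : i % 2 = 0
        · left
          exact ⟨(i - (2 * P + (r - k))) / 2, by omega, by omega⟩
        · right; left
          exact ⟨(i + 1 - (2 * P + (r - k))) / 2, by omega, by omega⟩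
      · rw [eP]
        omega
    · -- r ≤ k
      refine good_even_aux _ k q (2 * P) (2 * P + r) (2 * P + 1) (r / 2) hk hk0 (by omega)
        ?_ ?_ ?_ ?_
      · intro i h1 h2 h3 h4
        have := d3 i (by omega) (by omega)
        omega
      · intro a h1 h2
        have := ea a h2
        omega
      · intro i h1 h2
        by_cases h3 : i % 2 = 0
        · right; left
          exact ⟨(i + 1 - (2 * P + 1)) / 2, by omega, by omega⟩
        · by_cases h4 : i + 1 = 2 * P
          · have := d3 i (by omega) (by omega)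
            exact Or.inr (Or.inr ⟨by omega, by omega⟩)
          · left
            exact ⟨(i - (2 * P + 1)) / 2, by omega, by omega⟩
      · rw [eP]
        omega
  · -- r odd
    rcases Nat.lt_or_ge k r with hkr | hkr
    · refine good_even_aux _ k q (2 * P + k) (2 * P + r) (2 * P + k) ((r - k + 1) / 2) hk hk0
        (by omega) ?_ ?_ ?_ ?_
      · intro i h1 h2 h3 h4
        rw [d1 i (by omega) (by omega)] at h4
        omega
      · intro a h1 h2
        have h5 := ea a h2
        right
        omega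
      · intro i h1 h2
        by_cases h3 : i % 2 = 0
        · left
          exact ⟨(i - (2 * P + k)) / 2, by omega, by omega⟩
        · right; left
          exact ⟨(i + 1 - (2 * P + k)) / 2, by omega, by omega⟩
      · rw [eP]
        omega
    · have hq2 : 2 ≤ q := by
        by_contra hlt
        have : q = 1 := by omega
        subst this
        omega
      have hP2 : 2 * k + 4 * q ≤ P + 8 := by
        obtain ⟨a, ha⟩ := Nat.exists_eq_add_of_le hk4
        obtain ⟨b, hb⟩ := Nat.exists_eq_add_of_le hq2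
        rw [hP, ha, hb]
        nlinarith [Nat.zero_le (a * b)]
      refine good_even_aux _ k q (2 * P + r - k) (2 * P) (2 * P + r - k) ((k - r + 1) / 2)
        hk hk0 (by omega) ?_ ?_ ?_ ?_
      · intro i h1 h2 h3 h4
        rw [d1 i (by omega) (by omega)] at h4
        omega
      · intro a h1 h2
        have := ea a h2
        omega
      · intro i h1 h2
        by_cases h3 : i % 2 = 1
        · left
          exact ⟨(i - (2 * P + r - k)) / 2, by omega, by omega⟩
        · right; left
          exact ⟨(i + 1 - (2 * P + r - k)) / 2, by omega, by omega⟩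
      · rw [eP]
        omega

theorem good (n k : ℕ) (hk : 1 ≤ k) (hn : 2 * k < n) : Good n k := by
  rcases Nat.lt_or_ge (2 * k + 1) n with h1 | h1
  swap
  · have : n = 2 * k + 1 := by omega
    subst this
    exact good_two_mul_add_one k hk
  rcases Nat.mod_two_eq_zero_or_one n with hn2 | hn2 <;>
    rcases Nat.mod_two_eq_zero_or_one k with hk2 | hk2
  · by_cases hk3 : k = 2
    · subst hk3; exact good_two n (by omega)
    · exact good_even n k hk2 (by omega) hn (Or.inl hn2)
  · exact good_even_odd n k hn2 hk2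
  · by_cases hk3 : k = 2
    · subst hk3; exact good_two n (by omega)
    · by_cases h3 : 3 * k < n
      · exact good_even n k hk2 (by omega) hn (Or.inr h3)
      · obtain ⟨j, rfl⟩ : ∃ j, n = 2 * k + j := ⟨n - 2 * k, by omega⟩
        exact good_mid k j (by omega) (by omega) (by omega)
  · by_cases h3 : 3 * k ≤ n
    · exact good_odd_odd n k hn2 hk2 h3
    · obtain ⟨j, rfl⟩ : ∃ j, n = 2 * k + j := ⟨n - 2 * k, by omega⟩
      exact good_mid k j (by omega) (by omega) (by omega)

end Pool.Agent.V11185.GP
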