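import Pool.Agent.V11185.PPackE

/-!
Packing progressions with prime differences: asymptotics.
-/

set_option autoImplicit false

namespace Pool.Agent.V11185.PPack

open Finset Filter Topology

lemma log_div_tendsto : Tendsto (fun n : ℕ => Real.log n / n) atTop (𝓝 0) := by
  have h := (Real.tendsto_pow_log_div_mul_add_atTop 1 0 1 one_ne_zero).comp
    (tendsto_natCast_atTop_atTop (R := ℝ))
  refine h.congr fun n => ?_
  simp

lemma pi_tendsto' : Tendsto (fun n : ℕ => (Nat.primeCounting n : ℝ) * Real.log n / n)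
    atTop (𝓝 1) := by
  have := pi_mul_tendsto 1 zero_le_one
  refine this.congr fun n => ?_
  simp

lemma err_tendsto {E : ℕ} (hE : 0 < E) :
    Tendsto (fun R : ℕ => err E R * Real.log R / (R : ℝ) ^ 3) atTop (𝓝 (3 / E)) := by
  have hE' : (0 : ℝ) < E := by exact_mod_cast hE
  have hinv : Tendsto (fun n : ℕ => ((n : ℝ))⁻¹) atTop (𝓝 0) :=
    tendsto_inv_atTop_zero.comp tendsto_natCast_atTop_atTop
  have h1 : Tendsto (fun R : ℕ => ((Nat.primeCounting R : ℝ) * Real.log R / R) *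
      (1 / E + (R : ℝ)⁻¹ * (R : ℝ)⁻¹ + (R : ℝ)⁻¹)) atTop (𝓝 (1 * (1 / E + 0 * 0 + 0))) :=
    pi_tendsto'.mul ((tendsto_const_nhds.add (hinv.mul hinv)).add hinv)
  have h2 : Tendsto (fun R : ℕ => ((2 * E * K0 E + 2) * 2 : ℝ) * (Real.log R / R)) atTop
      (𝓝 (((2 * E * K0 E + 2) * 2 : ℝ) * 0)) := log_div_tendsto.const_mul _
  have h3 : Tendsto (fun R : ℕ => 2 * ((Nat.primeCounting (R / E) : ℝ) * Real.log R / R)) atTop
      (𝓝 (2 * (1 / E))) := by
    have := (pi_mul_tendsto (1 / E) (by positivity)).const_mul 2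
    refine this.congr fun R => ?_
    have e : ⌊(1 / (E : ℝ)) * R⌋₊ = R / E := by
      rw [one_div_mul_eq_div]
      exact Nat.floor_div_eq_div R E
    rw [e]
  have h := (h1.add h2).add h3
  have e : (1 * (1 / (E : ℝ) + 0 * 0 + 0) + ((2 * E * K0 E + 2) * 2 : ℝ) * 0 + 2 * (1 / E)) =
      3 / E := by ring
  rw [e] at h
  refine h.congr' ?_
  filter_upwards [eventually_ge_atTop 1] with R hR
  have hR0 : (R : ℝ) ≠ 0 := by positivity
  unfold err
  field_simp
  ring

/-- the main squeeze -/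
theorem main_squeeze {M : ℕ → ℕ} {N : ℕ → ℕ → ℕ} {Rf : ℕ → ℕ} (hR : Tendsto Rf atTop atTop)
    {c : ℝ}
    (hM : ∀ n, IsLeast {m | Packs (primesLE (Rf n)) (fun p => mult p (N n p)) m} (M n))
    (hN1 : ∀ᶠ n in atTop, ∀ p ∈ primesLE (Rf n), ∀ q ∈ primesLE (Rf n), p ≤ N n q)
    (hN2 : ∀ᶠ n in atTop, ∀ p ∈ primesLE (Rf n), p * N n p ≤ 2 * Rf n ^ 2)
    (hsum : Tendsto (fun n => (∑ p ∈ primesLE (Rf n), ((p : ℝ) * N n p - (p : ℝ) ^ 2)) *
      Real.log (Rf n) / (Rf n : ℝ) ^ 3) atTop (𝓝 c)) :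
    Tendsto (fun n => (M n : ℝ) * Real.log (Rf n) / (Rf n : ℝ) ^ 3) atTop (𝓝 c) := by
  rw [Metric.tendsto_atTop']
  intro ε hε
  obtain ⟨E', hE'⟩ := exists_nat_one_div_lt (show 0 < ε / 6 by positivity)
  set E := E' + 1 with hEdef
  have hE0 : 0 < E := Nat.succ_pos _
  have hEe : (3 : ℝ) / E < ε / 2 := by
    have : (1 : ℝ) / E < ε / 6 := by rw [hEdef]; push_cast; exact hE'
    calc (3 : ℝ) / E = 3 * (1 / E) := by ring
      _ < ε / 2 := by linarith
  have herr := (err_tendsto hE0).comp hR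
  have hup := hsum.add herr
  have h1 := hup.eventually (gt_mem_nhds (show c + 3 / E < c + ε by linarith))
  have h2 := hsum.eventually (lt_mem_nhds (show c - ε < c by linarith))
  obtain ⟨n0, hn0⟩ := ((h1.and h2).and ((hN1.and hN2).and (((hR.eventually_ge_atTop
      (E ^ ((2 * E + 2) + 1) * ((2 * E + 2) * Dc E))).and (hR.eventually_ge_atTop
      (E * Dc E))).and ((hR.eventually_ge_atTop (16 * E ^ 2)).and
      (hR.eventually_ge_atTop 2))))).exists_forall_of_atTop
  refine ⟨n0, fun n hn => ?_⟩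
  obtain ⟨⟨h1, h2⟩, ⟨hN1, hN2⟩, ⟨hb1, hb2⟩, hb3, hR2⟩ := hn0 n hn.le
  have hRpos : (0 : ℝ) < Rf n := by
    have : 0 < Rf n := by omega
    exact_mod_cast this
  have hlog : 0 < Real.log (Rf n) := Real.log_pos (by
    have : 1 < Rf n := by omega
    exact_mod_cast this)
  have hw : 0 < Real.log (Rf n) / (Rf n : ℝ) ^ 3 := by positivity
  have hlow : ∑ p ∈ primesLE (Rf n), ((p : ℝ) * N n p - (p : ℝ) ^ 2) ≤ M n := by
    have := lower_gen (P := primesLE (Rf n)) (fun p hp => (Finset.mem_filter.1 hp).2)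
      (N := N n) hN1 (hM n).1
    have h3 : ((∑ p ∈ primesLE (Rf n), ((p : ℤ) * N n p - p ^ 2) : ℤ) : ℝ) ≤ (M n : ℝ) := by
      exact_mod_cast this
    push_cast at h3
    exact h3
  have hupp : (M n : ℝ) ≤ ∑ p ∈ primesLE (Rf n), ((p : ℝ) * N n p - (p : ℝ) ^ 2) +
      err E (Rf n) := by
    obtain ⟨m, hm1, hm2⟩ := upper_packs (N := N n) hE0 hb1 hb2 hb3
      (by
        intro p hp
        rw [sq]
        exact Nat.mul_le_mul_left _ (hN1 p hp p hp)) hN2
    have : M n ≤ m := (hM n).2 hm1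
    have h3 : (M n : ℝ) ≤ m := by exact_mod_cast this
    linarith
  have hlow' := mul_le_mul_of_nonneg_right hlow hw.le
  have hupp' := mul_le_mul_of_nonneg_right hupp hw.le
  simp only [Function.comp_apply] at h1
  rw [Real.dist_eq, abs_lt]
  rw [mul_div_assoc] at h1 h2 ⊢
  rw [mul_div_assoc] at h1
  constructor
  · linarith
  · rw [add_mul] at hupp'
    linarith

/-- least packing lengths exist -/
lemma isLeast_sInf {P : Finset ℕ} {N : ℕ → ℕ} (hP : ∀ p ∈ P, 0 < p) :
    IsLeast {m | Packs P (fun p => mult p (N p)) m}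
      (sInf {m | Packs P (fun p => mult p (N p)) m}) :=
  ⟨Nat.sInf_mem (packs_exists hP), fun _ hm => Nat.sInf_le hm⟩

lemma primesLE_pos {n p : ℕ} (hp : p ∈ primesLE n) : 0 < p := (Finset.mem_filter.1 hp).2.pos

lemma primesLE_le {n p : ℕ} (hp : p ∈ primesLE n) : p ≤ n :=
  (Finset.mem_Icc.1 (Finset.mem_filter.1 hp).1).2

/-- equal lengths -/
theorem equal_lengths {M : ℕ → ℕ}
    (hM : ∀ n, IsLeast {m | Packs (primesLE n) (fun p => mult p n) m} (M n)) :
    Tendsto (fun n : ℕ => (M n : ℝ) * Real.log n / (n : ℝ) ^ 3) atTop (𝓝 (1 / 6)) := by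
  refine main_squeeze (N := fun n _ => n) (Rf := fun n => n) tendsto_id hM ?_ ?_ ?_
  · filter_upwards with n p hp q hq
    exact primesLE_le hp
  · filter_upwards with n p hp
    have := primesLE_le hp
    nlinarith
  · have h1 := psum_tendsto 1
    have h2 := psum_tendsto 2
    have h := h1.sub h2
    have e : (1 : ℝ) / ((1 : ℕ) + 1) - 1 / ((2 : ℕ) + 1) = 1 / 6 := by norm_num
    rw [e] at h
    refine h.congr' ?_
    filter_upwards [eventually_ge_atTop 1] with n hn
    have hn0 : (n : ℝ) ≠ 0 := by positivity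
    rw [Finset.sum_sub_distrib, ← Finset.sum_mul]
    simp only [pow_one]
    norm_num
    field_simp

/-- lengths `⌊n / p⌋` -/
theorem floor_lengths {M : ℕ → ℕ}
    (hM : ∀ n, IsLeast {m | Packs (primesLE (Nat.sqrt n)) (fun p => mult p (n / p)) m} (M n)) :
    Tendsto (fun n : ℕ => (M n : ℝ) * Real.log (Nat.sqrt n) / (Nat.sqrt n : ℝ) ^ 3) atTop
      (𝓝 (2 / 3)) := by
  have hR : Tendsto Nat.sqrt atTop atTop := by
    rw [tendsto_atTop]
    intro b
    filter_upwards [eventually_ge_atTop (b * b)] with n hn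
    exact Nat.le_sqrt.2 hn
  refine main_squeeze (N := fun n p => n / p) (Rf := Nat.sqrt) hR hM ?_ ?_ ?_
  · filter_upwards with n p hp q hq
    rw [Nat.le_div_iff_mul_le (primesLE_pos hq)]
    exact (Nat.mul_le_mul (primesLE_le hp) (primesLE_le hq)).trans (Nat.sqrt_le n)
  · filter_upwards [hR.eventually_ge_atTop 2] with n hn p hp
    have h1 : p * (n / p) ≤ n := Nat.mul_div_le n p
    have h2 : n ≤ Nat.sqrt n * Nat.sqrt n + Nat.sqrt n + Nat.sqrt n := Nat.sqrt_le_add n
    nlinarith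
  · have hinv : Tendsto (fun n : ℕ => ((n : ℝ))⁻¹) atTop (𝓝 0) :=
      tendsto_inv_atTop_zero.comp tendsto_natCast_atTop_atTop
    have h2 := psum_tendsto 2
    have hlo : Tendsto (fun R : ℕ => ((Nat.primeCounting R : ℝ) * Real.log R / R) *
        ((1 : ℝ) - (R : ℝ)⁻¹) - (∑ p ∈ primesLE R, (p : ℝ) ^ 2) * Real.log R / (R : ℝ) ^ (2 + 1))
        atTop (𝓝 ((1 : ℝ) * ((1 : ℝ) - 0) - 1 / (((2 : ℕ) : ℝ) + 1))) :=
      (pi_tendsto'.mul (tendsto_const_nhds.sub hinv)).sub h2
    have hup : Tendsto (fun R : ℕ => ((Nat.primeCounting R : ℝ) * Real.log R / R) *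
        ((1 : ℝ) + 2 * (R : ℝ)⁻¹) - (∑ p ∈ primesLE R, (p : ℝ) ^ 2) * Real.log R /
          (R : ℝ) ^ (2 + 1))
        atTop (𝓝 ((1 : ℝ) * ((1 : ℝ) + 2 * 0) - 1 / (((2 : ℕ) : ℝ) + 1))) :=
      (pi_tendsto'.mul (tendsto_const_nhds.add (hinv.const_mul 2))).sub h2
    have e1 : (1 : ℝ) * ((1 : ℝ) - 0) - 1 / (((2 : ℕ) : ℝ) + 1) = 2 / 3 := by norm_num
    have e2 : (1 : ℝ) * ((1 : ℝ) + 2 * 0) - 1 / (((2 : ℕ) : ℝ) + 1) = 2 / 3 := by norm_num
    rw [e1] at hlo
    rw [e2] at hup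
    refine tendsto_of_tendsto_of_tendsto_of_le_of_le' (hlo.comp hR) (hup.comp hR) ?_ ?_
    · filter_upwards [hR.eventually_ge_atTop 2] with n hn
      simp only [Function.comp_apply]
      set R := Nat.sqrt n with hRdef
      have hRpos : (0 : ℝ) < R := by
        have : 0 < R := by omega
        exact_mod_cast this
      have hlog : 0 < Real.log R := Real.log_pos (by
        have : 1 < R := by omega
        exact_mod_cast this)
      have hw : 0 < Real.log R / (R : ℝ) ^ 3 := by positivity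
      have h3 : (Nat.primeCounting R : ℝ) * ((R : ℝ) ^ 2 - R) ≤
          ∑ p ∈ primesLE R, (p : ℝ) * ((n / p : ℕ) : ℝ) := by
        rw [← card_primesLE, ← nsmul_eq_mul]
        apply Finset.card_nsmul_le_sum
        intro p hp
        have h4 : n < p * (n / p + 1) := by
          have := Nat.lt_mul_div_succ n (primesLE_pos hp)
          simpa using this
        have h5 : (n : ℝ) < p * ((n / p : ℕ) + 1) := by exact_mod_cast h4
        have h6 : (p : ℝ) ≤ R := by exact_mod_cast primesLE_le hp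
        have h7 : (R : ℝ) ^ 2 ≤ n := by
          rw [sq]; exact_mod_cast Nat.sqrt_le n
        linarith
      have h4 := mul_le_mul_of_nonneg_right h3 hw.le
      rw [Finset.sum_sub_distrib, sub_mul, sub_div]
      have e3 : (Nat.primeCounting R : ℝ) * Real.log R / R * (1 - (R : ℝ)⁻¹) =
          (Nat.primeCounting R : ℝ) * ((R : ℝ) ^ 2 - R) * (Real.log R / (R : ℝ) ^ 3) := by
        field_simp
      rw [e3]
      have e4 : (∑ p ∈ primesLE R, (p : ℝ) * ((n / p : ℕ) : ℝ)) * Real.log R / (R : ℝ) ^ 3 =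
          (∑ p ∈ primesLE R, (p : ℝ) * ((n / p : ℕ) : ℝ)) * (Real.log R / (R : ℝ) ^ 3) := by ring
      rw [e4]
      linarith
    · filter_upwards [hR.eventually_ge_atTop 2] with n hn
      simp only [Function.comp_apply]
      set R := Nat.sqrt n with hRdef
      have hRpos : (0 : ℝ) < R := by
        have : 0 < R := by omega
        exact_mod_cast this
      have hlog : 0 < Real.log R := Real.log_pos (by
        have : 1 < R := by omega
        exact_mod_cast this)
      have hw : 0 < Real.log R / (R : ℝ) ^ 3 := by positivity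
      have h3 : ∑ p ∈ primesLE R, (p : ℝ) * ((n / p : ℕ) : ℝ) ≤
          (Nat.primeCounting R : ℝ) * ((R : ℝ) ^ 2 + 2 * R) := by
        rw [← card_primesLE, ← nsmul_eq_mul]
        apply Finset.sum_le_card_nsmul
        intro p hp
        have h4 : p * (n / p) ≤ R * R + R + R := (Nat.mul_div_le n p).trans (Nat.sqrt_le_add n)
        have h5 : (p : ℝ) * ((n / p : ℕ) : ℝ) ≤ R * R + R + R := by exact_mod_cast h4
        linarith
      have h4 := mul_le_mul_of_nonneg_right h3 hw.le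
      rw [Finset.sum_sub_distrib, sub_mul, sub_div]
      have e3 : (Nat.primeCounting R : ℝ) * Real.log R / R * (1 + 2 * (R : ℝ)⁻¹) =
          (Nat.primeCounting R : ℝ) * ((R : ℝ) ^ 2 + 2 * R) * (Real.log R / (R : ℝ) ^ 3) := by
        field_simp
      rw [e3]
      have e4 : (∑ p ∈ primesLE R, (p : ℝ) * ((n / p : ℕ) : ℝ)) * Real.log R / (R : ℝ) ^ 3 =
          (∑ p ∈ primesLE R, (p : ℝ) * ((n / p : ℕ) : ℝ)) * (Real.log R / (R : ℝ) ^ 3) := by ring
      rw [e4]
      linarith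

/-- lengths `⌊n / p⌋`, in terms of `n` -/
theorem floor_lengths' {M : ℕ → ℕ}
    (hM : ∀ n, IsLeast {m | Packs (primesLE (Nat.sqrt n)) (fun p => mult p (n / p)) m} (M n)) :
    Tendsto (fun n : ℕ => (M n : ℝ) * Real.log n / (n : ℝ) ^ (3 / 2 : ℝ)) atTop (𝓝 (4 / 3)) := by
  have hR : Tendsto Nat.sqrt atTop atTop := by
    rw [tendsto_atTop]
    intro b
    filter_upwards [eventually_ge_atTop (b * b)] with n hn
    exact Nat.le_sqrt.2 hn
  have hs : Tendsto (fun n : ℕ => Real.sqrt n) atTop atTop :=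
    Real.tendsto_sqrt_atTop.comp tendsto_natCast_atTop_atTop
  have h1 : Tendsto (fun n : ℕ => (Nat.sqrt n : ℝ) / Real.sqrt n) atTop (𝓝 1) := by
    have := (tendsto_nat_floor_div_atTop (R := ℝ)).comp hs
    refine this.congr fun n => ?_
    simp only [Function.comp_apply]
    rw [Real.nat_floor_real_sqrt_eq_nat_sqrt]
  have hlR : Tendsto (fun n : ℕ => Real.log (Nat.sqrt n)) atTop atTop :=
    Real.tendsto_log_atTop.comp (tendsto_natCast_atTop_atTop.comp hR)
  have h2 : Tendsto (fun n : ℕ => Real.log n / Real.log (Nat.sqrt n)) atTop (𝓝 2) := by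
    have h3 : Tendsto (fun n : ℕ => 2 * (1 - Real.log ((Nat.sqrt n : ℝ) / Real.sqrt n) *
        (Real.log (Nat.sqrt n))⁻¹)) atTop (𝓝 (2 * (1 - Real.log 1 * 0))) := by
      refine (tendsto_const_nhds.sub (Tendsto.mul ?_ (tendsto_inv_atTop_zero.comp hlR))).const_mul 2
      exact (Real.continuousAt_log one_ne_zero).tendsto.comp h1
    rw [mul_zero, sub_zero, mul_one] at h3
    refine h3.congr' ?_
    filter_upwards [hR.eventually_ge_atTop 2, eventually_ge_atTop 1] with n hn hn1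
    have hRpos : (0 : ℝ) < Nat.sqrt n := by
      have : 0 < Nat.sqrt n := by omega
      exact_mod_cast this
    have hlog : 0 < Real.log (Nat.sqrt n) := Real.log_pos (by
      have : 1 < Nat.sqrt n := by omega
      exact_mod_cast this)
    have hn0 : (0 : ℝ) < n := by positivity
    have hsp : 0 < Real.sqrt n := Real.sqrt_pos.2 hn0
    rw [Real.log_div hRpos.ne' hsp.ne', Real.log_sqrt hn0.le]
    field_simp
    ring
  have h := ((floor_lengths hM).mul h2).mul (h1.pow 3)
  have e : (2 / 3 : ℝ) * 2 * 1 ^ 3 = 4 / 3 := by norm_num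
  rw [e] at h
  refine h.congr' ?_
  filter_upwards [hR.eventually_ge_atTop 2, eventually_ge_atTop 1] with n hn hn1
  have hRpos : (0 : ℝ) < Nat.sqrt n := by
    have : 0 < Nat.sqrt n := by omega
    exact_mod_cast this
  have hlog : 0 < Real.log (Nat.sqrt n) := Real.log_pos (by
    have : 1 < Nat.sqrt n := by omega
    exact_mod_cast this)
  have hn0 : (0 : ℝ) < n := by positivity
  have hsp : 0 < Real.sqrt n := Real.sqrt_pos.2 hn0
  have e5 : (n : ℝ) ^ (3 / 2 : ℝ) = Real.sqrt n ^ 3 := by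
    rw [Real.sqrt_eq_rpow, ← Real.rpow_natCast, ← Real.rpow_mul hn0.le]
    norm_num
  rw [e5]
  field_simp

end Pool.Agent.V11185.PPack
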