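import Mathlib

/-!
# Shuffle squares: definitions
-/

set_option autoImplicit false

namespace Pool.Agent.V11185.Shuf

/-- `Interleave u v w`: the word `w` is an interleaving (shuffle) of the words `u` and `v`, that is, the
positions of `w` can be divided into two sets such that the subwords of `w` on them are `u` and `v`. -/
inductive Interleave {A : Type} : List A → List A → List A → Prop
  | nil : Interleave [] [] []
  | left {u v w : List A} (a : A) : Interleave u v w → Interleave (a :: u) v (a :: w)
  | right {u v w : List A} (a : A) : Interleave u v w → Interleave u (a :: v) (a :: w)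

/-- `w` is a shuffle square: an interleaving of two copies of one word. -/
def IsShuffleSquare {A : Type} (w : List A) : Prop := ∃ u, Interleave u u w

/-- the shuffle squares of semi-length `n` over an alphabet with `k` letters -/
def squares (k n : ℕ) : Set (List (Fin k)) := {w | w.length = 2 * n ∧ IsShuffleSquare w}

/-- the number of the shuffle squares of semi-length `n` over an alphabet with `k` letters -/
noncomputable def count (k n : ℕ) : ℕ := (squares k n).ncard

lemma Interleave.append {A : Type} {u v w u' v' w' : List A} (h : Interleave u v w) (h' : Interleave u' v' w') :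
    Interleave (u ++ u') (v ++ v') (w ++ w') := by
  induction h with
  | nil => simpa using h'
  | left a _ ih => exact Interleave.left a ih
  | right a _ ih => exact Interleave.right a ih

lemma Interleave.length {A : Type} {u v w : List A} (h : Interleave u v w) : w.length = u.length + v.length := by
  induction h with
  | nil => rfl
  | left a _ ih => simp only [List.length_cons, ih]; omega
  | right a _ ih => simp only [List.length_cons, ih]; omega

lemma squares_finite (k n : ℕ) : (squares k n).Finite :=
  (List.finite_length_eq (Fin k) (2 * n)).subset fun _ hw => hw.1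

lemma count_mul (k m n : ℕ) : count k m * count k n ≤ count k (m + n) := by
  unfold count
  rw [← Set.ncard_prod]
  refine Set.ncard_le_ncard_of_injOn (fun x : List (Fin k) × List (Fin k) => x.1 ++ x.2) ?_ ?_ (squares_finite k _)
  · rintro ⟨w, w'⟩ ⟨⟨h1, u, h2⟩, ⟨h3, u', h4⟩⟩
    refine ⟨?_, u ++ u', h2.append h4⟩
    simp only [List.length_append] at h1 h3 ⊢
    omega
  · rintro ⟨w, w'⟩ ⟨⟨h1, -⟩, -⟩ ⟨x, x'⟩ ⟨⟨h2, -⟩, -⟩ h
    simp only at h h1 h2
    have := List.append_inj h (by rw [h1, h2])
    exact Prod.ext this.1 this.2

lemma count_pos (k n : ℕ) (hk : 1 ≤ k) : 1 ≤ count k n := by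
  unfold count
  rw [Nat.one_le_iff_ne_zero, Ne, Set.ncard_eq_zero (squares_finite k n), ← Ne, ← Set.nonempty_iff_ne_empty]
  have key : ∀ n, Interleave (List.replicate n (⟨0, hk⟩ : Fin k)) (List.replicate n ⟨0, hk⟩)
      (List.replicate (2 * n) ⟨0, hk⟩) := by
    intro n
    induction n with
    | zero => exact Interleave.nil
    | succ n ih =>
      rw [show 2 * (n + 1) = 2 * n + 1 + 1 by ring]
      exact Interleave.left _ (Interleave.right _ ih)
  exact ⟨_, List.length_replicate, _, key n⟩

end Pool.Agent.V11185.Shuf
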