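import Mathlib

set_option autoImplicit false

namespace Pool.Agent.V11185.Shuf

/-- number of `true` among the first `t` steps -/
def cU (s : ℕ → Bool) : ℕ → ℕ
  | 0 => 0
  | t + 1 => cU s t + if s t then 1 else 0

/-- number of `false` among the first `t` steps -/
def cD (s : ℕ → Bool) : ℕ → ℕ
  | 0 => 0
  | t + 1 => cD s t + if s t then 0 else 1

/-- the word written by the path `s` and the letters `u` -/
def wd {A : Type} (s : ℕ → Bool) (u : ℕ → A) (t : ℕ) : A :=
  if s t then u (cU s t) else u (cD s t)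

lemma cU_t {s : ℕ → Bool} {t : ℕ} (h : s t = true) : cU s (t + 1) = cU s t + 1 := by
  simp [cU, h]
lemma cU_f {s : ℕ → Bool} {t : ℕ} (h : s t = false) : cU s (t + 1) = cU s t := by
  simp [cU, h]
lemma cD_t {s : ℕ → Bool} {t : ℕ} (h : s t = true) : cD s (t + 1) = cD s t := by
  simp [cD, h]
lemma cD_f {s : ℕ → Bool} {t : ℕ} (h : s t = false) : cD s (t + 1) = cD s t + 1 := by
  simp [cD, h]
lemma wd_t {A : Type} {s : ℕ → Bool} {u : ℕ → A} {t : ℕ} (h : s t = true) : wd s u t = u (cU s t) := by
  simp [wd, h]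
lemma wd_f {A : Type} {s : ℕ → Bool} {u : ℕ → A} {t : ℕ} (h : s t = false) : wd s u t = u (cD s t) := by
  simp [wd, h]

lemma cU_mono (s : ℕ → Bool) {a b : ℕ} (h : a ≤ b) : cU s a ≤ cU s b := by
  induction h with
  | refl => exact le_rfl
  | step _ ih => exact ih.trans (by simp only [cU]; omega)

lemma cD_mono (s : ℕ → Bool) {a b : ℕ} (h : a ≤ b) : cD s a ≤ cD s b := by
  induction h with
  | refl => exact le_rfl
  | step _ ih => exact ih.trans (by simp only [cD]; omega)

lemma cU_le (s : ℕ → Bool) (a b : ℕ) : cU s (a + b) ≤ cU s a + b := by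
  induction b with
  | zero => simp
  | succ b ih => rw [← add_assoc]; simp only [cU]; split_ifs <;> omega

lemma cD_le (s : ℕ → Bool) (a b : ℕ) : cD s (a + b) ≤ cD s a + b := by
  induction b with
  | zero => simp
  | succ b ih => rw [← add_assoc]; simp only [cD]; split_ifs <;> omega

lemma cU_add_cD (s : ℕ → Bool) (t : ℕ) : cU s t + cD s t = t := by
  induction t with
  | zero => simp [cU, cD]
  | succ t ih => simp only [cU, cD]; split_ifs <;> omega

lemma cU_congr {s s' : ℕ → Bool} {t : ℕ} (h : ∀ τ < t, s τ = s' τ) : cU s t = cU s' t := by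
  induction t with
  | zero => rfl
  | succ t ih => simp only [cU]; rw [ih (fun τ hτ => h τ (by omega)), h t (by omega)]

lemma cD_congr {s s' : ℕ → Bool} {t : ℕ} (h : ∀ τ < t, s τ = s' τ) : cD s t = cD s' t := by
  induction t with
  | zero => rfl
  | succ t ih => simp only [cD]; rw [ih (fun τ hτ => h τ (by omega)), h t (by omega)]

lemma exists_push (s : ℕ → Bool) {t i : ℕ} (h : i < cU s t) : ∃ τ < t, s τ = true ∧ cU s τ = i := by
  induction t with
  | zero => simp [cU] at h
  | succ t ih =>
    by_cases h1 : i < cU s t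
    · obtain ⟨τ, h2, h3, h4⟩ := ih h1
      exact ⟨τ, by omega, h3, h4⟩
    · rcases hs : s t with _ | _
      · rw [cU_f hs] at h; omega
      · rw [cU_t hs] at h
        exact ⟨t, by omega, hs, by omega⟩

/-- If the letter at the front of the queue of `s` does not occur for `K` steps, then `s` goes up `K` times. -/
lemma stuck {A : Type} {s s' : ℕ → Bool} {u u' : ℕ → A} {τ K : ℕ} {z : A}
    (hz : u (cD s τ) = z) (hw : ∀ i < K, wd s u (τ + i) = wd s' u' (τ + i))
    (hne : ∀ i < K, wd s' u' (τ + i) ≠ z) (hrun : ∃ i < K, s (τ + i) = false) : False := by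
  have key : ∀ i, i ≤ K → cD s (τ + i) = cD s τ ∧ ∀ l < i, s (τ + l) = true := by
    intro i
    induction i with
    | zero => intro _; exact ⟨rfl, fun l hl => by omega⟩
    | succ i ih =>
      intro hi
      obtain ⟨h1, h2⟩ := ih (by omega)
      have h3 : s (τ + i) = true := by
        rcases hs : s (τ + i) with _ | _
        · exfalso
          have h4 := hw i (by omega)
          rw [wd_f hs, h1, hz] at h4
          exact hne i (by omega) h4.symm
        · rfl
      refine ⟨?_, fun l hl => ?_⟩
      · rw [← add_assoc, cD_t h3, h1]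
      · rcases Nat.lt_succ_iff_lt_or_eq.1 hl with h5 | rfl
        · exact h2 l h5
        · exact h3
  obtain ⟨i, hi, h⟩ := hrun
  rw [(key K le_rfl).2 i hi] at h
  exact Bool.noConfusion h

/-- The coincidence conditions for a time `t` at which `s` pushes the letter at the front of its queue. -/
structure Good {A : Type} (s : ℕ → Bool) (u : ℕ → A) (t K W Q : ℕ) : Prop where
  a : ∀ τ, t ≤ τ → τ ≤ t + W → s τ = true → ∀ p, cD s τ ≤ p + K → p ≤ cD s τ + 1 → p < cU s τ →
    ¬ (τ = t ∧ p = cD s t) → u p ≠ u (cU s τ)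
  b : ∀ p q, cD s t + 1 ≤ p → p < q → q ≤ p + K → q ≤ cD s t + W → q < Q → u p ≠ u q
  c : ∀ q, cU s t < q → q ≤ cU s t + W → q < Q → u (cU s t) ≠ u q

/-- **Decoding.** -/
theorem decode {A : Type} {s s' : ℕ → Bool} {u u' : ℕ → A} {t K W M Q : ℕ}
    (hagree : ∀ τ < t, s τ = s' τ) (hs : s t = false) (hs' : s' t = true)
    (hw : ∀ τ, τ ≤ t + W → wd s u τ = wd s' u' τ)
    (hh : cD s' t + 2 ≤ cU s' t) (hM : cU s' t ≤ cD s' t + M)
    (hW : K * (M + K + 1) + K ≤ W)
    (hrun : ∀ τ, t ≤ τ → τ + K ≤ t + W → ∃ i < K, s (τ + i) = false)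
    (hrun' : ∀ τ, t ≤ τ → τ + K ≤ t + W → ∃ i < K, s' (τ + i) = false)
    (hpeak : s' (t + 1) = false → u' (cU s' t) ≠ u' (cD s' t))
    (hht : ∀ τ, t ≤ τ → τ ≤ t + W → cD s' τ < cU s' τ) (hQ : cU s' (t + W + 1) ≤ Q)
    (hgood : u' (cU s' t) = u' (cD s' t) → Good s' u' t K W Q) : False := by
  have hQU : ∀ τ, τ ≤ t + W → s' τ = true → cU s' τ < Q := by
    intro τ hτ h
    have h1 := cU_mono s' (show τ + 1 ≤ t + W + 1 by omega)
    rw [cU_t h] at h1
    omega
  have hQD : ∀ τ, t ≤ τ → τ ≤ t + W → cD s' τ < Q := by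
    intro τ hτ0 hτ
    have h1 := cU_mono s' (show τ ≤ t + W + 1 by omega)
    have h2 := hht τ hτ0 hτ
    omega
  set α := cU s' t with hα
  set δ := cD s' t with hδ
  have hcU : cU s t = α := cU_congr hagree
  have hcD : cD s t = δ := cD_congr hagree
  have hKpos : 1 ≤ K := by
    obtain ⟨i, hi, -⟩ := hrun t le_rfl (by nlinarith)
    omega
  have hKM : K ≤ K * (M + K + 1) := Nat.le_mul_of_pos_right _ (by omega)
  have hlow : ∀ i < α, u i = u' i := by
    intro i hi
    obtain ⟨τ, h1, h2, h3⟩ := exists_push s' hi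
    have h4 := hw τ (by omega)
    have h5 : s τ = true := (hagree τ h1).trans h2
    rw [wd_t h5, wd_t h2, h3, cU_congr (fun x hx => hagree x (by omega)), h3] at h4
    exact h4
  have hx : u' α = u' δ := by
    have h4 := hw t (by omega)
    rw [wd_f hs, wd_t hs', hcD, hlow δ (by omega)] at h4
    exact h4.symm
  have G := hgood hx
  have GA := G.a
  have GB := G.b
  have GC := G.c
  rw [← hδ] at GB
  rw [← hα] at GC
  -- phase I
  have hs1 : s' (t + 1) = true := by
    rcases h : s' (t + 1) with _ | _
    · exact absurd hx (hpeak h)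
    · rfl
  obtain ⟨j, hjK, hj, hjlt⟩ : ∃ j, j < K ∧ s' (t + 1 + j) = false ∧ ∀ i < j, s' (t + 1 + i) = true := by
    have hex := hrun' (t + 1) (by omega) (by
      have : 1 ≤ K * (M + K + 1) := by omega
      have : K + 1 ≤ K * (M + K + 1) + K := by omega
      omega)
    have hex' : ∃ i, i < K ∧ s' (t + 1 + i) = false := hex
    classical
    refine ⟨Nat.find hex', (Nat.find_spec hex').1, (Nat.find_spec hex').2, fun i hi => ?_⟩
    have h1 := Nat.find_min hex' hi
    push Not at h1
    have h2 := h1 (by have := (Nat.find_spec hex').1; omega)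
    simpa using h2
  have hj1 : 1 ≤ j := by
    rcases Nat.eq_zero_or_pos j with h0 | h0
    · subst h0
      rw [add_zero, hs1] at hj
      exact Bool.noConfusion hj
    · exact h0
  have hIW : ∀ i, i ≤ j → t + 1 + i ≤ t + W := by
    intro i hi
    have : K + 1 ≤ K * (M + K + 1) + K := by omega
    omega
  have phI : ∀ i, i ≤ j → cU s' (t + 1 + i) = α + 1 + i ∧ cD s' (t + 1 + i) = δ ∧
      cU s (t + 1 + i) = α + i ∧ cD s (t + 1 + i) = δ + 1 ∧ ∀ l < i, u (α + l) = u' (α + 1 + l) := by
    intro i
    induction i with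
    | zero =>
      intro _
      refine ⟨?_, ?_, ?_, ?_, fun l hl => by omega⟩
      · rw [add_zero, cU_t hs']
      · rw [add_zero, cD_t hs']
      · rw [add_zero, cU_f hs, hcU]; rfl
      · rw [add_zero, cD_f hs, hcD]
    | succ i ih =>
      intro hi
      obtain ⟨h1, h2, h3, h4, h5⟩ := ih (by omega)
      have h6 := hjlt i (by omega)
      have h7 := hw (t + 1 + i) (hIW i (by omega))
      have h8 : s (t + 1 + i) = true := by
        rcases h : s (t + 1 + i) with _ | _
        · exfalso
          rw [wd_f h, wd_t h6, h4, h1, hlow _ (by omega)] at h7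
          refine GA (t + 1 + i) (by omega) (hIW i (by omega)) h6 (δ + 1) (by omega) (by omega) (by omega)
            (by omega) ?_
          rw [h1]; exact h7
        · rfl
      rw [wd_t h8, wd_t h6, h1, h3] at h7
      refine ⟨?_, ?_, ?_, ?_, fun l hl => ?_⟩
      · rw [← add_assoc, cU_t h6, h1]; omega
      · rw [← add_assoc, cD_t h6, h2]
      · rw [← add_assoc, cU_t h8, h3]; omega
      · rw [← add_assoc, cD_t h8, h4]
      · rcases Nat.lt_succ_iff_lt_or_eq.1 hl with h9 | rfl
        · exact h5 l h9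
        · exact h7
  obtain ⟨a1, a2, a3, a4, a5⟩ := phI j le_rfl
  set T0 := t + 1 + j with hT0
  have hT0s : s T0 = true := by
    rcases h : s T0 with _ | _
    · exfalso
      have h7 := hw T0 (hIW j le_rfl)
      rw [wd_f h, wd_f hj, a2, a4, hlow _ (by omega)] at h7
      refine GA t le_rfl (by omega) hs' (δ + 1) (by omega) (by omega) (by omega) (by omega) ?_
      rw [h7, ← hα, hx]
    · rfl
  have hux : u (α + j) = u' α := by
    have h7 := hw T0 (hIW j le_rfl)
    rw [wd_t hT0s, wd_f hj, a2, a3] at h7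
    rw [h7, hx]
  have b1 : cU s' (T0 + 1) = α + 1 + j := by rw [cU_f hj, a1]
  have b2 : cD s' (T0 + 1) = δ + 1 := by rw [cD_f hj, a2]
  have b3 : cU s (T0 + 1) = α + 1 + j := by rw [cU_t hT0s, a3]; omega
  have b4 : cD s (T0 + 1) = δ + 1 := by rw [cD_t hT0s, a4]
  -- the stuck lemma for a popped letter
  have stuckpop : ∀ τ, T0 + 1 ≤ τ → τ + 1 + K ≤ t + W → s' τ = false → cD s' τ < cU s' τ → s τ = true →
      u (cD s τ) = u' (cD s' τ) → False := by
    intro τ hτ1 hτ2 h1 h2 h3 h4
    have hd1 : δ + 1 ≤ cD s' τ := by rw [← b2]; exact cD_mono s' hτ1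
    refine stuck (s := s) (s' := s') (u := u) (u' := u') (τ := τ + 1) (K := K) (z := u' (cD s' τ))
      (by rw [cD_t h3]; exact h4) (fun i hi => hw _ (by omega)) (fun i hi => ?_) (hrun (τ + 1) (by omega) (by omega))
    have e1 : cD s' τ + 1 ≤ cD s' (τ + 1 + i) := by
      rw [← cD_f h1]; exact cD_mono s' (by omega)
    have e2 : cD s' (τ + 1 + i) ≤ cD s' τ + 1 + i := by
      rw [← cD_f h1]; exact cD_le s' _ _
    rcases h : s' (τ + 1 + i) with _ | _
    · rw [wd_f h]
      have e3 : cD s' (τ + 1 + i) ≤ δ + W := by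
        have := cD_le s' t (τ + 1 + i - t)
        rw [show t + (τ + 1 + i - t) = τ + 1 + i by omega] at this
        omega
      exact (GB _ _ hd1 (by omega) (by omega) e3 (hQD _ (by omega) (by omega))).symm
    · rw [wd_t h]
      have e4 : cU s' τ ≤ cU s' (τ + 1 + i) := cU_mono s' (by omega)
      exact (GA (τ + 1 + i) (by omega) (by omega) h (cD s' τ) (by omega) (by omega) (by omega) (by omega)).symm
  -- levels
  have lev : ∀ m, m ≤ M + K + 1 → δ + m ≤ cD s' (t + K * m) := by
    intro m
    induction m with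
    | zero => intro _; simp [hδ]
    | succ m ih =>
      intro hm
      have h1 := ih (by omega)
      have h2 : K * (m + 1) ≤ K * (M + K + 1) := Nat.mul_le_mul_left _ hm
      obtain ⟨i, hi, h3⟩ := hrun' (t + K * m) (by omega) (by
        have : K * (m + 1) = K * m + K := by ring
        omega)
      have h4 : cD s' (t + K * m) + 1 ≤ cD s' (t + K * (m + 1)) := by
        calc cD s' (t + K * m) + 1 ≤ cD s' (t + K * m + i) + 1 := by
              have := cD_mono s' (show t + K * m ≤ t + K * m + i by omega); omega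
          _ = cD s' (t + K * m + i + 1) := (cD_f h3).symm
          _ ≤ _ := cD_mono s' (by have : K * (m + 1) = K * m + K := by ring
                                  omega)
      omega
  have hend : α + 1 + j ≤ cD s' (t + K * (M + K + 1)) := by
    have := lev (M + K + 1) le_rfl
    omega
  have hU0 : ∀ τ, T0 + 1 ≤ τ → α + 1 + j ≤ cU s' τ := fun τ hτ => by rw [← b1]; exact cU_mono s' hτ
  -- phases II and III
  have phII : ∀ i, cD s' (T0 + 1 + i) ≤ α → T0 + 1 + i ≤ t + K * (M + K + 1) →
      cU s (T0 + 1 + i) = cU s' (T0 + 1 + i) ∧ cD s (T0 + 1 + i) = cD s' (T0 + 1 + i) := by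
    intro i
    induction i with
    | zero => intro _ _; rw [add_zero, b1, b2, b3, b4]; exact ⟨rfl, rfl⟩
    | succ i ih =>
      intro h1 h2
      set τ := T0 + 1 + i with hτ
      have hmon : cD s' τ ≤ cD s' (τ + 1) := cD_mono s' (by omega)
      rw [← add_assoc, ← hτ] at h1 h2 ⊢
      obtain ⟨h3, h4⟩ := ih (by omega) (by omega)
      have hUτ := hU0 τ (by omega)
      have hww := hw τ (by omega)
      have hst : s τ = s' τ := by
        rcases ha : s τ with _ | _ <;> rcases hb : s' τ with _ | _
        · rfl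
        · exfalso
          rw [wd_f ha, wd_t hb, h4] at hww
          by_cases hlt : cD s' τ < α
          · rw [hlow _ hlt] at hww
            exact GA τ (by omega) (by omega) hb (cD s' τ) (by omega) (by omega) (by omega) (by omega) hww
          · have he : cD s' τ = α := by omega
            have h5 := a5 0 (by omega)
            rw [add_zero, add_zero] at h5
            rw [he, h5] at hww
            exact GA τ (by omega) (by omega) hb (α + 1) (by omega) (by omega) (by omega) (by omega) hww
        · exfalso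
          rw [cD_f hb] at h1
          refine stuckpop τ (by omega) (by omega) hb (by omega) ha ?_
          rw [h4, hlow _ (by omega)]
        · rfl
      rcases hb : s' τ with _ | _
      · rw [hb] at hst
        rw [cU_f hb, cU_f hst, cD_f hb, cD_f hst, h3, h4]; exact ⟨rfl, rfl⟩
      · rw [hb] at hst
        rw [cU_t hb, cU_t hst, cD_t hb, cD_t hst, h3, h4]; exact ⟨rfl, rfl⟩
  -- the time at which the letter number `α` is popped by `s'`
  obtain ⟨T1, hT1a, hT1b, hT1c, hT1d⟩ : ∃ T1, T0 + 1 ≤ T1 ∧ T1 + 1 ≤ t + K * (M + K + 1) ∧ s' T1 = false ∧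
      cD s' T1 = α := by
    have hex : ∃ τ, α + 1 ≤ cD s' τ := ⟨_, (by omega : α + 1 ≤ α + 1 + j).trans hend⟩
    classical
    have hf := Nat.find_spec hex
    have hm := fun τ => Nat.find_min (m := τ) hex
    set F := Nat.find hex with hF
    have hF0 : T0 + 1 < F := by
      by_contra hcon
      have := cD_mono s' (show F ≤ T0 + 1 by omega)
      omega
    have hFle : F ≤ t + K * (M + K + 1) := Nat.find_min' hex ((by omega : α + 1 ≤ α + 1 + j).trans hend)
    obtain ⟨G1, hG1⟩ : ∃ G1, F = G1 + 1 := ⟨F - 1, by omega⟩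
    have h1 := hm G1 (by omega)
    rw [hG1] at hf
    rcases hb : s' G1 with _ | _
    · rw [cD_f hb] at hf
      exact ⟨G1, by omega, by omega, hb, by omega⟩
    · rw [cD_t hb] at hf
      omega
  obtain ⟨c1, c2⟩ := phII (T1 - (T0 + 1)) (by rw [show T0 + 1 + (T1 - (T0 + 1)) = T1 by omega]; omega) (by omega)
  rw [show T0 + 1 + (T1 - (T0 + 1)) = T1 by omega] at c1 c2
  have hsT1 : s T1 = true := by
    rcases h : s T1 with _ | _
    · exfalso
      have h7 := hw T1 (by omega)
      have h5 := a5 0 (by omega)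
      rw [add_zero, add_zero] at h5
      rw [wd_f h, wd_f hT1c, c2, hT1d, h5] at h7
      have h8 := hQU (t + 1) (by omega) hs1
      rw [cU_t hs', ← hα] at h8
      exact GC (α + 1) (by omega) (by omega) h8 h7.symm
    · rfl
  have d1 : cD s' (T1 + 1) = α + 1 := by rw [cD_f hT1c, hT1d]
  have d2 : cD s (T1 + 1) = α := by rw [cD_t hsT1, c2, hT1d]
  -- phase IV
  have phIV : ∀ i, cD s' (T1 + 1 + i) ≤ α + 1 + j → T1 + 1 + i ≤ t + K * (M + K + 1) →
      cD s (T1 + 1 + i) + 1 = cD s' (T1 + 1 + i) := by
    intro i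
    induction i with
    | zero => intro _ _; rw [add_zero, d1, d2]
    | succ i ih =>
      intro h1 h2
      set τ := T1 + 1 + i with hτ
      have hmon : cD s' τ ≤ cD s' (τ + 1) := cD_mono s' (by omega)
      have hmon1 : α + 1 ≤ cD s' τ := by rw [← d1]; exact cD_mono s' (by omega)
      rw [← add_assoc, ← hτ] at h1 h2 ⊢
      have h4 := ih (by omega) (by omega)
      have hUτ := hU0 τ (by omega)
      have hww := hw τ (by omega)
      have hfront : cD s' τ ≤ α + j → u (cD s τ) = u' (cD s' τ) := by
        intro h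
        have h5 := a5 (cD s τ - α) (by omega)
        rw [show α + (cD s τ - α) = cD s τ by omega, show α + 1 + (cD s τ - α) = cD s' τ by omega] at h5
        exact h5
      have hst : s τ = s' τ := by
        rcases ha : s τ with _ | _ <;> rcases hb : s' τ with _ | _
        · rfl
        · exfalso
          rw [wd_f ha, wd_t hb] at hww
          by_cases hlt : cD s' τ ≤ α + j
          · rw [hfront hlt] at hww
            exact GA τ (by omega) (by omega) hb (cD s' τ) (by omega) (by omega) (by omega) (by omega) hww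
          · rw [show cD s τ = α + j by omega, hux] at hww
            have e4 : cU s' τ ≤ α + W := by
              have := cU_le s' t (τ - t)
              rw [show t + (τ - t) = τ by omega] at this
              omega
            exact GC (cU s' τ) (by omega) e4 (hQU τ (by omega) hb) hww
        · exfalso
          rw [cD_f hb] at h1
          exact stuckpop τ (by omega) (by omega) hb (by omega) ha (hfront (by omega))
        · rfl
      rcases hb : s' τ with _ | _
      · rw [hb] at hst
        rw [cD_f hb, cD_f hst]; omega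
      · rw [hb] at hst
        rw [cD_t hb, cD_t hst]; omega
  -- phase V
  obtain ⟨T2, hT2a, hT2b, hT2c⟩ : ∃ T2, T1 + 1 ≤ T2 ∧ T2 ≤ t + K * (M + K + 1) ∧ cD s' T2 = α + 1 + j := by
    have hex : ∃ τ, α + 1 + j ≤ cD s' τ := ⟨_, hend⟩
    classical
    have hf := Nat.find_spec hex
    have hm := fun τ => Nat.find_min (m := τ) hex
    set F := Nat.find hex with hF
    have hF0 : T1 + 1 < F := by
      by_contra hcon
      have := cD_mono s' (show F ≤ T1 + 1 by omega)
      omega
    have hFle : F ≤ t + K * (M + K + 1) := Nat.find_min' hex hend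
    obtain ⟨G1, hG1⟩ : ∃ G1, F = G1 + 1 := ⟨F - 1, by omega⟩
    have h1 := hm G1 (by omega)
    have h2 := cD_le s' G1 1
    rw [← hG1] at h2
    exact ⟨F, by omega, hFle, by omega⟩
  have e1 := phIV (T2 - (T1 + 1)) (by rw [show T1 + 1 + (T2 - (T1 + 1)) = T2 by omega]; omega) (by omega)
  rw [show T1 + 1 + (T2 - (T1 + 1)) = T2 by omega, hT2c] at e1
  refine stuck (s := s) (s' := s') (u := u) (u' := u') (τ := T2) (K := K) (z := u' α)
    (by rw [show cD s T2 = α + j by omega, hux]) (fun i hi => hw _ (by omega)) (fun i hi => ?_)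
    (hrun T2 (by omega) (by omega))
  have e2 : α + 1 + j ≤ cD s' (T2 + i) := by rw [← hT2c]; exact cD_mono s' (by omega)
  rcases h : s' (T2 + i) with _ | _
  · rw [wd_f h]
    have e3 : cD s' (T2 + i) ≤ δ + W := by
      have := cD_le s' t (T2 + i - t)
      rw [show t + (T2 + i - t) = T2 + i by omega] at this
      omega
    exact (GC _ (by omega) (by omega) (hQD _ (by omega) (by omega))).symm
  · rw [wd_t h]
    have e5 := hU0 (T2 + i) (by omega)
    have e4 : cU s' (T2 + i) ≤ α + W := by
      have := cU_le s' t (T2 + i - t)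
      rw [show t + (T2 + i - t) = T2 + i by omega] at this
      omega
    exact (GC _ (by omega) e4 (hQU _ (by omega) h)).symm

end Pool.Agent.V11185.Shuf
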