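import Mathlib

set_option autoImplicit false

namespace Pool.Agent.V11185.Shuf

variable {A : Type}

/-- extension of a finite sequence by a default letter -/
def ext (a0 : A) {n : ℕ} (u : Fin n → A) (i : ℕ) : A := if h : i < n then u ⟨i, h⟩ else a0

lemma ext_snoc_lt (a0 : A) {n : ℕ} (u : Fin n → A) (x : A) {i : ℕ} (h : i < n) :
    ext a0 (Fin.snoc (α := fun _ => A) u x : Fin (n + 1) → A) i = ext a0 u i := by
  unfold ext
  rw [dif_pos (by omega : i < n + 1), dif_pos h]
  have : (⟨i, by omega⟩ : Fin (n + 1)) = Fin.castSucc ⟨i, h⟩ := rfl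
  rw [this, Fin.snoc_castSucc]

lemma ext_snoc_eq (a0 : A) {n : ℕ} (u : Fin n → A) (x : A) :
    ext a0 (Fin.snoc (α := fun _ => A) u x : Fin (n + 1) → A) n = x := by
  unfold ext
  rw [dif_pos (by omega : n < n + 1)]
  have : (⟨n, by omega⟩ : Fin (n + 1)) = Fin.last n := rfl
  rw [this, Fin.snoc_last]

variable [Fintype A] [DecidableEq A]

open Classical in
/-- sequences of length `n` whose letter number `i` is in `Al i` (which depends on the previous letters) -/
noncomputable def seqs (a0 : A) (Al : ℕ → (ℕ → A) → Finset A) (n : ℕ) : Finset (Fin n → A) :=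
  Finset.univ.filter fun u => ∀ i < n, ext a0 u i ∈ Al i (ext a0 u)

lemma seqs_succ (a0 : A) (Al : ℕ → (ℕ → A) → Finset A)
    (hAl : ∀ i (v v' : ℕ → A), (∀ l < i, v l = v' l) → Al i v = Al i v') (n : ℕ) :
    (seqs a0 Al (n + 1)).card = ∑ u ∈ seqs a0 Al n, (Al n (ext a0 u)).card := by
  classical
  have h1 : seqs a0 Al (n + 1) = ((seqs a0 Al n).sigma fun u => Al n (ext a0 u)).image
      (fun x : (_ : Fin n → A) × A => (Fin.snoc (α := fun _ => A) x.1 x.2 : Fin (n + 1) → A)) := by
    ext v
    simp only [seqs, Finset.mem_filter, Finset.mem_univ, true_and, Finset.mem_image, Finset.mem_sigma]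
    constructor
    · intro hv
      have e : v = (Fin.snoc (α := fun _ => A) (Fin.init v) (v (Fin.last n)) : Fin (n + 1) → A) :=
        (Fin.snoc_init_self v).symm
      have hag : ∀ i, i < n → ext a0 v i = ext a0 (Fin.init v) i := by
        intro i hi
        conv_lhs => rw [e]
        exact ext_snoc_lt a0 _ _ hi
      refine ⟨⟨Fin.init v, v (Fin.last n)⟩, ⟨fun i hi => ?_, ?_⟩, e.symm⟩
      · have := hv i (by omega)
        rw [hag i hi, hAl i _ (ext a0 (Fin.init v)) (fun l hl => hag l (by omega))] at this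
        exact this
      · have := hv n (by omega)
        have h2 : ext a0 v n = v (Fin.last n) := by
          conv_lhs => rw [e]
          exact ext_snoc_eq a0 _ _
        rw [h2, hAl n _ (ext a0 (Fin.init v)) (fun l hl => hag l hl)] at this
        exact this
    · rintro ⟨⟨u, x⟩, ⟨h1, h2⟩, rfl⟩ i hi
      rcases Nat.lt_succ_iff_lt_or_eq.1 hi with h3 | rfl
      · rw [ext_snoc_lt a0 _ _ h3, hAl i _ (ext a0 u) (fun l hl => ext_snoc_lt a0 _ _ (by omega))]
        exact h1 i h3
      · rw [ext_snoc_eq a0, hAl _ _ (ext a0 u) (fun l hl => ext_snoc_lt a0 _ _ hl)]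
        exact h2
  rw [h1, Finset.card_image_of_injective, Finset.card_sigma]
  rintro ⟨u, x⟩ ⟨u', x'⟩ h
  simp only at h
  have h2 : u = u' := by
    have := congrArg (fun v : Fin (n + 1) → A => Fin.init v) h
    simpa using this
  have h3 : x = x' := by
    have := congrFun h (Fin.last n)
    simpa using this
  rw [h2, h3]

lemma seqs_ge (a0 : A) (Al : ℕ → (ℕ → A) → Finset A)
    (hAl : ∀ i (v v' : ℕ → A), (∀ l < i, v l = v' l) → Al i v = Al i v') (f : ℕ → ℕ) (n : ℕ)
    (hf : ∀ i < n, ∀ v, f i ≤ (Al i v).card) : ∏ i ∈ Finset.range n, f i ≤ (seqs a0 Al n).card := by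
  induction n with
  | zero =>
    have : seqs a0 Al 0 = Finset.univ := by
      ext v; simp [seqs]
    simp [this]
  | succ n ih =>
    rw [seqs_succ a0 Al hAl, Finset.prod_range_succ]
    calc (∏ i ∈ Finset.range n, f i) * f n ≤ (seqs a0 Al n).card * f n :=
          Nat.mul_le_mul_right _ (ih fun i hi => hf i (by omega))
      _ = ∑ _u ∈ seqs a0 Al n, f n := by rw [Finset.sum_const, smul_eq_mul]
      _ ≤ _ := Finset.sum_le_sum fun u _ => hf n (by omega) _

lemma seqs_le (a0 : A) (Al : ℕ → (ℕ → A) → Finset A)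
    (hAl : ∀ i (v v' : ℕ → A), (∀ l < i, v l = v' l) → Al i v = Al i v') (f : ℕ → ℕ) (n : ℕ)
    (hf : ∀ i < n, ∀ v, (Al i v).card ≤ f i) : (seqs a0 Al n).card ≤ ∏ i ∈ Finset.range n, f i := by
  induction n with
  | zero =>
    have : seqs a0 Al 0 = Finset.univ := by
      ext v; simp [seqs]
    simp [this]
  | succ n ih =>
    rw [seqs_succ a0 Al hAl, Finset.prod_range_succ]
    calc _ ≤ ∑ _u ∈ seqs a0 Al n, f n := Finset.sum_le_sum fun u _ => hf n (by omega) _
      _ = (seqs a0 Al n).card * f n := by rw [Finset.sum_const, smul_eq_mul]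
      _ ≤ _ := Nat.mul_le_mul_right _ (ih fun i hi => hf i (by omega))

open Classical in
/-- the constraints `u i ≠ u p` for `R i p`, `p < i`; for each `i` there is at most one `p` -/
noncomputable def con (a0 : A) (R : ℕ → ℕ → Prop) (n : ℕ) : Finset (Fin n → A) :=
  Finset.univ.filter fun u => ∀ i < n, ∀ p, p < i → R i p → ext a0 u i ≠ ext a0 u p

open Classical in
noncomputable def AlC (R : ℕ → ℕ → Prop) (i : ℕ) (v : ℕ → A) : Finset A :=
  Finset.univ.filter fun x => ∀ p, p < i → R i p → x ≠ v p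

open Classical in
noncomputable def fC (A : Type) [Fintype A] (R : ℕ → ℕ → Prop) (i : ℕ) : ℕ :=
  if ∃ p, p < i ∧ R i p then Fintype.card A - 1 else Fintype.card A

lemma AlC_congr (R : ℕ → ℕ → Prop) (i : ℕ) (v v' : ℕ → A) (h : ∀ l < i, v l = v' l) :
    AlC R i v = AlC R i v' := by
  ext x
  simp only [AlC, Finset.mem_filter, Finset.mem_univ, true_and]
  exact ⟨fun h1 p hp hR => by rw [← h p hp]; exact h1 p hp hR,
    fun h1 p hp hR => by rw [h p hp]; exact h1 p hp hR⟩

lemma card_AlC (R : ℕ → ℕ → Prop) (hR : ∀ i p q, R i p → R i q → p = q) (i : ℕ) (v : ℕ → A) :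
    (AlC R i v).card = fC A R i := by
  classical
  unfold fC
  split_ifs with h
  · obtain ⟨p, hp, hRp⟩ := h
    have : AlC R i v = Finset.univ.erase (v p) := by
      ext x
      simp only [AlC, Finset.mem_filter, Finset.mem_univ, true_and, Finset.mem_erase, and_true]
      exact ⟨fun h1 => h1 p hp hRp, fun h1 q _ hq => by rw [hR i q p hq hRp]; exact h1⟩
    rw [this, Finset.card_erase_of_mem (Finset.mem_univ _), Finset.card_univ]
  · push Not at h
    have : AlC R i v = Finset.univ := by
      ext x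
      simp only [AlC, Finset.mem_filter, Finset.mem_univ, true_and, iff_true]
      exact fun p hp hRp => absurd hRp (h p hp)
    rw [this, Finset.card_univ]

open Classical in
lemma con_eq (a0 : A) (R : ℕ → ℕ → Prop) (n : ℕ) : con a0 R n = seqs a0 (AlC R) n := by
  ext u
  rw [con, seqs, Finset.mem_filter, Finset.mem_filter]
  refine and_congr_right fun _ => forall₂_congr fun i hi => ?_
  rw [AlC, Finset.mem_filter]
  exact ⟨fun h => ⟨Finset.mem_univ _, h⟩, fun h => h.2⟩

lemma card_con (a0 : A) (R : ℕ → ℕ → Prop) (hR : ∀ i p q, R i p → R i q → p = q) (n : ℕ) :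
    (con a0 R n).card = ∏ i ∈ Finset.range n, fC A R i := by
  rw [con_eq]
  exact le_antisymm (seqs_le a0 _ (AlC_congr R) _ n fun i _ v => (card_AlC R hR i v).le)
    (seqs_ge a0 _ (AlC_congr R) _ n fun i _ v => (card_AlC R hR i v).ge)

open Classical in
/-- sequences with the constraints and two forced equalities -/
lemma two_eq_aux (a0 : A) (R : ℕ → ℕ → Prop) (hR : ∀ i p q, R i p → R i q → p = q) (n : ℕ)
    {a c a' c' : ℕ} (hca : c < a) (han : a < n) (hca' : c' < a') (han' : a' < n) (hne : a ≠ a') :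
    ((con a0 R n).filter fun u => ext a0 u a = ext a0 u c ∧ ext a0 u a' = ext a0 u c').card *
      (Fintype.card A - 1) ^ 2 ≤ (con a0 R n).card := by
  set Al : ℕ → (ℕ → A) → Finset A := fun i v => if i = a then {v c} else if i = a' then {v c'} else AlC R i v
    with hAl
  set f : ℕ → ℕ := fun i => if i = a then 1 else if i = a' then 1 else fC A R i with hf
  have h1 : ((con a0 R n).filter fun u => ext a0 u a = ext a0 u c ∧ ext a0 u a' = ext a0 u c') ⊆
      seqs a0 Al n := by
    intro u hu
    rw [Finset.mem_filter, con_eq] at hu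
    obtain ⟨h2, h3, h4⟩ := hu
    simp only [seqs, Finset.mem_filter, Finset.mem_univ, true_and] at h2 ⊢
    intro i hi
    simp only [hAl]
    split_ifs with h5 h6
    · rw [h5, h3]; exact Finset.mem_singleton_self _
    · rw [h6, h4]; exact Finset.mem_singleton_self _
    · exact h2 i hi
  have hcong : ∀ i (v v' : ℕ → A), (∀ l < i, v l = v' l) → Al i v = Al i v' := by
    intro i v v' h
    simp only [hAl]
    split_ifs with h5 h6
    · rw [h c (by omega)]
    · rw [h c' (by omega)]
    · exact AlC_congr R i v v' h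
  have h2 : (seqs a0 Al n).card ≤ ∏ i ∈ Finset.range n, f i := by
    refine seqs_le a0 Al hcong f n fun i _ v => ?_
    simp only [hAl, hf]
    split_ifs with h5 h6
    · simp
    · simp
    · exact (card_AlC R hR i v).le
  have h3 : (∏ i ∈ Finset.range n, f i) * (Fintype.card A - 1) ^ 2 ≤ (con a0 R n).card := by
    rw [card_con a0 R hR]
    have ha : a ∈ Finset.range n := Finset.mem_range.2 han
    have ha' : a' ∈ (Finset.range n).erase a := Finset.mem_erase.2 ⟨hne.symm, Finset.mem_range.2 han'⟩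
    rw [← Finset.mul_prod_erase _ _ ha, ← Finset.mul_prod_erase _ _ ha',
      ← Finset.mul_prod_erase (Finset.range n) (fC A R) ha, ← Finset.mul_prod_erase _ (fC A R) ha']
    have h4 : ∏ i ∈ ((Finset.range n).erase a).erase a', f i =
        ∏ i ∈ ((Finset.range n).erase a).erase a', fC A R i := by
      refine Finset.prod_congr rfl fun i hi => ?_
      rw [Finset.mem_erase, Finset.mem_erase] at hi
      simp only [hf]
      rw [if_neg hi.2.1, if_neg hi.1]
    have h5 : f a = 1 := by simp [hf]
    have h6 : f a' = 1 := by simp [hf]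
    rw [h4, h5, h6, one_mul, one_mul]
    have h7 : ∀ i, Fintype.card A - 1 ≤ fC A R i := by
      intro i; unfold fC; split_ifs <;> omega
    calc _ = (Fintype.card A - 1) * ((Fintype.card A - 1) *
          ∏ i ∈ ((Finset.range n).erase a).erase a', fC A R i) := by ring
      _ ≤ _ := Nat.mul_le_mul (h7 a) (Nat.mul_le_mul_right _ (h7 a'))
  calc _ ≤ (seqs a0 Al n).card * (Fintype.card A - 1) ^ 2 := Nat.mul_le_mul_right _ (Finset.card_le_card h1)
    _ ≤ _ := (Nat.mul_le_mul_right _ h2).trans h3

open Classical in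
lemma two_eq (a0 : A) (R : ℕ → ℕ → Prop) (hR : ∀ i p q, R i p → R i q → p = q) (n : ℕ)
    {a c a' c' : ℕ} (hca : c < a) (han : a < n) (hca' : c' < a') (han' : a' < n)
    (hne : ¬ (a = a' ∧ c = c')) :
    ((con a0 R n).filter fun u => ext a0 u a = ext a0 u c ∧ ext a0 u c' = ext a0 u a').card *
      (Fintype.card A - 1) ^ 2 ≤ (con a0 R n).card := by
  by_cases h : a = a'
  · subst h
    have hcc : c ≠ c' := fun h => hne ⟨rfl, h⟩
    rcases lt_or_gt_of_ne hcc with h1 | h1
    · refine le_trans (Nat.mul_le_mul_right _ (Finset.card_le_card fun u hu => ?_))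
        (two_eq_aux a0 R hR n hca han h1 (by omega) (by omega : a ≠ c'))
      rw [Finset.mem_filter] at hu ⊢
      exact ⟨hu.1, hu.2.1, hu.2.2.trans hu.2.1⟩
    · refine le_trans (Nat.mul_le_mul_right _ (Finset.card_le_card fun u hu => ?_))
        (two_eq_aux a0 R hR n hca han h1 (by omega) (by omega : a ≠ c))
      rw [Finset.mem_filter] at hu ⊢
      exact ⟨hu.1, hu.2.1, (hu.2.1.symm.trans hu.2.2.symm)⟩
  · refine le_trans (Nat.mul_le_mul_right _ (Finset.card_le_card fun u hu => ?_))
        (two_eq_aux a0 R hR n hca han hca' han' h)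
    rw [Finset.mem_filter] at hu ⊢
    exact ⟨hu.1, hu.2.1, hu.2.2.symm⟩

end Pool.Agent.V11185.Shuf
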