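import Mathlib
import Pool.Agent.V11185.ShufB

set_option autoImplicit false

namespace Pool.Agent.V11185.Shuf

set_option linter.unusedSectionVars false

variable {B : Type} [Fintype B]

/-- partial sums of the displacements -/
def PS (b0 : B) (X : B → ℤ) {N : ℕ} (β : Fin N → B) (j : ℕ) : ℤ := ∑ i ∈ Finset.range j, X (ext b0 β i)

/-- the walk stays in the strip -/
def InStrip (b0 : B) (X : B → ℤ) (M : ℕ) {N : ℕ} (β : Fin N → B) : Prop :=
  ∀ j ≤ N, |PS b0 X β j| ≤ M

lemma PS_snoc_le (b0 : B) (X : B → ℤ) {N : ℕ} (β : Fin N → B) (y : B) {j : ℕ} (hj : j ≤ N) :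
    PS b0 X (Fin.snoc (α := fun _ => B) β y : Fin (N + 1) → B) j = PS b0 X β j := by
  unfold PS
  refine Finset.sum_congr rfl fun i hi => ?_
  rw [ext_snoc_lt b0 _ _ (by have := Finset.mem_range.1 hi; omega)]

lemma PS_snoc_succ (b0 : B) (X : B → ℤ) {N : ℕ} (β : Fin N → B) (y : B) :
    PS b0 X (Fin.snoc (α := fun _ => B) β y : Fin (N + 1) → B) (N + 1) = PS b0 X β N + X y := by
  have := PS_snoc_le b0 X β y (le_refl N)
  unfold PS at *
  rw [Finset.sum_range_succ, this, ext_snoc_eq]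

open Classical in
noncomputable def TT (b0 : B) (X : B → ℤ) (ω : B → ℝ) (M : ℕ) (θ : ℝ) (N : ℕ) : ℝ :=
  ∑ β : Fin N → B, if InStrip b0 X M β then
    (∏ i ∈ Finset.range N, ω (ext b0 β i)) * Real.cos (θ * PS b0 X β N) else 0

open Classical in
lemma TT_succ (b0 : B) (X : B → ℤ) (ω : B → ℝ) (hω : ∀ y, 0 ≤ ω y) (M b : ℕ) (hb : b ≤ 2 * M + 2)
    (hX : ∀ y, |X y| ≤ b) (θ : ℝ) (hθ : θ = Real.pi / (2 * (M + 1)))
    (hsin : ∑ y, ω y * Real.sin (θ * X y) = 0) (N : ℕ) :
    (∑ y, ω y * Real.cos (θ * X y)) * TT b0 X ω M θ N ≤ TT b0 X ω M θ (N + 1) := by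
  unfold TT
  rw [← (Fin.snocEquiv (fun _ => B)).sum_comp, Fintype.sum_prod_type, Finset.sum_comm, Finset.mul_sum]
  refine Finset.sum_le_sum fun β _ => ?_
  by_cases hβ : InStrip b0 X M β
  · rw [if_pos hβ]
    have h1 : ∀ y : B, (∏ i ∈ Finset.range N, ω (ext b0 β i)) *
        (ω y * Real.cos (θ * (PS b0 X β N + X y : ℤ))) ≤
        (if InStrip b0 X M (Fin.snocEquiv (fun _ => B) (y, β)) then
          (∏ i ∈ Finset.range (N + 1), ω (ext b0 (Fin.snocEquiv (fun _ => B) (y, β)) i)) *
            Real.cos (θ * PS b0 X (Fin.snocEquiv (fun _ => B) (y, β)) (N + 1)) else 0) := by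
      intro y
      have e0 : (Fin.snocEquiv (fun _ => B) (y, β)) = (Fin.snoc (α := fun _ => B) β y : Fin (N + 1) → B) := rfl
      rw [e0, PS_snoc_succ, Finset.prod_range_succ, ext_snoc_eq]
      have e1 : ∏ i ∈ Finset.range N, ω (ext b0 (Fin.snoc (α := fun _ => B) β y : Fin (N + 1) → B) i) =
          ∏ i ∈ Finset.range N, ω (ext b0 β i) :=
        Finset.prod_congr rfl fun i hi => by rw [ext_snoc_lt b0 _ _ (Finset.mem_range.1 hi)]
      rw [e1]
      split_ifs with h2
      · rw [mul_assoc]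
      · have h3 : ¬ |PS b0 X β N + X y| ≤ M := by
          intro h4
          apply h2
          intro j hj
          rcases Nat.le_succ_iff.1 hj with h5 | rfl
          · rw [PS_snoc_le b0 X β y h5]; exact hβ j h5
          · rw [PS_snoc_succ]; exact h4
        push Not at h3
        have h5 : |PS b0 X β N + X y| ≤ M + b := (abs_add_le _ _).trans (add_le_add (hβ N le_rfl) (hX y))
        set z : ℤ := PS b0 X β N + X y with hz
        have h6 : Real.cos (θ * (z : ℝ)) ≤ 0 := by
          have hMp : (0 : ℝ) < 2 * ((M : ℝ) + 1) := by positivity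
          have hθ0 : 0 ≤ θ := by rw [hθ]; positivity
          rw [← Real.cos_abs, abs_mul, abs_of_nonneg hθ0]
          have h7 : (M : ℝ) + 1 ≤ |(z : ℝ)| := by
            have : (M : ℤ) + 1 ≤ |z| := by omega
            exact_mod_cast this
          have h8 : |(z : ℝ)| ≤ 3 * ((M : ℝ) + 1) := by
            have : |z| ≤ 3 * ((M : ℤ) + 1) := by omega
            exact_mod_cast this
          apply Real.cos_nonpos_of_pi_div_two_le_of_le
          · rw [hθ, div_mul_eq_mul_div, le_div_iff₀ hMp]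
            nlinarith [Real.pi_pos]
          · rw [hθ, div_mul_eq_mul_div, div_le_iff₀ hMp]
            nlinarith [Real.pi_pos]
        have h7 : 0 ≤ ∏ i ∈ Finset.range N, ω (ext b0 β i) := Finset.prod_nonneg fun i _ => hω _
        have h8 := mul_nonneg h7 (hω y)
        nlinarith [mul_nonneg h8 (neg_nonneg.2 h6)]
    refine le_trans (le_of_eq ?_) (Finset.sum_le_sum fun y _ => h1 y)
    rw [← Finset.mul_sum]
    have h2 : ∑ y, ω y * Real.cos (θ * (PS b0 X β N + X y : ℤ)) =
        Real.cos (θ * PS b0 X β N) * ∑ y, ω y * Real.cos (θ * X y) -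
          Real.sin (θ * PS b0 X β N) * ∑ y, ω y * Real.sin (θ * X y) := by
      rw [Finset.mul_sum, Finset.mul_sum, ← Finset.sum_sub_distrib]
      refine Finset.sum_congr rfl fun y _ => ?_
      push_cast
      rw [mul_add, Real.cos_add]
      ring
    rw [h2, hsin]
    ring
  · rw [if_neg hβ, mul_zero]
    refine Finset.sum_nonneg fun y _ => ?_
    have e0 : (Fin.snocEquiv (fun _ => B) (y, β)) = (Fin.snoc (α := fun _ => B) β y : Fin (N + 1) → B) := rfl
    rw [if_neg]
    intro h
    apply hβ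
    intro j hj
    have := h j (by omega)
    rw [e0, PS_snoc_le b0 X β y hj] at this
    exact this

open Classical in
/-- the weighted number of walks in a strip -/
theorem strip_ge (b0 : B) (X : B → ℤ) (ω : B → ℝ) (hω : ∀ y, 0 ≤ ω y) (M b : ℕ) (hb : b ≤ 2 * M + 2)
    (hX : ∀ y, |X y| ≤ b) (θ : ℝ) (hθ : θ = Real.pi / (2 * (M + 1)))
    (hsin : ∑ y, ω y * Real.sin (θ * X y) = 0) (hL : 0 ≤ ∑ y, ω y * Real.cos (θ * X y)) (N : ℕ) :
    (∑ y, ω y * Real.cos (θ * X y)) ^ N ≤
      ∑ β ∈ Finset.univ.filter (fun β : Fin N → B => InStrip b0 X M β), ∏ i ∈ Finset.range N, ω (ext b0 β i) := by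
  have h1 : ∀ N, (∑ y, ω y * Real.cos (θ * X y)) ^ N ≤ TT b0 X ω M θ N := by
    intro N
    induction N with
    | zero =>
      unfold TT
      have : ∀ β : Fin 0 → B, InStrip b0 X M β := by
        intro β j hj
        have : j = 0 := by omega
        subst this
        simp [PS]
      simp [this, PS]
    | succ N ih =>
      rw [pow_succ']
      exact (mul_le_mul_of_nonneg_left ih hL).trans (TT_succ b0 X ω hω M b hb hX θ hθ hsin N)
  refine (h1 N).trans ?_
  unfold TT
  rw [Finset.sum_filter]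
  refine Finset.sum_le_sum fun β _ => ?_
  split_ifs
  · have h7 : 0 ≤ ∏ i ∈ Finset.range N, ω (ext b0 β i) := Finset.prod_nonneg fun i _ => hω _
    exact mul_le_of_le_one_right h7 (Real.cos_le_one _)
  · exact le_rfl

end Pool.Agent.V11185.Shuf
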