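import Mathlib
import Pool.Agent.V11185.ShufC

set_option autoImplicit false

namespace Pool.Agent.V11185.Shuf

/-- blocks of length `b`, not constant -/
abbrev Blk (b : ℕ) : Type := {β : Fin b → Bool // (∃ i, β i = true) ∧ ∃ i, β i = false}

/-- the number of `i` with `β i = true`, `β (i + 1) = false` -/
def pk {b : ℕ} (β : Fin b → Bool) : ℕ :=
  (Finset.univ.filter fun i : Fin b => β i = true ∧ ∃ h : (i : ℕ) + 1 < b, β ⟨i + 1, h⟩ = false).card

/-- the displacement -/
def disp {b : ℕ} (β : Fin b → Bool) : ℤ := ∑ i, if β i then 1 else -1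

/-- reverse and complement -/
def rc {b : ℕ} (β : Fin b → Bool) : Fin b → Bool := fun i => !β (Fin.rev i)

lemma rc_rc {b : ℕ} (β : Fin b → Bool) : rc (rc β) = β := by
  funext i; simp [rc]

lemma disp_rc {b : ℕ} (β : Fin b → Bool) : disp (rc β) = - disp β := by
  unfold disp rc
  rw [← Finset.sum_neg_distrib, ← Equiv.sum_comp (Fin.revPerm (n := b))]
  refine Finset.sum_congr rfl fun i _ => ?_
  simp only [Fin.revPerm_apply, Fin.rev_rev]
  cases β i <;> simp

lemma pk_rc_le {b : ℕ} (β : Fin b → Bool) : pk (rc β) ≤ pk β := by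
  unfold pk
  refine Finset.card_le_card_of_injOn (fun i => if h : (i : ℕ) + 1 < b then Fin.rev ⟨i + 1, h⟩ else i) ?_ ?_
  · intro i hi
    have hi' := (Finset.mem_filter.1 (Finset.mem_coe.1 hi)).2
    obtain ⟨h1, h2, h3⟩ := hi'
    simp only [rc, Bool.not_eq_true', Bool.not_eq_false'] at h1 h3
    refine Finset.mem_coe.2 (Finset.mem_filter.2 ⟨Finset.mem_univ _, ?_⟩)
    simp only [dif_pos h2]
    refine ⟨h3, ?_, ?_⟩
    · rw [Fin.val_rev]; simp only; omega
    · have : (⟨(Fin.rev ⟨(i : ℕ) + 1, h2⟩ : Fin b) + 1, by rw [Fin.val_rev]; simp only; omega⟩ : Fin b) = Fin.rev i := by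
        apply Fin.ext
        simp only [Fin.val_rev]
        omega
      rw [this]; exact h1
  · intro i hi j hj hij
    have hi' := (Finset.mem_filter.1 (Finset.mem_coe.1 hi)).2
    have hj' := (Finset.mem_filter.1 (Finset.mem_coe.1 hj)).2
    obtain ⟨-, h2, -⟩ := hi'
    obtain ⟨-, h4, -⟩ := hj'
    simp only [dif_pos h2, dif_pos h4] at hij
    have h5 := congrArg Fin.val (Fin.rev_injective hij)
    simp only at h5
    exact Fin.ext (by omega)

lemma pk_rc {b : ℕ} (β : Fin b → Bool) : pk (rc β) = pk β :=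
  le_antisymm (pk_rc_le β) (by have := pk_rc_le (rc β); rwa [rc_rc] at this)

def rcB {b : ℕ} : Blk b ≃ Blk b where
  toFun β := ⟨rc β.1, by
    obtain ⟨⟨i, hi⟩, ⟨j, hj⟩⟩ := β.2
    exact ⟨⟨Fin.rev j, by simp [rc, hj]⟩, ⟨Fin.rev i, by simp [rc, hi]⟩⟩⟩
  invFun β := ⟨rc β.1, by
    obtain ⟨⟨i, hi⟩, ⟨j, hj⟩⟩ := β.2
    exact ⟨⟨Fin.rev j, by simp [rc, hj]⟩, ⟨Fin.rev i, by simp [rc, hi]⟩⟩⟩
  left_inv β := Subtype.ext (rc_rc _)
  right_inv β := Subtype.ext (rc_rc _)

noncomputable def om (x : ℝ) {b : ℕ} (β : Blk b) : ℝ := (1 - x) ^ (pk β.1 + 1)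

lemma sin_zero (x θ : ℝ) (b : ℕ) : ∑ y : Blk b, om x y * Real.sin (θ * disp y.1) = 0 := by
  have h : ∑ y : Blk b, om x y * Real.sin (θ * disp y.1) = - ∑ y : Blk b, om x y * Real.sin (θ * disp y.1) := by
    conv_lhs => rw [← (rcB (b := b)).sum_comp]
    rw [← Finset.sum_neg_distrib]
    refine Finset.sum_congr rfl fun y _ => ?_
    have e1 : (rcB y).1 = rc y.1 := rfl
    unfold om
    rw [e1, pk_rc, disp_rc]
    push_cast
    rw [mul_neg, Real.sin_neg, mul_neg]
  linarith

lemma disp_le {b : ℕ} (β : Fin b → Bool) : |disp β| ≤ b := by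
  unfold disp
  calc |∑ i, if β i then (1 : ℤ) else -1| ≤ ∑ i, |if β i then (1 : ℤ) else -1| := Finset.abs_sum_le_sum_abs _ _
    _ ≤ ∑ _i : Fin b, (1 : ℤ) := Finset.sum_le_sum fun i _ => by split_ifs <;> simp
    _ = b := by simp

lemma card_two {b : ℕ} (i j : Fin b) (hij : i ≠ j) :
    4 * (Finset.univ.filter fun β : Fin b → Bool => β i = true ∧ β j = false).card = 2 ^ b := by
  have h1 : (Finset.univ.filter fun β : Fin b → Bool => β i = true ∧ β j = false) =
      Fintype.piFinset (fun l => if l = i then {true} else if l = j then {false} else (Finset.univ : Finset Bool)) := by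
    ext β
    simp only [Finset.mem_filter, Finset.mem_univ, true_and, Fintype.mem_piFinset]
    constructor
    · rintro ⟨h1, h2⟩ l
      split_ifs with h3 h4
      · rw [h3, h1]; exact Finset.mem_singleton_self _
      · rw [h4, h2]; exact Finset.mem_singleton_self _
      · exact Finset.mem_univ _
    · intro h
      have h1 := h i
      have h2 := h j
      rw [if_pos rfl] at h1
      rw [if_neg hij.symm, if_pos rfl] at h2
      exact ⟨Finset.mem_singleton.1 h1, Finset.mem_singleton.1 h2⟩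
  rw [h1, Fintype.card_piFinset]
  have h2 : ∏ l : Fin b, (if l = i then ({true} : Finset Bool) else if l = j then {false} else Finset.univ).card =
      ∏ l : Fin b, (if l = i then 1 else if l = j then 1 else 2) := by
    refine Finset.prod_congr rfl fun l _ => ?_
    split_ifs <;> simp
  rw [h2, ← Finset.mul_prod_erase _ _ (Finset.mem_univ i),
    ← Finset.mul_prod_erase _ _ (Finset.mem_erase.2 ⟨hij.symm, Finset.mem_univ j⟩)]
  rw [if_pos rfl, if_neg hij.symm, if_pos rfl]
  have h3 : ∏ l ∈ ((Finset.univ : Finset (Fin b)).erase i).erase j, (if l = i then 1 else if l = j then 1 else 2) =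
      2 ^ (b - 2) := by
    rw [Finset.prod_congr rfl (g := fun _ => 2) (fun l hl => ?_), Finset.prod_const,
      Finset.card_erase_of_mem (Finset.mem_erase.2 ⟨hij.symm, Finset.mem_univ j⟩),
      Finset.card_erase_of_mem (Finset.mem_univ i), Finset.card_univ, Fintype.card_fin]
    · rfl
    · rw [Finset.mem_erase, Finset.mem_erase] at hl
      rw [if_neg hl.2.1, if_neg hl.1]
  rw [h3]
  have hb : 2 ≤ b := by
    have h4 := i.2
    have h5 := j.2
    have h6 : (i : ℕ) ≠ j := fun h => hij (Fin.ext h)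
    omega
  obtain ⟨c, rfl⟩ : ∃ c, b = c + 2 := ⟨b - 2, by omega⟩
  rw [show c + 2 - 2 = c by omega]
  ring

lemma sum_pk (b : ℕ) : 4 * ∑ β : Fin b → Bool, pk β ≤ b * 2 ^ b := by
  have h1 : ∑ β : Fin b → Bool, pk β = ∑ i : Fin b, (Finset.univ.filter fun β : Fin b → Bool =>
      β i = true ∧ ∃ h : (i : ℕ) + 1 < b, β ⟨i + 1, h⟩ = false).card := by
    unfold pk
    simp only [Finset.card_filter]
    rw [Finset.sum_comm]
  rw [h1, Finset.mul_sum]
  calc _ ≤ ∑ _i : Fin b, 2 ^ b := Finset.sum_le_sum fun i _ => ?_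
    _ = b * 2 ^ b := by simp
  by_cases h : (i : ℕ) + 1 < b
  · rw [← card_two i ⟨i + 1, h⟩ (fun h2 => by have := congrArg Fin.val h2; simp at this)]
    refine Nat.mul_le_mul_left _ (Finset.card_le_card fun β hβ => ?_)
    rw [Finset.mem_filter] at hβ ⊢
    obtain ⟨h1, h2, h3, h4⟩ := hβ
    exact ⟨h1, h2, h4⟩
  · have : (Finset.univ.filter fun β : Fin b → Bool =>
      β i = true ∧ ∃ h : (i : ℕ) + 1 < b, β ⟨i + 1, h⟩ = false) = ∅ := by
      rw [Finset.filter_eq_empty_iff]
      rintro β _ ⟨_, h2, _⟩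
      exact h h2
    rw [this]; simp

/-- lower bound for the sum of the weights of the blocks -/
lemma sum_om (x : ℝ) (hx0 : 0 ≤ x) (hx1 : x ≤ 1) (b : ℕ) (hb : 1 ≤ b) :
    (2 : ℝ) ^ b * (1 - b * x / 4 - x - 2 / 2 ^ b) ≤ ∑ y : Blk b, om x y := by
  classical
  have h1 : ∑ y : Blk b, om x y ≥ ∑ y : Blk b, (1 - (pk y.1 + 1) * x) := by
    refine Finset.sum_le_sum fun y _ => ?_
    unfold om
    have := one_add_mul_le_pow (a := -x) (by linarith) (pk y.1 + 1)
    push_cast at this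
    rw [show (1 : ℝ) - x = 1 + -x by ring]
    linarith
  have h2 : (Fintype.card (Blk b) : ℝ) ≥ 2 ^ b - 2 := by
    have e1 : Fintype.card (Blk b) = (Finset.univ.filter fun β : Fin b → Bool =>
        (∃ i, β i = true) ∧ ∃ i, β i = false).card := by
      rw [← Fintype.card_subtype]
    have e2 : (Finset.univ : Finset (Fin b → Bool)) ⊆ (Finset.univ.filter fun β : Fin b → Bool =>
        (∃ i, β i = true) ∧ ∃ i, β i = false) ∪ {fun _ => true, fun _ => false} := by
      intro β _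
      rw [Finset.mem_union, Finset.mem_filter, Finset.mem_insert, Finset.mem_singleton]
      by_cases h3 : ∃ i, β i = true
      · by_cases h4 : ∃ i, β i = false
        · exact Or.inl ⟨Finset.mem_univ _, h3, h4⟩
        · right; left; funext i
          by_contra h5
          exact h4 ⟨i, by simpa using h5⟩
      · right; right; funext i
        by_contra h5
        exact h3 ⟨i, by simpa using h5⟩
    have e3 := (Finset.card_le_card e2).trans (Finset.card_union_le _ _)
    have e4 : ({fun _ => true, fun _ => false} : Finset (Fin b → Bool)).card ≤ 2 := Finset.card_le_two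
    rw [Finset.card_univ, Fintype.card_fun, Fintype.card_bool, Fintype.card_fin, ← e1] at e3
    have e5 : 2 ^ b ≤ Fintype.card (Blk b) + 2 := e3.trans (by omega)
    have e6 : ((2 : ℝ) ^ b) ≤ Fintype.card (Blk b) + 2 := by exact_mod_cast e5
    linarith
  have h3 : (∑ y : Blk b, (pk y.1 : ℝ)) ≤ b * 2 ^ b / 4 := by
    have e1 : ∑ y : Blk b, pk y.1 ≤ ∑ β : Fin b → Bool, pk β := by
      have : ∑ y : Blk b, pk y.1 = ∑ β ∈ (Finset.univ : Finset (Blk b)).image Subtype.val, pk β := by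
        rw [Finset.sum_image (fun a _ b _ h => Subtype.ext h)]
      rw [this]
      exact Finset.sum_le_sum_of_subset (Finset.subset_univ _)
    have e2 := sum_pk b
    have e3 : (4 : ℝ) * ∑ y : Blk b, (pk y.1 : ℝ) ≤ b * 2 ^ b := by
      exact_mod_cast (Nat.mul_le_mul_left 4 e1).trans e2
    linarith
  have h4 : ∑ y : Blk b, (1 - ((pk y.1 : ℝ) + 1) * x) = Fintype.card (Blk b) * (1 - x) - x * ∑ y : Blk b, (pk y.1 : ℝ) := by
    rw [Finset.mul_sum, ← nsmul_eq_mul, ← Finset.card_univ, ← Finset.sum_const, ← Finset.sum_sub_distrib]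
    refine Finset.sum_congr rfl fun y _ => ?_
    ring
  rw [h4] at h1
  have hp : (0 : ℝ) < 2 ^ b := by positivity
  have h5 : (2 : ℝ) ^ b * (1 - b * x / 4 - x - 2 / 2 ^ b) = 2 ^ b - 2 - x * 2 ^ b - x * (b * 2 ^ b / 4) := by
    field_simp
    ring
  rw [h5]
  nlinarith [mul_le_mul_of_nonneg_left h3 hx0, mul_nonneg (sub_nonneg.2 hx1) (sub_nonneg.2 h2)]

/-- lower bound for the eigenvalue -/
lemma lam_ge (x θ : ℝ) (hx0 : 0 ≤ x) (hx1 : x ≤ 1) (b : ℕ) (hb : 1 ≤ b) (hθ : θ ^ 2 * b ^ 2 / 2 ≤ 1) :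
    (2 : ℝ) ^ b * (1 - b * x / 4 - x - 2 / 2 ^ b) * (1 - θ ^ 2 * b ^ 2 / 2) ≤
      ∑ y : Blk b, om x y * Real.cos (θ * disp y.1) := by
  have h1 : ∑ y : Blk b, om x y * (1 - θ ^ 2 * b ^ 2 / 2) ≤ ∑ y : Blk b, om x y * Real.cos (θ * disp y.1) := by
    refine Finset.sum_le_sum fun y _ => ?_
    refine mul_le_mul_of_nonneg_left ?_ (by unfold om; exact pow_nonneg (by linarith) _)
    have h2 := Real.one_sub_sq_div_two_le_cos (x := θ * disp y.1)
    have h3 : ((disp y.1 : ℤ) : ℝ) ^ 2 ≤ b ^ 2 := by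
      have h4 : |((disp y.1 : ℤ) : ℝ)| ≤ b := by
        have := disp_le y.1
        exact_mod_cast this
      rw [← sq_abs]
      exact pow_le_pow_left₀ (abs_nonneg _) h4 2
    nlinarith [mul_le_mul_of_nonneg_left h3 (sq_nonneg θ)]
  rw [← Finset.sum_mul] at h1
  refine le_trans ?_ h1
  exact mul_le_mul_of_nonneg_right (sum_om x hx0 hx1 b hb) (by linarith)

end Pool.Agent.V11185.Shuf
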