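import Mathlib
import Pool.Agent.V11185.ShufA
import Pool.Agent.V11185.ShufD

set_option autoImplicit false

namespace Pool.Agent.V11185.Shuf

/-- the main part of the path, from the blocks -/
def mainp {b N : ℕ} (b0 : Blk b) (β : Fin N → Blk b) (τ : ℕ) : Bool :=
  if hb : τ % b < b then (ext b0 β (τ / b)).1 ⟨τ % b, hb⟩ else true

lemma mainp_block {b N : ℕ} (b0 : Blk b) (β : Fin N → Blk b) (j : ℕ) (l : Fin b) :
    mainp b0 β (j * b + l) = (ext b0 β j).1 l := by
  have hb : 0 < b := by have := l.2; omega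
  have h1 : (j * b + l) % b = l := by
    rw [add_comm, Nat.add_mul_mod_self_right, Nat.mod_eq_of_lt l.2]
  have h2 : (j * b + l) / b = j := by
    rw [add_comm, Nat.add_mul_div_right _ _ hb, Nat.div_eq_of_lt l.2, zero_add]
  unfold mainp
  rw [dif_pos (by rw [h1]; exact l.2)]
  simp only [h1, h2]

/-- the path: `h` times up, the blocks, then down and up so that both numbers are `n` -/
def pth {b N : ℕ} (b0 : Blk b) (β : Fin N → Blk b) (h n : ℕ) (τ : ℕ) : Bool :=
  if τ < h then true else if τ < h + N * b then mainp b0 β (τ - h)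
  else decide (h + N * b + (n - cD (mainp b0 β) (N * b)) ≤ τ)

section
variable {b N : ℕ} (b0 : Blk b) (β : Fin N → Blk b) (h n : ℕ)

lemma pth_lt {τ : ℕ} (hτ : τ < h) : pth b0 β h n τ = true := by
  unfold pth; rw [if_pos hτ]

lemma pth_main {τ : ℕ} (hτ : τ < N * b) : pth b0 β h n (h + τ) = mainp b0 β τ := by
  unfold pth; rw [if_neg (by omega), if_pos (by omega)]
  congr 1; omega

lemma cU_pre {τ : ℕ} (hτ : τ ≤ h) : cU (pth b0 β h n) τ = τ := by
  induction τ with
  | zero => rfl
  | succ τ ih => rw [cU_t (pth_lt b0 β h n (by omega)), ih (by omega)]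

lemma cU_main {τ : ℕ} (hτ : τ ≤ N * b) :
    cU (pth b0 β h n) (h + τ) = h + cU (mainp b0 β) τ := by
  induction τ with
  | zero => rw [add_zero, cU_pre b0 β h n le_rfl]; rfl
  | succ τ ih =>
    rw [← add_assoc]
    simp only [cU]
    rw [ih (by omega), pth_main b0 β h n (by omega)]
    omega

lemma cD_main {τ : ℕ} (hτ : τ ≤ N * b) :
    cD (pth b0 β h n) (h + τ) = cD (mainp b0 β) τ := by
  have h1 := cU_add_cD (pth b0 β h n) (h + τ)
  have h2 := cU_add_cD (mainp b0 β) τ
  rw [cU_main b0 β h n hτ] at h1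
  omega

lemma height_steps (s : ℕ → Bool) (a l : ℕ) :
    ((cU s (a + l) : ℤ) - cD s (a + l)) = cU s a - cD s a + ∑ i ∈ Finset.range l, (if s (a + i) then (1 : ℤ) else -1) := by
  induction l with
  | zero => simp
  | succ l ih =>
    rw [Finset.sum_range_succ, ← add_assoc]
    simp only [cU, cD]
    rcases hs : s (a + l) with _ | _
    · simp only [Bool.false_eq_true, if_false]
      push_cast
      linarith
    · simp only [if_true]
      push_cast
      linarith

lemma height_block (j : ℕ) :
    ((cU (mainp b0 β) (j * b) : ℤ) - cD (mainp b0 β) (j * b)) = PS b0 (fun y => disp y.1) β j := by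
  induction j with
  | zero => simp [PS, cU, cD]
  | succ j ih =>
    unfold PS at ih ⊢
    rw [show (j + 1) * b = j * b + b by ring, height_steps, ih, Finset.sum_range_succ]
    congr 1
    unfold disp
    rw [Finset.sum_range]
    refine Finset.sum_congr rfl fun i _ => ?_
    rw [mainp_block]

lemma height_bound (M : ℕ) (hb : 0 < b) (hS : InStrip b0 (fun y : Blk b => disp y.1) M β) {τ : ℕ} (hτ : τ ≤ N * b) :
    cU (mainp b0 β) τ ≤ cD (mainp b0 β) τ + M + b ∧ cD (mainp b0 β) τ ≤ cU (mainp b0 β) τ + M + b := by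
  have h1 : τ / b ≤ N := Nat.div_le_of_le_mul (by rw [mul_comm]; exact hτ)
  have h2 := hS (τ / b) h1
  rw [← height_block] at h2
  have h3 : τ / b * b + τ % b = τ := Nat.div_add_mod' τ b
  have h4 : τ % b < b := Nat.mod_lt _ hb
  set J := τ / b * b with hJ
  have h5 := cU_le (mainp b0 β) J (τ % b)
  have h6 := cD_le (mainp b0 β) J (τ % b)
  have h7 := cU_mono (mainp b0 β) (show J ≤ J + τ % b by omega)
  have h8 := cD_mono (mainp b0 β) (show J ≤ J + τ % b by omega)
  rw [h3] at h5 h6 h7 h8
  rw [abs_le] at h2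
  omega

lemma main_run (hb : 0 < b) (τ : ℕ) : ∃ i < 2 * b, mainp b0 β (τ + i) = false := by
  obtain ⟨l, hl⟩ := (ext b0 β (τ / b + 1)).2.2
  have h3 : τ / b * b + τ % b = τ := Nat.div_add_mod' τ b
  have h4 : τ % b < b := Nat.mod_lt _ hb
  have h5 := mainp_block b0 β (τ / b + 1) l
  rw [hl] at h5
  have h6 : (τ / b + 1) * b = τ / b * b + b := by ring
  have h7 := l.2
  refine ⟨(τ / b + 1) * b + l - τ, by omega, ?_⟩
  rw [show τ + ((τ / b + 1) * b + l - τ) = (τ / b + 1) * b + l by omega]
  exact h5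

lemma cD_total (hd : cD (mainp b0 β) (N * b) ≤ n) (hu : h + cU (mainp b0 β) (N * b) ≤ n) :
    cD (pth b0 β h n) (2 * n) = n ∧ cU (pth b0 β h n) (2 * n) = n := by
  have hsum := cU_add_cD (mainp b0 β) (N * b)
  set d := cD (mainp b0 β) (N * b) with hdd
  have h1 : ∀ x, x ≤ n - d → cD (pth b0 β h n) (h + N * b + x) = d + x := by
    intro x
    induction x with
    | zero => intro _; rw [add_zero, cD_main b0 β h n le_rfl, add_zero]
    | succ x ih =>
      intro hx
      have h2 : pth b0 β h n (h + N * b + x) = false := by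
        unfold pth
        rw [if_neg (by omega), if_neg (by omega)]
        simp only [decide_eq_false_iff_not]
        omega
      rw [← add_assoc, cD_f h2, ih (by omega)]; omega
  have h2 : ∀ x, cD (pth b0 β h n) (h + N * b + (n - d) + x) = n := by
    intro x
    induction x with
    | zero => rw [add_zero, h1 _ le_rfl]; omega
    | succ x ih =>
      have h2 : pth b0 β h n (h + N * b + (n - d) + x) = true := by
        unfold pth
        rw [if_neg (by omega), if_neg (by omega)]
        simp only [decide_eq_true_eq]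
        omega
      rw [← add_assoc, cD_t h2, ih]
  have h3 := h2 (2 * n - (h + N * b + (n - d)))
  rw [show h + N * b + (n - d) + (2 * n - (h + N * b + (n - d))) = 2 * n by omega] at h3
  refine ⟨h3, ?_⟩
  have := cU_add_cD (pth b0 β h n) (2 * n)
  omega

/-- peaks in the main part -/
def peaks : Finset ℕ := (Finset.range (h + N * b)).filter fun τ =>
  h ≤ τ ∧ τ + 1 < h + N * b ∧ pth b0 β h n τ = true ∧ pth b0 β h n (τ + 1) = false

lemma card_peaks (hb : 0 < b) :
    (peaks b0 β h n).card ≤ ∑ j ∈ Finset.range N, (pk (ext b0 β j).1 + 1) := by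
  have h1 : peaks b0 β h n ⊆ (Finset.range N).biUnion fun j =>
      insert (h + (j * b + (b - 1))) (((Finset.univ.filter fun i : Fin b => (ext b0 β j).1 i = true ∧
        ∃ hi : (i : ℕ) + 1 < b, (ext b0 β j).1 ⟨i + 1, hi⟩ = false)).image fun i : Fin b => h + (j * b + (i : ℕ))) := by
    intro τ hτ
    rw [peaks, Finset.mem_filter, Finset.mem_range] at hτ
    obtain ⟨h1, h2, h3, h4, h5⟩ := hτ
    set x := τ - h with hx
    have e1 : τ = h + x := by omega
    have e2 : x / b * b + x % b = x := Nat.div_add_mod' x b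
    have e3 : x % b < b := Nat.mod_lt _ hb
    have e4 : x / b < N := by
      rw [Nat.div_lt_iff_lt_mul hb]; omega
    rw [e1, pth_main b0 β h n (by omega)] at h4
    rw [e1, add_assoc, pth_main b0 β h n (by omega)] at h5
    rw [Finset.mem_biUnion]
    refine ⟨x / b, Finset.mem_range.2 e4, ?_⟩
    rw [Finset.mem_insert, Finset.mem_image]
    by_cases h6 : x % b + 1 < b
    · right
      refine ⟨⟨x % b, e3⟩, ?_, ?_⟩
      · rw [Finset.mem_filter]
        refine ⟨Finset.mem_univ _, ?_, h6, ?_⟩
        · rw [← mainp_block]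
          simp only
          rw [e2]; exact h4
        · rw [← mainp_block]
          simp only
          rw [← add_assoc, e2]; exact h5
      · simp only
        rw [e2]; omega
    · left
      omega
  refine (Finset.card_le_card h1).trans (Finset.card_biUnion_le.trans (Finset.sum_le_sum fun j _ => ?_))
  refine (Finset.card_insert_le _ _).trans ?_
  have := Finset.card_image_le (s := (Finset.univ.filter fun i : Fin b => (ext b0 β j).1 i = true ∧
        ∃ hi : (i : ℕ) + 1 < b, (ext b0 β j).1 ⟨i + 1, hi⟩ = false)) (f := fun i : Fin b => h + (j * b + (i : ℕ)))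
  unfold pk
  omega

/-- the relation of the constraints -/
def RR (i p : ℕ) : Prop := ∃ τ ∈ peaks b0 β h n, cU (pth b0 β h n) τ = i ∧ cD (pth b0 β h n) τ = p

lemma push_unique {s : ℕ → Bool} {τ τ' : ℕ} (h1 : s τ = true) (h2 : s τ' = true) (h3 : cU s τ = cU s τ') : τ = τ' := by
  rcases lt_trichotomy τ τ' with h | h | h
  · have := cU_mono s (show τ + 1 ≤ τ' by omega)
    rw [cU_t h1] at this; omega
  · exact h
  · have := cU_mono s (show τ' + 1 ≤ τ by omega)
    rw [cU_t h2] at this; omega

lemma RR_unique (i p q : ℕ) (h1 : RR b0 β h n i p) (h2 : RR b0 β h n i q) : p = q := by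
  obtain ⟨τ, a1, a2, a3⟩ := h1
  obtain ⟨τ', b1, b2, b3⟩ := h2
  rw [peaks, Finset.mem_filter] at a1 b1
  have := push_unique a1.2.2.2.1 b1.2.2.2.1 (a2.trans b2.symm)
  rw [← a3, ← b3, this]

open Classical in
/-- lower bound for the number of letter sequences -/
lemma card_con_ge {A : Type} [Fintype A] [DecidableEq A] (a0 : A) (hk : 1 ≤ Fintype.card A) (hb : 0 < b) :
    (Fintype.card A : ℝ) ^ n * ∏ i ∈ Finset.range N, om (1 / (Fintype.card A : ℝ)) (ext b0 β i) ≤
      ((con a0 (RR b0 β h n) n).card : ℝ) := by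
  rw [card_con a0 _ (RR_unique b0 β h n)]
  set k := Fintype.card A with hkk
  have hk' : (1 : ℝ) ≤ k := by exact_mod_cast hk
  have hx0 : (0 : ℝ) ≤ 1 - 1 / k := by
    rw [sub_nonneg, div_le_one (by linarith)]; exact hk'
  have hx1 : (1 : ℝ) - 1 / k ≤ 1 := by
    have : (0 : ℝ) ≤ 1 / k := by positivity
    linarith
  have h1 : ∏ i ∈ Finset.range N, om (1 / (k : ℝ)) (ext b0 β i) =
      (1 - 1 / (k : ℝ)) ^ (∑ j ∈ Finset.range N, (pk (ext b0 β j).1 + 1)) := by
    unfold om
    rw [Finset.prod_pow_eq_pow_sum]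
  rw [h1]
  set P := (Finset.range n).filter fun i => ∃ p, p < i ∧ RR b0 β h n i p with hP
  have h2 : ((∏ i ∈ Finset.range n, fC A (RR b0 β h n) i : ℕ) : ℝ) = (k : ℝ) ^ n * (1 - 1 / (k : ℝ)) ^ P.card := by
    push_cast
    have h3 : ∀ i ∈ Finset.range n, ((fC A (RR b0 β h n) i : ℕ) : ℝ) =
        (k : ℝ) * (if ∃ p, p < i ∧ RR b0 β h n i p then (1 - 1 / (k : ℝ)) else 1) := by
      intro i _
      unfold fC
      split_ifs with h4
      · rw [Nat.cast_sub hk]; field_simp; simp
      · rw [mul_one]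
    rw [Finset.prod_congr rfl h3, Finset.prod_mul_distrib, Finset.prod_const, Finset.card_range, Finset.prod_ite,
      Finset.prod_const, Finset.prod_const_one, mul_one]
  rw [h2]
  refine mul_le_mul_of_nonneg_left (pow_le_pow_of_le_one hx0 hx1 ?_) (by positivity)
  refine le_trans ?_ (card_peaks b0 β h n hb)
  have h3 : P ⊆ (peaks b0 β h n).image (cU (pth b0 β h n)) := by
    intro i hi
    rw [hP, Finset.mem_filter] at hi
    obtain ⟨_, p, _, τ, h4, h5, _⟩ := hi
    exact Finset.mem_image.2 ⟨τ, h4, h5⟩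
  exact (Finset.card_le_card h3).trans Finset.card_image_le

end

end Pool.Agent.V11185.Shuf
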