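import Mathlib
import Pool.Agent.V11185.ShufE

set_option autoImplicit false

namespace Pool.Agent.V11185.Shuf

section
set_option linter.unusedSectionVars false

variable {A : Type} [Fintype A] [DecidableEq A]

/-- the pairs of indices which must not carry the same letter -/
def PR (s : ℕ → Bool) (τ K W : ℕ) : Finset (ℕ × ℕ) :=
  ((Finset.range (W + 1) ×ˢ Finset.range (K + 2)).image fun x => (cD s (τ + x.1) + 1 - x.2, cU s (τ + x.1))) ∪
  (((Finset.range W ×ˢ Finset.range K).image fun x => (cD s τ + 1 + x.1, cD s τ + 1 + x.1 + 1 + x.2)) ∪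
  ((Finset.range W).image fun x => (cU s τ, cU s τ + 1 + x)))

def Rn (K W : ℕ) : ℕ := (W + 1) * (K + 2) + (W * K + W)

lemma card_PR (s : ℕ → Bool) (τ K W : ℕ) : (PR s τ K W).card ≤ Rn K W := by
  unfold PR Rn
  refine (Finset.card_union_le _ _).trans (add_le_add ?_ ((Finset.card_union_le _ _).trans (add_le_add ?_ ?_)))
  · refine Finset.card_image_le.trans ?_
    rw [Finset.card_product, Finset.card_range, Finset.card_range]
  · refine Finset.card_image_le.trans ?_
    rw [Finset.card_product, Finset.card_range, Finset.card_range]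
  · refine Finset.card_image_le.trans ?_
    rw [Finset.card_range]

lemma good_of {s : ℕ → Bool} {v : ℕ → A} {τ K W n : ℕ} (hs : s τ = true) (hn : cU s (τ + W + 1) ≤ n)
    (H : ∀ x ∈ PR s τ K W, x.1 < x.2 → x.2 < n → ¬ (x.1 = cD s τ ∧ x.2 = cU s τ) → v x.1 ≠ v x.2) :
    Good s v τ K W n := by
  refine ⟨?_, ?_, ?_⟩
  · intro τ' h1 h2 h3 p h4 h5 h6 h7
    have h8 := cU_mono s (show τ' + 1 ≤ τ + W + 1 by omega)
    rw [cU_t h3] at h8
    refine H (p, cU s τ') ?_ h6 (by simp only; omega) ?_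
    · unfold PR
      rw [Finset.mem_union]
      left
      rw [Finset.mem_image]
      refine ⟨(τ' - τ, cD s τ' + 1 - p), ?_, ?_⟩
      · rw [Finset.mem_product, Finset.mem_range, Finset.mem_range]
        exact ⟨by simp only; omega, by simp only; omega⟩
      · simp only
        rw [show τ + (τ' - τ) = τ' by omega, show cD s τ' + 1 - (cD s τ' + 1 - p) = p by omega]
    · simp only
      rintro ⟨h9, h10⟩
      exact h7 ⟨push_unique h3 hs h10, h9⟩
  · intro p q h1 h2 h3 h4 h5
    refine H (p, q) ?_ h2 h5 ?_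
    · unfold PR
      rw [Finset.mem_union, Finset.mem_union]
      right; left
      rw [Finset.mem_image]
      refine ⟨(p - (cD s τ + 1), q - p - 1), ?_, ?_⟩
      · rw [Finset.mem_product, Finset.mem_range, Finset.mem_range]
        exact ⟨by simp only; omega, by simp only; omega⟩
      · simp only [Prod.mk.injEq]
        omega
    · simp only
      omega
  · intro q h1 h2 h3
    refine H (cU s τ, q) ?_ h1 h3 ?_
    · unfold PR
      rw [Finset.mem_union, Finset.mem_union]
      right; right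
      rw [Finset.mem_image]
      refine ⟨q - cU s τ - 1, ?_, ?_⟩
      · rw [Finset.mem_range]; omega
      · exact Prod.ext rfl (by simp only; omega)
    · rintro ⟨_, h4⟩
      simp only at h4
      omega

open Classical in
lemma bad_one (a0 : A) (R : ℕ → ℕ → Prop) (hR : ∀ i p q, R i p → R i q → p = q) (s : ℕ → Bool) {τ K W n : ℕ}
    (hs : s τ = true) (hn : cU s (τ + W + 1) ≤ n) (hh : cD s τ < cU s τ) :
    ((con a0 R n).filter fun u => ext a0 u (cU s τ) = ext a0 u (cD s τ) ∧ ¬ Good s (ext a0 u) τ K W n).card *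
      (Fintype.card A - 1) ^ 2 ≤ Rn K W * (con a0 R n).card := by
  have hα : cU s τ < n := by
    have := cU_mono s (show τ + 1 ≤ τ + W + 1 by omega)
    rw [cU_t hs] at this; omega
  set P := (PR s τ K W).filter fun x => x.1 < x.2 ∧ x.2 < n ∧ ¬ (x.1 = cD s τ ∧ x.2 = cU s τ) with hP
  have h1 : ((con a0 R n).filter fun u => ext a0 u (cU s τ) = ext a0 u (cD s τ) ∧ ¬ Good s (ext a0 u) τ K W n) ⊆
      P.biUnion fun x => (con a0 R n).filter fun u => ext a0 u (cU s τ) = ext a0 u (cD s τ) ∧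
        ext a0 u x.1 = ext a0 u x.2 := by
    intro u hu
    rw [Finset.mem_filter] at hu
    obtain ⟨hu1, hu2, hu3⟩ := hu
    by_contra hcon
    apply hu3
    refine good_of hs hn fun x hx h1 h2 h3 h4 => hcon ?_
    rw [Finset.mem_biUnion]
    exact ⟨x, Finset.mem_filter.2 ⟨hx, h1, h2, h3⟩, Finset.mem_filter.2 ⟨hu1, hu2, h4⟩⟩
  calc _ ≤ (∑ x ∈ P, ((con a0 R n).filter fun u => ext a0 u (cU s τ) = ext a0 u (cD s τ) ∧
        ext a0 u x.1 = ext a0 u x.2).card) * (Fintype.card A - 1) ^ 2 :=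
        Nat.mul_le_mul_right _ ((Finset.card_le_card h1).trans Finset.card_biUnion_le)
    _ = ∑ x ∈ P, ((con a0 R n).filter fun u => ext a0 u (cU s τ) = ext a0 u (cD s τ) ∧
        ext a0 u x.1 = ext a0 u x.2).card * (Fintype.card A - 1) ^ 2 := Finset.sum_mul _ _ _
    _ ≤ ∑ _x ∈ P, (con a0 R n).card := by
        refine Finset.sum_le_sum fun x hx => ?_
        rw [hP, Finset.mem_filter] at hx
        obtain ⟨_, h2, h3, h4⟩ := hx
        exact two_eq a0 R hR n hh hα h2 h3 (fun h => h4 ⟨h.2.symm, h.1.symm⟩)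
    _ = P.card * (con a0 R n).card := by rw [Finset.sum_const, smul_eq_mul]
    _ ≤ _ := Nat.mul_le_mul_right _ ((Finset.card_filter_le _ _).trans (card_PR s τ K W))

end

section
set_option linter.unusedSectionVars false

variable {A : Type} [Fintype A] [DecidableEq A] {b N : ℕ}

open Classical in
/-- bad times (far from the end) -/
noncomputable def BS1 (a0 : A) (b0 : Blk b) (β : Fin N → Blk b) (h n W : ℕ) (u : Fin n → A) : Finset ℕ :=
  (Finset.Ico h (h + N * b)).filter fun τ => τ + W + 1 ≤ h + N * b ∧ pth b0 β h n τ = true ∧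
    ext a0 u (cU (pth b0 β h n) τ) = ext a0 u (cD (pth b0 β h n) τ) ∧
    ¬ Good (pth b0 β h n) (ext a0 u) τ (2 * b) W n

open Classical in
/-- bad times -/
noncomputable def BS (a0 : A) (b0 : Blk b) (β : Fin N → Blk b) (h n W : ℕ) (u : Fin n → A) : Finset ℕ :=
  (Finset.Ico h (h + N * b)).filter fun τ => pth b0 β h n τ = true ∧
    ext a0 u (cU (pth b0 β h n) τ) = ext a0 u (cD (pth b0 β h n) τ) ∧
    ¬ (τ + W + 1 ≤ h + N * b ∧ Good (pth b0 β h n) (ext a0 u) τ (2 * b) W n)

lemma card_BS_le (a0 : A) (b0 : Blk b) (β : Fin N → Blk b) (h n W : ℕ) (u : Fin n → A) :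
    (BS a0 b0 β h n W u).card ≤ (BS1 a0 b0 β h n W u).card + W := by
  classical
  have h1 : BS a0 b0 β h n W u ⊆ BS1 a0 b0 β h n W u ∪ Finset.Ico (h + N * b - W) (h + N * b) := by
    intro τ hτ
    rw [BS, Finset.mem_filter] at hτ
    obtain ⟨h1, h2, h3, h4⟩ := hτ
    rw [Finset.mem_union]
    by_cases h5 : τ + W + 1 ≤ h + N * b
    · left
      rw [BS1, Finset.mem_filter]
      exact ⟨h1, h5, h2, h3, fun h6 => h4 ⟨h5, h6⟩⟩
    · right
      rw [Finset.mem_Ico] at h1 ⊢
      omega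
  refine (Finset.card_le_card h1).trans ((Finset.card_union_le _ _).trans ?_)
  rw [Nat.card_Ico]
  omega

open Classical in
/-- letter sequences with few bad times -/
noncomputable def GU (a0 : A) (b0 : Blk b) (β : Fin N → Blk b) (h n W : ℕ) : Finset (Fin n → A) :=
  (con a0 (RR b0 β h n) n).filter fun u =>
    (BS1 a0 b0 β h n W u).card * (Fintype.card A - 1) ^ 2 ≤ 2 * (N * b * Rn (2 * b) W)

lemma card_GU (a0 : A) (b0 : Blk b) (β : Fin N → Blk b) (h n W M : ℕ) (hb : 0 < b)
    (hS : InStrip b0 (fun y : Blk b => disp y.1) M β) (hh : M + b + 2 ≤ h)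
    (hu : h + cU (mainp b0 β) (N * b) ≤ n) :
    (con a0 (RR b0 β h n) n).card ≤ 2 * (GU a0 b0 β h n W).card := by
  classical
  set C := con a0 (RR b0 β h n) n with hC
  set s := pth b0 β h n with hs
  set k := Fintype.card A with hk
  have h1 : ∑ u ∈ C, (BS1 a0 b0 β h n W u).card * (k - 1) ^ 2 ≤ N * b * Rn (2 * b) W * C.card := by
    have e1 : ∑ u ∈ C, (BS1 a0 b0 β h n W u).card = ∑ τ ∈ Finset.Ico h (h + N * b),
        (C.filter fun u => τ + W + 1 ≤ h + N * b ∧ s τ = true ∧
        ext a0 u (cU s τ) = ext a0 u (cD s τ) ∧ ¬ Good s (ext a0 u) τ (2 * b) W n).card := by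
      unfold BS1
      simp only [Finset.card_filter]
      rw [Finset.sum_comm]
    rw [← Finset.sum_mul, e1, Finset.sum_mul]
    calc _ ≤ ∑ _τ ∈ Finset.Ico h (h + N * b), Rn (2 * b) W * C.card := Finset.sum_le_sum fun τ hτ => ?_
      _ = N * b * Rn (2 * b) W * C.card := by
          rw [Finset.sum_const, Nat.card_Ico, smul_eq_mul, Nat.add_sub_cancel_left]; ring
    rw [Finset.mem_Ico] at hτ
    by_cases h2 : τ + W + 1 ≤ h + N * b ∧ s τ = true
    · have e2 : (C.filter fun u => τ + W + 1 ≤ h + N * b ∧ s τ = true ∧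
          ext a0 u (cU s τ) = ext a0 u (cD s τ) ∧ ¬ Good s (ext a0 u) τ (2 * b) W n) =
          (C.filter fun u => ext a0 u (cU s τ) = ext a0 u (cD s τ) ∧ ¬ Good s (ext a0 u) τ (2 * b) W n) := by
        refine Finset.filter_congr fun u _ => ?_
        exact ⟨fun h => h.2.2, fun h => ⟨h2.1, h2.2, h⟩⟩
      rw [e2]
      refine bad_one a0 _ (RR_unique b0 β h n) s h2.2 ?_ ?_
      · refine (cU_mono s h2.1).trans ?_
        rw [hs, cU_main b0 β h n le_rfl]
        exact hu
      · obtain ⟨x, rfl⟩ : ∃ x, τ = h + x := ⟨τ - h, by omega⟩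
        rw [hs, cU_main b0 β h n (by omega), cD_main b0 β h n (by omega)]
        have := (height_bound b0 β M hb hS (τ := x) (by omega)).2
        omega
    · have e2 : (C.filter fun u => τ + W + 1 ≤ h + N * b ∧ s τ = true ∧
          ext a0 u (cU s τ) = ext a0 u (cD s τ) ∧ ¬ Good s (ext a0 u) τ (2 * b) W n) = ∅ := by
        rw [Finset.filter_eq_empty_iff]
        rintro u _ ⟨h3, h4, _⟩
        exact h2 ⟨h3, h4⟩
      rw [e2]; simp
  set X := N * b * Rn (2 * b) W with hX
  set Bd := C.filter fun u => ¬ ((BS1 a0 b0 β h n W u).card * (k - 1) ^ 2 ≤ 2 * X) with hBd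
  have h2 : (2 * X + 1) * Bd.card ≤ X * C.card := by
    calc (2 * X + 1) * Bd.card = ∑ _u ∈ Bd, (2 * X + 1) := by rw [Finset.sum_const, smul_eq_mul]; ring
      _ ≤ ∑ u ∈ Bd, (BS1 a0 b0 β h n W u).card * (k - 1) ^ 2 := Finset.sum_le_sum fun u hu => by
          rw [hBd, Finset.mem_filter] at hu; omega
      _ ≤ ∑ u ∈ C, (BS1 a0 b0 β h n W u).card * (k - 1) ^ 2 :=
          Finset.sum_le_sum_of_subset (Finset.filter_subset _ _)
      _ ≤ _ := h1
  have h3 : C.card = (GU a0 b0 β h n W).card + Bd.card := by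
    rw [GU, hBd, ← Finset.card_filter_add_card_filter_not (s := C)
      (fun u => (BS1 a0 b0 β h n W u).card * (k - 1) ^ 2 ≤ 2 * X)]
  have h4 : 2 * Bd.card ≤ C.card := by
    by_contra hcon
    push Not at hcon
    nlinarith
  omega

lemma first_eq {A : Type} {s s' : ℕ → Bool} {u u' : ℕ → A} {t : ℕ}
    (hagree : ∀ τ < t, s τ = s' τ) (hs : s t = false) (hs' : s' t = true)
    (hw : ∀ τ, τ ≤ t → wd s u τ = wd s' u' τ) (hh : cD s' t < cU s' t) :
    u' (cU s' t) = u' (cD s' t) := by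
  have hcD : cD s t = cD s' t := cD_congr hagree
  have hlow : ∀ i < cU s' t, u i = u' i := by
    intro i hi
    obtain ⟨τ, h1, h2, h3⟩ := exists_push s' hi
    have h4 := hw τ (by omega)
    have h5 : s τ = true := (hagree τ h1).trans h2
    rw [wd_t h5, wd_t h2, h3, cU_congr (fun x hx => hagree x (by omega)), h3] at h4
    exact h4
  have h4 := hw t (by omega)
  rw [wd_f hs, wd_t hs', hcD, hlow _ hh] at h4
  exact h4.symm

/-- no first difference -/
lemma no_diff (a0 : A) (b0 : Blk b) (β β' : Fin N → Blk b) (h n W M : ℕ) (hb : 0 < b)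
    (hS' : InStrip b0 (fun y : Blk b => disp y.1) M β')
    (hh : M + b + 2 ≤ h)
    (hu' : h + cU (mainp b0 β') (N * b) ≤ n)
    (hWW : 2 * b * (h + M + b + 2 * b + 1) + 2 * b ≤ W) (hZ : h + N * b ≤ 2 * n)
    {u u' : Fin n → A} (hc' : u' ∈ con a0 (RR b0 β' h n) n)
    (hw : ∀ τ < 2 * n, wd (pth b0 β h n) (ext a0 u) τ = wd (pth b0 β' h n) (ext a0 u') τ)
    (hB : BS a0 b0 β h n W u = BS a0 b0 β' h n W u') {t : ℕ} (ht : t < h + N * b)
    (hagree : ∀ τ < t, pth b0 β h n τ = pth b0 β' h n τ) (hs : pth b0 β h n t = false)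
    (hs' : pth b0 β' h n t = true) : False := by
  classical
  have hth : h ≤ t := by
    by_contra hcon
    rw [pth_lt b0 β h n (by omega)] at hs
    exact Bool.noConfusion hs
  have hht : ∀ τ, h ≤ τ → τ ≤ h + N * b → cD (pth b0 β' h n) τ + 2 ≤ cU (pth b0 β' h n) τ ∧
      cU (pth b0 β' h n) τ ≤ cD (pth b0 β' h n) τ + (h + M + b) := by
    intro τ h1 h2
    obtain ⟨x, rfl⟩ : ∃ x, τ = h + x := ⟨τ - h, by omega⟩
    rw [cU_main b0 β' h n (by omega), cD_main b0 β' h n (by omega)]
    have := height_bound b0 β' M hb hS' (τ := x) (by omega)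
    omega
  have hC1 := first_eq hagree hs hs' (fun τ hτ => hw τ (by omega)) (by have := (hht t hth (by omega)).1; omega)
  have hnot : t ∉ BS a0 b0 β' h n W u' := by
    rw [← hB]
    intro hmem
    rw [BS, Finset.mem_filter] at hmem
    rw [hmem.2.1] at hs
    exact Bool.noConfusion hs
  have hg : t + W + 1 ≤ h + N * b ∧ Good (pth b0 β' h n) (ext a0 u') t (2 * b) W n := by
    by_contra hcon
    apply hnot
    rw [BS, Finset.mem_filter, Finset.mem_Ico]
    exact ⟨⟨hth, ht⟩, hs', hC1, hcon⟩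
  obtain ⟨hg1, hg2⟩ := hg
  have hrun : ∀ (γ : Fin N → Blk b) (τ : ℕ), t ≤ τ → τ + 2 * b ≤ t + W → ∃ i < 2 * b, pth b0 γ h n (τ + i) = false := by
    intro γ τ h1 h2
    obtain ⟨i, hi, h3⟩ := main_run b0 γ hb (τ - h)
    refine ⟨i, hi, ?_⟩
    rw [show τ + i = h + (τ - h + i) by omega, pth_main b0 γ h n (by omega)]
    exact h3
  refine decode (K := 2 * b) (W := W) (M := h + M + b) (Q := n) hagree hs hs' (fun τ hτ => hw τ (by omega))
    (hht t hth (by omega)).1 (hht t hth (by omega)).2 hWW (hrun β) (hrun β') ?_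
    (fun τ h1 h2 => by have := (hht τ (by omega) (by omega)).1; omega) ?_ (fun _ => hg2)
  · intro h1
    rw [con, Finset.mem_filter] at hc'
    have h2 : cD (pth b0 β' h n) t < cU (pth b0 β' h n) t := by have := (hht t hth (by omega)).1; omega
    refine hc'.2 _ ?_ _ h2 ⟨t, ?_, rfl, rfl⟩
    · have h3 := cU_mono (pth b0 β' h n) (show t + 1 ≤ h + N * b by omega)
      rw [cU_t hs', cU_main b0 β' h n le_rfl] at h3
      omega
    · rw [peaks, Finset.mem_filter, Finset.mem_range]
      exact ⟨ht, hth, by omega, hs', h1⟩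
  · refine (cU_mono _ hg1).trans ?_
    rw [cU_main b0 β' h n le_rfl]
    exact hu'

end

end Pool.Agent.V11185.Shuf
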