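import Mathlib
import Pool.Agent.V11185.ShufF
import Pool.Agent.V11185.ShufDef

set_option autoImplicit false

namespace Pool.Agent.V11185.Shuf

lemma word_interleave {A : Type} (s : ℕ → Bool) (u : ℕ → A) (t : ℕ) :
    Interleave ((List.range (cU s t)).map u) ((List.range (cD s t)).map u) ((List.range t).map (wd s u)) := by
  induction t with
  | zero => simpa [cU, cD] using Interleave.nil
  | succ t ih =>
    rcases hs : s t with _ | _
    · rw [cU_f hs, cD_f hs, List.range_succ, List.range_succ, List.map_append, List.map_append, List.map_singleton,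
        List.map_singleton, wd_f hs]
      have := ih.append (Interleave.right (u (cD s t)) Interleave.nil)
      simpa using this
    · rw [cU_t hs, cD_t hs, List.range_succ, List.range_succ, List.map_append, List.map_append, List.map_singleton,
        List.map_singleton, wd_t hs]
      have := ih.append (Interleave.left (u (cU s t)) Interleave.nil)
      simpa using this

section
variable {b N : ℕ}

open Classical in
/-- the subsets of size at most `D` of the main part -/
noncomputable def SD (h N b D : ℕ) : Finset (Finset ℕ) :=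
  (Finset.Ico h (h + N * b)).powerset.filter fun X => X.card ≤ D

lemma pth_eq_blocks (b0 : Blk b) (β β' : Fin N → Blk b) (h n : ℕ)
    (H : ∀ τ < h + N * b, pth b0 β h n τ = pth b0 β' h n τ) : β = β' := by
  funext j
  apply Subtype.ext
  funext l
  have h1 : (j : ℕ) * b + l < N * b := by
    have h2 := l.2
    have h3 : ((j : ℕ) + 1) * b ≤ N * b := Nat.mul_le_mul_right _ j.2
    have h4 : ((j : ℕ) + 1) * b = j * b + b := by ring
    omega
  have h2 := H (h + (j * b + l)) (by omega)
  rw [pth_main b0 β h n h1, pth_main b0 β' h n h1, mainp_block, mainp_block] at h2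
  unfold ext at h2
  rw [dif_pos j.2, dif_pos j.2] at h2
  exact h2

open Classical in
/-- **The injection.** -/
theorem family_le (k : ℕ) (hk : 2 ≤ k) (a0 : Fin k) (b0 : Blk b) (h n W M D : ℕ) (hb : 0 < b)
    (hh : M + b + 2 ≤ h) (hn : 2 * h + N * b + M + b ≤ 2 * n)
    (hWW : 2 * b * (h + M + b + 2 * b + 1) + 2 * b ≤ W)
    (hD : W + 2 * (N * b * Rn (2 * b) W) / (k - 1) ^ 2 ≤ D) :
    ∑ β ∈ Finset.univ.filter (fun β : Fin N → Blk b => InStrip b0 (fun y => disp y.1) M β),
      (GU a0 b0 β h n W).card ≤ count k n * (SD h N b D).card := by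
  have hu : ∀ β : Fin N → Blk b, InStrip b0 (fun y => disp y.1) M β → h + cU (mainp b0 β) (N * b) ≤ n ∧
      cD (mainp b0 β) (N * b) ≤ n := by
    intro β hβ
    have h1 := height_bound b0 β M hb hβ (τ := N * b) le_rfl
    have h2 := cU_add_cD (mainp b0 β) (N * b)
    omega
  set F := (Finset.univ.filter (fun β : Fin N → Blk b => InStrip b0 (fun y => disp y.1) M β)).sigma
    (fun β => GU a0 b0 β h n W) with hF
  have hcard : ∑ β ∈ Finset.univ.filter (fun β : Fin N → Blk b => InStrip b0 (fun y => disp y.1) M β),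
      (GU a0 b0 β h n W).card = F.card := by
    rw [hF, Finset.card_sigma]
  rw [hcard]
  have hsq : count k n = (squares_finite k n).toFinset.card := by
    unfold count
    exact Set.ncard_eq_toFinset_card _ _
  rw [hsq, ← Finset.card_product]
  refine Finset.card_le_card_of_injOn
    (fun x => ((List.range (2 * n)).map (wd (pth b0 x.1 h n) (ext a0 x.2)), BS a0 b0 x.1 h n W x.2)) ?_ ?_
  · rintro ⟨β, u⟩ hx
    rw [Finset.mem_coe, hF, Finset.mem_sigma, Finset.mem_filter] at hx
    obtain ⟨⟨_, hβ⟩, hg⟩ := hx
    simp only at hβ hg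
    rw [Finset.mem_coe, Finset.mem_product]
    refine ⟨?_, ?_⟩
    · rw [Set.Finite.mem_toFinset]
      refine ⟨by simp, (List.range n).map (ext a0 u), ?_⟩
      have h1 := word_interleave (pth b0 β h n) (ext a0 u) (2 * n)
      have h2 := cD_total b0 β h n (hu β hβ).2 (hu β hβ).1
      rw [h2.1, h2.2] at h1
      exact h1
    · rw [SD, Finset.mem_filter, Finset.mem_powerset]
      refine ⟨?_, ?_⟩
      · unfold BS
        exact Finset.filter_subset _ _
      · have h1 := card_BS_le a0 b0 β h n W u
        rw [GU, Finset.mem_filter, Fintype.card_fin] at hg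
        have h2 : (BS1 a0 b0 β h n W u).card ≤ 2 * (N * b * Rn (2 * b) W) / (k - 1) ^ 2 := by
          rw [Nat.le_div_iff_mul_le (by have : 0 < k - 1 := by omega
                                        positivity)]
          exact hg.2
        simp only
        omega
  · rintro ⟨β, u⟩ hx ⟨β', u'⟩ hx' heq
    rw [Finset.mem_coe, hF, Finset.mem_sigma, Finset.mem_filter] at hx hx'
    obtain ⟨⟨_, hβ⟩, hg⟩ := hx
    obtain ⟨⟨_, hβ'⟩, hg'⟩ := hx'
    simp only at hβ hg hβ' hg'
    simp only [Prod.mk.injEq] at heq
    obtain ⟨he1, he2⟩ := heq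
    have hw : ∀ τ < 2 * n, wd (pth b0 β h n) (ext a0 u) τ = wd (pth b0 β' h n) (ext a0 u') τ := by
      intro τ hτ
      exact List.map_inj_left.1 he1 τ (List.mem_range.2 hτ)
    have hpth : ∀ τ < h + N * b, pth b0 β h n τ = pth b0 β' h n τ := by
      by_contra hcon
      push Not at hcon
      have hex : ∃ τ, τ < h + N * b ∧ pth b0 β h n τ ≠ pth b0 β' h n τ := hcon
      obtain ⟨ht1, ht2⟩ := Nat.find_spec hex
      have hmin : ∀ τ < Nat.find hex, pth b0 β h n τ = pth b0 β' h n τ := by
        intro τ hτ
        have := Nat.find_min hex hτ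
        push Not at this
        exact this (by omega)
      rw [GU, Finset.mem_filter] at hg hg'
      rcases h1 : pth b0 β h n (Nat.find hex) with _ | _ <;> rcases h2 : pth b0 β' h n (Nat.find hex) with _ | _
      · exact ht2 (h1.trans h2.symm)
      · exact no_diff a0 b0 β β' h n W M hb hβ' hh (hu β' hβ').1 hWW (by omega) hg'.1 hw he2 ht1 hmin h1 h2
      · exact no_diff a0 b0 β' β h n W M hb hβ hh (hu β hβ).1 hWW (by omega) hg.1 (fun τ hτ => (hw τ hτ).symm)
          he2.symm ht1 (fun τ hτ => (hmin τ hτ).symm) h2 h1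
      · exact ht2 (h1.trans h2.symm)
    have hββ : β = β' := pth_eq_blocks b0 β β' h n hpth
    subst hββ
    have huu : u = u' := by
      funext i
      have h2 := cD_total b0 β h n (hu β hβ).2 (hu β hβ).1
      obtain ⟨τ, h3, h4, h5⟩ := exists_push (pth b0 β h n) (t := 2 * n) (i := i) (by rw [h2.2]; exact i.2)
      have h6 := hw τ h3
      rw [wd_t h4, wd_t h4, h5] at h6
      unfold ext at h6
      rw [dif_pos i.2, dif_pos i.2] at h6
      exact h6
    rw [huu]

lemma card_SD (h N b D : ℕ) (y : ℝ) (hy0 : 0 < y) (hy1 : y ≤ 1) :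
    ((SD h N b D).card : ℝ) * y ^ D ≤ (1 + y) ^ (N * b) := by
  classical
  have h1 : (1 + y) ^ (N * b) = ∑ X ∈ (Finset.Ico h (h + N * b)).powerset, y ^ X.card := by
    have := Finset.sum_pow_mul_eq_add_pow y 1 (Finset.Ico h (h + N * b))
    simp only [one_pow, mul_one] at this
    rw [this, Nat.card_Ico, Nat.add_sub_cancel_left, add_comm]
  rw [h1]
  calc ((SD h N b D).card : ℝ) * y ^ D = ∑ _X ∈ SD h N b D, y ^ D := by rw [Finset.sum_const, nsmul_eq_mul]
    _ ≤ ∑ X ∈ SD h N b D, y ^ X.card := Finset.sum_le_sum fun X hX => by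
        rw [SD, Finset.mem_filter] at hX
        exact pow_le_pow_of_le_one hy0.le hy1 hX.2
    _ ≤ _ := Finset.sum_le_sum_of_subset_of_nonneg (by unfold SD; exact Finset.filter_subset _ _)
        fun X _ _ => pow_nonneg hy0.le _

end

end Pool.Agent.V11185.Shuf
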