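import Mathlib
import Pool.Agent.V11185.ShufG

set_option autoImplicit false

namespace Pool.Agent.V11185.Shuf

lemma pow_compare {C1 C2 Y Z : ℝ} (h1 : 0 < C1) (hZ : 0 < Z)
    (h : ∀ N : ℕ, C1 * Y ^ N ≤ C2 * Z ^ N) : Y ≤ Z := by
  by_contra hcon
  push Not at hcon
  have h2 : 1 < Y / Z := by rw [lt_div_iff₀ hZ]; linarith
  obtain ⟨N, hN⟩ := pow_unbounded_of_one_lt (C2 / C1) h2
  rw [div_pow, div_lt_div_iff₀ h1 (pow_pos hZ N)] at hN
  have := h N
  linarith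

noncomputable def Lam (k c M : ℕ) : ℝ :=
  ∑ y : Blk (2 * c), om (1 / (k : ℝ)) y * Real.cos (Real.pi / (2 * (M + 1)) * disp y.1)

def hhh (c M : ℕ) : ℕ := M + 2 * c + 2
def WWW (c M : ℕ) : ℕ := 2 * (2 * c) * (hhh c M + M + 2 * c + 2 * (2 * c) + 1) + 2 * (2 * c)

/-- the number `2 b R` -/
def XXX (c M : ℕ) : ℕ := 2 * (2 * c * Rn (2 * (2 * c)) (WWW c M))

theorem fixed_ineq (k c M : ℕ) (L : ℝ) (hk : 2 ≤ k) (hc : 1 ≤ c) (hL : ∀ n, (count k n : ℝ) ≤ L ^ n) (hL1 : 1 ≤ L)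
    (hMb : 2 * c ≤ 2 * M + 2) (y : ℝ) (hy0 : 0 < y) (hy1 : y ≤ 1) (hΛ : 0 ≤ Lam k c M) :
    (k : ℝ) ^ c * Lam k c M * y ^ ((XXX c M : ℝ) / ((k : ℝ) - 1) ^ 2) ≤ L ^ c * (1 + y) ^ (2 * c) := by
  classical
  set b := 2 * c with hb
  set h := hhh c M with hh
  set W := WWW c M with hW
  set ρ : ℝ := (XXX c M : ℝ) / ((k : ℝ) - 1) ^ 2 with hρ
  have hk0 : (0 : ℝ) < k := by exact_mod_cast (by omega : 0 < k)
  have hyρ : 0 < y ^ ρ := Real.rpow_pos_of_pos hy0 _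
  obtain ⟨a0⟩ : Nonempty (Fin k) := ⟨⟨0, by omega⟩⟩
  have b0 : Blk b := ⟨fun i => decide ((i : ℕ) = 0), ⟨⟨0, by omega⟩, by simp⟩, ⟨⟨1, by omega⟩, by simp⟩⟩
  refine pow_compare (C1 := (k : ℝ) ^ (h + M + b) * y ^ W) (C2 := 2 * L ^ (h + M + b)) (by positivity)
    (by positivity) fun N => ?_
  set n := h + M + b + N * c with hn
  set D := W + 2 * (N * b * Rn (2 * b) W) / (k - 1) ^ 2 with hD
  have e1 := family_le (N := N) k hk a0 b0 h n W M D (by omega) (by rw [hh, hhh])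
    (by rw [hn, hb]; have : N * (2 * c) = 2 * (N * c) := by ring
        omega) (by rw [hW, WWW, hh]) le_rfl
  have e2 : (k : ℝ) ^ n * Lam k c M ^ N ≤ 2 * ((count k n : ℝ) * ((SD h N b D).card : ℝ)) := by
    have f1 : Lam k c M ^ N ≤ ∑ β ∈ Finset.univ.filter (fun β : Fin N → Blk b =>
        InStrip b0 (fun y => disp y.1) M β), ∏ i ∈ Finset.range N, om (1 / (k : ℝ)) (ext b0 β i) := by
      have hx0 : (0 : ℝ) ≤ 1 - 1 / k := by
        rw [sub_nonneg, div_le_one hk0]; exact_mod_cast (by omega : 1 ≤ k)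
      exact strip_ge b0 (fun y : Blk b => disp y.1) (om (1 / (k : ℝ))) (fun y => pow_nonneg hx0 _) M b hMb
        (fun y => disp_le y.1) _ rfl (sin_zero _ _ _) hΛ N
    have f2 : (k : ℝ) ^ n * ∑ β ∈ Finset.univ.filter (fun β : Fin N → Blk b =>
        InStrip b0 (fun y => disp y.1) M β), ∏ i ∈ Finset.range N, om (1 / (k : ℝ)) (ext b0 β i) ≤
        ∑ β ∈ Finset.univ.filter (fun β : Fin N → Blk b => InStrip b0 (fun y => disp y.1) M β),
          2 * ((GU a0 b0 β h n W).card : ℝ) := by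
      rw [Finset.mul_sum]
      refine Finset.sum_le_sum fun β hβ => ?_
      rw [Finset.mem_filter] at hβ
      have g1 := card_con_ge b0 β h n a0 (by rw [Fintype.card_fin]; omega) (by omega : 0 < b)
      rw [Fintype.card_fin] at g1
      refine g1.trans ?_
      have g2 := height_bound b0 β M (by omega) hβ.2 (τ := N * b) le_rfl
      have g3 := cU_add_cD (mainp b0 β) (N * b)
      have g4 := card_GU a0 b0 β h n W M (by omega) hβ.2 (by rw [hh, hhh]) (by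
        rw [hn]
        have : N * b = 2 * (N * c) := by rw [hb]; ring
        omega)
      exact_mod_cast g4
    calc (k : ℝ) ^ n * Lam k c M ^ N ≤ _ := mul_le_mul_of_nonneg_left f1 (by positivity)
      _ ≤ _ := f2
      _ = 2 * ((∑ β ∈ Finset.univ.filter (fun β : Fin N → Blk b => InStrip b0 (fun y => disp y.1) M β),
          (GU a0 b0 β h n W).card : ℕ) : ℝ) := by
          rw [← Finset.mul_sum]; push_cast; rfl
      _ ≤ _ := by
          refine mul_le_mul_of_nonneg_left ?_ (by norm_num)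
          exact_mod_cast e1
  have e3 := card_SD h N b D y hy0 hy1
  have e4 : y ^ W * (y ^ ρ) ^ N ≤ y ^ D := by
    have hkk : (0 : ℝ) < ((k : ℝ) - 1) ^ 2 := by
      have : (2 : ℝ) ≤ k := by exact_mod_cast hk
      have : (0 : ℝ) < (k : ℝ) - 1 := by linarith
      positivity
    have f1 : (D : ℝ) ≤ W + ρ * N := by
      rw [hD]
      push_cast
      have f2 : ((2 * (N * b * Rn (2 * b) W) / (k - 1) ^ 2 : ℕ) : ℝ) ≤
          ((2 * (N * b * Rn (2 * b) W) : ℕ) : ℝ) / (((k - 1) ^ 2 : ℕ) : ℝ) := Nat.cast_div_le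
      have f3 : (((k - 1) ^ 2 : ℕ) : ℝ) = ((k : ℝ) - 1) ^ 2 := by
        push_cast [Nat.cast_sub (by omega : 1 ≤ k)]; rfl
      rw [f3] at f2
      have f4 : ((2 * (N * b * Rn (2 * b) W) : ℕ) : ℝ) = (XXX c M : ℝ) * N := by
        have hXX : XXX c M = 2 * (b * Rn (2 * b) W) := rfl
        rw [hXX]; push_cast; ring
      rw [f4] at f2
      have f5 : (XXX c M : ℝ) * N / ((k : ℝ) - 1) ^ 2 = ρ * N := by rw [hρ]; ring
      rw [f5] at f2
      linarith
    calc y ^ W * (y ^ ρ) ^ N = y ^ ((W : ℝ) + ρ * N) := by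
          rw [Real.rpow_add hy0, Real.rpow_natCast, Real.rpow_mul hy0.le, Real.rpow_natCast]
      _ ≤ y ^ (D : ℝ) := Real.rpow_le_rpow_of_exponent_ge hy0 hy1 f1
      _ = y ^ D := Real.rpow_natCast _ _
  have hcn := hL n
  calc (k : ℝ) ^ (h + M + b) * y ^ W * ((k : ℝ) ^ c * Lam k c M * y ^ ρ) ^ N
      = ((k : ℝ) ^ n * Lam k c M ^ N) * (y ^ W * (y ^ ρ) ^ N) := by
        rw [hn, mul_pow, mul_pow, pow_add (k : ℝ) (h + M + b), mul_comm N c, pow_mul (k : ℝ) c N]; ring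
    _ ≤ ((k : ℝ) ^ n * Lam k c M ^ N) * y ^ D := mul_le_mul_of_nonneg_left e4 (by positivity)
    _ ≤ (2 * ((count k n : ℝ) * ((SD h N b D).card : ℝ))) * y ^ D := mul_le_mul_of_nonneg_right e2 (by positivity)
    _ = 2 * (count k n : ℝ) * (((SD h N b D).card : ℝ) * y ^ D) := by ring
    _ ≤ 2 * (count k n : ℝ) * (1 + y) ^ (N * b) := mul_le_mul_of_nonneg_left e3 (by positivity)
    _ ≤ 2 * L ^ n * (1 + y) ^ (N * b) := by
        refine mul_le_mul_of_nonneg_right ?_ (by positivity)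
        linarith
    _ = 2 * L ^ (h + M + b) * (L ^ c * (1 + y) ^ b) ^ N := by
        rw [hn, mul_pow, pow_add L (h + M + b), mul_comm N c, pow_mul L c N, mul_comm N b, pow_mul (1 + y) b N]; ring

end Pool.Agent.V11185.Shuf
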