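import Mathlib
import Pool.Agent.V11185.ShufH

set_option autoImplicit false

namespace Pool.Agent.V11185.Shuf

lemma XXX_le (r : ℕ) (hr : 1 ≤ r) : XXX r (r ^ 6) ≤ 2508 * r ^ 9 := by
  have h1 : r ^ 2 ≤ r ^ 7 := Nat.pow_le_pow_right hr (by norm_num)
  have h2 : r ≤ r ^ 7 := by nlinarith [Nat.pow_le_pow_right hr (show 1 ≤ 7 by norm_num), pow_one r]
  have h0 : 1 ≤ r ^ 7 := Nat.one_le_pow _ _ hr
  have hW : WWW r (r ^ 6) = 8 * r ^ 7 + 32 * r ^ 2 + 16 * r := by
    unfold WWW hhh; ring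
  have hW2 : WWW r (r ^ 6) + 1 ≤ 57 * r ^ 7 := by rw [hW]; omega
  have hR : Rn (2 * (2 * r)) (WWW r (r ^ 6)) ≤ (WWW r (r ^ 6) + 1) * (8 * r + 3) := by
    unfold Rn; nlinarith
  have h3 : (WWW r (r ^ 6) + 1) * (8 * r + 3) ≤ 57 * r ^ 7 * (11 * r) := Nat.mul_le_mul hW2 (by omega)
  calc XXX r (r ^ 6) = 4 * r * Rn (2 * (2 * r)) (WWW r (r ^ 6)) := by unfold XXX; ring
    _ ≤ 4 * r * (57 * r ^ 7 * (11 * r)) := Nat.mul_le_mul_left _ (hR.trans h3)
    _ = 2508 * r ^ 9 := by ring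

lemma prod_ge {a b c d : ℝ} (ha : 0 ≤ a) (ha1 : a ≤ 1) (hb : 0 ≤ b) (hb1 : b ≤ 1) (hc : 0 ≤ c) (hc1 : c ≤ 1)
    (hd : 0 ≤ d) (hd1 : d ≤ 1) : 1 - a - b - c - d ≤ (1 - a) * (1 - b) * (1 - c) * (1 - d) := by
  have h1 : 1 - a - b ≤ (1 - a) * (1 - b) := by nlinarith [mul_nonneg ha hb]
  have h2 : 0 ≤ (1 - a) * (1 - b) := mul_nonneg (by linarith) (by linarith)
  have h3 : (1 - a) * (1 - b) ≤ 1 := by nlinarith
  have h4 : 1 - a - b - c ≤ (1 - a) * (1 - b) * (1 - c) := by nlinarith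
  have h5 : 0 ≤ (1 - a) * (1 - b) * (1 - c) := mul_nonneg h2 (by linarith)
  have h6 : (1 - a) * (1 - b) * (1 - c) ≤ 1 := by nlinarith
  nlinarith

theorem asym_aux (ε : ℝ) (hε0 : 0 < ε) (hε1 : ε ≤ 1) (r k : ℕ) (hr : 1 ≤ r) (hk1 : r ^ 10 ≤ k)
    (hk2 : k ≤ (2 * r) ^ 10) (hk : 2 ≤ k) (H : 2000000 / (r : ℝ) + 8 * (2 * (r : ℝ)) ^ 10 / 4 ^ r < ε)
    (L : ℝ) (hL : ∀ n, (count k n : ℝ) ≤ L ^ n) (hL1 : 1 ≤ L) : 4 * (k : ℝ) - 2 - ε ≤ L := by
  set K : ℝ := (k : ℝ) with hK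
  set R : ℝ := (r : ℝ) with hR
  have hR1 : 1 ≤ R := by rw [hR]; exact_mod_cast hr
  have hK2 : 2 ≤ K := by rw [hK]; exact_mod_cast hk
  have hKR : R ^ 10 ≤ K := by rw [hR, hK]; exact_mod_cast hk1
  have hKR2 : K ≤ 1024 * R ^ 10 := by
    have : K ≤ (2 * R) ^ 10 := by rw [hR, hK]; exact_mod_cast hk2
    calc K ≤ (2 * R) ^ 10 := this
      _ = 1024 * R ^ 10 := by ring
  have hRp : ∀ m : ℕ, 1 ≤ R ^ m := fun m => one_le_pow₀ hR1
  have hR2K : R ^ 2 ≤ K := (pow_le_pow_right₀ hR1 (by norm_num)).trans hKR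
  have hRK : R ≤ K := by nlinarith
  set g : ℝ := R / (4 * K) with hg
  have hg0 : 0 < g := by rw [hg]; positivity
  set θ : ℝ := Real.pi / (2 * (((r ^ 6 : ℕ) : ℝ) + 1)) with hθ
  set e1 : ℝ := 1 / K + 2 / 2 ^ (2 * r) with he1
  set e2 : ℝ := θ ^ 2 * ((2 * r : ℕ) : ℝ) ^ 2 / 2 with he2
  set ρ : ℝ := (XXX r (r ^ 6) : ℝ) / (K - 1) ^ 2 with hρ
  set e3 : ℝ := ρ * (2 * Real.log K) with he3
  set e4 : ℝ := 2 * R / K ^ 2 with he4
  set z : ℝ := g * (2 + ε) with hz
  have h4r : (2 : ℝ) ^ (2 * r) = 4 ^ r := by rw [pow_mul]; norm_num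
  -- bounds
  have b1 : 1 / K ≤ g * (4 / R) := by
    rw [hg]; apply le_of_eq; field_simp
  have b1' : 2 / 2 ^ (2 * r) ≤ g * (8 * (2 * R) ^ 10 / 4 ^ r) := by
    rw [h4r]
    have : g * (8 * (2 * R) ^ 10 / 4 ^ r) = (2 / 4 ^ r) * (R * (1024 * R ^ 10) / K) := by
      rw [hg]; field_simp; ring
    rw [this]
    have h1 : 1 ≤ R * (1024 * R ^ 10) / K := by
      rw [le_div_iff₀ (by linarith), one_mul]
      nlinarith [hRp 10]
    have h2 : (0 : ℝ) < 2 / 4 ^ r := by positivity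
    nlinarith
  have hM0 : (0 : ℝ) < ((r ^ 6 : ℕ) : ℝ) := by push_cast; have := hRp 6; linarith
  have b2 : e2 ≤ g * (20480 / R) := by
    have h1 : e2 ≤ 5 / R ^ 10 := by
      have h2 : θ ^ 2 ≤ 10 / (4 * R ^ 12) := by
        rw [hθ, div_pow, div_le_div_iff₀ (by positivity) (by positivity)]
        have h3 : Real.pi ^ 2 ≤ 10 := by
          have := Real.pi_lt_d2
          have := Real.pi_pos
          nlinarith
        have h4 : R ^ 12 ≤ (((r ^ 6 : ℕ) : ℝ) + 1) ^ 2 := by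
          have : R ^ 12 = (((r ^ 6 : ℕ) : ℝ)) ^ 2 := by push_cast; rw [← hR]; ring
          rw [this]
          exact pow_le_pow_left₀ hM0.le (by linarith) 2
        calc Real.pi ^ 2 * (4 * R ^ 12) ≤ 10 * (4 * (((r ^ 6 : ℕ) : ℝ) + 1) ^ 2) := by
              apply mul_le_mul h3 (by linarith) (by positivity) (by norm_num)
          _ = 10 * (2 * (((r ^ 6 : ℕ) : ℝ) + 1)) ^ 2 := by ring
      have h5 : e2 = θ ^ 2 * (2 * R ^ 2) := by rw [he2]; push_cast; rw [← hR]; ring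
      rw [h5]
      calc θ ^ 2 * (2 * R ^ 2) ≤ 10 / (4 * R ^ 12) * (2 * R ^ 2) := mul_le_mul_of_nonneg_right h2 (by positivity)
        _ = 5 / R ^ 10 := by field_simp; norm_num
    refine h1.trans ?_
    have : g * (20480 / R) = 5120 / K := by rw [hg]; field_simp; norm_num
    rw [this, div_le_div_iff₀ (by positivity) (by linarith)]
    linarith
  have hlog0 : 0 ≤ Real.log K := Real.log_nonneg (by linarith)
  have hρ0 : 0 ≤ ρ := by rw [hρ]; positivity
  have b3 : e3 ≤ g * (1605120 / R) := by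
    have hX : (XXX r (r ^ 6) : ℝ) ≤ 2508 * R ^ 9 := by rw [hR]; exact_mod_cast XXX_le r hr
    have hlog : Real.log K ≤ 20 * R := by
      calc Real.log K ≤ Real.log ((2 * R) ^ 10) := Real.log_le_log (by linarith) (by nlinarith)
        _ = 10 * Real.log (2 * R) := by rw [Real.log_pow]; norm_num
        _ ≤ 10 * (2 * R) := by
            have := Real.log_le_self (x := 2 * R) (by linarith)
            linarith
        _ = 20 * R := by ring
    have hρ1 : ρ ≤ 10032 * R ^ 9 / K ^ 2 := by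
      rw [hρ, div_le_div_iff₀ (by nlinarith) (by positivity)]
      have h1 : K ^ 2 ≤ 4 * (K - 1) ^ 2 := by nlinarith
      calc (XXX r (r ^ 6) : ℝ) * K ^ 2 ≤ 2508 * R ^ 9 * (4 * (K - 1) ^ 2) :=
            mul_le_mul hX h1 (by positivity) (by positivity)
        _ = 10032 * R ^ 9 * (K - 1) ^ 2 := by ring
    calc e3 ≤ (10032 * R ^ 9 / K ^ 2) * (2 * (20 * R)) := by
          rw [he3]
          exact mul_le_mul hρ1 (by linarith) (by positivity) (by positivity)
      _ = 401280 * R ^ 10 / K ^ 2 := by ring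
      _ ≤ 401280 * K / K ^ 2 := by
          apply div_le_div_of_nonneg_right _ (by positivity)
          linarith
      _ = g * (1605120 / R) := by rw [hg]; field_simp; norm_num
  have b4 : e4 ≤ g * (8 / R) := by
    have : g * (8 / R) = 2 / K := by rw [hg]; field_simp; norm_num
    rw [this, he4, div_le_div_iff₀ (by positivity) (by linarith)]
    nlinarith
  have b5 : z ^ 2 ≤ g * (9 / R) := by
    have h1 : z ≤ 3 * g := by rw [hz]; nlinarith
    have h2 : 0 ≤ z := by rw [hz]; positivity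
    have h3 : g ≤ 1 / R := by
      rw [hg, div_le_div_iff₀ (by positivity) (by linarith)]
      nlinarith
    calc z ^ 2 ≤ (3 * g) ^ 2 := pow_le_pow_left₀ h2 h1 2
      _ = g * (9 * g) := by ring
      _ ≤ g * (9 * (1 / R)) := mul_le_mul_of_nonneg_left (by linarith) hg0.le
      _ = g * (9 / R) := by ring
  have hsum : (e1 + e2 + e3 + e4) + z ^ 2 < g * ε := by
    have h1 : g * (4 / R) + g * (8 * (2 * R) ^ 10 / 4 ^ r) + g * (20480 / R) + g * (1605120 / R) +
        g * (8 / R) + g * (9 / R) ≤ g * (2000000 / R + 8 * (2 * R) ^ 10 / 4 ^ r) := by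
      have h2 : g * (2000000 / R + 8 * (2 * R) ^ 10 / 4 ^ r) = g * (8 * (2 * R) ^ 10 / 4 ^ r) + 2000000 * (g / R) := by ring
      have h3 : g * (4 / R) + g * (8 * (2 * R) ^ 10 / 4 ^ r) + g * (20480 / R) + g * (1605120 / R) +
        g * (8 / R) + g * (9 / R) = g * (8 * (2 * R) ^ 10 / 4 ^ r) + 1625621 * (g / R) := by ring
      rw [h2, h3]
      have : 0 < g / R := by positivity
      linarith
    have h4 := mul_lt_mul_of_pos_left H hg0
    have : e1 = 1 / K + 2 / 2 ^ (2 * r) := he1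
    linarith
  have he1' : 0 < e1 := by rw [he1]; positivity
  have he2' : 0 ≤ e2 := by rw [he2]; positivity
  have he3' : 0 ≤ e3 := by rw [he3]; positivity
  have he4' : 0 < e4 := by rw [he4]; positivity
  have hz2 : 0 ≤ z ^ 2 := sq_nonneg _
  have hg14 : g ≤ 1 / 4 := by
    rw [hg, div_le_div_iff₀ (by positivity) (by norm_num)]
    linarith
  have hgε : g * ε ≤ 1 / 4 := by nlinarith
  have hg2 : R / (2 * K) = 2 * g := by rw [hg]; field_simp; norm_num
  -- the inequality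
  have hΛ1 : (2 : ℝ) ^ (2 * r) * (1 - ((2 * r : ℕ) : ℝ) * (1 / K) / 4 - 1 / K - 2 / 2 ^ (2 * r)) * (1 - e2) ≤
      Lam k r (r ^ 6) := by
    have := lam_ge (1 / K) θ (by positivity) (by rw [div_le_one (by linarith)]; linarith) (2 * r) (by omega)
      (by linarith)
    exact this
  have hfac : 1 - ((2 * r : ℕ) : ℝ) * (1 / K) / 4 - 1 / K - 2 / 2 ^ (2 * r) = 1 - (2 * g + e1) := by
    rw [← hg2, he1]; push_cast; rw [← hR]; field_simp; ring
  rw [hfac] at hΛ1
  have hΛ0 : 0 ≤ Lam k r (r ^ 6) := by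
    refine le_trans ?_ hΛ1
    refine mul_nonneg (mul_nonneg (by positivity) (by linarith)) (by linarith)
  have hy0 : (0 : ℝ) < 1 / K ^ 2 := by positivity
  have hy1 : 1 / K ^ 2 ≤ 1 := by
    rw [div_le_one (by positivity)]; nlinarith
  have hmain := fixed_ineq k r (r ^ 6) L hk hr hL hL1
    (by have : r ≤ r ^ 6 := Nat.le_self_pow (by norm_num) r
        omega) (1 / K ^ 2) hy0 hy1 hΛ0
  rw [← hK] at hmain
  have hyρ : 1 - e3 ≤ (1 / K ^ 2) ^ ρ := by
    rw [Real.rpow_def_of_pos hy0]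
    have h1 : Real.log (1 / K ^ 2) = -(2 * Real.log K) := by
      rw [one_div, Real.log_inv, Real.log_pow]; norm_num
    rw [h1]
    have h2 := Real.add_one_le_exp (-(2 * Real.log K) * ρ)
    have h3 : -(2 * Real.log K) * ρ = - e3 := by rw [he3]; ring
    rw [h3] at h2 ⊢
    linarith
  have hy2 : (1 + 1 / K ^ 2) ^ (2 * r) * (1 - e4) ≤ 1 := by
    have h1 : (1 + 1 / K ^ 2) ^ (2 * r) ≤ Real.exp e4 := by
      calc (1 + 1 / K ^ 2) ^ (2 * r) ≤ (Real.exp (1 / K ^ 2)) ^ (2 * r) := by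
            apply pow_le_pow_left₀ (by positivity)
            have := Real.add_one_le_exp (1 / K ^ 2)
            linarith
        _ = Real.exp e4 := by
            rw [← Real.exp_nat_mul]
            congr 1
            rw [he4]; push_cast; rw [← hR]; ring
    have h2 : 1 - e4 ≤ Real.exp (-e4) := by
      have := Real.add_one_le_exp (-e4)
      linarith
    calc (1 + 1 / K ^ 2) ^ (2 * r) * (1 - e4) ≤ Real.exp e4 * Real.exp (-e4) :=
          mul_le_mul h1 h2 (by linarith) (Real.exp_pos _).le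
      _ = 1 := by rw [← Real.exp_add]; simp
  have hL2 : (4 * K) ^ r * ((1 - (2 * g + e1)) * (1 - e2) * (1 - e3) * (1 - e4)) ≤ L ^ r := by
    calc (4 * K) ^ r * ((1 - (2 * g + e1)) * (1 - e2) * (1 - e3) * (1 - e4))
        = (K ^ r * ((2 : ℝ) ^ (2 * r) * (1 - (2 * g + e1)) * (1 - e2)) * (1 - e3)) * (1 - e4) := by
          rw [mul_pow, h4r]; ring
      _ ≤ (K ^ r * Lam k r (r ^ 6) * (1 / K ^ 2) ^ ρ) * (1 - e4) := by
          refine mul_le_mul_of_nonneg_right ?_ (by linarith)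
          exact mul_le_mul (mul_le_mul_of_nonneg_left hΛ1 (by positivity)) hyρ (by linarith)
            (mul_nonneg (by positivity) hΛ0)
      _ ≤ (L ^ r * (1 + 1 / K ^ 2) ^ (2 * r)) * (1 - e4) := mul_le_mul_of_nonneg_right hmain (by linarith)
      _ = L ^ r * ((1 + 1 / K ^ 2) ^ (2 * r) * (1 - e4)) := by ring
      _ ≤ L ^ r * 1 := mul_le_mul_of_nonneg_left hy2 (by positivity)
      _ = L ^ r := mul_one _
  have hprod := prod_ge (a := 2 * g + e1) (b := e2) (c := e3) (d := e4) (by positivity) (by linarith) he2'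
    (by linarith) he3' (by linarith) he4'.le (by linarith)
  by_contra hcon
  push Not at hcon
  set v : ℝ := (2 + ε) / (4 * K) with hv
  have hv0 : 0 ≤ v := by rw [hv]; positivity
  have hv1 : v ≤ 1 := by
    rw [hv, div_le_one (by positivity)]; linarith
  have hq : 4 * K - 2 - ε = 4 * K * (1 - v) := by rw [hv]; field_simp; ring
  have hzv : z = r * v := by rw [hz, hv, hg]; ring
  have hz0 : 0 ≤ z := by rw [hz]; positivity
  have h1v : (1 - v) ^ r ≤ 1 - z + z ^ 2 := by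
    have h1 : (1 - v) ^ r * (1 + z) ≤ 1 := by
      calc (1 - v) ^ r * (1 + z) ≤ (1 - v) ^ r * (1 + v) ^ r := by
            refine mul_le_mul_of_nonneg_left ?_ (pow_nonneg (by linarith) _)
            have := one_add_mul_le_pow (a := v) (by linarith) r
            rw [hzv]; linarith
        _ = ((1 - v) * (1 + v)) ^ r := by rw [mul_pow]
        _ ≤ 1 := pow_le_one₀ (mul_nonneg (by linarith) (by linarith)) (by nlinarith)
    have h2 : 1 ≤ (1 - z + z ^ 2) * (1 + z) := by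
      have : (1 - z + z ^ 2) * (1 + z) = 1 + z ^ 3 := by ring
      rw [this]; have := pow_nonneg hz0 3; linarith
    have h3 : (1 - v) ^ r * (1 + z) ≤ (1 - z + z ^ 2) * (1 + z) := h1.trans h2
    exact le_of_mul_le_mul_right h3 (by linarith)
  have hlt : L ^ r < (4 * K) ^ r * (1 - z + z ^ 2) := by
    calc L ^ r < (4 * K * (1 - v)) ^ r := by
          rw [← hq]
          exact pow_lt_pow_left₀ hcon (by linarith) (by omega)
      _ = (4 * K) ^ r * (1 - v) ^ r := by rw [mul_pow]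
      _ ≤ _ := mul_le_mul_of_nonneg_left h1v (by positivity)
  have h5 := lt_of_le_of_lt ((mul_le_mul_of_nonneg_left hprod (by positivity : (0 : ℝ) ≤ (4 * K) ^ r)).trans hL2) hlt
  have h6 := lt_of_mul_lt_mul_left h5 (by positivity)
  have h7 : z = 2 * g + g * ε := by rw [hz]; ring
  linarith

/-- **The lower bound.** -/
theorem lower (ε : ℝ) (hε : 0 < ε) : ∃ k₀ : ℕ, ∀ k ≥ k₀, ∀ L : ℝ, (∀ n, (count k n : ℝ) ≤ L ^ n) → 1 ≤ L →
    4 * (k : ℝ) - 2 - ε ≤ L := by
  have t1 : Filter.Tendsto (fun r : ℕ => 2000000 / (r : ℝ) + 8 * (2 * (r : ℝ)) ^ 10 / 4 ^ r) Filter.atTop (nhds 0) := by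
    have a1 : Filter.Tendsto (fun r : ℕ => 2000000 / (r : ℝ)) Filter.atTop (nhds 0) :=
      tendsto_const_div_atTop_nhds_zero_nat _
    have a2 : Filter.Tendsto (fun r : ℕ => 8192 * ((r : ℝ) ^ 10 / 4 ^ r)) Filter.atTop (nhds (8192 * 0)) :=
      (tendsto_pow_const_div_const_pow_of_one_lt 10 (by norm_num : (1 : ℝ) < 4)).const_mul 8192
    rw [mul_zero] at a2
    have a3 := a1.add a2
    rw [add_zero] at a3
    refine a3.congr fun r => ?_
    ring
  have hε' : 0 < min ε 1 := lt_min hε one_pos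
  obtain ⟨R, hR⟩ := (t1.eventually_lt_const hε').exists_forall_of_atTop
  refine ⟨(R + 2) ^ 10, fun k hk L hL hL1 => ?_⟩
  obtain ⟨r, hr1, hr2⟩ : ∃ r, r ^ 10 ≤ k ∧ k < (r + 1) ^ 10 := by
    have hex : ∃ r, k < (r + 1) ^ 10 := ⟨k, lt_of_lt_of_le (Nat.lt_succ_self k) (Nat.le_self_pow (by norm_num) _)⟩
    refine ⟨Nat.find hex, ?_, Nat.find_spec hex⟩
    rcases Nat.eq_zero_or_pos (Nat.find hex) with h0 | h0
    · rw [h0]; simp
    · have := Nat.find_min hex (m := Nat.find hex - 1) (by omega)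
      push Not at this
      rwa [show Nat.find hex - 1 + 1 = Nat.find hex by omega] at this
  have hRr : R + 2 < r + 1 := lt_of_pow_lt_pow_left₀ 10 (by omega) (lt_of_le_of_lt hk hr2)
  have h2 : (2 : ℕ) ≤ k := by
    have h3 : 2 ^ 10 ≤ (R + 2) ^ 10 := Nat.pow_le_pow_left (by omega) 10
    have : (2 : ℕ) ^ 10 = 1024 := by norm_num
    omega
  have := asym_aux (min ε 1) hε' (min_le_right _ _) r k (by omega) hr1
    (hr2.le.trans (Nat.pow_le_pow_left (by omega) 10)) h2 (hR r (by omega)) L hL hL1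
  have := min_le_left ε 1
  linarith

end Pool.Agent.V11185.Shuf
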