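import Mathlib
import Pool.Agent.V11185.ShufDef

set_option autoImplicit false

namespace Pool.Agent.V11185.Shuf

/-- `Rep q w`: starting with the queue `q`, the word `w` can be written by pushing letters to the end of the
queue and popping letters at its front, with an empty queue at the end. -/
inductive Rep {A : Type} : List A → List A → Prop
  | nil : Rep [] []
  | push {q w : List A} (a : A) : Rep (q ++ [a]) w → Rep q (a :: w)
  | pop {q w : List A} (a : A) : Rep q w → Rep (a :: q) (a :: w)

lemma Interleave.symm {A : Type} {u v w : List A} (h : Interleave u v w) : Interleave v u w := by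
  induction h with
  | nil => exact Interleave.nil
  | left a _ ih => exact Interleave.right a ih
  | right a _ ih => exact Interleave.left a ih

lemma rep_of {A : Type} (w : List A) : ∀ (q u : List A), Interleave u (q ++ u) w → Rep q w := by
  induction w with
  | nil =>
    intro q u h
    have h1 := h.length
    simp only [List.length_nil, List.length_append] at h1
    have : q = [] := List.length_eq_zero_iff.1 (by omega)
    subst this
    exact Rep.nil
  | cons a w ih =>
    intro q u h
    generalize hv : q ++ u = v at h
    cases h with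
    | left _ h =>
      rename_i u'
      refine Rep.push a (ih (q ++ [a]) u' ?_)
      rw [List.append_assoc, List.singleton_append, hv]
      exact h
    | right _ h =>
      rename_i v'
      cases q with
      | nil =>
        rw [List.nil_append] at hv
        subst hv
        exact Rep.push a (ih ([] ++ [a]) v' (by simpa using h.symm))
      | cons x q =>
        rw [List.cons_append, List.cons.injEq] at hv
        obtain ⟨rfl, rfl⟩ := hv
        exact Rep.pop x (ih q u h)

/-- canonical representations -/
def CC {A : Type} : Bool → List A → List A → Prop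
  | _, [], q => q = []
  | _, a :: w, [] => CC true w [a]
  | f, a :: w, x :: q => (f = true ∧ a = x ∧ CC true w q) ∨ (a ≠ x ∧ CC true w (x :: q ++ [a])) ∨
      (a = x ∧ CC false w (x :: q ++ [a]))

lemma rep_cc {A : Type} (w : List A) : ∀ q : List A, Rep q w →
    CC true w q ∧ ((∀ a q' w', q = a :: q' → w = a :: w' → ¬ Rep q' w') → CC false w q) := by
  classical
  induction w with
  | nil =>
    intro q h
    cases h
    exact ⟨rfl, fun _ => rfl⟩
  | cons a w ih =>
    intro q h
    cases q with
    | nil =>
      cases h with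
      | push _ h => exact ⟨(ih _ h).1, fun _ => (ih _ h).1⟩
    | cons x q =>
      have key : ¬ (a = x ∧ Rep q w) → (a ≠ x ∧ CC true w (x :: q ++ [a])) ∨ (a = x ∧ CC false w (x :: q ++ [a])) := by
        intro hn
        have h1 : Rep (x :: q ++ [a]) w := by
          cases h with
          | push _ h => exact h
          | pop _ h => exact absurd ⟨rfl, h⟩ hn
        by_cases hax : a = x
        · right
          refine ⟨hax, (ih _ h1).2 ?_⟩
          subst hax
          intro b r v hb hv hr
          rw [List.cons_append, List.cons.injEq] at hb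
          obtain ⟨rfl, rfl⟩ := hb
          subst hv
          exact hn ⟨rfl, Rep.push a hr⟩
        · left
          exact ⟨hax, (ih _ h1).1⟩
      constructor
      · by_cases hp : a = x ∧ Rep q w
        · exact Or.inl ⟨rfl, hp.1, (ih _ hp.2).1⟩
        · exact Or.inr (key hp)
      · intro hno
        refine Or.inr (key ?_)
        rintro ⟨rfl, hr⟩
        exact hno a q w rfl rfl hr

lemma ncard_cons_le {k T : ℕ} (P : List (Fin k) → Prop) :
    ({w : List (Fin k) | w.length = T + 1 ∧ P w}).ncard ≤
      ∑ a : Fin k, ({w : List (Fin k) | w.length = T ∧ P (a :: w)}).ncard := by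
  have h1 : {w : List (Fin k) | w.length = T + 1 ∧ P w} ⊆ ⋃ a ∈ (Finset.univ : Finset (Fin k)),
      (fun w => a :: w) '' {w : List (Fin k) | w.length = T ∧ P (a :: w)} := by
    rintro w ⟨hw1, hw2⟩
    cases w with
    | nil => simp at hw1
    | cons a w =>
      rw [Set.mem_iUnion₂]
      exact ⟨a, Finset.mem_univ _, w, ⟨by simpa using hw1, hw2⟩, rfl⟩
  have hfin : ∀ a : Fin k, ({w : List (Fin k) | w.length = T ∧ P (a :: w)}).Finite := fun a =>
    (List.finite_length_eq (Fin k) T).subset fun _ h => h.1
  calc _ ≤ (⋃ a ∈ (Finset.univ : Finset (Fin k)),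
      (fun w => a :: w) '' {w : List (Fin k) | w.length = T ∧ P (a :: w)}).ncard :=
        Set.ncard_le_ncard h1 (Set.Finite.biUnion (Finset.finite_toSet _) fun a _ => (hfin a).image _)
    _ ≤ ∑ a : Fin k, ((fun w => a :: w) '' {w : List (Fin k) | w.length = T ∧ P (a :: w)}).ncard :=
        Finset.set_ncard_biUnion_le _ _
    _ ≤ _ := Finset.sum_le_sum fun a _ => Set.ncard_image_le (hfin a)

theorem upper_aux (k : ℕ) (hk : 2 ≤ k) (T : ℕ) : ∀ q : List (Fin k),
    (({w : List (Fin k) | w.length = T ∧ CC true w q}).ncard : ℝ) ≤
      (Real.sqrt k + Real.sqrt (k - 1)) ^ T * (1 / Real.sqrt k) ^ q.length ∧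
    (q ≠ [] → (({w : List (Fin k) | w.length = T ∧ CC false w q}).ncard : ℝ) ≤
      (Real.sqrt (k - 1) / (Real.sqrt k + Real.sqrt (k - 1))) *
        ((Real.sqrt k + Real.sqrt (k - 1)) ^ T * (1 / Real.sqrt k) ^ q.length)) := by
  have hk1 : (0 : ℝ) < (k : ℝ) - 1 := by
    have : (2 : ℝ) ≤ k := by exact_mod_cast hk
    linarith
  have hk0 : (0 : ℝ) < k := by linarith
  set S := Real.sqrt k with hS
  set S1 := Real.sqrt ((k : ℝ) - 1) with hS1
  have hSp : 0 < S := Real.sqrt_pos.2 hk0
  have hS1p : 0 < S1 := Real.sqrt_pos.2 hk1
  have hSS : S * S = k := Real.mul_self_sqrt hk0.le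
  have hSS1 : S1 * S1 = k - 1 := Real.mul_self_sqrt hk1.le
  set μ := S + S1 with hμ
  have hμp : 0 < μ := by positivity
  have hfin : ∀ (f : Bool) (q : List (Fin k)) (T : ℕ), ({w : List (Fin k) | w.length = T ∧ CC f w q}).Finite :=
    fun f q T => (List.finite_length_eq (Fin k) T).subset fun _ h => h.1
  induction T with
  | zero =>
    intro q
    have h0 : ∀ f : Bool, q ≠ [] → ({w : List (Fin k) | w.length = 0 ∧ CC f w q}).ncard = 0 := by
      intro f hq
      rw [Set.ncard_eq_zero (hfin f q 0), Set.eq_empty_iff_forall_notMem]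
      rintro w ⟨h1, h2⟩
      rw [List.length_eq_zero_iff] at h1
      subst h1
      exact hq h2
    refine ⟨?_, fun hq => ?_⟩
    · by_cases hq : q = []
      · subst hq
        have h1 : {w : List (Fin k) | w.length = 0 ∧ CC true w []} ⊆ {[]} := by
          rintro w ⟨h1, _⟩
          exact List.length_eq_zero_iff.1 h1
        have h2 := Set.ncard_le_ncard h1 (Set.finite_singleton _)
        rw [Set.ncard_singleton] at h2
        simp only [pow_zero, List.length_nil, mul_one]
        exact_mod_cast h2
      · rw [h0 true hq]
        push_cast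
        positivity
    · rw [h0 false hq]
      push_cast
      positivity
  | succ T ih =>
    intro q
    cases q with
    | nil =>
      refine ⟨?_, fun h => absurd rfl h⟩
      have h1 := ncard_cons_le (T := T) (fun w : List (Fin k) => CC true w [])
      have h2 : ∀ a : Fin k, (({w : List (Fin k) | w.length = T ∧ CC true (a :: w) []}).ncard : ℝ) ≤
          μ ^ T * (1 / S) ^ 1 := by
        intro a
        have := (ih [a]).1
        simpa [CC] using this
      calc (({w : List (Fin k) | w.length = T + 1 ∧ CC true w []}).ncard : ℝ)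
          ≤ ∑ a : Fin k, (({w : List (Fin k) | w.length = T ∧ CC true (a :: w) []}).ncard : ℝ) := by exact_mod_cast h1
        _ ≤ ∑ _a : Fin k, μ ^ T * (1 / S) ^ 1 := Finset.sum_le_sum fun a _ => h2 a
        _ = μ ^ T * S := by
            rw [Finset.sum_const, Finset.card_univ, Fintype.card_fin, nsmul_eq_mul, pow_one]
            rw [← hSS]; field_simp
        _ ≤ μ ^ (T + 1) * (1 / S) ^ ([] : List (Fin k)).length := by
            rw [List.length_nil, pow_zero, mul_one, pow_succ]
            exact mul_le_mul_of_nonneg_left (by rw [hμ]; linarith) (by positivity)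
    | cons x q =>
      have hne : ∀ a : Fin k, a ≠ x → ∀ f : Bool,
          (({w : List (Fin k) | w.length = T ∧ CC f (a :: w) (x :: q)}).ncard : ℝ) ≤
            μ ^ T * (1 / S) ^ (q.length + 2) := by
        intro a ha f
        have h1 := (ih (x :: q ++ [a])).1
        have h2 : {w : List (Fin k) | w.length = T ∧ CC f (a :: w) (x :: q)} =
            {w : List (Fin k) | w.length = T ∧ CC true w (x :: q ++ [a])} := by
          ext w
          simp only [Set.mem_setOf_eq, CC]
          constructor
          · rintro ⟨h3, h4 | h4 | h4⟩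
            · exact absurd h4.2.1 ha
            · exact ⟨h3, h4.2⟩
            · exact absurd h4.1 ha
          · rintro ⟨h3, h4⟩
            exact ⟨h3, Or.inr (Or.inl ⟨ha, h4⟩)⟩
        rw [h2]
        refine h1.trans (le_of_eq ?_)
        congr 2
        simp
      have hfalse : (({w : List (Fin k) | w.length = T ∧ CC false w (x :: q ++ [x])}).ncard : ℝ) ≤
          S1 / μ * (μ ^ T * (1 / S) ^ (q.length + 2)) := by
        have h1 := (ih (x :: q ++ [x])).2 (by simp)
        refine h1.trans (le_of_eq ?_)
        congr 3
        simp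
      have hx : ∀ f : Bool, {w : List (Fin k) | w.length = T ∧ CC f (x :: w) (x :: q)} =
          {w : List (Fin k) | w.length = T ∧ f = true ∧ CC true w q} ∪
          {w : List (Fin k) | w.length = T ∧ CC false w (x :: q ++ [x])} := by
        intro f
        ext w
        simp only [Set.mem_setOf_eq, CC, Set.mem_union]
        constructor
        · rintro ⟨h3, h4 | h4 | h4⟩
          · exact Or.inl ⟨h3, h4.1, h4.2.2⟩
          · exact absurd rfl h4.1
          · exact Or.inr ⟨h3, h4.2⟩
        · rintro (⟨h3, h4, h5⟩ | ⟨h3, h4⟩)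
          · exact ⟨h3, Or.inl ⟨h4, trivial, h5⟩⟩
          · exact ⟨h3, Or.inr (Or.inr ⟨trivial, h4⟩)⟩
      have hsum : ∀ (f : Bool) (X : ℝ), (({w : List (Fin k) | w.length = T ∧ CC f (x :: w) (x :: q)}).ncard : ℝ) ≤ X →
          (({w : List (Fin k) | w.length = T + 1 ∧ CC f w (x :: q)}).ncard : ℝ) ≤
            X + (k - 1) * (μ ^ T * (1 / S) ^ (q.length + 2)) := by
        intro f X hX
        have h1 := ncard_cons_le (T := T) (fun w : List (Fin k) => CC f w (x :: q))
        calc (({w : List (Fin k) | w.length = T + 1 ∧ CC f w (x :: q)}).ncard : ℝ)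
            ≤ ∑ a : Fin k, (({w : List (Fin k) | w.length = T ∧ CC f (a :: w) (x :: q)}).ncard : ℝ) := by
              exact_mod_cast h1
          _ = (({w : List (Fin k) | w.length = T ∧ CC f (x :: w) (x :: q)}).ncard : ℝ) +
              ∑ a ∈ Finset.univ.erase x, (({w : List (Fin k) | w.length = T ∧ CC f (a :: w) (x :: q)}).ncard : ℝ) :=
              (Finset.add_sum_erase _ _ (Finset.mem_univ x)).symm
          _ ≤ X + ∑ _a ∈ Finset.univ.erase x, μ ^ T * (1 / S) ^ (q.length + 2) :=
              add_le_add hX (Finset.sum_le_sum fun a ha => hne a (Finset.ne_of_mem_erase ha) f)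
          _ = _ := by
              rw [Finset.sum_const, Finset.card_erase_of_mem (Finset.mem_univ _), Finset.card_univ, Fintype.card_fin,
                nsmul_eq_mul, Nat.cast_sub (by omega)]
              norm_num
      have hid : S1 / μ * (1 / S) ^ (q.length + 2) + (k - 1) * (1 / S) ^ (q.length + 2) =
          S1 / μ * (μ * (1 / S) ^ (q.length + 1)) := by
        have hS2 : S ^ 2 = S1 ^ 2 + 1 := by nlinarith [hSS, hSS1]
        have hS3 : (k : ℝ) - 1 = S1 ^ 2 := by rw [sq, hSS1]
        have hS4 : S1 / μ + S1 ^ 2 = S1 * S := by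
          rw [hμ, div_add' _ _ _ (by positivity), div_eq_iff (by positivity)]
          linear_combination (-S1) * hS2
        rw [hS3, pow_succ (1 / S) (q.length + 1)]
        calc S1 / μ * ((1 / S) ^ (q.length + 1) * (1 / S)) + S1 ^ 2 * ((1 / S) ^ (q.length + 1) * (1 / S)) =
            (S1 / μ + S1 ^ 2) * ((1 / S) ^ (q.length + 1) * (1 / S)) := by ring
          _ = S1 * S * ((1 / S) ^ (q.length + 1) * (1 / S)) := by rw [hS4]
          _ = S1 * (1 / S) ^ (q.length + 1) * (S * (1 / S)) := by ring
          _ = S1 * (1 / S) ^ (q.length + 1) := by rw [mul_one_div_cancel hSp.ne', mul_one]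
          _ = _ := by
            rw [← mul_assoc, div_mul_cancel₀ _ hμp.ne']
      have hid2 : (1 / S) ^ q.length + S1 / μ * (μ * (1 / S) ^ (q.length + 1)) = μ * (1 / S) ^ (q.length + 1) := by
        rw [← mul_assoc (S1 / μ), div_mul_cancel₀ _ hμp.ne', pow_succ (1 / S) q.length, hμ]
        calc (1 / S) ^ q.length + S1 * ((1 / S) ^ q.length * (1 / S)) =
            (1 / S) ^ q.length * (1 + S1 * (1 / S)) := by ring
          _ = (1 / S) ^ q.length * (S * (1 / S) + S1 * (1 / S)) := by rw [mul_one_div_cancel hSp.ne']
          _ = _ := by ring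
      constructor
      · have h1 := hsum true ((μ ^ T * (1 / S) ^ q.length) + S1 / μ * (μ ^ T * (1 / S) ^ (q.length + 2))) ?_
        · refine h1.trans (le_of_eq ?_)
          rw [List.length_cons, pow_succ μ T]
          calc _ = μ ^ T * ((1 / S) ^ q.length + (S1 / μ * (1 / S) ^ (q.length + 2) + (k - 1) * (1 / S) ^ (q.length + 2))) := by ring
            _ = μ ^ T * (μ * (1 / S) ^ (q.length + 1)) := by rw [hid, hid2]
            _ = _ := by ring
        · rw [hx true]
          have h2 := Set.ncard_union_le {w : List (Fin k) | w.length = T ∧ true = true ∧ CC true w q}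
            {w : List (Fin k) | w.length = T ∧ CC false w (x :: q ++ [x])}
          have h3 := (ih q).1
          have h4 : {w : List (Fin k) | w.length = T ∧ true = true ∧ CC true w q} =
            {w : List (Fin k) | w.length = T ∧ CC true w q} := by
            ext w; simp
          calc _ ≤ (({w : List (Fin k) | w.length = T ∧ true = true ∧ CC true w q}).ncard : ℝ) +
            (({w : List (Fin k) | w.length = T ∧ CC false w (x :: q ++ [x])}).ncard : ℝ) := by exact_mod_cast h2
            _ ≤ _ := by
              rw [h4]
              exact add_le_add h3 hfalse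
      · intro _
        have h1 := hsum false (S1 / μ * (μ ^ T * (1 / S) ^ (q.length + 2))) ?_
        · refine h1.trans (le_of_eq ?_)
          rw [List.length_cons, pow_succ μ T]
          calc _ = μ ^ T * (S1 / μ * (1 / S) ^ (q.length + 2) + (k - 1) * (1 / S) ^ (q.length + 2)) := by ring
            _ = μ ^ T * (S1 / μ * (μ * (1 / S) ^ (q.length + 1))) := by rw [hid]
            _ = _ := by ring
        · rw [hx false]
          have h4 : {w : List (Fin k) | w.length = T ∧ false = true ∧ CC true w q} = ∅ := by
            ext w; simp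
          rw [h4, Set.empty_union]
          exact hfalse

/-- **The upper bound** (Bukh–Zhou) -/
theorem count_le (k n : ℕ) (hk : 2 ≤ k) :
    (count k n : ℝ) ≤ ((Real.sqrt k + Real.sqrt (k - 1)) ^ 2) ^ n := by
  have h1 := (upper_aux k hk (2 * n) []).1
  rw [List.length_nil, pow_zero, mul_one, pow_mul] at h1
  refine le_trans ?_ h1
  have h2 : squares k n ⊆ {w : List (Fin k) | w.length = 2 * n ∧ CC true w []} := by
    rintro w ⟨h3, u, h4⟩
    exact ⟨h3, (rep_cc w [] (rep_of w [] u (by simpa using h4))).1⟩
  have h3 := Set.ncard_le_ncard h2 ((List.finite_length_eq (Fin k) (2 * n)).subset fun _ h => h.1)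
  unfold count
  exact_mod_cast h3

end Pool.Agent.V11185.Shuf
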