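import Mathlib
import Pool.Agent.V11185.ShufU

set_option autoImplicit false

namespace Pool.Agent.V11185.Shuf

open Filter Topology

lemma count_le_pow (k n : ℕ) : count k n ≤ (k ^ 2) ^ n := by
  have h1 : ∀ T : ℕ, ({w : List (Fin k) | w.length = T ∧ True}).ncard ≤ k ^ T := by
    intro T
    induction T with
    | zero =>
      have h1 : {w : List (Fin k) | w.length = 0 ∧ True} ⊆ {[]} := by
        rintro w ⟨h1, _⟩
        exact List.length_eq_zero_iff.1 h1
      have h2 := Set.ncard_le_ncard h1 (Set.finite_singleton _)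
      rw [Set.ncard_singleton] at h2
      simpa using h2
    | succ T ih =>
      refine (ncard_cons_le (T := T) (fun _ : List (Fin k) => True)).trans ?_
      rw [Finset.sum_const, Finset.card_univ, Fintype.card_fin, smul_eq_mul, pow_succ, mul_comm]
      exact Nat.mul_le_mul_right _ ih
  rw [← pow_mul]
  refine le_trans ?_ (h1 (2 * n))
  exact Set.ncard_le_ncard (fun w hw => ⟨hw.1, trivial⟩)
    ((List.finite_length_eq (Fin k) (2 * n)).subset fun _ h => h.1)

/-- The growth rate exists, and it bounds the counting sequence. -/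
theorem exists_lim (k : ℕ) (hk : 1 ≤ k) : ∃ L : ℝ,
    Tendsto (fun n : ℕ => (count k n : ℝ) ^ (1 / (n : ℝ))) atTop (𝓝 L) ∧
    (∀ n, (count k n : ℝ) ≤ L ^ n) ∧ 1 ≤ L := by
  have hpos : ∀ n, (1 : ℝ) ≤ count k n := fun n => by exact_mod_cast count_pos k n hk
  have hpos0 : ∀ n, (0 : ℝ) < count k n := fun n => lt_of_lt_of_le one_pos (hpos n)
  have hsub : Subadditive (fun n => -Real.log (count k n)) := by
    intro m n
    have h1 : (count k m : ℝ) * count k n ≤ count k (m + n) := by exact_mod_cast count_mul k m n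
    have h2 := Real.log_le_log (mul_pos (hpos0 m) (hpos0 n)) h1
    rw [Real.log_mul (hpos0 m).ne' (hpos0 n).ne'] at h2
    linarith
  have hk' : (1 : ℝ) ≤ k := by exact_mod_cast hk
  have hlk : 0 ≤ Real.log ((k : ℝ) ^ 2) := Real.log_nonneg (one_le_pow₀ hk')
  have hup : ∀ n : ℕ, Real.log (count k n) ≤ n * Real.log ((k : ℝ) ^ 2) := by
    intro n
    rw [← Real.log_pow]
    refine Real.log_le_log (hpos0 n) ?_
    exact_mod_cast count_le_pow k n
  have hbdd : BddBelow (Set.range fun n : ℕ => (-Real.log (count k n)) / (n : ℝ)) := by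
    refine ⟨-Real.log ((k : ℝ) ^ 2), ?_⟩
    rintro _ ⟨n, rfl⟩
    rcases Nat.eq_zero_or_pos n with rfl | hn
    · simp only [Nat.cast_zero, div_zero]
      linarith
    · have hn' : (0 : ℝ) < n := by exact_mod_cast hn
      simp only
      rw [le_div_iff₀ hn']
      have := hup n
      linarith
  have hlim := hsub.tendsto_lim hbdd
  have hle : ∀ n : ℕ, Real.log (count k n) ≤ n * (-hsub.lim) := by
    intro n
    rcases Nat.eq_zero_or_pos n with rfl | hn
    · have := hup 0
      simpa using this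
    · have hn' : (0 : ℝ) < n := by exact_mod_cast hn
      have h1 := hsub.lim_le_div hbdd hn.ne'
      rw [le_div_iff₀ hn'] at h1
      linarith
  refine ⟨Real.exp (-hsub.lim), ?_, ?_, ?_⟩
  · have h1 : Tendsto (fun n : ℕ => Real.exp (-((-Real.log (count k n)) / (n : ℝ)))) atTop
        (𝓝 (Real.exp (-hsub.lim))) := (Real.continuous_exp.tendsto _).comp hlim.neg
    refine h1.congr fun n => ?_
    rw [Real.rpow_def_of_pos (hpos0 n)]
    congr 1
    ring
  · intro n
    rw [← Real.exp_nat_mul, ← Real.log_le_iff_le_exp (hpos0 n)]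
    exact hle n
  · rw [← Real.exp_zero, Real.exp_le_exp]
    have h1 := hle 1
    have h2 := Real.log_nonneg (hpos 1)
    push_cast at h1
    linarith

/-- the upper bound on the growth rate -/
theorem lim_le (k : ℕ) (hk : 2 ≤ k) (L : ℝ)
    (hL : Tendsto (fun n : ℕ => (count k n : ℝ) ^ (1 / (n : ℝ))) atTop (𝓝 L)) :
    L ≤ (Real.sqrt k + Real.sqrt (k - 1)) ^ 2 := by
  refine le_of_tendsto hL ?_
  filter_upwards [eventually_ge_atTop 1] with n hn
  have hn' : (n : ℝ) ≠ 0 := by
    have : (1 : ℝ) ≤ n := by exact_mod_cast hn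
    positivity
  have hB : (0 : ℝ) ≤ (Real.sqrt k + Real.sqrt (k - 1)) ^ 2 := by positivity
  calc (count k n : ℝ) ^ (1 / (n : ℝ)) ≤ (((Real.sqrt k + Real.sqrt (k - 1)) ^ 2) ^ n) ^ (1 / (n : ℝ)) :=
        Real.rpow_le_rpow (by positivity) (count_le k n hk) (by positivity)
    _ = (Real.sqrt k + Real.sqrt (k - 1)) ^ 2 := by
        rw [← Real.rpow_natCast, ← Real.rpow_mul hB, mul_one_div_cancel hn', Real.rpow_one]

lemma sqrt_bound (k : ℕ) (hk : 1 ≤ k) : (Real.sqrt k + Real.sqrt (k - 1)) ^ 2 ≤ 4 * (k : ℝ) - 2 := by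
  have hk' : (1 : ℝ) ≤ k := by exact_mod_cast hk
  have h1 : Real.sqrt k ^ 2 = k := Real.sq_sqrt (by linarith)
  have h2 : Real.sqrt (k - 1) ^ 2 = (k : ℝ) - 1 := Real.sq_sqrt (by linarith)
  nlinarith [sq_nonneg (Real.sqrt k - Real.sqrt (k - 1))]

end Pool.Agent.V11185.Shuf
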