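import Pool.Agent.V11185.PGrpF

/-!
Packing the progressions of all multiples up to `n`: the asymptotic formula.
-/

set_option autoImplicit false

namespace Pool.Agent.V11185.PGrp

open Finset Filter Topology Pool.Agent.V11185.PPack

lemma sqrt_tendsto : Tendsto Nat.sqrt atTop atTop := by
  rw [tendsto_atTop]
  intro b
  filter_upwards [eventually_ge_atTop (b * b)] with n hn
  exact Nat.le_sqrt.2 hn

theorem all_sqrt {M : ℕ → ℕ}
    (hM : ∀ n, IsLeast {m | Packs (Icc 1 n) (fun d => mult d (n / d)) m} (M n)) :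
    Tendsto (fun n : ℕ => (M n : ℝ) * Real.log (Nat.sqrt n) / (Nat.sqrt n : ℝ) ^ 3) atTop
      (𝓝 (2 / 3)) := by
  set M' : ℕ → ℕ := fun n =>
    sInf {m | Packs (primesLE (Nat.sqrt n)) (fun p => mult p (n / p)) m} with hM'
  have hM'' : ∀ n, IsLeast {m | Packs (primesLE (Nat.sqrt n)) (fun p => mult p (n / p)) m}
      (M' n) := fun n => isLeast_sInf (P := primesLE (Nat.sqrt n)) (N := fun p => n / p)
        (fun p hp => primesLE_pos hp)
  have hle : ∀ n, M' n ≤ M n := by
    intro n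
    apply (hM'' n).2
    obtain ⟨s, h1, h2⟩ := (hM n).1
    have hsub : ∀ p ∈ primesLE (Nat.sqrt n), p ∈ Icc 1 n := by
      intro p hp
      rw [Finset.mem_Icc]
      exact ⟨primesLE_pos hp, (primesLE_le hp).trans (Nat.sqrt_le_self n)⟩
    exact ⟨s, fun p hp => h1 p (hsub p hp), fun p hp q hq => h2 p (hsub p hp) q (hsub q hq)⟩
  have hlow := floor_lengths hM''
  rw [Metric.tendsto_atTop']
  intro ε hε
  obtain ⟨h, hh⟩ := exists_nat_gt (2060 / ε)
  have hh0 : 0 < h := by
    have : (0 : ℝ) < h := (by positivity : (0 : ℝ) < 2060 / ε).trans hh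
    exact_mod_cast this
  have hh1 : (1 : ℝ) ≤ h := by exact_mod_cast hh0
  have hhe : 2060 / (h : ℝ) ^ 2 < ε := by
    rw [div_lt_iff₀ hε] at hh
    rw [div_lt_iff₀ (by positivity)]
    nlinarith
  have h1 := upper_n h hh0
  have h2 := hlow.eventually (lt_mem_nhds (show (2 / 3 : ℝ) - ε < 2 / 3 by linarith))
  obtain ⟨n0, hn0⟩ := ((h1.and h2).and (sqrt_tendsto.eventually_ge_atTop 2)).exists_forall_of_atTop
  refine ⟨n0, fun n hn => ?_⟩
  obtain ⟨⟨⟨L, hL1, hL2⟩, h2⟩, hR⟩ := hn0 n hn.le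
  have hRpos : (0 : ℝ) < Nat.sqrt n := by
    have : 0 < Nat.sqrt n := by omega
    exact_mod_cast this
  have hlog : 0 < Real.log (Nat.sqrt n) := Real.log_pos (by
    have : 1 < Nat.sqrt n := by omega
    exact_mod_cast this)
  have hw : 0 < Real.log (Nat.sqrt n) / (Nat.sqrt n : ℝ) ^ 3 := by positivity
  have hML : (M n : ℝ) ≤ L := by
    exact_mod_cast (hM n).2 (packs_of_PackN hL1)
  have hMM : (M' n : ℝ) ≤ M n := by exact_mod_cast hle n
  have k1 := mul_le_mul_of_nonneg_right hML hw.le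
  have k2 := mul_le_mul_of_nonneg_right hMM hw.le
  rw [mul_div_assoc] at hL2 h2
  rw [Real.dist_eq, abs_lt, mul_div_assoc]
  constructor <;> linarith

theorem convert_sqrt {F : ℕ → ℝ}
    (hF : Tendsto (fun n : ℕ => F n * Real.log (Nat.sqrt n) / (Nat.sqrt n : ℝ) ^ 3) atTop
      (𝓝 (2 / 3))) :
    Tendsto (fun n : ℕ => F n * Real.log n / (n : ℝ) ^ (3 / 2 : ℝ)) atTop (𝓝 (4 / 3)) := by
  have hR := sqrt_tendsto
  have hs : Tendsto (fun n : ℕ => Real.sqrt n) atTop atTop :=
    Real.tendsto_sqrt_atTop.comp tendsto_natCast_atTop_atTop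
  have h1 : Tendsto (fun n : ℕ => (Nat.sqrt n : ℝ) / Real.sqrt n) atTop (𝓝 1) := by
    have := (tendsto_nat_floor_div_atTop (R := ℝ)).comp hs
    refine this.congr fun n => ?_
    simp only [Function.comp_apply]
    rw [Real.nat_floor_real_sqrt_eq_nat_sqrt]
  have hlR : Tendsto (fun n : ℕ => Real.log (Nat.sqrt n)) atTop atTop :=
    Real.tendsto_log_atTop.comp (tendsto_natCast_atTop_atTop.comp hR)
  have h2 : Tendsto (fun n : ℕ => Real.log n / Real.log (Nat.sqrt n)) atTop (𝓝 2) := by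
    have h3 : Tendsto (fun n : ℕ => 2 * (1 - Real.log ((Nat.sqrt n : ℝ) / Real.sqrt n) *
        (Real.log (Nat.sqrt n))⁻¹)) atTop (𝓝 (2 * (1 - Real.log 1 * 0))) := by
      refine (tendsto_const_nhds.sub (Tendsto.mul ?_ (tendsto_inv_atTop_zero.comp hlR))).const_mul 2
      exact (Real.continuousAt_log one_ne_zero).tendsto.comp h1
    rw [mul_zero, sub_zero, mul_one] at h3
    refine h3.congr' ?_
    filter_upwards [hR.eventually_ge_atTop 2, eventually_ge_atTop 1] with n hn hn1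
    have hRpos : (0 : ℝ) < Nat.sqrt n := by
      have : 0 < Nat.sqrt n := by omega
      exact_mod_cast this
    have hlog : 0 < Real.log (Nat.sqrt n) := Real.log_pos (by
      have : 1 < Nat.sqrt n := by omega
      exact_mod_cast this)
    have hn0 : (0 : ℝ) < n := by positivity
    have hsp : 0 < Real.sqrt n := Real.sqrt_pos.2 hn0
    rw [Real.log_div hRpos.ne' hsp.ne', Real.log_sqrt hn0.le]
    field_simp
    ring
  have h := (hF.mul h2).mul (h1.pow 3)
  have e : (2 / 3 : ℝ) * 2 * 1 ^ 3 = 4 / 3 := by norm_num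
  rw [e] at h
  refine h.congr' ?_
  filter_upwards [hR.eventually_ge_atTop 2, eventually_ge_atTop 1] with n hn hn1
  have hRpos : (0 : ℝ) < Nat.sqrt n := by
    have : 0 < Nat.sqrt n := by omega
    exact_mod_cast this
  have hlog : 0 < Real.log (Nat.sqrt n) := Real.log_pos (by
    have : 1 < Nat.sqrt n := by omega
    exact_mod_cast this)
  have hn0 : (0 : ℝ) < n := by positivity
  have hsp : 0 < Real.sqrt n := Real.sqrt_pos.2 hn0
  have e5 : (n : ℝ) ^ (3 / 2 : ℝ) = Real.sqrt n ^ 3 := by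
    rw [Real.sqrt_eq_rpow, ← Real.rpow_natCast, ← Real.rpow_mul hn0.le]
    norm_num
  rw [e5]
  field_simp

/-- the asymptotic formula -/
theorem all_lengths {M : ℕ → ℕ}
    (hM : ∀ n, IsLeast {m | Packs (Icc 1 n) (fun d => mult d (n / d)) m} (M n)) :
    Tendsto (fun n : ℕ => (M n : ℝ) * Real.log n / (n : ℝ) ^ (3 / 2 : ℝ)) atTop (𝓝 (4 / 3)) :=
  convert_sqrt (all_sqrt hM)

end Pool.Agent.V11185.PGrp
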