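import Mathlib

/-!
# Principal minors of matrices `A` with `A + A*` of rank at most one

The valuations of the principal minors of such a matrix form a valuated Delta-matroid: the
subdivision of the cube has no edge whose direction has at least three nonzero coordinates.
-/

set_option autoImplicit false

namespace Pool.Agent.V11185.Delta

open Finset Matrix Module

variable {n : ℕ}

/-- the indicator vector `e_X` in `ℝ ^ n` -/
def ind (X : Finset (Fin n)) : Fin n → ℝ := fun i => if i ∈ X then 1 else 0

/-- The vertices of the cell that is cut out by the affine function `c + ∑ u i * x i`: all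
indicator vectors `e_X` at which `p` agrees with this function. -/
def cell (p : Finset (Fin n) → WithTop ℝ) (c : ℝ) (u : Fin n → ℝ) : Set (Fin n → ℝ) :=
  {x | ∃ X, x = ind X ∧ p X = ((c + ∑ i, u i * ind X i : ℝ) : WithTop ℝ)}

/-- `p` is a valuated Delta-matroid: whenever the affine function `c + ∑ u i * x i` is a lower
bound for `p` and the cell of the regular subdivision on which it agrees with `p` has dimension
one, this edge is parallel to `e_i` or to `e_i + e_j` or `e_i - e_j` for some `i ≠ j`. -/
def IsValuatedDelta (p : Finset (Fin n) → WithTop ℝ) : Prop :=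
  ∀ (c : ℝ) (u : Fin n → ℝ),
    (∀ X, ((c + ∑ i, u i * ind X i : ℝ) : WithTop ℝ) ≤ p X) →
    finrank ℝ (vectorSpan ℝ (cell p c u)) = 1 →
    ∃ i j : Fin n,
      vectorSpan ℝ (cell p c u) = Submodule.span ℝ {Pi.single i 1} ∨
      (i ≠ j ∧ (vectorSpan ℝ (cell p c u) = Submodule.span ℝ {Pi.single i 1 + Pi.single j 1} ∨
        vectorSpan ℝ (cell p c u) = Submodule.span ℝ {Pi.single i 1 - Pi.single j 1}))

/-! ### Edges of the cube -/

theorem ind_injective : Function.Injective (ind : Finset (Fin n) → Fin n → ℝ) := by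
  intro X Y h
  ext i
  have := congrFun h i
  by_cases hX : i ∈ X <;> by_cases hY : i ∈ Y <;> simp [ind, hX, hY] at this ⊢

theorem sum_ind (u : Fin n → ℝ) (X : Finset (Fin n)) : ∑ i, u i * ind X i = ∑ i ∈ X, u i := by
  simp [ind]

/-- three distinct vertices of the cube are not collinear -/
theorem collinear {S T X : Finset (Fin n)} (hST : S ≠ T) {t : ℝ}
    (h : ind X - ind S = t • (ind T - ind S)) : X = S ∨ X = T := by
  have hex : ∃ i, (i ∈ S ∧ i ∉ T) ∨ (i ∉ S ∧ i ∈ T) := by
    by_contra hcon
    push Not at hcon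
    apply hST
    ext i
    constructor
    · intro hi
      exact (hcon i).1 hi
    · intro hi
      by_contra hi'
      exact (hcon i).2 hi' hi
  have key : t = 0 ∨ t = 1 := by
    obtain ⟨i, hi⟩ := hex
    have h1 := congrFun h i
    simp only [Pi.sub_apply, Pi.smul_apply, smul_eq_mul, ind] at h1
    rcases hi with ⟨hS, hT⟩ | ⟨hS, hT⟩ <;> by_cases hX : i ∈ X <;>
      simp only [hS, hT, hX, if_true, if_false] at h1
    · left; linarith
    · right; linarith
    · right; linarith
    · left; linarith
  rcases key with rfl | rfl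
  · left
    rw [zero_smul, sub_eq_zero] at h
    exact ind_injective h
  · right
    rw [one_smul, sub_left_inj] at h
    exact ind_injective h

theorem isValuatedDelta_of {p : Finset (Fin n) → WithTop ℝ}
    (h : ∀ (c : ℝ) (u : Fin n → ℝ) (S T : Finset (Fin n)),
      (∀ X, ((c + ∑ i ∈ X, u i : ℝ) : WithTop ℝ) ≤ p X) →
      (∀ X, p X = ((c + ∑ i ∈ X, u i : ℝ) : WithTop ℝ) ↔ X = S ∨ X = T) →
      ¬ 3 ≤ (symmDiff S T).card) : IsValuatedDelta p := by
  classical
  intro c u hle hdim
  simp only [sum_ind] at hle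
  -- two distinct vertices
  obtain ⟨S, T, hS, hT, hST⟩ : ∃ S T : Finset (Fin n),
      p S = ((c + ∑ i ∈ S, u i : ℝ) : WithTop ℝ) ∧
      p T = ((c + ∑ i ∈ T, u i : ℝ) : WithTop ℝ) ∧ S ≠ T := by
    by_contra hcon
    push Not at hcon
    have hsub : (cell p c u).Subsingleton := by
      rintro _ ⟨S, rfl, hS⟩ _ ⟨T, rfl, hT⟩
      rw [sum_ind] at hS hT
      rw [hcon S T hS hT]
    rw [vectorSpan_of_subsingleton ℝ hsub, finrank_bot] at hdim
    exact absurd hdim (by norm_num)
  have hSmem : ind S ∈ cell p c u := ⟨S, rfl, by rw [sum_ind]; exact hS⟩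
  have hTmem : ind T ∈ cell p c u := ⟨T, rfl, by rw [sum_ind]; exact hT⟩
  have hvec : ind T - ind S ∈ vectorSpan ℝ (cell p c u) :=
    vsub_mem_vectorSpan ℝ hTmem hSmem
  have hne : ind T - ind S ≠ 0 := by
    rw [sub_ne_zero]
    exact fun h => hST (ind_injective h).symm
  have hspan : vectorSpan ℝ (cell p c u) = Submodule.span ℝ {ind T - ind S} := by
    symm
    apply Submodule.eq_of_le_of_finrank_le
    · rw [Submodule.span_singleton_le_iff_mem]
      exact hvec
    · rw [hdim, finrank_span_singleton hne]
  have hiff : ∀ X, p X = ((c + ∑ i ∈ X, u i : ℝ) : WithTop ℝ) ↔ X = S ∨ X = T := by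
    intro X
    constructor
    · intro hX
      have hXmem : ind X ∈ cell p c u := ⟨X, rfl, by rw [sum_ind]; exact hX⟩
      have h1 : ind X - ind S ∈ vectorSpan ℝ (cell p c u) := vsub_mem_vectorSpan ℝ hXmem hSmem
      rw [hspan, Submodule.mem_span_singleton] at h1
      obtain ⟨t, ht⟩ := h1
      exact collinear hST ht.symm
    · rintro (rfl | rfl)
      · exact hS
      · exact hT
  have hcard := h c u S T hle hiff
  have hpos : (symmDiff S T).Nonempty := by
    rw [Finset.nonempty_iff_ne_empty]
    intro h0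
    exact hST (symmDiff_eq_bot.1 h0)
  rw [hspan]
  have h3 : (symmDiff S T).card = 1 ∨ (symmDiff S T).card = 2 := by
    have := hpos.card_pos
    omega
  have hcoord : ∀ i, (ind T - ind S) i = if i ∈ symmDiff S T then (if i ∈ T then 1 else -1) else 0 := by
    intro i
    by_cases h1 : i ∈ S <;> by_cases h2 : i ∈ T <;>
      simp [ind, Finset.mem_symmDiff, h1, h2]
  rcases h3 with h3 | h3
  · obtain ⟨i, hi⟩ := Finset.card_eq_one.1 h3
    refine ⟨i, i, Or.inl ?_⟩
    have h4 : ind T - ind S = (if i ∈ T then (1 : ℝ) else -1) • Pi.single i 1 := by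
      ext j
      simp only [hcoord j, hi, Finset.mem_singleton, Pi.smul_apply, Pi.single_apply]
      by_cases hj : j = i
      · subst hj
        simp
      · simp [hj]
    rw [h4]
    split_ifs
    · rw [one_smul]
    · rw [neg_one_smul, ← Set.neg_singleton, Submodule.span_neg]
  · obtain ⟨i, j, hij, hS2⟩ := Finset.card_eq_two.1 h3
    refine ⟨i, j, Or.inr ⟨hij, ?_⟩⟩
    have h4 : ind T - ind S = (if i ∈ T then (1 : ℝ) else -1) • Pi.single i 1 +
        (if j ∈ T then (1 : ℝ) else -1) • Pi.single j 1 := by
      ext k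
      simp only [hcoord k, hS2, Finset.mem_insert, Finset.mem_singleton, Pi.add_apply,
        Pi.smul_apply, Pi.single_apply]
      by_cases hk : k = i
      · subst hk
        simp [hij]
      · by_cases hk' : k = j
        · subst hk'
          simp [hk]
        · simp [hk, hk']
    rw [h4]
    split_ifs
    · left
      rw [one_smul, one_smul]
    · right
      rw [one_smul, neg_one_smul, ← sub_eq_add_neg]
    · right
      rw [one_smul, neg_one_smul, neg_add_eq_sub, ← neg_sub, ← Set.neg_singleton,
        Submodule.span_neg]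
    · left
      rw [neg_one_smul, neg_one_smul, ← neg_add, ← Set.neg_singleton, Submodule.span_neg]

/-! ### The absolute value of a valuation -/

/-- `exp (- x)` -/
noncomputable def ex (x : WithTop ℝ) : ℝ := WithTop.recTopCoe 0 (fun r => Real.exp (-r)) x

theorem ex_top : ex ⊤ = 0 := rfl

theorem ex_coe (r : ℝ) : ex (r : WithTop ℝ) = Real.exp (-r) := rfl

theorem ex_nonneg (x : WithTop ℝ) : 0 ≤ ex x := by
  induction x using WithTop.recTopCoe with
  | top => exact le_rfl
  | coe r => exact (Real.exp_pos _).le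

theorem ex_add (x y : WithTop ℝ) : ex (x + y) = ex x * ex y := by
  induction x using WithTop.recTopCoe with
  | top => rw [top_add, ex_top, zero_mul]
  | coe r =>
    induction y using WithTop.recTopCoe with
    | top => rw [add_top, ex_top, mul_zero]
    | coe s => rw [← WithTop.coe_add, ex_coe, ex_coe, ex_coe, ← Real.exp_add]; congr 1; ring

theorem ex_lt_iff {x : WithTop ℝ} {r : ℝ} : ex x < Real.exp (-r) ↔ (r : WithTop ℝ) < x := by
  induction x using WithTop.recTopCoe with
  | top =>
    rw [ex_top]
    exact iff_of_true (Real.exp_pos _) (WithTop.coe_lt_top r)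
  | coe s =>
    rw [ex_coe, Real.exp_lt_exp, WithTop.coe_lt_coe]
    constructor <;> intro h <;> linarith

theorem ex_anti {x y : WithTop ℝ} (h : x ≤ y) : ex y ≤ ex x := by
  induction y using WithTop.recTopCoe with
  | top => exact ex_nonneg x
  | coe s =>
    induction x using WithTop.recTopCoe with
    | top => exact absurd h (by simp)
    | coe r =>
      rw [ex_coe, ex_coe, Real.exp_le_exp]
      have := WithTop.coe_le_coe.1 h
      linarith

/-! ### Matrices -/

variable {K : Type*} [Field K]

/-- the principal minor of `A` on the rows and columns in `X` -/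
def minor (A : Matrix (Fin n) (Fin n) K) (X : Finset (Fin n)) : K :=
  (A.submatrix (Subtype.val : {i // i ∈ X} → Fin n) Subtype.val).det

/-- the matrix with the columns of `P` for indices in `X` and of `Q` otherwise -/
def mix (X : Finset (Fin n)) (P Q : Matrix (Fin n) (Fin n) K) : Matrix (Fin n) (Fin n) K :=
  Matrix.of fun i j => if j ∈ X then P i j else Q i j

theorem mix_apply (X : Finset (Fin n)) (P Q : Matrix (Fin n) (Fin n) K) (i j : Fin n) :
    mix X P Q i j = if j ∈ X then P i j else Q i j := rfl

theorem det_mix_one (X : Finset (Fin n)) (A : Matrix (Fin n) (Fin n) K) :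
    (mix X A 1).det = minor A X := by
  rw [Matrix.twoBlockTriangular_det' (mix X A 1) (fun i => i ∈ X)]
  · have h1 : (toSquareBlockProp (mix X A 1) fun i => i ∉ X) = 1 := by
      ext i j
      rw [toSquareBlockProp_def, Matrix.of_apply, mix_apply, if_neg j.2, Matrix.one_apply,
        Matrix.one_apply]
      simp only [Subtype.ext_iff]
    have h2 : (toSquareBlockProp (mix X A 1) fun i => i ∈ X) =
        A.submatrix (Subtype.val : {i // i ∈ X} → Fin n) Subtype.val := by
      ext i j
      rw [toSquareBlockProp_def, Matrix.of_apply, mix_apply, if_pos j.2]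
      rfl
    have h3 : ∀ (i₁ i₂ : Fintype {i // i ∈ X}) (B : Matrix {i // i ∈ X} {i // i ∈ X} K),
        @Matrix.det _ _ i₁ _ _ B = @Matrix.det _ _ i₂ _ _ B := by
      intro i₁ i₂ B
      rw [Subsingleton.elim i₁ i₂]
    rw [h1, h2, det_one, mul_one, minor]
    exact h3 _ _ _
  · intro i hi j hj
    rw [mix_apply, if_neg hj, Matrix.one_apply_ne]
    rintro rfl
    exact hj hi

theorem mul_mix (X : Finset (Fin n)) (g P Q : Matrix (Fin n) (Fin n) K) :
    g * mix X P Q = mix X (g * P) (g * Q) := by
  ext i j
  by_cases h : j ∈ X <;> simp [Matrix.mul_apply, mix_apply, h]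

theorem mix_mix (X S : Finset (Fin n)) (P Q : Matrix (Fin n) (Fin n) K) :
    mix X (mix S Q P) (mix S P Q) = mix (symmDiff X S) P Q := by
  ext i j
  by_cases h : j ∈ X <;> by_cases h' : j ∈ S <;> simp [mix_apply, Finset.mem_symmDiff, h, h']

theorem minor_singleton (A : Matrix (Fin n) (Fin n) K) (i : Fin n) : minor A {i} = A i i := by
  have : Unique {x // x ∈ ({i} : Finset (Fin n))} :=
    ⟨⟨⟨i, Finset.mem_singleton_self i⟩⟩, fun x => Subtype.ext (Finset.mem_singleton.1 x.2)⟩
  rw [minor, Matrix.det_unique]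
  have h : ((default : {x // x ∈ ({i} : Finset (Fin n))}) : Fin n) = i := by
    exact Finset.mem_singleton.1 (default : {x // x ∈ ({i} : Finset (Fin n))}).2
  rw [Matrix.submatrix_apply, h]

theorem minor_pair (A : Matrix (Fin n) (Fin n) K) {i j : Fin n} (hij : i ≠ j) :
    minor A {i, j} = A i i * A j j - A i j * A j i := by
  classical
  let f : Fin 2 → {x // x ∈ ({i, j} : Finset (Fin n))} :=
    ![⟨i, by simp⟩, ⟨j, by simp⟩]
  have hf : Function.Bijective f := by
    constructor
    · intro a b hab
      fin_cases a <;> fin_cases b <;> simp [f, hij, hij.symm] at hab ⊢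
    · rintro ⟨x, hx⟩
      rw [Finset.mem_insert, Finset.mem_singleton] at hx
      rcases hx with rfl | rfl
      · exact ⟨0, rfl⟩
      · exact ⟨1, rfl⟩
  let e := Equiv.ofBijective f hf
  rw [minor, ← Matrix.det_submatrix_equiv_self e, Matrix.det_fin_two]
  rfl

/-- The minors of order two of a matrix of rank at most one vanish. -/
theorem rank_one_minor {R : Matrix (Fin n) (Fin n) K} (hR : R.rank ≤ 1) (i j : Fin n) :
    R i i * R j j = R i j * R j i := by
  have h1 : (R.submatrix ![i, j] ![i, j]).rank ≤ 1 := (Matrix.rank_submatrix_le _ _ _).trans hR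
  have h2 : (R.submatrix ![i, j] ![i, j]).det = 0 := by
    by_contra hne
    have h3 := Matrix.rank_of_isUnit _ ((Matrix.isUnit_iff_isUnit_det _).2 (isUnit_iff_ne_zero.2 hne))
    rw [Fintype.card_fin] at h3
    omega
  rw [Matrix.det_fin_two] at h2
  simpa [sub_eq_zero] using h2

variable [StarRing K]

/-- The main estimate. -/
theorem core {N : K → ℝ} (hnn : ∀ a, 0 ≤ N a) (hN0 : N 0 = 0)
    (hmul : ∀ a b, N (a * b) = N a * N b) (hadd : ∀ a b, N (a + b) ≤ max (N a) (N b))
    (hneg : ∀ a, N (-a) = N a) (hstar : ∀ a, N (star a) = N a) (hN1 : N 1 = 1)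
    {A : Matrix (Fin n) (Fin n) K} (hR : (A + Aᴴ).rank ≤ 1) {X : Finset (Fin n)} (hX : 3 ≤ X.card)
    (t : Fin n → ℝ) (ht : ∀ i, 0 < t i)
    (h : ∀ Y : Finset (Fin n), Y.Nonempty → Y ⊆ X → Y ≠ X → N (minor A Y) < ∏ i ∈ Y, t i * t i) :
    N (minor A X) < ∏ i ∈ X, t i * t i := by
  classical
  have hsub : ∀ a b, N (a - b) ≤ max (N a) (N b) := by
    intro a b
    rw [sub_eq_add_neg, ← hneg b]
    exact hadd _ _
  -- the diagonal entries
  have h1 : ∀ i ∈ X, N (A i i) < t i * t i := by
    intro i hi
    have := h {i} (by simp) (by simpa using hi) (by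
      rintro rfl
      simp at hX)
    rwa [minor_singleton, Finset.prod_singleton] at this
  have h2 : ∀ i ∈ X, ∀ j ∈ X, i ≠ j →
      N (A i i * A j j - A i j * A j i) < (t i * t i) * (t j * t j) := by
    intro i hi j hj hij
    have := h {i, j} (by simp) (by
      intro k hk
      rw [Finset.mem_insert, Finset.mem_singleton] at hk
      rcases hk with rfl | rfl <;> assumption) (by
      rintro rfl
      have := Finset.card_le_two (a := i) (b := j)
      omega)
    rwa [minor_pair A hij, Finset.prod_pair hij] at this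
  -- the entries of `R`
  set R := A + Aᴴ with hRdef
  have hRapp : ∀ i j, R i j = A i j + star (A j i) := fun i j => rfl
  have hRstar : ∀ i j, R j i = star (R i j) := by
    intro i j
    rw [hRapp, hRapp, star_add, star_star, add_comm]
  have hRii : ∀ i ∈ X, N (R i i) < t i * t i := by
    intro i hi
    rw [hRapp]
    refine lt_of_le_of_lt (hadd _ _) ?_
    rw [hstar, max_self]
    exact h1 i hi
  have hRij : ∀ i ∈ X, ∀ j ∈ X, N (R i j) < t i * t j := by
    intro i hi j hj
    have h3 : N (R i j) * N (R i j) = N (R i i) * N (R j j) := by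
      rw [← hmul (R i i), rank_one_minor hR i j, hmul, hRstar i j, hstar]
    have h4 : N (R i i) * N (R j j) < (t i * t j) * (t i * t j) := by
      calc N (R i i) * N (R j j) < (t i * t i) * (t j * t j) :=
            mul_lt_mul'' (hRii i hi) (hRii j hj) (hnn _) (hnn _)
        _ = (t i * t j) * (t i * t j) := by ring
    rw [← h3] at h4
    exact lt_of_mul_self_lt_mul_self₀ (mul_pos (ht i) (ht j)).le h4
  -- all the entries of `A`
  have hA : ∀ i ∈ X, ∀ j ∈ X, N (A i j) < t i * t j := by
    intro i hi j hj
    by_cases hij : i = j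
    · subst hij
      exact h1 i hi
    by_contra hcon
    push Not at hcon
    have h3 : N (A i j) ≤ N (A j i) := by
      have h4 : A i j = R i j - star (A j i) := by
        rw [hRapp]
        ring
      have h5 := hsub (R i j) (star (A j i))
      rw [← h4, hstar] at h5
      rcases le_max_iff.1 h5 with h6 | h6
      · exact absurd (h6.trans_lt (hRij i hi j hj)) (not_lt.2 hcon)
      · exact h6
    have h4 : (t i * t j) * (t i * t j) ≤ N (A i j * A j i) := by
      rw [hmul]
      exact mul_le_mul hcon (hcon.trans h3) (mul_pos (ht i) (ht j)).le (hnn _)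
    have h5 : N (A i j * A j i) ≤ max (N (A i i * A j j)) (N (A i i * A j j - A i j * A j i)) := by
      have h6 : A i j * A j i = A i i * A j j - (A i i * A j j - A i j * A j i) := by ring
      conv_lhs => rw [h6]
      exact hsub _ _
    have h6 : N (A i i * A j j) < (t i * t i) * (t j * t j) := by
      rw [hmul]
      exact mul_lt_mul'' (h1 i hi) (h1 j hj) (hnn _) (hnn _)
    have h7 := lt_of_le_of_lt h5 (max_lt h6 (h2 i hi j hj hij))
    have h8 : (t i * t i) * (t j * t j) = (t i * t j) * (t i * t j) := by ring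
    linarith
  -- the determinant
  have hXne : (Finset.univ : Finset {i // i ∈ X}).Nonempty := by
    have : 0 < X.card := by omega
    obtain ⟨x, hx⟩ := Finset.card_pos.1 this
    exact ⟨⟨x, hx⟩, Finset.mem_univ _⟩
  have hprod : ∀ f : {i // i ∈ X} → K, ∀ w : {i // i ∈ X} → ℝ, (∀ i, N (f i) < w i) →
      N (∏ i, f i) < ∏ i, w i := by
    intro f w hfw
    have h3 : N (∏ i, f i) = ∏ i, N (f i) := by
      have : ∀ s : Finset {i // i ∈ X}, N (∏ i ∈ s, f i) = ∏ i ∈ s, N (f i) := by
        intro s
        induction s using Finset.induction_on with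
        | empty => simpa using hN1
        | insert a s has ih => rw [Finset.prod_insert has, Finset.prod_insert has, hmul, ih]
      exact this _
    rw [h3]
    by_cases h0 : ∃ i, N (f i) = 0
    · obtain ⟨i, hi⟩ := h0
      rw [Finset.prod_eq_zero (Finset.mem_univ i) hi]
      exact Finset.prod_pos fun j _ => lt_of_le_of_lt (hnn _) (hfw j)
    · push Not at h0
      exact Finset.prod_lt_prod_of_nonempty (fun i _ => lt_of_le_of_ne (hnn _) (h0 i).symm)
        (fun i _ => hfw i) hXne
  have htpos : 0 < ∏ i ∈ X, t i * t i := Finset.prod_pos fun i _ => mul_pos (ht i) (ht i)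
  rw [minor, Matrix.det_apply]
  have hsum : ∀ s : Finset (Equiv.Perm {i // i ∈ X}),
      N (∑ σ ∈ s, Equiv.Perm.sign σ • ∏ i, (A.submatrix (Subtype.val : {i // i ∈ X} → Fin n)
        Subtype.val) (σ i) i) < ∏ i ∈ X, t i * t i := by
    intro s
    induction s using Finset.induction_on with
    | empty =>
      rw [Finset.sum_empty, hN0]
      exact htpos
    | insert σ s hσ ih =>
      rw [Finset.sum_insert hσ]
      refine lt_of_le_of_lt (hadd _ _) (max_lt ?_ ih)
      have h3 : ∀ x : K, N (Equiv.Perm.sign σ • x) = N x := by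
        intro x
        rcases Int.units_eq_one_or (Equiv.Perm.sign σ) with h4 | h4
        · rw [h4, one_smul]
        · rw [h4, Units.neg_smul, one_smul, hneg]
      rw [h3]
      refine lt_of_lt_of_le (hprod _ (fun i => t (σ i).1 * t i.1) ?_) ?_
      · intro i
        exact hA _ (σ i).2 _ i.2
      · rw [Finset.prod_mul_distrib, Equiv.prod_comp σ (fun i : {i // i ∈ X} => t i.1),
          ← Finset.prod_mul_distrib]
        rw [← Finset.prod_coe_sort X (fun i => t i * t i)]
  exact hsum _

theorem sum_symmDiff (u : Fin n → ℝ) (Y S : Finset (Fin n)) :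
    ∑ i ∈ symmDiff Y S, u i = ∑ i ∈ S, u i + ∑ i ∈ Y, (if i ∈ S then - u i else u i) := by
  classical
  have h : ∀ (X : Finset (Fin n)) (f : Fin n → ℝ), ∑ i ∈ X, f i = ∑ i, if i ∈ X then f i else 0 := by
    intro X f
    simp
  rw [h (symmDiff Y S), h S, h Y, ← Finset.sum_add_distrib]
  refine Finset.sum_congr rfl fun i _ => ?_
  by_cases hY : i ∈ Y <;> by_cases hS : i ∈ S <;> simp [Finset.mem_symmDiff, hY, hS]

theorem gram_swap (S : Finset (Fin n)) (P Q : Matrix (Fin n) (Fin n) K) :
    mix S Q P * (mix S P Q)ᴴ + mix S P Q * (mix S Q P)ᴴ = P * Qᴴ + Q * Pᴴ := by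
  ext i j
  simp only [Matrix.add_apply, Matrix.mul_apply, Matrix.conjTranspose_apply, mix_apply,
    ← Finset.sum_add_distrib]
  refine Finset.sum_congr rfl fun k _ => ?_
  by_cases h : k ∈ S
  · simp only [h, if_true]
    ring
  · simp only [h, if_false]

/-- **Main theorem**, in terms of a pair of matrices. -/
theorem main (ν : AddValuation K (WithTop ℝ)) (hν : ∀ a, ν (star a) = ν a)
    (P Q : Matrix (Fin n) (Fin n) K) (hR : (P * Qᴴ + Q * Pᴴ).rank ≤ 1) :
    IsValuatedDelta fun X => ν (mix X P Q).det := by
  classical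
  apply isValuatedDelta_of
  intro c u S T hle hiff hcard
  set P' := mix S Q P with hP'
  set Q' := mix S P Q with hQ'
  have hpS : ν Q'.det = ((c + ∑ i ∈ S, u i : ℝ) : WithTop ℝ) := (hiff S).2 (Or.inl rfl)
  have hdet : Q'.det ≠ 0 := by
    intro h0
    rw [h0, AddValuation.map_zero] at hpS
    exact absurd hpS (WithTop.coe_ne_top).symm
  have hunit : IsUnit Q'.det := isUnit_iff_ne_zero.2 hdet
  set g := Q'⁻¹ with hg
  have hgQ : g * Q' = 1 := Matrix.nonsing_inv_mul _ hunit
  set A := g * P' with hA
  have hminor : ∀ X, minor A X = g.det * (mix (symmDiff X S) P Q).det := by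
    intro X
    rw [← det_mix_one, ← hgQ, hA, ← mul_mix, Matrix.det_mul, hP', hQ', mix_mix]
  have hRA : (A + Aᴴ).rank ≤ 1 := by
    have h1 : A + Aᴴ = g * (P' * Q'ᴴ + Q' * P'ᴴ) * gᴴ := by
      have h2 : (1 : Matrix (Fin n) (Fin n) K) = (g * Q')ᴴ := by
        rw [hgQ, Matrix.conjTranspose_one]
      have h3 : g * (P' * Q'ᴴ + Q' * P'ᴴ) * gᴴ = (g * P') * (g * Q')ᴴ + (g * Q') * (g * P')ᴴ := by
        rw [Matrix.conjTranspose_mul, Matrix.conjTranspose_mul]
        noncomm_ring
      rw [h3, ← h2, hgQ, Matrix.mul_one, Matrix.one_mul]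
    rw [h1, hP', hQ', gram_swap]
    exact ((Matrix.rank_mul_le_left _ _).trans (Matrix.rank_mul_le_right _ _)).trans hR
  set N : K → ℝ := fun a => ex (ν a) with hN
  set u' : Fin n → ℝ := fun i => if i ∈ S then - u i else u i with hu'
  set t : Fin n → ℝ := fun i => Real.exp (-(u' i) / 2) with ht
  have hNmul : ∀ a b, N (a * b) = N a * N b := by
    intro a b
    rw [hN]
    change ex (ν (a * b)) = ex (ν a) * ex (ν b)
    rw [AddValuation.map_mul, ex_add]
  have hNg : N g.det = Real.exp (c + ∑ i ∈ S, u i) := by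
    have h1 : N g.det * N Q'.det = 1 := by
      rw [← hNmul, ← Matrix.det_mul, hgQ, Matrix.det_one]
      change ex (ν 1) = 1
      rw [AddValuation.map_one]
      change ex ((0 : ℝ) : WithTop ℝ) = 1
      rw [ex_coe, neg_zero, Real.exp_zero]
    have h2 : N Q'.det = Real.exp (-(c + ∑ i ∈ S, u i)) := by
      change ex (ν Q'.det) = _
      rw [hpS, ex_coe]
    rw [h2, Real.exp_neg] at h1
    field_simp at h1
    exact h1
  have htt : ∀ Y : Finset (Fin n), ∏ i ∈ Y, t i * t i = Real.exp (- ∑ i ∈ Y, u' i) := by
    intro Y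
    rw [← Finset.sum_neg_distrib, Real.exp_sum]
    refine Finset.prod_congr rfl fun i _ => ?_
    rw [ht, ← Real.exp_add]
    congr 1
    ring
  have hexp : ∀ Y : Finset (Fin n), Real.exp (c + ∑ i ∈ S, u i) *
      Real.exp (-(c + ∑ i ∈ symmDiff Y S, u i)) = Real.exp (- ∑ i ∈ Y, u' i) := by
    intro Y
    rw [← Real.exp_add, sum_symmDiff]
    congr 1
    ring
  have hcore := core (N := N) (fun a => ex_nonneg _) (by
      change ex (ν 0) = 0
      rw [AddValuation.map_zero, ex_top]) hNmul (by
      intro a b
      have h1 := AddValuation.map_add ν a b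
      rcases min_le_iff.1 h1 with h2 | h2
      · exact (ex_anti h2).trans (le_max_left _ _)
      · exact (ex_anti h2).trans (le_max_right _ _)) (by
      intro a
      change ex (ν (-a)) = ex (ν a)
      rw [AddValuation.map_neg]) (by
      intro a
      change ex (ν (star a)) = ex (ν a)
      rw [hν]) (by
      change ex (ν 1) = 1
      rw [AddValuation.map_one]
      change ex ((0 : ℝ) : WithTop ℝ) = 1
      rw [ex_coe, neg_zero, Real.exp_zero]) hRA hcard t (fun i => Real.exp_pos _) (by
      intro Y hY hYX hYne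
      rw [htt, hminor, hNmul, hNg, ← hexp]
      apply mul_lt_mul_of_pos_left _ (Real.exp_pos _)
      change ex (ν _) < _
      rw [ex_lt_iff]
      refine lt_of_le_of_ne (hle _) ?_
      intro heq
      rcases (hiff _).1 heq.symm with h1 | h1
      · have h2 : Y = ∅ := by
          have := congrArg (fun Z => symmDiff Z S) h1
          simpa using this
        exact hY.ne_empty h2
      · apply hYne
        have := congrArg (fun Z => symmDiff Z S) h1
        rw [symmDiff_comm S T]
        simpa using this)
  rw [htt, hminor, hNmul, hNg, ← hexp] at hcore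
  have h1 : symmDiff (symmDiff S T) S = T := by
    rw [symmDiff_comm S T]
    simp
  rw [h1] at hcore
  have h2 : N (mix T P Q).det = Real.exp (-(c + ∑ i ∈ T, u i)) := by
    change ex (ν (mix T P Q).det) = _
    rw [(hiff T).2 (Or.inr rfl), ex_coe]
  rw [h2] at hcore
  exact lt_irrefl _ hcore

/-- The theorem for principal minors. -/
theorem main_minor (ν : AddValuation K (WithTop ℝ)) (hν : ∀ a, ν (star a) = ν a)
    (A : Matrix (Fin n) (Fin n) K) (hR : (A + Aᴴ).rank ≤ 1) :
    IsValuatedDelta fun X => ν (minor A X) := by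
  have h := main ν hν A 1 (by rwa [Matrix.conjTranspose_one, Matrix.mul_one, Matrix.one_mul])
  simpa only [det_mix_one] using h

end Pool.Agent.V11185.Delta
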