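import Mathlib

/-!
# Generalized Petersen graphs: independent sets from patterns

A pattern for `(n, k)` consists of the set `V` of indices at which the inner vertex is taken and a
set `K` of indices at which no vertex is taken; at all other indices the outer vertex is taken.
-/

namespace Pool.Agent.V11185.GP

/-- The data of an independent set of `P(n,k)` with at most `⌈n/5⌉` skipped indices. -/
def Good (n k : ℕ) : Prop :=
  ∃ (V : ℕ → Prop) (K : Finset ℕ),
    (∀ i, i + k < n → V i → ¬ V (i + k)) ∧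
    (∀ i, i < n → n ≤ i + k → V i → ¬ V (i + k - n)) ∧
    (∀ i, i + 1 < n → V i ∨ V (i + 1) ∨ i ∈ K ∨ i + 1 ∈ K) ∧
    (V (n - 1) ∨ V 0 ∨ n - 1 ∈ K ∨ 0 ∈ K) ∧
    K.card ≤ (n + 4) / 5

/-- Patterns for `k = 2`, of period five. -/
theorem pent (n : ℕ) (hn : 3 ≤ n) :
    ∃ (W : ℕ → Prop) (K : Finset ℕ),
      (∀ i, i + 2 < n → W i → ¬ W (i + 2)) ∧
      (∀ i, i < n → n ≤ i + 2 → W i → ¬ W (i + 2 - n)) ∧
      (∀ i, i + 1 < n → W i ∨ W (i + 1) ∨ i ∈ K ∨ i + 1 ∈ K) ∧
      W 0 ∧ K.card ≤ (n + 4) / 5 := by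
  obtain ⟨m, s, hs, rfl⟩ : ∃ m s, s < 5 ∧ n = 5 * m + s :=
    ⟨n / 5, n % 5, Nat.mod_lt _ (by norm_num), by omega⟩
  have hc : ((Finset.range m).image (fun a => 5 * a + 3)).card ≤ m :=
    Finset.card_image_le.trans (by simp)
  have hc' : ∀ x, (insert x ((Finset.range m).image (fun a => 5 * a + 3))).card ≤ m + 1 :=
    fun x => (Finset.card_insert_le _ _).trans (by omega)
  have hmem : ∀ i, i < 5 * m → i % 5 = 3 →
      i ∈ (Finset.range m).image (fun a => 5 * a + 3) := by
    intro i hi h3
    simp only [Finset.mem_image, Finset.mem_range]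
    exact ⟨i / 5, by omega, by omega⟩
  interval_cases s
  · refine ⟨fun i => i % 5 = 0 ∨ i % 5 = 1, _, ?_, ?_, ?_, ?_, hc.trans (by omega)⟩
    · intro i h1 h2; omega
    · intro i h1 h2 h3; omega
    · intro i h1
      by_cases h : i % 5 = 3
      · exact Or.inr (Or.inr (Or.inl (hmem i (by omega) h)))
      · by_cases h' : i % 5 = 2
        · exact Or.inr (Or.inr (Or.inr (hmem (i + 1) (by omega) (by omega))))
        · omega
    · left; rfl
  · refine ⟨fun i => (i % 5 = 0 ∨ i % 5 = 1) ∧ i < 5 * m, _, ?_, ?_, ?_, ?_,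
      (hc' (5 * m)).trans (by omega)⟩
    · intro i h1 h2; omega
    · intro i h1 h2 h3; omega
    · intro i h1
      by_cases h : i % 5 = 3
      · exact Or.inr (Or.inr (Or.inl (Finset.mem_insert_of_mem (hmem i (by omega) h))))
      · by_cases h' : i % 5 = 2
        · exact Or.inr (Or.inr (Or.inr (Finset.mem_insert_of_mem
            (hmem (i + 1) (by omega) (by omega)))))
        · by_cases h4 : i + 1 = 5 * m
          · right; right; right; rw [h4]; exact Finset.mem_insert_self _ _
          · omega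
    · exact ⟨Or.inl rfl, by omega⟩
  · refine ⟨fun i => (i % 5 = 0 ∨ i % 5 = 1) ∧ i < 5 * m, _, ?_, ?_, ?_, ?_,
      (hc' (5 * m)).trans (by omega)⟩
    · intro i h1 h2; omega
    · intro i h1 h2 h3; omega
    · intro i h1
      by_cases h : i % 5 = 3
      · exact Or.inr (Or.inr (Or.inl (Finset.mem_insert_of_mem (hmem i (by omega) h))))
      · by_cases h' : i % 5 = 2
        · exact Or.inr (Or.inr (Or.inr (Finset.mem_insert_of_mem
            (hmem (i + 1) (by omega) (by omega)))))
        · by_cases h4 : i + 1 = 5 * m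
          · right; right; right; rw [h4]; exact Finset.mem_insert_self _ _
          · by_cases h5 : i = 5 * m
            · right; right; left; rw [h5]; exact Finset.mem_insert_self _ _
            · omega
    · exact ⟨Or.inl rfl, by omega⟩
  · refine ⟨fun i => (i % 5 = 0 ∨ i % 5 = 1) ∧ i ≤ 5 * m, _, ?_, ?_, ?_, ?_,
      (hc' (5 * m + 2)).trans (by omega)⟩
    · intro i h1 h2; omega
    · intro i h1 h2 h3; omega
    · intro i h1
      by_cases h : i % 5 = 3
      · exact Or.inr (Or.inr (Or.inl (Finset.mem_insert_of_mem (hmem i (by omega) h))))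
      · by_cases h4 : i + 1 = 5 * m + 2
        · right; right; right; rw [h4]; exact Finset.mem_insert_self _ _
        · by_cases h' : i % 5 = 2
          · exact Or.inr (Or.inr (Or.inr (Finset.mem_insert_of_mem
              (hmem (i + 1) (by omega) (by omega)))))
          · omega
    · exact ⟨Or.inl rfl, by omega⟩
  · refine ⟨fun i => i % 5 = 0 ∨ i % 5 = 1, _, ?_, ?_, ?_, ?_,
      (hc' (5 * m + 3)).trans (by omega)⟩
    · intro i h1 h2; omega
    · intro i h1 h2 h3; omega
    · intro i h1
      by_cases h4 : i + 1 = 5 * m + 3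
      · right; right; right; rw [h4]; exact Finset.mem_insert_self _ _
      · by_cases h : i % 5 = 3
        · exact Or.inr (Or.inr (Or.inl (Finset.mem_insert_of_mem (hmem i (by omega) h))))
        · by_cases h' : i % 5 = 2
          · exact Or.inr (Or.inr (Or.inr (Finset.mem_insert_of_mem
              (hmem (i + 1) (by omega) (by omega)))))
          · omega
    · left; rfl

/-- `k = 2`. -/
theorem good_two (n : ℕ) (hn : 5 ≤ n) : Good n 2 := by
  obtain ⟨W, K, h1, h2, h3, h4, h5⟩ := pent n (by omega)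
  exact ⟨W, K, h1, h2, h3, Or.inr (Or.inl h4), h5⟩

/-- `n = 2 k + 1`. -/
theorem good_two_mul_add_one (k : ℕ) (hk : 1 ≤ k) : Good (2 * k + 1) k := by
  classical
  obtain ⟨W, K, h1, h2, h3, h4, h5⟩ := pent (2 * k + 1) (by omega)
  set f : ℕ → ℕ := fun p => if p ≤ k then 2 * p else 2 * p - (2 * k + 1) with hf
  have f1 : ∀ p, p ≤ k → f p = 2 * p := fun p hp => if_pos hp
  have f2 : ∀ p, k < p → f p = 2 * p - (2 * k + 1) := fun p hp => if_neg (by omega)
  refine ⟨fun p => ¬ W (f p) ∧ f p ∉ K, (Finset.range (2 * k + 1)).filter (fun p => f p ∈ K),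
    ?_, ?_, ?_, ?_, ?_⟩
  · rintro i hi ⟨hV, hK⟩ ⟨hV', hK'⟩
    by_cases h0 : i = 0
    · subst h0
      exact hV (by rw [f1 0 (by omega)]; exact h4)
    · rw [f1 i (by omega)] at hV hK
      rw [f2 (i + k) (by omega)] at hV' hK'
      have := h3 (2 * i - 1) (by omega)
      rw [show 2 * i - 1 + 1 = 2 * i by omega] at this
      rw [show 2 * (i + k) - (2 * k + 1) = 2 * i - 1 by omega] at hV' hK'
      tauto
  · rintro i hi hi' ⟨hV, hK⟩ ⟨hV', hK'⟩
    rw [f2 i (by omega)] at hV hK
    rw [f1 (i + k - (2 * k + 1)) (by omega)] at hV' hK'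
    have := h3 (2 * i - (2 * k + 1) - 1) (by omega)
    rw [show 2 * i - (2 * k + 1) - 1 + 1 = 2 * i - (2 * k + 1) by omega] at this
    rw [show 2 * (i + k - (2 * k + 1)) = 2 * i - (2 * k + 1) - 1 by omega] at hV' hK'
    tauto
  · intro i hi
    by_contra hcon
    simp only [not_or, Finset.mem_filter, Finset.mem_range, not_and, not_not] at hcon
    obtain ⟨ha, hb, hc, hd⟩ := hcon
    have hc' := hc (by omega)
    have hd' := hd (by omega)
    have hWa : W (f i) := by
      by_contra hW
      exact hc' (ha hW)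
    have hWb : W (f (i + 1)) := by
      by_contra hW
      exact hd' (hb hW)
    rcases Nat.lt_trichotomy i k with hlt | heq | hgt
    · rw [f1 i (by omega)] at hWa
      rw [f1 (i + 1) (by omega)] at hWb
      exact h1 (2 * i) (by omega) hWa (by rw [show 2 * i + 2 = 2 * (i + 1) by ring]; exact hWb)
    · rw [f1 i (by omega)] at hWa
      rw [f2 (i + 1) (by omega)] at hWb
      exact h2 (2 * i) (by omega) (by omega) hWa
        (by rw [show 2 * i + 2 - (2 * k + 1) = 2 * (i + 1) - (2 * k + 1) by omega]; exact hWb)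
    · rw [f2 i (by omega)] at hWa
      rw [f2 (i + 1) (by omega)] at hWb
      exact h1 (2 * i - (2 * k + 1)) (by omega) hWa
        (by rw [show 2 * i - (2 * k + 1) + 2 = 2 * (i + 1) - (2 * k + 1) by omega]; exact hWb)
  · by_contra hcon
    simp only [not_or, Finset.mem_filter, Finset.mem_range, not_and, not_not] at hcon
    obtain ⟨ha, hb, hc, hd⟩ := hcon
    have hc' := hc (by omega)
    have hWa : W (f (2 * k + 1 - 1)) := by
      by_contra hW
      exact hc' (ha hW)
    rw [f2 _ (by omega)] at hWa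
    exact h2 (2 * (2 * k + 1 - 1) - (2 * k + 1)) (by omega) (by omega) hWa
      (by rw [show 2 * (2 * k + 1 - 1) - (2 * k + 1) + 2 - (2 * k + 1) = 0 by omega]; exact h4)
  · refine le_trans (Finset.card_le_card_of_injOn f ?_ ?_) h5
    · intro p hp
      simp only [Finset.coe_filter, Finset.mem_range, Set.mem_setOf_eq] at hp
      exact hp.2
    · intro p hp p' hp' hpp
      simp only [Finset.coe_filter, Finset.mem_range, Set.mem_setOf_eq] at hp hp'
      simp only [hf] at hpp
      split_ifs at hpp <;> omega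

/-- `n` even, `k` odd. -/
theorem good_even_odd (n k : ℕ) (hn : n % 2 = 0) (hk : k % 2 = 1) : Good n k := by
  refine ⟨fun i => i % 2 = 0, ∅, ?_, ?_, ?_, ?_, by simp⟩
  · intro i h1 h2; omega
  · intro i h1 h2 h3; omega
  · intro i h1; omega
  · right; left; rfl

/-- `n`, `k` odd, `3 k ≤ n`. -/
theorem good_odd_odd (n k : ℕ) (hn : n % 2 = 1) (hk : k % 2 = 1) (h : 3 * k ≤ n) :
    Good n k := by
  refine ⟨fun i => i % 2 = 0 ∧ i < n - k,
    (Finset.range ((k + 1) / 2)).image (fun a => n - k + 2 * a), ?_, ?_, ?_, ?_, ?_⟩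
  · intro i h1 h2; omega
  · intro i h1 h2 h3; omega
  · intro i h1
    simp only [Finset.mem_image, Finset.mem_range]
    by_cases h2 : i % 2 = 0 ∧ i < n - k
    · exact Or.inl h2
    · by_cases h3 : (i + 1) % 2 = 0 ∧ i + 1 < n - k
      · exact Or.inr (Or.inl h3)
      · by_cases h4 : i % 2 = 0
        · exact Or.inr (Or.inr (Or.inl ⟨(i - (n - k)) / 2, by omega, by omega⟩))
        · exact Or.inr (Or.inr (Or.inr ⟨(i + 1 - (n - k)) / 2, by omega, by omega⟩))
  · right; left; exact ⟨rfl, by omega⟩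
  · exact Finset.card_image_le.trans (by simp; omega)

end Pool.Agent.V11185.GP
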