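import Pool.Agent.V11185.GPBase

/-!
# Generalized Petersen graphs: the range `2 k + 3 ≤ n ≤ 3 k`, `n` odd
-/

namespace Pool.Agent.V11185.GP

theorem mod_succ_cases (j x : ℕ) (hj : 0 < j) :
    ((x % j + 1 = j ∧ (x + 1) % j = 0) ∨ (x % j + 1 < j ∧ (x + 1) % j = x % j + 1)) := by
  have h := Nat.mod_lt x hj
  rcases Nat.lt_or_ge (x % j + 1) j with h1 | h1
  · right
    refine ⟨h1, ?_⟩
    rw [Nat.add_mod, Nat.mod_eq_of_lt (show 1 < j by omega), Nat.mod_eq_of_lt h1]
  · left
    refine ⟨by omega, ?_⟩
    have h2 : x % j + 1 = j := by omega
    by_cases hj1 : j = 1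
    · subst hj1; exact Nat.mod_one _
    · rw [Nat.add_mod, Nat.mod_eq_of_lt (show 1 < j by omega), h2, Nat.mod_self]

/-- `n = 2 k + j`, `3 ≤ j ≤ k`, `j` odd. -/
theorem good_mid (k j : ℕ) (hj : j % 2 = 1) (hj3 : 3 ≤ j) (hjk : j ≤ k) :
    Good (2 * k + j) k := by
  classical
  obtain ⟨Q, κ, hκ, hk⟩ : ∃ Q κ, κ < j ∧ k = j * Q + κ :=
    ⟨k / j, k % j, Nat.mod_lt _ (by omega), (Nat.div_add_mod k j).symm⟩
  have hQ : 1 ≤ Q := by
    by_contra h
    have : Q = 0 := by omega
    subst this
    omega
  have hP : j + 3 * Q ≤ j * Q + 3 := by
    obtain ⟨a, rfl⟩ := Nat.exists_eq_add_of_le hj3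
    obtain ⟨b, rfl⟩ := Nat.exists_eq_add_of_le hQ
    nlinarith [Nat.zero_le (a * b)]
  have hkmod : k % j = κ := by rw [hk, Nat.mul_add_mod, Nat.mod_eq_of_lt hκ]
  have hj0 : 0 < j := by omega
  -- the set of inner vertices
  set V : ℕ → Prop := fun i =>
    (i < k ∧ (i % j) % 2 = 0) ∨
    (k ≤ i ∧ i < 2 * k ∧ ((i - k) % j) % 2 = 1) ∨
    (2 * k ≤ i ∧ (i - 2 * k) % 2 = 0 ∧
      ((κ % 2 = 1 ∧ i - 2 * k < j - κ) ∨ (κ % 2 = 0 ∧ j - κ < i - 2 * k ∧ i < 2 * k + j)))
    with hV
  have hV0 : V 0 := Or.inl ⟨by omega, by simp⟩
  have hb1 : ∀ i, i + k < 2 * k + j → V i → ¬ V (i + k) := by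
    intro i h1 h2 h3
    simp only [hV] at h2 h3
    rcases h2 with ⟨ha, hb⟩ | ⟨ha, hb, hc⟩ | ⟨ha, hb, hc⟩
    · rcases h3 with ⟨ha', hb'⟩ | ⟨ha', hb', hc'⟩ | ⟨ha', hb', hc'⟩
      · omega
      · rw [show i + k - k = i by omega] at hc'; omega
      · omega
    · rcases h3 with ⟨ha', hb'⟩ | ⟨ha', hb', hc'⟩ | ⟨ha', hb', hc'⟩
      · omega
      · omega
      · rw [Nat.mod_eq_of_lt (show i - k < j by omega)] at hc
        omega
    · omega
  have hb2 : ∀ i, i < 2 * k + j → 2 * k + j ≤ i + k → V i → ¬ V (i + k - (2 * k + j)) := by
    intro i h0 h1 h2 h3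
    simp only [hV] at h2 h3
    rcases h3 with ⟨ha', hb'⟩ | ⟨ha', hb', hc'⟩ | ⟨ha', hb', hc'⟩
    · rcases h2 with ⟨ha, hb⟩ | ⟨ha, hb, hc⟩ | ⟨ha, hb, hc⟩
      · omega
      · have : (i - k) % j = (i + k - (2 * k + j)) % j := by
          rw [Nat.mod_eq_sub_mod (show i - k ≥ j by omega)]
          congr 1
          omega
        omega
      · obtain ⟨q, rfl⟩ := Nat.exists_eq_add_of_le hQ
        have e1 : i + k - (2 * k + j) = j * q + (κ + (i - 2 * k)) := by
          have : k = j + j * q + κ := by rw [hk]; ring
          omega
        rw [e1, Nat.mul_add_mod] at hb'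
        rcases hc with ⟨hc1, hc2⟩ | ⟨hc1, hc2, hc3⟩
        · rw [Nat.mod_eq_of_lt (show κ + (i - 2 * k) < j by omega)] at hb'
          omega
        · rw [Nat.mod_eq_sub_mod (show κ + (i - 2 * k) ≥ j by omega),
            Nat.mod_eq_of_lt (show κ + (i - 2 * k) - j < j by omega)] at hb'
          omega
    · omega
    · omega
  -- the three cases for the skipped indices
  rcases Nat.eq_zero_or_pos κ with hκ0 | hκ0
  · -- κ = 0
    refine ⟨V, (Finset.range (Q - 1)).image (fun a => k + j * (a + 1)) ∪
      (Finset.range ((j + 1) / 2)).image (fun a => 2 * k + 2 * a), hb1, hb2, ?_,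
      Or.inr (Or.inl hV0), ?_⟩
    · intro i hi
      simp only [Finset.mem_union, Finset.mem_image, Finset.mem_range]
      -- membership facts
      have hK1 : ∀ x, k + j ≤ x → x < 2 * k → (x - k) % j = 0 →
          ∃ a < Q - 1, k + j * (a + 1) = x := by
        intro x hx1 hx2 hx3
        have hd := Nat.div_add_mod (x - k) j
        rw [hx3] at hd
        have h1 : 1 ≤ (x - k) / j := by
          rw [Nat.le_div_iff_mul_le hj0]; omega
        have h2 : (x - k) / j < Q := by
          rw [Nat.div_lt_iff_lt_mul hj0, mul_comm]; omega
        refine ⟨(x - k) / j - 1, by omega, ?_⟩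
        rw [show (x - k) / j - 1 + 1 = (x - k) / j by omega]
        omega
      by_cases c1 : i + 1 < k
      · rcases mod_succ_cases j i hj0 with h | h
        · by_cases h' : (i % j) % 2 = 0
          · exact Or.inl (Or.inl ⟨by omega, h'⟩)
          · exact Or.inr (Or.inl (Or.inl ⟨c1, by omega⟩))
        · by_cases h' : (i % j) % 2 = 0
          · exact Or.inl (Or.inl ⟨by omega, h'⟩)
          · exact Or.inr (Or.inl (Or.inl ⟨c1, by omega⟩))
      · by_cases c2 : i + 1 = k
        · have h1 : (i + 1) % j = 0 := by rw [c2, hkmod, hκ0]
          rcases mod_succ_cases j i hj0 with h | h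
          · exact Or.inl (Or.inl ⟨by omega, by omega⟩)
          · omega
        · by_cases c3 : i + 1 < 2 * k
          · have e1 : i + 1 - k = (i - k) + 1 := by omega
            rcases mod_succ_cases j (i - k) hj0 with h | h
            · right; right; right; left
              exact hK1 (i + 1) (by
                by_contra hlt
                have : i - k + 1 < j := by omega
                rw [Nat.mod_eq_of_lt (show i - k < j by omega)] at h
                omega) c3 (by rw [e1]; exact h.2)
            · by_cases h' : ((i - k) % j) % 2 = 1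
              · exact Or.inl (Or.inr (Or.inl ⟨by omega, by omega, h'⟩))
              · exact Or.inr (Or.inl (Or.inr (Or.inl ⟨by omega, by omega, by rw [e1]; omega⟩)))
          · right; right
            by_cases c4 : (i - 2 * k) % 2 = 0 ∧ 2 * k ≤ i
            · left; right
              exact ⟨(i - 2 * k) / 2, by omega, by omega⟩
            · right; right
              exact ⟨(i + 1 - 2 * k) / 2, by omega, by omega⟩
    · refine (Finset.card_union_le _ _).trans ?_
      refine (add_le_add Finset.card_image_le Finset.card_image_le).trans ?_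
      simp only [Finset.card_range]
      omega
  · rcases Nat.even_or_odd' κ with ⟨c, hc | hc⟩
    · -- κ even, positive
      refine ⟨V, (Finset.range (Q + 1)).image (fun a => k + j * a) ∪
        (Finset.range ((j - κ + 1) / 2)).image (fun a => 2 * k + 1 + 2 * a), hb1, hb2, ?_,
        Or.inr (Or.inl hV0), ?_⟩
      · intro i hi
        simp only [Finset.mem_union, Finset.mem_image, Finset.mem_range]
        have hK1 : ∀ x, k ≤ x → x < 2 * k → (x - k) % j = 0 →
            ∃ a < Q + 1, k + j * a = x := by
          intro x hx1 hx2 hx3
          have hd := Nat.div_add_mod (x - k) j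
          rw [hx3] at hd
          have h2 : (x - k) / j < Q + 1 := by
            rw [Nat.div_lt_iff_lt_mul hj0]
            have : (Q + 1) * j = j * Q + j := by ring
            omega
          exact ⟨(x - k) / j, h2, by omega⟩
        by_cases c1 : i + 1 < k
        · rcases mod_succ_cases j i hj0 with h | h
          · by_cases h' : (i % j) % 2 = 0
            · exact Or.inl (Or.inl ⟨by omega, h'⟩)
            · exact Or.inr (Or.inl (Or.inl ⟨c1, by omega⟩))
          · by_cases h' : (i % j) % 2 = 0
            · exact Or.inl (Or.inl ⟨by omega, h'⟩)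
            · exact Or.inr (Or.inl (Or.inl ⟨c1, by omega⟩))
        · by_cases c3 : i + 1 < 2 * k
          · by_cases c2 : i + 1 = k
            · right; right; right; left
              exact hK1 (i + 1) (by omega) c3 (by rw [c2]; simp)
            · have e1 : i + 1 - k = (i - k) + 1 := by omega
              rcases mod_succ_cases j (i - k) hj0 with h | h
              · right; right; right; left
                exact hK1 (i + 1) (by omega) c3 (by rw [e1]; exact h.2)
              · by_cases h' : ((i - k) % j) % 2 = 1
                · exact Or.inl (Or.inr (Or.inl ⟨by omega, by omega, h'⟩))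
                · exact Or.inr (Or.inl (Or.inr (Or.inl ⟨by omega, by omega, by rw [e1]; omega⟩)))
          · by_cases c2 : i + 1 = 2 * k
            · left
              right; left
              have h1 : (i - k + 1) % j = κ := by
                rw [show i - k + 1 = k by omega]; exact hkmod
              rcases mod_succ_cases j (i - k) hj0 with h | h
              · omega
              · exact ⟨by omega, by omega, by omega⟩
            · by_cases c4 : (i - 2 * k) % 2 = 1
              · by_cases c5 : i - 2 * k ≤ j - κ
                · right; right; left; right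
                  exact ⟨(i - 2 * k) / 2, by omega, by omega⟩
                · right; left
                  exact Or.inr (Or.inr ⟨by omega, by omega, Or.inr ⟨by omega, by omega, by omega⟩⟩)
              · by_cases c5 : i - 2 * k < j - κ
                · right; right; right; right
                  exact ⟨(i - 2 * k) / 2, by omega, by omega⟩
                · left
                  exact Or.inr (Or.inr ⟨by omega, by omega, Or.inr ⟨by omega, by omega, by omega⟩⟩)
      · refine (Finset.card_union_le _ _).trans ?_
        refine (add_le_add Finset.card_image_le Finset.card_image_le).trans ?_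
        simp only [Finset.card_range]
        omega
    · -- κ odd
      refine ⟨V, (Finset.range (Q + 1)).image (fun a => k + j * a) ∪
        (Finset.range ((κ + 1) / 2)).image (fun a => 2 * k + (j - κ) + 2 * a), hb1, hb2, ?_,
        Or.inr (Or.inl hV0), ?_⟩
      · intro i hi
        simp only [Finset.mem_union, Finset.mem_image, Finset.mem_range]
        have hK1 : ∀ x, k ≤ x → x < 2 * k → (x - k) % j = 0 →
            ∃ a < Q + 1, k + j * a = x := by
          intro x hx1 hx2 hx3
          have hd := Nat.div_add_mod (x - k) j
          rw [hx3] at hd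
          have h2 : (x - k) / j < Q + 1 := by
            rw [Nat.div_lt_iff_lt_mul hj0]
            have : (Q + 1) * j = j * Q + j := by ring
            omega
          exact ⟨(x - k) / j, h2, by omega⟩
        by_cases c1 : i + 1 < k
        · rcases mod_succ_cases j i hj0 with h | h
          · by_cases h' : (i % j) % 2 = 0
            · exact Or.inl (Or.inl ⟨by omega, h'⟩)
            · exact Or.inr (Or.inl (Or.inl ⟨c1, by omega⟩))
          · by_cases h' : (i % j) % 2 = 0
            · exact Or.inl (Or.inl ⟨by omega, h'⟩)
            · exact Or.inr (Or.inl (Or.inl ⟨c1, by omega⟩))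
        · by_cases c3 : i + 1 < 2 * k
          · by_cases c2 : i + 1 = k
            · right; right; right; left
              exact hK1 (i + 1) (by omega) c3 (by rw [c2]; simp)
            · have e1 : i + 1 - k = (i - k) + 1 := by omega
              rcases mod_succ_cases j (i - k) hj0 with h | h
              · right; right; right; left
                exact hK1 (i + 1) (by omega) c3 (by rw [e1]; exact h.2)
              · by_cases h' : ((i - k) % j) % 2 = 1
                · exact Or.inl (Or.inr (Or.inl ⟨by omega, by omega, h'⟩))
                · exact Or.inr (Or.inl (Or.inr (Or.inl ⟨by omega, by omega, by rw [e1]; omega⟩)))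
          · by_cases c2 : i + 1 = 2 * k
            · right; left
              exact Or.inr (Or.inr ⟨by omega, by omega, Or.inl ⟨by omega, by omega⟩⟩)
            · by_cases c4 : (i - 2 * k) % 2 = 0
              · by_cases c5 : i - 2 * k < j - κ
                · left
                  exact Or.inr (Or.inr ⟨by omega, by omega, Or.inl ⟨by omega, by omega⟩⟩)
                · right; right; left; right
                  exact ⟨(i - 2 * k - (j - κ)) / 2, by omega, by omega⟩
              · by_cases c5 : i + 1 - 2 * k < j - κ
                · right; left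
                  exact Or.inr (Or.inr ⟨by omega, by omega, Or.inl ⟨by omega, by omega⟩⟩)
                · right; right; right; right
                  exact ⟨(i + 1 - 2 * k - (j - κ)) / 2, by omega, by omega⟩
      · refine (Finset.card_union_le _ _).trans ?_
        refine (add_le_add Finset.card_image_le Finset.card_image_le).trans ?_
        simp only [Finset.card_range]
        omega

end Pool.Agent.V11185.GP
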