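import Pool.Agent.Helper236.Tang

/-!
# Points sets with a modular hyperplane

General facts about a set of affine points all of whose differences are points at infinity.
-/

set_option autoImplicit false

namespace Pool.Agent.V11185

open Set Module Submodule Pool.Agent.Helper236

variable {α F W : Type*} [Field F] [AddCommGroup W] [Module F W] {M : Matroid α} {v : α → W}

/-- The zero set of a linear functional is a flat. -/
theorem isFlat_zero (h : Rep F M v) (w : W →ₗ[F] F) : M.IsFlat {x ∈ M.E | w (v x) = 0} := by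
  rw [Matroid.isFlat_iff_closure_eq]
  have hsub : {x ∈ M.E | w (v x) = 0} ⊆ M.E := fun x hx => hx.1
  apply Subset.antisymm _ (M.subset_closure _ hsub)
  intro x hx
  have hxE : x ∈ M.E := M.closure_subset_ground _ hx
  refine ⟨hxE, ?_⟩
  rw [h.mem_closure_iff hsub hxE] at hx
  have hle : span F (v '' {x ∈ M.E | w (v x) = 0}) ≤ LinearMap.ker w := by
    rw [span_le]
    rintro _ ⟨y, hy, rfl⟩
    exact hy.2
  exact hle hx

theorem finrank_span_insert {S : Set W} (hS : S.Finite) {x : W} (hx : x ∉ span F S) :
    finrank F (span F (insert x S)) = finrank F (span F S) + 1 := by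
  classical
  have hx0 : x ≠ 0 := fun h0 => hx (h0 ▸ zero_mem _)
  have hfd : FiniteDimensional F (span F S) := FiniteDimensional.span_of_finite F hS
  have hfd2 : FiniteDimensional F (span F ({x} : Set W)) :=
    FiniteDimensional.span_of_finite F (finite_singleton x)
  have h1 : span F (insert x S) = span F {x} ⊔ span F S := by
    rw [insert_eq, span_union]
  have hdisj : span F ({x} : Set W) ⊓ span F S = ⊥ := by
    rw [eq_bot_iff]
    intro y hy
    rw [mem_inf, mem_span_singleton] at hy
    obtain ⟨⟨c, rfl⟩, hy⟩ := hy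
    rw [mem_bot]
    by_cases hc : c = 0
    · rw [hc, zero_smul]
    · exfalso
      apply hx
      have := smul_mem _ c⁻¹ hy
      rwa [smul_smul, inv_mul_cancel₀ hc, one_smul] at this
  have h2 := Submodule.finrank_sup_add_finrank_inf_eq (span F ({x} : Set W)) (span F S)
  rw [hdisj, finrank_bot, finrank_span_singleton hx0] at h2
  rw [h1]
  omega

/-- If the elements of `M.E \ H` are affine points, the elements of `H` are points at infinity,
and the directions of all differences of the affine points are in `H`, then `H` is a modular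
hyperplane. -/
theorem isModularHyperplane_of_diff [M.Finite] (h : Rep F M v) {φ : W →ₗ[F] F} {H : Set α}
    (hHE : H ⊆ M.E) (hφ0 : ∀ x ∈ H, φ (v x) = 0) (hφ1 : ∀ e ∈ M.E \ H, φ (v e) = 1)
    (hne : (M.E \ H).Nonempty)
    (hd : ∀ e ∈ M.E \ H, ∀ f ∈ M.E \ H, e ≠ f → ∃ x ∈ H, ∃ c : F, c ≠ 0 ∧
      v e - v f = c • v x) : IsModularHyperplane M H := by
  have hH : H = {x ∈ M.E | φ (v x) = 0} := by
    ext x
    constructor
    · intro hx
      exact ⟨hHE hx, hφ0 x hx⟩
    · rintro ⟨hx, h0⟩
      by_contra hxH
      rw [hφ1 x ⟨hx, hxH⟩] at h0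
      exact one_ne_zero h0
  have hHflat : M.IsFlat H := by
    rw [hH]
    exact isFlat_zero h φ
  have hfinE := M.ground_finite
  -- the rank of a flat and of its intersection with `H`
  have key : ∀ G, M.IsFlat G → ∀ e ∈ G, e ∉ H → rk M G = rk M (H ∩ G) + 1 := by
    intro G hG e heG heH
    have hGE := hG.subset_ground
    have hHG : H ∩ G ⊆ M.E := inter_subset_right.trans hGE
    rw [h.rk_eq hGE, h.rk_eq hHG]
    have hspan : span F (v '' G) = span F (insert (v e) (v '' (H ∩ G))) := by
      apply le_antisymm
      · rw [span_le]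
        rintro _ ⟨f, hf, rfl⟩
        by_cases hfH : f ∈ H
        · exact subset_span (mem_insert_of_mem _ (mem_image_of_mem v ⟨hfH, hf⟩))
        by_cases hef : e = f
        · rw [← hef]
          exact subset_span (mem_insert _ _)
        obtain ⟨x, hxH, c, hc, hx⟩ := hd e ⟨hGE heG, heH⟩ f ⟨hGE hf, hfH⟩ hef
        have hxG : x ∈ G := by
          rw [← hG.closure, h.mem_closure_iff hGE (hHE hxH)]
          have h1 : v x = c⁻¹ • (v e - v f) := by
            rw [hx, smul_smul, inv_mul_cancel₀ hc, one_smul]
          rw [h1]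
          exact smul_mem _ _ (sub_mem (subset_span (mem_image_of_mem v heG))
            (subset_span (mem_image_of_mem v hf)))
        have h2 : v f = v e - c • v x := by
          rw [← hx]
          abel
        rw [h2]
        exact sub_mem (subset_span (mem_insert _ _)) (smul_mem _ _
          (subset_span (mem_insert_of_mem _ (mem_image_of_mem v ⟨hxH, hxG⟩))))
      · rw [span_le]
        rintro _ (rfl | ⟨f, hf, rfl⟩)
        · exact subset_span (mem_image_of_mem v heG)
        · exact subset_span (mem_image_of_mem v hf.2)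
    rw [hspan]
    apply finrank_span_insert ((hfinE.subset hHG).image v)
    intro hmem
    have hle : span F (v '' (H ∩ G)) ≤ LinearMap.ker φ := by
      rw [span_le]
      rintro _ ⟨y, hy, rfl⟩
      exact hφ0 y hy.1
    have h1 : φ (v e) = 0 := hle hmem
    rw [hφ1 e ⟨hGE heG, heH⟩] at h1
    exact one_ne_zero h1
  obtain ⟨e₀, he₀, he₀H⟩ := hne
  have hrE : rk M M.E = rk M H + 1 := by
    have := key M.E M.ground_isFlat e₀ he₀ he₀H
    rwa [inter_eq_self_of_subset_left hHE] at this
  refine ⟨⟨hHflat, ?_⟩, hrE.symm⟩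
  intro G hG
  have hGE := hG.subset_ground
  by_cases hGH : G ⊆ H
  · rw [union_eq_self_of_subset_right hGH, inter_eq_self_of_subset_right hGH]
  obtain ⟨e, heG, heH⟩ := not_subset.1 hGH
  rw [key G hG e heG heH]
  have h1 : rk M (H ∪ G) = rk M M.E := by
    have hsub : H ∪ G ⊆ M.E := union_subset hHE hGE
    apply le_antisymm
    · rw [h.rk_eq hsub, h.rk_eq Subset.rfl]
      have : FiniteDimensional F (span F (v '' M.E)) :=
        FiniteDimensional.span_of_finite F (hfinE.image v)
      exact Submodule.finrank_mono (span_mono (image_mono hsub))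
    · rw [hrE, h.rk_eq hsub, h.rk_eq hHE]
      have hnot : v e ∉ span F (v '' H) := by
        intro hmem
        have hle : span F (v '' H) ≤ LinearMap.ker φ := by
          rw [span_le]
          rintro _ ⟨y, hy, rfl⟩
          exact hφ0 y hy
        have h1 : φ (v e) = 0 := hle hmem
        rw [hφ1 e ⟨hGE heG, heH⟩] at h1
        exact one_ne_zero h1
      rw [← finrank_span_insert ((hfinE.subset hHE).image v) hnot]
      have : FiniteDimensional F (span F (v '' (H ∪ G))) :=
        FiniteDimensional.span_of_finite F ((hfinE.subset hsub).image v)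
      apply Submodule.finrank_mono
      rw [span_le]
      rintro _ (rfl | ⟨f, hf, rfl⟩)
      · exact subset_span (mem_image_of_mem v (Or.inr heG))
      · exact subset_span (mem_image_of_mem v (Or.inl hf))
  rw [h1, hrE]
  omega

/-- Such a set of points is a `1`-block if it has at least `|F|` affine points. -/
theorem block_of_diff [Finite F] {H : Set α} [M.Finite]
    (hd : ∀ e ∈ M.E \ H, ∀ f ∈ M.E \ H, e ≠ f → ∃ x ∈ M.E, ∃ c : F, c ≠ 0 ∧
      v e - v f = c • v x) (hcard : Nat.card F ≤ (M.E \ H).ncard) (f : W →ₗ[F] (Fin 1 → F)) :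
    ∃ e ∈ M.E, f (v e) = 0 := by
  classical
  by_contra hcon
  push Not at hcon
  have hfin : (M.E \ H).Finite := M.ground_finite.subset sdiff_subset
  have : Finite (M.E \ H : Set α) := hfin
  let g : (M.E \ H : Set α) → F := fun e => f (v e) 0
  have hinj : Function.Injective g := by
    intro e e' hee
    by_contra hne
    obtain ⟨x, hx, c, hc, hxc⟩ := hd e e.2 e' e'.2 (fun h => hne (Subtype.ext h))
    apply hcon x hx
    have h1 : f (c • v x) = 0 := by
      rw [← hxc, map_sub]
      ext i
      rw [Subsingleton.elim i 0]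
      simpa [sub_eq_zero] using hee
    rw [map_smul] at h1
    exact (smul_eq_zero.1 h1).resolve_left hc
  have hcard2 : Nat.card F ≤ Nat.card (M.E \ H : Set α) := by
    rw [Nat.card_coe_set_eq]
    exact hcard
  have hbij : Function.Bijective g := by
    rw [Nat.bijective_iff_injective_and_card]
    refine ⟨hinj, le_antisymm (Nat.card_le_card_of_injective _ hinj) hcard2⟩
  obtain ⟨e, he⟩ := hbij.2 0
  apply hcon e e.2.1
  ext i
  rw [Subsingleton.elim i 0]
  exact he

/-- a functional as a map to `F ^ 1` -/
def toOne (w : W →ₗ[F] F) : W →ₗ[F] (Fin 1 → F) := LinearMap.pi fun _ => w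

theorem toOne_eq_zero {w : W →ₗ[F] F} {x : W} : toOne w x = 0 ↔ w x = 0 := by
  constructor
  · intro h
    exact congrFun h 0
  · intro h
    ext i
    exact h

/-- The critical exponent `c(M; q)`: the least `j ≥ 0` with `p(M; q ^ j) ≠ 0`, and `∞` if there is
no such `j`. -/
noncomputable def critExpNe {β : Type*} (N : Matroid β) (q : ℕ) : ℕ∞ :=
  ⨅ j ∈ {j : ℕ | (charPoly N).eval ((q : ℤ) ^ j) ≠ 0}, (j : ℕ∞)

theorem critExpNe_eq [Finite F] [FiniteDimensional F W] [M.Finite] (h : Rep F M v) :
    critExpNe M (Nat.card F) = critExp M (Nat.card F) := by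
  have hset : {j : ℕ | (charPoly M).eval ((Nat.card F : ℤ) ^ j) ≠ 0} =
      {j : ℕ | 0 < (charPoly M).eval ((Nat.card F : ℤ) ^ j)} := by
    ext j
    have h1 := crapo_rota h j
    have hq : (0 : ℤ) < (Nat.card F : ℤ) ^ (j * (finrank F W - rk M M.E)) := by
      have : 0 < Nat.card F := Nat.card_pos
      positivity
    have h2 : 0 ≤ (charPoly M).eval ((Nat.card F : ℤ) ^ j) := by
      by_contra hneg
      push Not at hneg
      have h3 := mul_neg_of_pos_of_neg hq hneg
      rw [← h1] at h3
      exact absurd h3 (by simp)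
    simp only [mem_ofPred_eq]
    constructor
    · intro h3
      exact lt_of_le_of_ne h2 (Ne.symm h3)
    · intro h3
      exact h3.ne'
  rw [critExpNe, critExp, hset]

theorem Rep.delete (h : Rep F M v) (D : Set α) : Rep F (M.delete D) v := by
  intro I hI
  have hIE : I ⊆ M.E := hI.trans sdiff_subset
  have hID : Disjoint I D := by
    rw [Set.disjoint_left]
    intro x hx hxD
    exact (hI hx).2 hxD
  rw [Matroid.delete_indep_iff, and_iff_left hID, h I hIE]

theorem delete_critExp_le [Finite F] [FiniteDimensional F W] [M.Finite] (h : Rep F M v) {k : ℕ}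
    {D : Set α} {f : W →ₗ[F] (Fin k → F)} (hf : ∀ e ∈ M.E, e ∉ D → f (v e) ≠ 0) :
    critExp (M.delete D) (Nat.card F) ≤ k :=
  (critExp_le_iff (Rep.delete h D) k).2 ⟨f, fun e he => hf e he.1 he.2⟩

end Pool.Agent.V11185
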