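import Pool.Agent.V11185.ModBlock

/-!
# Tangential 1-blocks of rank four and their modular lines
-/

set_option autoImplicit false

namespace Pool.Agent.V11185

open Set Module Submodule Pool.Agent.Helper236

variable {α F W : Type*} [Field F] [AddCommGroup W] [Module F W] {M : Matroid α} {v : α → W}

theorem rk_lt_of_flat (h : Rep F M v) [M.Finite] {X Y : Set α} (hX : M.IsFlat X) (hYE : Y ⊆ M.E)
    (hXY : X ⊆ Y) (hne : X ≠ Y) : rk M X < rk M Y := by
  have hXE : X ⊆ M.E := hXY.trans hYE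
  rw [h.rk_eq hXE, h.rk_eq hYE]
  have hfd : FiniteDimensional F (span F (v '' Y)) :=
    FiniteDimensional.span_of_finite F ((M.ground_finite.subset hYE).image v)
  apply Submodule.finrank_lt_finrank_of_lt
  refine lt_of_le_of_ne (span_mono (image_mono hXY)) fun heq => ?_
  obtain ⟨y, hyY, hyX⟩ := Set.exists_of_ssubset (hXY.ssubset_of_ne hne)
  have : y ∈ M.closure X := (h.mem_closure_iff hXE (hYE hyY)).2 (by
    rw [heq]
    exact subset_span (mem_image_of_mem v hyY))
  rw [hX.closure] at this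
  exact hyX this

theorem rk_pair (hs : IsSimple M) {e f : α} (he : e ∈ M.E) (hf : f ∈ M.E) (hef : e ≠ f) :
    rk M (M.closure {e, f}) = 2 := by
  rw [rk, M.eRk_closure_eq, (hs e he f hf).eRk_eq_encard, Set.encard_pair hef]
  rfl

/-- In rank 4 and for `k = 1` only the points and the lines have to be checked. -/
theorem rank_four_flats [Finite F] [FiniteDimensional F W] [M.Finite] (h : Rep F M v)
    (hs : IsSimple M) (hr : rk M M.E ≤ 4)
    (hT1 : ∀ e ∈ M.E, ∃ f : W →ₗ[F] F, f (v e) = 0 ∧ ∀ x ∈ M.E, x ≠ e → f (v x) ≠ 0)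
    (hT2 : ∀ e ∈ M.E, ∀ e' ∈ M.E, e ≠ e' → ∃ f : W →ₗ[F] F, f (v e) = 0 ∧ f (v e') = 0 ∧
      ∀ x ∈ M.E, f (v x) = 0 → v x ∈ span F (v '' {e, e'}))
    (G : Set α) (hG : M.IsFlat G) (hGne : G.Nonempty) :
    ∃ f : W →ₗ[F] (Fin 1 → F), (∀ x ∈ G, f (v x) = 0) ∧ ∀ x ∈ M.E, x ∉ G → f (v x) ≠ 0 := by
  suffices hsuff : ∃ f : W →ₗ[F] F, (∀ x ∈ G, f (v x) = 0) ∧ ∀ x ∈ M.E, x ∉ G → f (v x) ≠ 0 by
    obtain ⟨f, hf1, hf2⟩ := hsuff
    refine ⟨toOne f, fun x hx => toOne_eq_zero.2 (hf1 x hx), fun x hx hxG h0 =>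
      hf2 x hx hxG (toOne_eq_zero.1 h0)⟩
  have hGE : G ⊆ M.E := hG.subset_ground
  obtain ⟨e, he⟩ := hGne
  by_cases h1 : G = {e}
  · obtain ⟨f, hf1, hf2⟩ := hT1 e (hGE he)
    refine ⟨f, ?_, ?_⟩
    · intro x hx
      rw [h1] at hx
      rw [hx]
      exact hf1
    · intro x hx hxG
      refine hf2 x hx ?_
      rintro rfl
      exact hxG he
  by_cases h2 : G = M.E
  · refine ⟨0, by simp, ?_⟩
    intro x hx hxG
    rw [h2] at hxG
    exact absurd hx hxG
  obtain ⟨e', he', hne⟩ : ∃ e' ∈ G, e ≠ e' := by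
    by_contra hcon
    push Not at hcon
    exact h1 (Subset.antisymm (fun x hx => (hcon x hx).symm) (by simpa using he))
  have hpair : ({e, e'} : Set α) ⊆ M.E := by
    rintro x (rfl | rfl)
    · exact hGE he
    · exact hGE he'
  have hpairG : ({e, e'} : Set α) ⊆ G := by
    rintro x (rfl | rfl)
    · exact he
    · exact he'
  have hclG : M.closure {e, e'} ⊆ G := by
    have := M.closure_subset_closure hpairG
    rwa [hG.closure] at this
  by_cases h3 : M.closure {e, e'} = G
  · obtain ⟨f, hf1, hf2, hf3⟩ := hT2 e (hGE he) e' (hGE he') hne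
    refine ⟨f, ?_, ?_⟩
    · intro x hx
      have hxE := hGE hx
      rw [← h3, h.mem_closure_iff hpair hxE] at hx
      have hle : span F (v '' {e, e'}) ≤ LinearMap.ker f := by
        rw [span_le]
        rintro _ ⟨y, (rfl | rfl), rfl⟩
        · exact hf1
        · exact hf2
      exact hle hx
    · intro x hx hxG h0
      apply hxG
      rw [← h3, h.mem_closure_iff hpair hx]
      exact hf3 x hx h0
  have ha := rk_lt_of_flat h (M.isFlat_closure {e, e'}) hGE hclG h3
  have hb := rk_lt_of_flat h hG Subset.rfl hGE h2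
  rw [rk_pair hs (hGE he) (hGE he') hne] at ha
  exact exists_functional h hG (by omega)

/-- A modular flat of rank two in a simple matroid of rank four meets every plane. -/
theorem modular_line_meets [M.Finite] (h : Rep F M v) (hs : IsSimple M) (hr : rk M M.E = 4)
    {L : Set α} (hL : IsModularFlat M L) (hL2 : rk M L = 2) :
    ∃ e ∈ M.E, ∃ e' ∈ M.E, e ≠ e' ∧ ∀ w : W →ₗ[F] F, (w (v e) ≠ 0 ∨ w (v e') ≠ 0) →
      rk M {x ∈ M.E | w (v x) = 0} = 3 →
      ∃ x ∈ M.E, w (v x) = 0 ∧ v x ∈ span F (v '' {e, e'}) := by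
  have hLE : L ⊆ M.E := hL.1.subset_ground
  have hne : L.Nonempty := by
    rw [nonempty_iff_ne_empty]
    rintro rfl
    simp [rk] at hL2
  obtain ⟨e, he⟩ := hne
  obtain ⟨e', he', hee⟩ : ∃ e' ∈ L, e ≠ e' := by
    by_contra hcon
    push Not at hcon
    have h1 : L = {e} := Subset.antisymm (fun x hx => (hcon x hx).symm) (by simpa using he)
    rw [h1, rk, ((isSimple_nonloop hs) e (hLE he)).eRk_eq] at hL2
    exact absurd hL2 (by decide)
  refine ⟨e, hLE he, e', hLE he', hee, ?_⟩
  intro w hw hP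
  have hpair : ({e, e'} : Set α) ⊆ M.E := by
    rintro x (rfl | rfl)
    · exact hLE he
    · exact hLE he'
  have hclL : M.closure {e, e'} = L := by
    by_contra hne
    have hsub : M.closure {e, e'} ⊆ L := by
      have h1 : ({e, e'} : Set α) ⊆ L := by
        rintro x (rfl | rfl)
        · exact he
        · exact he'
      have := M.closure_subset_closure h1
      rwa [hL.1.closure] at this
    have := rk_lt_of_flat h (M.isFlat_closure {e, e'}) hLE hsub hne
    rw [rk_pair hs (hLE he) (hLE he') hee] at this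
    omega
  set P := {x ∈ M.E | w (v x) = 0} with hPdef
  have hPflat : M.IsFlat P := isFlat_zero h w
  have hPE : P ⊆ M.E := hPflat.subset_ground
  have hmod := hL.2 P hPflat
  have hnot : ¬ L ⊆ P := by
    intro hLP
    rcases hw with hw | hw
    · exact hw (hLP he).2
    · exact hw (hLP he').2
  have h4 : rk M P < rk M (L ∪ P) := by
    apply rk_lt_of_flat h hPflat (union_subset hLE hPE) subset_union_right
    intro heq
    apply hnot
    rw [heq]
    exact subset_union_left
  have h5 : rk M (L ∪ P) ≤ rk M M.E := by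
    rw [h.rk_eq (union_subset hLE hPE), h.rk_eq Subset.rfl]
    have : FiniteDimensional F (span F (v '' M.E)) :=
      FiniteDimensional.span_of_finite F (M.ground_finite.image v)
    exact Submodule.finrank_mono (span_mono (image_mono (union_subset hLE hPE)))
  have h6 : rk M (L ∩ P) = 1 := by omega
  have h7 : (L ∩ P).Nonempty := by
    rw [nonempty_iff_ne_empty]
    intro h0
    rw [h0] at h6
    simp [rk] at h6
  obtain ⟨x, hxL, hxP⟩ := h7
  refine ⟨x, hLE hxL, hxP.2, ?_⟩
  rw [← h.mem_closure_iff hpair (hLE hxL), hclL]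
  exact hxL

end Pool.Agent.V11185
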