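import Pool.Agent.V11185.PPackB

/-!
Packing the groups `{p, 2p, ..., Cp}` of progressions: the placement of one group.
-/

set_option autoImplicit false

namespace Pool.Agent.V11185.PGrp

open Finset Pool.Agent.V11185.PPack

/-- precision -/
def E1 (E C : ℕ) : ℕ := 2 * E * (Nat.factorial C * (C + 1))

/-- degree -/
def D1 (E C : ℕ) : ℕ := 16 * (E1 E C) ^ 2 * (2 * E + 2) + 1

/-- number of exceptional primes -/
def K1 (E C : ℕ) : ℕ := (2 * D1 E C + 1) ^ (2 * E + 2) * (2 * E + 2)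

/-- length reserved for one group -/
def stp (n R E p : ℕ) : ℕ := (n - p ^ 2) + (R ^ 2 / E + 1) + R

/-- element `i` of the progression with difference `c * p` of the group `(p, b, g)` -/
def el (z : ℕ × ℕ × ℕ) (c i : ℕ) : ℕ := z.2.1 + c * (z.2.2 + i * z.1)

structure Inv (n R E C : ℕ) (S : Finset (ℕ × ℕ × ℕ)) (X : ℕ) : Prop where
  pr : ∀ z ∈ S, z.1.Prime
  le : ∀ z ∈ S, z.1 ≤ R
  gt : ∀ z ∈ S, R < E * z.1
  g0 : ∀ z ∈ S, 0 < z.2.2
  g1 : ∀ z ∈ S, z.2.2 < z.1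
  st : ∀ z ∈ S, z.2.1 + (n - z.1 ^ 2) + (R ^ 2 / E + 1) ≤ X
  sep : ∀ z ∈ S, ∀ z' ∈ S, z ≠ z' →
    z.2.1 + (R ^ 2 / E + 1) ≤ z'.2.1 ∨ z'.2.1 + (R ^ 2 / E + 1) ≤ z.2.1
  inj : ∀ z ∈ S, ∀ z' ∈ S, z.1 = z'.1 → z = z'
  dis : ∀ z ∈ S, ∀ z' ∈ S, z ≠ z' → ∀ c ∈ Icc 1 C, ∀ c' ∈ Icc 1 C,
    ∀ i < n / (c * z.1), ∀ j < n / (c' * z'.1), el z c i ≠ el z' c' j

lemma sigma_big {R E : ℕ} (hE : 0 < E) : R ^ 2 < E * (R ^ 2 / E + 1) := by
  have := Nat.div_add_mod (R ^ 2) E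
  have h2 := Nat.mod_lt (R ^ 2) hE
  rw [mul_add, mul_one]
  omega

lemma active_card {n R E C : ℕ} {S : Finset (ℕ × ℕ × ℕ)} {X : ℕ} (hE : 0 < E)
    (h : Inv n R E C S X) (hn : n ≤ 2 * R ^ 2) :
    (S.filter (fun z => X < z.2.1 + n)).card ≤ 2 * E + 2 := by
  have hb : R ^ 2 < E * (R ^ 2 / E + 1) := sigma_big hE
  have hσ0 : 0 < R ^ 2 / E + 1 := Nat.succ_pos _
  have hS1 := h.st
  have hS2 := h.sep
  generalize R ^ 2 / E + 1 = σ at hb hσ0 hS1 hS2
  have h1 : (S.filter (fun z => X < z.2.1 + n)).card ≤ (range (2 * E + 2)).card := by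
    apply Finset.card_le_card_of_injOn (fun z => (X - z.2.1) / σ)
    · intro z hz
      rw [Finset.mem_coe, Finset.mem_filter] at hz
      have h3 : X - z.2.1 < 2 * E * σ := by
        have : 2 * E * σ = 2 * (E * σ) := by ring
        omega
      rw [Finset.mem_coe, Finset.mem_range]
      have := (Nat.div_lt_iff_lt_mul hσ0).2 h3
      show (X - z.2.1) / σ < 2 * E + 2
      omega
    · intro z hz z' hz' heq
      rw [Finset.mem_coe, Finset.mem_filter] at hz hz'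
      by_contra hne
      have hX := hS1 z hz.1
      have hX' := hS1 z' hz'.1
      simp only at heq
      have e1 := Nat.div_add_mod (X - z.2.1) σ
      have e2 := Nat.div_add_mod (X - z'.2.1) σ
      have e3 := Nat.mod_lt (X - z.2.1) hσ0
      have e4 := Nat.mod_lt (X - z'.2.1) hσ0
      rw [heq] at e1
      generalize (X - z'.2.1) / σ = w at e1 e2
      rcases hS2 z hz.1 z' hz'.1 hne with h5 | h5 <;> omega
  simpa using h1

/-- the gap -/
lemma gap {q n b X R E p C : ℕ} (hE : 0 < E) (hq : 0 < q) (hqR : q ≤ R) (hpR : p ≤ R)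
    (hst : b + (n - q ^ 2) + (R ^ 2 / E + 1) ≤ X) (hstar : 4 * E * q ≤ 4 * E * p + R)
    (hb4 : 4 * E * (C + 1) ≤ R) :
    (p : ℤ) + 2 * E * ((n / q : ℕ) - ((X - b) / q : ℕ) + C) ≤ 2 * E * p := by
  have hb : R ^ 2 < E * (R ^ 2 / E + 1) := sigma_big hE
  generalize R ^ 2 / E + 1 = σ at hb hst
  obtain ⟨A, hA⟩ : ∃ A, A = X - b := ⟨_, rfl⟩
  rw [← hA]
  have hA1 : (n - q ^ 2) + σ ≤ A := by omega
  obtain ⟨u, hu⟩ : ∃ u, u = n / q := ⟨_, rfl⟩
  obtain ⟨w, hw⟩ : ∃ w, w = A / q := ⟨_, rfl⟩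
  rw [← hu, ← hw]
  have h1 : q * u ≤ n := by rw [hu]; exact Nat.mul_div_le n q
  have h2 : A < q * (w + 1) := by
    rw [hw]
    have := Nat.lt_mul_div_succ A hq
    simpa using this
  have h1' : (q : ℤ) * u ≤ n := by exact_mod_cast h1
  have h2' : (A : ℤ) < q * (w + 1) := by exact_mod_cast h2
  have h3 : (n : ℤ) + σ ≤ A + q ^ 2 := by
    have : n + σ ≤ A + q ^ 2 := by omega
    exact_mod_cast this
  have hb' : (R : ℤ) ^ 2 < E * σ := by exact_mod_cast hb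
  have hE' : (0 : ℤ) < E := by exact_mod_cast hE
  have hq' : (0 : ℤ) < q := by exact_mod_cast hq
  have hqR' : (q : ℤ) ≤ R := by exact_mod_cast hqR
  have hpR' : (p : ℤ) ≤ R := by exact_mod_cast hpR
  have h4 : (q : ℤ) * (u - w - 1) ≤ q ^ 2 - σ := by nlinarith
  have h5 : (q : ℤ) * (E * (u - w - 1)) ≤ q * (E * q - R) := by
    calc (q : ℤ) * (E * (u - w - 1)) = E * (q * (u - w - 1)) := by ring
      _ ≤ E * (q ^ 2 - σ) := mul_le_mul_of_nonneg_left h4 hE'.le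
      _ = E * q ^ 2 - E * σ := by ring
      _ ≤ E * q ^ 2 - R ^ 2 := by linarith
      _ ≤ E * q ^ 2 - q * R := by nlinarith
      _ = q * (E * q - R) := by ring
  have h6 : (E : ℤ) * (u - w - 1) ≤ E * q - R := le_of_mul_le_mul_left h5 hq'
  have hstar' : 4 * (E : ℤ) * q ≤ 4 * E * p + R := by exact_mod_cast hstar
  have hb4' : 4 * (E : ℤ) * (C + 1) ≤ R := by exact_mod_cast hb4
  nlinarith

/-- the arithmetic behind the arcs -/
lemma no_collision {P L0 : ℕ} {a zz G v : ℤ} (hv1 : G - P + zz ≤ L0 * v)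
    (hv2 : L0 * v < G + a) (hG0 : 0 ≤ G) (hGP : G ≤ P) {c : ℕ} (hc : c ∣ L0) (hc0 : 0 < c)
    (hcP : Nat.Coprime c P) {i : ℤ} (h1 : a ≤ c * i) (h2 : c * i < zz) :
    ¬ (P : ℤ) ∣ L0 * v - c * (G + i) := by
  rintro ⟨l, hl⟩
  obtain ⟨L1, hL1⟩ := hc
  have hcl : (c : ℤ) ∣ l := by
    have h3 : (c : ℤ) ∣ P * l := by
      rw [← hl, hL1]
      push_cast
      exact ⟨L1 * v - (G + i), by ring⟩
    have h4 : IsCoprime (c : ℤ) (P : ℤ) := Nat.isCoprime_iff_coprime.2 hcP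
    exact h4.dvd_of_dvd_mul_left h3
  obtain ⟨m, hm⟩ := hcl
  have hc1 : (1 : ℤ) ≤ c := by exact_mod_cast hc0
  have hP0 : (0 : ℤ) ≤ P := Int.natCast_nonneg _
  have h5 : L0 * v = c * i + c * (G + P * m) := by
    have : L0 * v = c * (G + i) + P * l := by linarith
    rw [this, hm]; ring
  rcases le_or_gt 0 m with h6 | h6
  · have h7 : G ≤ c * (G + P * m) := by
      have h8 : G ≤ G + P * m := by nlinarith
      have h9 : (0 : ℤ) ≤ G + P * m := by nlinarith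
      nlinarith
    linarith
  · have h7 : c * (G + P * m) ≤ G - P := by
      have h8 : G + P * m ≤ G - P := by nlinarith
      have h9 : G - P ≤ 0 := by linarith
      nlinarith
    linarith

lemma fact_pos (C : ℕ) : 0 < Nat.factorial C := Nat.factorial_pos C

lemma E1_pos {E C : ℕ} (hE : 0 < E) : 0 < E1 E C := by
  unfold E1
  have := fact_pos C
  positivity

lemma C_lt_E1 {E C : ℕ} (hE : 0 < E) : C < E1 E C := by
  unfold E1
  have h1 : 1 ≤ Nat.factorial C := fact_pos C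
  have h2 : 1 * (C + 1) ≤ Nat.factorial C * (C + 1) := Nat.mul_le_mul_right _ h1
  have h3 : 1 * (Nat.factorial C * (C + 1)) ≤ 2 * E * (Nat.factorial C * (C + 1)) :=
    Nat.mul_le_mul_right _ (by omega)
  omega

/-- bounding the arc -/
lemma arc_bound {E C p : ℕ} (hE : 0 < E) (hp : 16 * E1 E C ≤ p) {d : ℤ}
    (hd : (p : ℤ) + 2 * E * d ≤ 2 * E * p) :
    ((Nat.factorial C : ℕ) : ℤ) * ((C + 1) * (p / (2 * E1 E C) + 1 : ℕ)) ≤ p - d := by
  have hE' : (0 : ℤ) < E := by exact_mod_cast hE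
  have h1 : 2 * (E1 E C * (p / (2 * E1 E C))) ≤ p := by
    have := Nat.mul_div_le p (2 * E1 E C)
    calc 2 * (E1 E C * (p / (2 * E1 E C))) = 2 * E1 E C * (p / (2 * E1 E C)) := by ring
      _ ≤ p := this
  have h2 : E1 E C * (p / (2 * E1 E C) + 1) ≤ p := by
    rw [mul_add, mul_one]; omega
  have h3 : E1 E C * (p / (2 * E1 E C) + 1) = 2 * E * (Nat.factorial C * ((C + 1) *
      (p / (2 * E1 E C) + 1))) := by
    generalize p / (2 * E1 E C) + 1 = W
    unfold E1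
    ring
  rw [h3] at h2
  have h4 : (2 * E : ℤ) * (((Nat.factorial C : ℕ) : ℤ) * ((C + 1) *
      ((p / (2 * E1 E C) + 1 : ℕ) : ℤ))) ≤ p := by exact_mod_cast h2
  have h5 : (2 * E : ℤ) * (((Nat.factorial C : ℕ) : ℤ) * ((C + 1) *
      ((p / (2 * E1 E C) + 1 : ℕ) : ℤ))) ≤ 2 * E * (p - d) := by linarith
  exact le_of_mul_le_mul_left h5 (by positivity)

/-- placing a new group: classes modulo `p` avoiding all active groups -/
lemma classes {ι : Type*} [Fintype ι] [DecidableEq ι] {E C p : ℕ} [hp : Fact p.Prime]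
    (hE : 0 < E) (hp16 : 16 * E1 E C ≤ p) (hL : Fintype.card ι ≤ 2 * E + 2)
    (q b g : ι → ℕ) (hq0 : ∀ i, (q i : ZMod p) ≠ 0) (a zz : ι → ℤ)
    (hgap : ∀ i, (p : ℤ) + 2 * E * (zz i - a i) ≤ 2 * E * p)
    (hrel : ∀ c : ι → ℤ, (∀ i, |c i| < D1 E C) →
      ∑ i, (c i : ZMod p) * ((q i : ZMod p))⁻¹ = 0 → ∀ i, c i = 0) :
    ∃ x γ : ZMod p, γ ≠ 0 ∧ ∀ i, ∀ c' ∈ Icc 1 C, ∀ c ∈ Icc 1 C, ∀ k : ℕ,
      a i ≤ c * k → (c * k : ℤ) < zz i →
      x + (c' : ZMod p) * γ ≠ (b i : ZMod p) + (c : ZMod p) * ((g i : ZMod p) + k * q i) := by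
  set L0 := Nat.factorial C with hL0
  have hpC : C < p := by have := C_lt_E1 (C := C) hE; omega
  have hL0p : ((L0 : ℕ) : ZMod p) ≠ 0 := by
    intro h0
    rw [ZMod.natCast_eq_zero_iff, hp.out.dvd_factorial] at h0
    omega
  set W := p / (2 * E1 E C) + 1 with hW
  have hE1 := E1_pos (C := C) hE
  have hWp : W ≤ p := by
    have h1 : p / (2 * E1 E C) ≤ p / 2 := Nat.div_le_div_left (by omega) (by omega)
    have := hp.out.two_le
    omega
  have hY : p + 2 * E1 E C * (p - W) ≤ 2 * E1 E C * p := by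
    have h1 : p < 2 * E1 E C * W := by
      rw [hW]
      have := Nat.lt_mul_div_succ p (show 0 < 2 * E1 E C by omega)
      simpa using this
    obtain ⟨r, hr⟩ : ∃ r, p = W + r := ⟨p - W, by omega⟩
    have h2 : p - W = r := by omega
    rw [h2]
    have h3 : 2 * E1 E C * p = 2 * E1 E C * W + 2 * E1 E C * r := by
      conv_lhs => rw [hr]
      ring
    omega
  set α : ι → ZMod p := fun i => ((L0 : ℕ) : ZMod p)⁻¹ * ((q i : ZMod p))⁻¹ with hα
  have hrel' : ∀ c : ι → ℤ, (∀ i, |c i| < D1 E C) → ∑ i, (c i : ZMod p) * α i = 0 →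
      ∀ i, c i = 0 := by
    intro c hc h0
    apply hrel c hc
    have h1 : ∑ i, (c i : ZMod p) * α i = ((L0 : ℕ) : ZMod p)⁻¹ *
        ∑ i, (c i : ZMod p) * ((q i : ZMod p))⁻¹ := by
      rw [Finset.mul_sum]
      apply Finset.sum_congr rfl
      intro i _
      simp only [hα]
      ring
    rw [h1] at h0
    exact (mul_eq_zero.1 h0).resolve_left (inv_ne_zero hL0p)
  -- the common difference of the classes
  obtain ⟨t1, ht1⟩ := exists_shift (p := p) (ι := ι) (E := E1 E C) (L := 2 * E + 2)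
    (D := D1 E C) hE1 hp16 hL (by unfold D1; omega) α (fun _ => ((p - W : ℕ) : ZMod p) - 1)
    (fun _ => p - W) (fun _ => hY) hrel'
  -- lower ends of arcs
  have hlo : ∀ i, ∃ lo : ℤ, ((g i : ZMod p) * (q i : ZMod p)⁻¹).val - (p : ℤ) + zz i ≤ L0 * lo ∧
      L0 * lo < ((g i : ZMod p) * (q i : ZMod p)⁻¹).val - (p : ℤ) + zz i + L0 := by
    intro i
    set m : ℤ := ((g i : ZMod p) * (q i : ZMod p)⁻¹).val - (p : ℤ) + zz i
    have hL0' : (0 : ℤ) < L0 := by exact_mod_cast fact_pos C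
    refine ⟨-((-m) / L0), ?_, ?_⟩
    · have := Int.mul_ediv_self_le (x := -m) hL0'.ne'
      linarith
    · have := Int.lt_mul_ediv_self_add (x := -m) hL0'
      linarith
  choose lo hlo1 hlo2 using hlo
  obtain ⟨t2, ht2⟩ := exists_shift (p := p) (ι := ι) (E := E1 E C) (L := 2 * E + 2)
    (D := D1 E C) hE1 hp16 hL (by unfold D1; omega) α
    (fun i => ((p - W : ℕ) : ZMod p) - (b i : ZMod p) * α i - (lo i : ZMod p))
    (fun _ => p - W) (fun _ => hY) hrel'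
  -- the case without active groups is included: `γ` must be nonzero
  have hγ : ∃ γ : ZMod p, γ ≠ 0 ∧ ∀ i, ∃ h : ℤ, 1 ≤ h ∧ h ≤ W ∧ (h : ZMod p) = γ * α i := by
    by_cases hne : Nonempty ι
    · have hh : ∀ i, ∃ h : ℤ, 1 ≤ h ∧ h ≤ W ∧ (h : ZMod p) = t1 * α i := by
        intro i
        have h1 := ht1 i
        set u := t1 * α i + (((p - W : ℕ) : ZMod p) - 1) with hu
        have h2 := ZMod.val_lt u
        refine ⟨(u.val : ℤ) - (p - W : ℕ) + 1, by omega, by omega, ?_⟩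
        push_cast
        rw [ZMod.natCast_zmod_val, hu]
        ring
      refine ⟨t1, ?_, hh⟩
      obtain ⟨i⟩ := hne
      obtain ⟨h, h1, h2, h3⟩ := hh i
      rintro rfl
      rw [zero_mul, ZMod.intCast_zmod_eq_zero_iff_dvd] at h3
      have h4 := Int.le_of_dvd (by omega) h3
      have h5 : W < p := by
        have h6 : p / (2 * E1 E C) ≤ p / 2 := Nat.div_le_div_left (by omega) (by omega)
        omega
      omega
    · exact ⟨1, one_ne_zero, fun i => absurd ⟨i⟩ hne⟩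
  obtain ⟨γ, hγ0, hγ⟩ := hγ
  refine ⟨t2, γ, hγ0, ?_⟩
  intro i c' hc' c hc k hk1 hk2 heq
  rw [mem_Icc] at hc' hc
  obtain ⟨h, hh1, hh2, hh3⟩ := hγ i
  have h1 := ht2 i
  set u := t2 * α i + (((p - W : ℕ) : ZMod p) - (b i : ZMod p) * α i - (lo i : ZMod p)) with hu
  have h2 := ZMod.val_lt u
  set v : ℤ := lo i + ((u.val : ℤ) - (p - W : ℕ)) + c' * h with hv
  have hvz : (v : ZMod p) = (t2 + (c' : ZMod p) * γ - b i) * α i := by
    rw [hv]
    push_cast
    rw [ZMod.natCast_zmod_val, hh3, hu]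
    ring
  set G : ℤ := ((((g i : ZMod p) * (q i : ZMod p)⁻¹).val : ℕ) : ℤ) with hG
  have hGz : (G : ZMod p) = (g i : ZMod p) * (q i : ZMod p)⁻¹ := by
    rw [hG]
    push_cast
    rw [ZMod.natCast_zmod_val]
  have hG0 : 0 ≤ G := Int.natCast_nonneg _
  have hG1 : G ≤ p := by
    have := ZMod.val_lt ((g i : ZMod p) * (q i : ZMod p)⁻¹)
    omega
  have hL0' : (0 : ℤ) < L0 := by exact_mod_cast fact_pos C
  have hc'C : (c' : ℤ) ≤ C := by exact_mod_cast hc'.2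
  have hc'0 : (0 : ℤ) ≤ c' := Int.natCast_nonneg _
  have hW0 : (0 : ℤ) ≤ W := Int.natCast_nonneg _
  have hch0 : 0 ≤ (c' : ℤ) * h := mul_nonneg hc'0 (by omega)
  have hch : (c' : ℤ) * h ≤ C * W := by
    calc (c' : ℤ) * h ≤ C * h := mul_le_mul_of_nonneg_right hc'C (by omega)
      _ ≤ C * W := mul_le_mul_of_nonneg_left hh2 (Int.natCast_nonneg _)
  have hv1 : G - p + zz i ≤ L0 * v := by
    have h3 : L0 * lo i ≤ L0 * v := by
      apply mul_le_mul_of_nonneg_left _ hL0'.le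
      rw [hv]; omega
    exact (hlo1 i).trans h3
  have hv2 : L0 * v < G + a i := by
    have h3 : v ≤ lo i + (W - 1) + C * W := by rw [hv]; omega
    have h4 : (L0 : ℤ) * v ≤ L0 * (lo i + (W - 1) + C * W) :=
      mul_le_mul_of_nonneg_left h3 hL0'.le
    have h5 := arc_bound (C := C) (p := p) hE hp16 (d := zz i - a i) (hgap i)
    have h6 := hlo2 i
    have h7 : (L0 : ℤ) * (lo i + (W - 1) + C * W) = L0 * lo i + L0 * ((C + 1) * (W : ℕ)) - L0 := by
      ring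
    rw [← hL0, ← hW] at h5
    linarith
  have hcp : Nat.Coprime c p := by
    rw [Nat.coprime_comm, hp.out.coprime_iff_not_dvd]
    intro hd
    have := Nat.le_of_dvd (by omega) hd
    omega
  refine no_collision hv1 hv2 hG0 hG1 (Nat.dvd_factorial hc.1 hc.2) (by omega) hcp
    (i := (k : ℤ)) hk1 hk2 ?_
  rw [← ZMod.intCast_zmod_eq_zero_iff_dvd]
  push_cast
  rw [hvz, hGz]
  have hqi := hq0 i
  have h8 : (t2 + (c' : ZMod p) * γ - b i) = (c : ZMod p) * ((g i : ZMod p) + k * q i) := by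
    rw [heq]; ring
  rw [h8]
  simp only [hα]
  field_simp
  ring

end Pool.Agent.V11185.PGrp
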