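import Pool.Agent.V11185.PGrpA

/-!
Packing the groups `{p, 2p, ..., Cp}` of progressions: all groups.
-/

set_option autoImplicit false

namespace Pool.Agent.V11185.PGrp

open Finset Pool.Agent.V11185.PPack

lemma mul_idx {n q c i C : ℕ} (hc : c ∈ Icc 1 C) (hi : i < n / (c * q)) : c * (i + 1) ≤ n / q := by
  rw [mem_Icc] at hc
  have h1 : n / (c * q) = n / q / c := by rw [mul_comm, Nat.div_div_eq_div_mul]
  rw [h1] at hi
  calc c * (i + 1) ≤ c * (n / q / c) := Nat.mul_le_mul_left _ hi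
    _ ≤ n / q := Nat.mul_div_le _ _

lemma el_lt {n : ℕ} {z : ℕ × ℕ × ℕ} (hz : z.2.2 < z.1) {c i C : ℕ} (hc : c ∈ Icc 1 C)
    (hi : i < n / (c * z.1)) : el z c i < z.2.1 + n := by
  have h1 := mul_idx hc hi
  have hc0 : 0 < c := by rw [mem_Icc] at hc; omega
  have h2 : c * z.2.2 < c * z.1 := Nat.mul_lt_mul_of_pos_left hz hc0
  have h3 : c * (i + 1) * z.1 ≤ n := (Nat.mul_le_mul_right _ h1).trans (Nat.div_mul_le_self _ _)
  unfold el
  have h4 : c * (z.2.2 + i * z.1) = c * z.2.2 + c * i * z.1 := by ring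
  have h5 : c * (i + 1) * z.1 = c * i * z.1 + c * z.1 := by ring
  omega

lemma extend {n R E C : ℕ} {S : Finset (ℕ × ℕ × ℕ)} {X : ℕ} (hE : 0 < E) (hn : n ≤ 2 * R ^ 2)
    (hb1 : E ^ ((2 * E + 2) + 1) * ((2 * E + 2) * D1 E C) ≤ R) (hb2 : E * D1 E C ≤ R)
    (hb3 : 16 * E * E1 E C ≤ R) (hb4 : 4 * E * (C + 1) ≤ R)
    (h : Inv n R E C S X)
    (G : Finset ℕ) (hGp : ∀ p ∈ G, p.Prime) (hGle : ∀ p ∈ G, p ≤ R) (hGgt : ∀ p ∈ G, R < E * p)
    (hGS : ∀ p ∈ G, ∀ z ∈ S, z.1 ≠ p) (hstar : ∀ p ∈ G, ∀ z ∈ S, 4 * E * z.1 ≤ 4 * E * p + R)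
    (hcard : K1 E C < G.card) :
    ∃ p ∈ G, ∃ b g, Inv n R E C (insert (p, b, g) S) (X + stp n R E p) := by
  classical
  set A := S.filter (fun z => X < z.2.1 + n) with hA
  have hAc : Fintype.card {z // z ∈ A} ≤ 2 * E + 2 := by
    rw [Fintype.card_coe]
    exact active_card hE h hn
  have hAS : ∀ z : {z // z ∈ A}, z.1 ∈ S := fun z => (Finset.mem_filter.1 z.2).1
  have hE1 := E1_pos (C := C) hE
  have hR1 : 1 ≤ R := by
    have : 1 ≤ 16 * E * E1 E C := Nat.mul_pos (by omega) hE1
    omega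
  obtain ⟨p, hpG, hgood⟩ := exists_good_prime (ι := {z // z ∈ A}) (E := E) (R := R)
    (L := 2 * E + 2) (D := D1 E C) hE (q := fun z => z.1.1)
    (fun z => h.pr _ (hAS z))
    (by
      intro z z' hzz
      exact Subtype.ext (h.inj _ (hAS z) _ (hAS z') hzz))
    (fun z => h.le _ (hAS z))
    (by
      intro z
      have h1 := h.gt _ (hAS z)
      by_contra hlt
      push Not at hlt
      have : E * z.1.1 ≤ E * D1 E C := Nat.mul_le_mul_left _ hlt.le
      omega)
    hAc hR1 hb1 G hGp hGgt hcard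
  have hpp := hGp p hpG
  have : Fact p.Prime := ⟨hpp⟩
  have hpR := hGle p hpG
  have hp16 : 16 * E1 E C ≤ p := by
    have h1 := hGgt p hpG
    have h2 : E * (16 * E1 E C) < E * p := by
      have : E * (16 * E1 E C) = 16 * E * E1 E C := by ring
      omega
    exact (Nat.lt_of_mul_lt_mul_left h2).le
  have hCp : C < p := by have := C_lt_E1 (C := C) hE; omega
  have hq0 : ∀ z : {z // z ∈ A}, ((z.1.1 : ℕ) : ZMod p) ≠ 0 := by
    intro z hz
    rw [ZMod.natCast_eq_zero_iff, Nat.prime_dvd_prime_iff_eq hpp (h.pr _ (hAS z))] at hz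
    exact hGS p hpG _ (hAS z) hz.symm
  obtain ⟨x, γ, hγ0, hxγ⟩ := classes (ι := {z // z ∈ A}) (E := E) (C := C) (p := p) hE hp16 hAc
    (fun z => z.1.1) (fun z => z.1.2.1) (fun z => z.1.2.2) hq0
    (fun z => (((X - z.1.2.1) / z.1.1 : ℕ) : ℤ) - C) (fun z => ((n / z.1.1 : ℕ) : ℤ))
    (by
      intro z
      have := gap (n := n) (b := z.1.2.1) (X := X) (R := R) (p := p) (C := C) hE
        (h.pr _ (hAS z)).pos (h.le _ (hAS z)) hpR (h.st _ (hAS z)) (hstar p hpG _ (hAS z)) hb4
      linarith)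
    (by
      intro c hc h0
      exact hgood c hc (rel_dvd hq0 h0))
  -- the new group
  set t : ℕ := (x - (X : ZMod p)).val with ht
  have htp : t < p := ZMod.val_lt _
  have htz : ((X + t : ℕ) : ZMod p) = x := by
    push_cast
    rw [ht, ZMod.natCast_zmod_val]
    ring
  have hγv : γ.val < p := ZMod.val_lt _
  have hγv0 : 0 < γ.val := by
    rw [Nat.pos_iff_ne_zero]
    intro h0
    exact hγ0 ((ZMod.val_eq_zero _).1 h0)
  refine ⟨p, hpG, X + t, γ.val, ?_⟩
  -- no collision
  have hcol : ∀ z ∈ S, ∀ c ∈ Icc 1 C, ∀ c' ∈ Icc 1 C, ∀ i < n / (c * z.1),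
      ∀ j, el z c i ≠ el (p, X + t, γ.val) c' j := by
    intro z hz c hc c' hc' i hi j heq
    have hzp := (h.pr z hz).pos
    have hlow : X ≤ el (p, X + t, γ.val) c' j := by
      unfold el
      simp only
      omega
    by_cases hzA : z ∈ A
    · have h1 := mul_idx hc hi
      have hk1 : (((X - z.2.1) / z.1 : ℕ) : ℤ) - C ≤ (c : ℤ) * (i : ℕ) := by
        have h2 : X - z.2.1 < z.1 * (c + c * i) := by
          have h3 : X ≤ el z c i := by rw [heq]; exact hlow
          unfold el at h3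
          have h4 : c * (z.2.2 + i * z.1) = c * z.2.2 + z.1 * (c * i) := by ring
          have h5 : c * z.2.2 < c * z.1 :=
            Nat.mul_lt_mul_of_pos_left (h.g1 z hz) (by rw [mem_Icc] at hc; omega)
          have h6 : z.1 * (c + c * i) = c * z.1 + z.1 * (c * i) := by ring
          omega
        have h3 : (X - z.2.1) / z.1 < c + c * i := (Nat.div_lt_iff_lt_mul hzp).2 (by
          rw [mul_comm]; exact h2)
        have h4 : c ≤ C := (mem_Icc.1 hc).2
        have h5 : ((c * i : ℕ) : ℤ) = (c : ℤ) * i := by push_cast; ring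
        rw [← h5]
        omega
      have hk2 : ((c : ℤ) * (i : ℕ)) < ((n / z.1 : ℕ) : ℤ) := by
        have h2 : c * i < n / z.1 := by
          have : c * (i + 1) = c * i + c := by ring
          have : 0 < c := by rw [mem_Icc] at hc; omega
          omega
        exact_mod_cast h2
      have h2 := hxγ ⟨z, hzA⟩ c' hc' c hc i hk1 hk2
      apply h2
      have h3 : ((el z c i : ℕ) : ZMod p) = ((el (p, X + t, γ.val) c' j : ℕ) : ZMod p) := by
        rw [heq]
      unfold el at h3
      simp only at h3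
      rw [Nat.cast_add, Nat.cast_add, htz] at h3
      push_cast at h3
      rw [ZMod.natCast_zmod_val, ZMod.natCast_self, mul_zero, add_zero] at h3
      exact h3.symm
    · rw [hA, Finset.mem_filter] at hzA
      push Not at hzA
      have h1 := hzA hz
      have h2 := el_lt (h.g1 z hz) hc hi
      omega
  refine ⟨?_, ?_, ?_, ?_, ?_, ?_, ?_, ?_, ?_⟩
  · intro z hz
    rcases Finset.mem_insert.1 hz with rfl | hz
    · exact hpp
    · exact h.pr z hz
  · intro z hz
    rcases Finset.mem_insert.1 hz with rfl | hz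
    · exact hpR
    · exact h.le z hz
  · intro z hz
    rcases Finset.mem_insert.1 hz with rfl | hz
    · exact hGgt p hpG
    · exact h.gt z hz
  · intro z hz
    rcases Finset.mem_insert.1 hz with rfl | hz
    · exact hγv0
    · exact h.g0 z hz
  · intro z hz
    rcases Finset.mem_insert.1 hz with rfl | hz
    · exact hγv
    · exact h.g1 z hz
  · intro z hz
    rcases Finset.mem_insert.1 hz with rfl | hz
    · simp only [stp]
      omega
    · have := h.st z hz
      omega
  · intro z hz z' hz' hne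
    rcases Finset.mem_insert.1 hz with rfl | hz
    · rcases Finset.mem_insert.1 hz' with rfl | hz'
      · exact absurd rfl hne
      · right
        have := h.st z' hz'
        simp only
        omega
    · rcases Finset.mem_insert.1 hz' with rfl | hz'
      · left
        have := h.st z hz
        simp only
        omega
      · exact h.sep z hz z' hz' hne
  · intro z hz z' hz' he
    rcases Finset.mem_insert.1 hz with rfl | hz
    · rcases Finset.mem_insert.1 hz' with rfl | hz'
      · rfl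
      · exact absurd he.symm (hGS p hpG z' hz')
    · rcases Finset.mem_insert.1 hz' with rfl | hz'
      · exact absurd he (hGS p hpG z hz)
      · exact h.inj z hz z' hz' he
  · intro z hz z' hz' hne c hc c' hc' i hi j hj
    rcases Finset.mem_insert.1 hz with rfl | hz
    · rcases Finset.mem_insert.1 hz' with rfl | hz'
      · exact absurd rfl hne
      · exact (hcol z' hz' c' hc' c hc j hj i).symm
    · rcases Finset.mem_insert.1 hz' with rfl | hz'
      · exact hcol z hz c hc c' hc' i hi j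
      · exact h.dis z hz z' hz' hne c hc c' hc' i hi j hj

/-- one family of primes of nearly equal size -/
lemma group {n R E C : ℕ} (hE : 0 < E) (hn : n ≤ 2 * R ^ 2)
    (hb1 : E ^ ((2 * E + 2) + 1) * ((2 * E + 2) * D1 E C) ≤ R) (hb2 : E * D1 E C ≤ R)
    (hb3 : 16 * E * E1 E C ≤ R) (hb4 : 4 * E * (C + 1) ≤ R) (k : ℕ) :
    ∀ (S : Finset (ℕ × ℕ × ℕ)) (X : ℕ) (G : Finset ℕ),
    G.card = k → Inv n R E C S X →
    (∀ p ∈ G, p.Prime) → (∀ p ∈ G, p ≤ R) → (∀ p ∈ G, R < E * p) →
    (∀ p ∈ G, ∀ z ∈ S, z.1 ≠ p) → (∀ p ∈ G, ∀ z ∈ S, 4 * E * z.1 ≤ 4 * E * p + R) →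
    (∀ p ∈ G, ∀ q ∈ G, 4 * E * q ≤ 4 * E * p + R) →
    ∃ S' X', Inv n R E C S' X' ∧ S ⊆ S' ∧ (∀ z ∈ S', z ∈ S ∨ z.1 ∈ G) ∧
      (G.filter (fun p => ¬ ∃ z ∈ S', z.1 = p)).card ≤ K1 E C ∧
      X' ≤ X + ∑ p ∈ G, stp n R E p := by
  induction k with
  | zero =>
    intro S X G hk h _ _ _ _ _ _
    refine ⟨S, X, h, subset_rfl, fun z hz => Or.inl hz, ?_, Nat.le_add_right _ _⟩
    exact (Finset.card_filter_le _ _).trans (by omega)
  | succ k ih =>
    intro S X G hk h hGp hGle hGgt hGS hst hGG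
    by_cases hc : G.card ≤ K1 E C
    · exact ⟨S, X, h, subset_rfl, fun z hz => Or.inl hz,
        (Finset.card_filter_le _ _).trans hc, Nat.le_add_right _ _⟩
    · push Not at hc
      obtain ⟨p, hp, b, g, h'⟩ := extend hE hn hb1 hb2 hb3 hb4 h G hGp hGle hGgt hGS hst hc
      obtain ⟨S', X', i1, i2, i3, i4, i5⟩ := ih (insert (p, b, g) S) (X + stp n R E p) (G.erase p)
        (by rw [Finset.card_erase_of_mem hp]; omega) h'
        (fun q hq => hGp q (Finset.mem_of_mem_erase hq))
        (fun q hq => hGle q (Finset.mem_of_mem_erase hq))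
        (fun q hq => hGgt q (Finset.mem_of_mem_erase hq))
        (by
          intro q hq z hz
          rcases Finset.mem_insert.1 hz with rfl | hz
          · exact (Finset.ne_of_mem_erase hq).symm
          · exact hGS q (Finset.mem_of_mem_erase hq) z hz)
        (by
          intro q hq z hz
          rcases Finset.mem_insert.1 hz with rfl | hz
          · exact hGG q (Finset.mem_of_mem_erase hq) p hp
          · exact hst q (Finset.mem_of_mem_erase hq) z hz)
        (fun q hq q' hq' => hGG q (Finset.mem_of_mem_erase hq) q' (Finset.mem_of_mem_erase hq'))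
      refine ⟨S', X', i1, (Finset.subset_insert _ _).trans i2, ?_, ?_, ?_⟩
      · intro z hz
        rcases i3 z hz with h1 | h1
        · rcases Finset.mem_insert.1 h1 with rfl | h1
          · exact Or.inr hp
          · exact Or.inl h1
        · exact Or.inr (Finset.mem_of_mem_erase h1)
      · refine le_trans (Finset.card_le_card ?_) i4
        intro q hq
        rw [Finset.mem_filter] at hq ⊢
        refine ⟨Finset.mem_erase.2 ⟨?_, hq.1⟩, hq.2⟩
        rintro rfl
        exact hq.2 ⟨(q, b, g), i2 (Finset.mem_insert_self _ _), rfl⟩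
      · rw [← Finset.add_sum_erase _ _ hp]
        omega

/-- all primes -/
lemma groups {n R E C : ℕ} (hE : 0 < E) (hn : n ≤ 2 * R ^ 2)
    (hb1 : E ^ ((2 * E + 2) + 1) * ((2 * E + 2) * D1 E C) ≤ R) (hb2 : E * D1 E C ≤ R)
    (hb3 : 16 * E * E1 E C ≤ R) (hb4 : 4 * E * (C + 1) ≤ R)
    (P : Finset ℕ) (hPp : ∀ p ∈ P, p.Prime) (hPR : ∀ p ∈ P, p ≤ R)
    (hPE : ∀ p ∈ P, R < E * p) (k : ℕ) :
    ∃ S X, Inv n R E C S X ∧ (∀ z ∈ S, z.1 ∈ P ∧ 4 * E * z.1 ≤ k * R) ∧
      ((P.filter (fun p => 4 * E * p ≤ k * R)).filter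
        (fun p => ¬ ∃ z ∈ S, z.1 = p)).card ≤ k * K1 E C ∧
      X ≤ ∑ p ∈ P.filter (fun p => 4 * E * p ≤ k * R), stp n R E p := by
  induction k with
  | zero =>
    refine ⟨∅, 0, ?_, by simp, ?_, Nat.zero_le _⟩
    · refine ⟨?_, ?_, ?_, ?_, ?_, ?_, ?_, ?_, ?_⟩ <;> simp
    · rw [Finset.card_eq_zero.2]
      · omega
      · rw [Finset.filter_eq_empty_iff]
        intro p hp
        rw [Finset.mem_filter] at hp
        have h1 := (hPp p hp.1).pos
        have h2 : 0 < 4 * E * p := by positivity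
        omega
  | succ k ih =>
    obtain ⟨S, X, h, h1, h2, h3⟩ := ih
    set G := P.filter (fun p => k * R < 4 * E * p ∧ 4 * E * p ≤ (k + 1) * R) with hG
    obtain ⟨S', X', i1, i2, i3, i4, i5⟩ := group hE hn hb1 hb2 hb3 hb4 G.card S X G rfl h
      (fun p hp => hPp p (Finset.mem_filter.1 hp).1)
      (fun p hp => hPR p (Finset.mem_filter.1 hp).1)
      (fun p hp => hPE p (Finset.mem_filter.1 hp).1)
      (by
        intro p hp z hz he
        have a1 := (Finset.mem_filter.1 hp).2.1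
        have a2 := (h1 z hz).2
        rw [he] at a2
        omega)
      (by
        intro p hp z hz
        have a1 := (Finset.mem_filter.1 hp).2.1
        have a2 := (h1 z hz).2
        omega)
      (by
        intro p hp q hq
        have a1 := (Finset.mem_filter.1 hp).2.1
        have a2 := (Finset.mem_filter.1 hq).2.2
        rw [add_mul, one_mul] at a2
        omega)
    have hle : k * R ≤ (k + 1) * R := Nat.mul_le_mul_right _ (by omega)
    have hunion : P.filter (fun p => 4 * E * p ≤ (k + 1) * R) =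
        P.filter (fun p => 4 * E * p ≤ k * R) ∪ G := by
      ext p
      simp only [hG, Finset.mem_union, Finset.mem_filter]
      constructor
      · rintro ⟨b1, b3⟩
        by_cases hh : 4 * E * p ≤ k * R
        · exact Or.inl ⟨b1, hh⟩
        · exact Or.inr ⟨b1, by omega, b3⟩
      · rintro (⟨b1, b3⟩ | ⟨b1, b3, b4⟩)
        · exact ⟨b1, by omega⟩
        · exact ⟨b1, b4⟩
    have hdis : Disjoint (P.filter (fun p => 4 * E * p ≤ k * R)) G := by
      rw [Finset.disjoint_left]
      intro p hp hp'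
      rw [Finset.mem_filter] at hp
      have := (Finset.mem_filter.1 hp').2.1
      omega
    refine ⟨S', X', i1, ?_, ?_, ?_⟩
    · intro z hz
      rcases i3 z hz with b | b
      · have := h1 z b
        exact ⟨this.1, by omega⟩
      · exact ⟨(Finset.mem_filter.1 b).1, (Finset.mem_filter.1 b).2.2⟩
    · rw [hunion, Finset.filter_union]
      refine (Finset.card_union_le _ _).trans ?_
      have : ((P.filter (fun p => 4 * E * p ≤ k * R)).filter
        (fun p => ¬ ∃ z ∈ S', z.1 = p)).card ≤ k * K1 E C := by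
        refine le_trans (Finset.card_le_card ?_) h2
        intro p hp
        rw [Finset.mem_filter] at hp ⊢
        refine ⟨hp.1, ?_⟩
        rintro ⟨z, hz, hz2⟩
        exact hp.2 ⟨z, i2 hz, hz2⟩
      rw [add_mul, one_mul]
      omega
    · rw [hunion, Finset.sum_union hdis]
      omega

/-- within one group there is no collision -/
lemma same_group {z : ℕ × ℕ × ℕ} (hp : z.1.Prime) (h0 : 0 < z.2.2) (h1 : z.2.2 < z.1) {C : ℕ}
    (hC : C < z.1) {c c' : ℕ} (hc : c ∈ Icc 1 C) (hc' : c' ∈ Icc 1 C) (hne : c ≠ c') (i j : ℕ) :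
    el z c i ≠ el z c' j := by
  intro h
  have : Fact z.1.Prime := ⟨hp⟩
  unfold el at h
  have h2 : c * (z.2.2 + i * z.1) = c' * (z.2.2 + j * z.1) := by omega
  have h3 : ((c * (z.2.2 + i * z.1) : ℕ) : ZMod z.1) = ((c' * (z.2.2 + j * z.1) : ℕ) : ZMod z.1) := by
    rw [h2]
  push_cast at h3
  rw [ZMod.natCast_self, mul_zero, add_zero, mul_zero, add_zero] at h3
  have h4 : ((z.2.2 : ℕ) : ZMod z.1) ≠ 0 := by
    intro h5
    rw [ZMod.natCast_eq_zero_iff] at h5
    have := Nat.le_of_dvd h0 h5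
    omega
  have h5 := mul_right_cancel₀ h4 h3
  rw [mem_Icc] at hc hc'
  have h6 := (ZMod.natCast_eq_natCast_iff' c c' z.1).1 h5
  rw [Nat.mod_eq_of_lt (by omega), Nat.mod_eq_of_lt (by omega)] at h6
  exact hne h6

/-- the main upper bound for groups -/
theorem upper_grp {n R E C : ℕ} (hE : 0 < E) (hn : n ≤ 2 * R ^ 2)
    (hb1 : E ^ ((2 * E + 2) + 1) * ((2 * E + 2) * D1 E C) ≤ R) (hb2 : E * D1 E C ≤ R)
    (hb3 : 16 * E * E1 E C ≤ R) (hb4 : 4 * E * (C + 1) ≤ R)
    (P : Finset ℕ) (hPp : ∀ p ∈ P, p.Prime) (hPR : ∀ p ∈ P, p ≤ R)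
    (hPE : ∀ p ∈ P, R < E * p) :
    ∃ f : ℕ → ℕ × ℕ × ℕ, (∀ p ∈ P, (f p).1 = p) ∧
      (∀ p ∈ P, ∀ c ∈ Icc 1 C, ∀ i < n / (c * p), el (f p) c i <
        ∑ p ∈ P, stp n R E p + (4 * E * K1 E C + 2) * n) ∧
      (∀ p ∈ P, ∀ q ∈ P, ∀ c ∈ Icc 1 C, ∀ c' ∈ Icc 1 C, (p, c) ≠ (q, c') →
        ∀ i < n / (c * p), ∀ j < n / (c' * q), el (f p) c i ≠ el (f q) c' j) := by
  classical
  obtain ⟨S, X, h, h1, h2, h3⟩ := groups hE hn hb1 hb2 hb3 hb4 P hPp hPR hPE (4 * E)
  have hfil : P.filter (fun p => 4 * E * p ≤ 4 * E * R) = P :=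
    Finset.filter_true_of_mem fun p hp => Nat.mul_le_mul_left _ (hPR p hp)
  rw [hfil] at h2 h3
  set U := P.filter (fun p => ¬ ∃ z ∈ S, z.1 = p) with hU
  set idx : ℕ → ℕ := fun p => (U.filter (fun q => q < p)).card with hidx
  have hidx1 : ∀ p ∈ U, idx p < U.card := by
    intro p hp
    apply Finset.card_lt_card
    rw [Finset.ssubset_iff_of_subset (Finset.filter_subset _ _)]
    exact ⟨p, hp, by simp⟩
  have hidx2 : ∀ p ∈ U, ∀ q ∈ U, p < q → idx p < idx q := by
    intro p hp q hq hpq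
    apply Finset.card_lt_card
    rw [Finset.ssubset_iff_of_subset]
    · exact ⟨p, Finset.mem_filter.2 ⟨hp, hpq⟩, by simp⟩
    · intro r hr
      rw [Finset.mem_filter] at hr ⊢
      exact ⟨hr.1, hr.2.trans hpq⟩
  have hCp : ∀ p ∈ P, C < p := by
    intro p hp
    have h1 := hPE p hp
    have h2 := C_lt_E1 (C := C) hE
    have h3 : E * (16 * E1 E C) < E * p := by
      have : E * (16 * E1 E C) = 16 * E * E1 E C := by ring
      omega
    have := Nat.lt_of_mul_lt_mul_left h3
    omega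
  have hex : ∀ p, ∃ w : ℕ × ℕ × ℕ, (∀ z ∈ S, z.1 = p → w = z) ∧ ((¬ ∃ z ∈ S, z.1 = p) →
      w = (p, X + n + idx p * n, 1)) := by
    intro p
    by_cases hh : ∃ z ∈ S, z.1 = p
    · obtain ⟨z, hz, hzp⟩ := hh
      refine ⟨z, ?_, fun hn => absurd ⟨z, hz, hzp⟩ hn⟩
      intro z' hz' hzp'
      exact h.inj z hz z' hz' (hzp.trans hzp'.symm)
    · exact ⟨_, fun z hz hzp => absurd ⟨z, hz, hzp⟩ hh, fun _ => rfl⟩
  choose f hf1 hf2 using hex
  have hfz : ∀ z ∈ S, f z.1 = z := fun z hz => hf1 z.1 z hz rfl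
  have hin : ∀ z ∈ S, z.2.1 + n ≤ X + n := by
    intro z hz
    have b1 := h.st z hz
    generalize R ^ 2 / E + 1 = σ at b1
    omega
  have hfst : ∀ p, (f p).1 = p := by
    intro p
    by_cases hh : ∃ z ∈ S, z.1 = p
    · obtain ⟨z, hz, rfl⟩ := hh
      rw [hfz z hz]
    · rw [hf2 p hh]
  have hg : ∀ p ∈ P, 0 < (f p).2.2 ∧ (f p).2.2 < p := by
    intro p hp
    by_cases hh : ∃ z ∈ S, z.1 = p
    · obtain ⟨z, hz, rfl⟩ := hh
      rw [hfz z hz]
      exact ⟨h.g0 z hz, h.g1 z hz⟩
    · rw [hf2 p hh]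
      exact ⟨one_pos, (hPp p hp).one_lt⟩
  refine ⟨f, fun p _ => hfst p, ?_, ?_⟩
  · intro p hp c hc i hi
    have hlt := el_lt (n := n) (z := f p) (by rw [hfst]; exact (hg p hp).2) hc
      (by rw [hfst]; exact hi)
    refine hlt.trans_le ?_
    by_cases hh : ∃ z ∈ S, z.1 = p
    · obtain ⟨z, hz, rfl⟩ := hh
      rw [hfz z hz]
      have := hin z hz
      have b3 : n ≤ (4 * E * K1 E C + 2) * n := Nat.le_mul_of_pos_left _ (by omega)
      omega
    · rw [hf2 p hh]
      have hpU : p ∈ U := Finset.mem_filter.2 ⟨hp, hh⟩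
      have b1 := hidx1 p hpU
      have b3 : (idx p + 2) * n ≤ (4 * E * K1 E C + 2) * n := Nat.mul_le_mul_right _ (by omega)
      have b4 : (idx p + 2) * n = idx p * n + 2 * n := by ring
      simp only
      omega
  · intro p hp q hq c hc c' hc' hne i hi j hj
    by_cases hpq : p = q
    · subst hpq
      have hcc : c ≠ c' := fun hcc => hne (by rw [hcc])
      exact same_group (by rw [hfst]; exact hPp p hp) (hg p hp).1
        (by rw [hfst]; exact (hg p hp).2) (C := C) (by rw [hfst]; exact hCp p hp) hc hc' hcc i j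
    · have hlp := el_lt (n := n) (z := f p) (by rw [hfst]; exact (hg p hp).2) hc
        (by rw [hfst]; exact hi)
      have hlq := el_lt (n := n) (z := f q) (by rw [hfst]; exact (hg q hq).2) hc'
        (by rw [hfst]; exact hj)
      have hgep : (f p).2.1 ≤ el (f p) c i := by unfold el; omega
      have hgeq : (f q).2.1 ≤ el (f q) c' j := by unfold el; omega
      by_cases hh : ∃ z ∈ S, z.1 = p
      · obtain ⟨z, hz, rfl⟩ := hh
        by_cases hh' : ∃ z ∈ S, z.1 = q
        · obtain ⟨z', hz', rfl⟩ := hh'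
          rw [hfz z hz, hfz z' hz']
          exact h.dis z hz z' hz' (fun hne => hpq (by rw [hne])) c hc c' hc' i hi j hj
        · have c1 := hin z hz
          rw [hfz z hz] at hlp ⊢
          rw [hf2 q hh'] at hgeq ⊢
          simp only at hgeq
          omega
      · by_cases hh' : ∃ z ∈ S, z.1 = q
        · obtain ⟨z', hz', rfl⟩ := hh'
          have c1 := hin z' hz'
          rw [hfz z' hz'] at hlq ⊢
          rw [hf2 p hh] at hgep ⊢
          simp only at hgep
          omega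
        · have hpU : p ∈ U := Finset.mem_filter.2 ⟨hp, hh⟩
          have hqU : q ∈ U := Finset.mem_filter.2 ⟨hq, hh'⟩
          rw [hf2 q hh'] at hgeq hlq ⊢
          rw [hf2 p hh] at hgep hlp ⊢
          simp only at hgep hgeq hlp hlq
          rcases lt_or_gt_of_ne hpq with hlt' | hlt'
          · have c5 := hidx2 p hpU q hqU hlt'
            have c6 : (idx p + 1) * n ≤ idx q * n := Nat.mul_le_mul_right _ (by omega)
            rw [add_mul, one_mul] at c6
            omega
          · have c5 := hidx2 q hqU p hpU hlt'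
            have c6 : (idx q + 1) * n ≤ idx p * n := Nat.mul_le_mul_right _ (by omega)
            rw [add_mul, one_mul] at c6
            omega

end Pool.Agent.V11185.PGrp
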