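import Pool.Agent.V11185.PPackC

/-!
Packing progressions with prime differences: packings, the lower bound and the upper bound for
the least packing length.
-/

set_option autoImplicit false

namespace Pool.Agent.V11185.PPack

open Finset

/-- The family of finite sets `A i` (`i ∈ I`) of positive integers packs into `[m]`: there are
integer shifts `s i` such that the translates `s i + A i` lie in `{1, ..., m}` and are pairwise
disjoint. -/
def Packs {ι : Type*} (I : Finset ι) (A : ι → Finset ℕ) (m : ℕ) : Prop :=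
  ∃ s : ι → ℤ, (∀ i ∈ I, ∀ x ∈ A i, 1 ≤ s i + (x : ℤ) ∧ s i + (x : ℤ) ≤ (m : ℤ)) ∧
    ∀ i ∈ I, ∀ j ∈ I, i ≠ j → ∀ x ∈ A i, ∀ y ∈ A j, s i + (x : ℤ) ≠ s j + (y : ℤ)

/-- the first `N` positive multiples of `d`, that is `{d, 2 * d, ..., N * d}` -/
def mult (d N : ℕ) : Finset ℕ := (Finset.Icc 1 N).image (fun i => i * d)

/-- two disjoint progressions: the later one must start late -/
lemma two_prog {p q : ℕ} (hpq : Nat.Coprime p q) (hp : 0 < p) {N : ℕ → ℕ} (hN : p ≤ N q)
    {b : ℕ → ℤ} (hle : b p ≤ b q)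
    (hdis : ∀ i < N p, ∀ j < N q, b p + i * p ≠ b q + j * q) :
    b p + p * N p ≤ b q + p * q := by
  by_contra hlt
  push Not at hlt
  -- find `x = b q + j * q` with `x ≡ b p (mod p)`
  have hu : IsUnit ((q : ℤ) : ZMod p) := by
    rw [Int.cast_natCast]
    exact (ZMod.isUnit_iff_coprime q p).2 hpq.symm
  obtain ⟨u, hu⟩ := hu
  have : NeZero p := ⟨hp.ne'⟩
  set j : ℕ := (((b p - b q : ℤ) : ZMod p) * (u⁻¹ : (ZMod p)ˣ)).val with hj
  have hjp : j < p := ZMod.val_lt _
  have h1 : ((b q + j * q : ℤ) : ZMod p) = ((b p : ℤ) : ZMod p) := by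
    push_cast
    rw [hj, ZMod.natCast_zmod_val, ← Int.cast_natCast (R := ZMod p) q, ← hu, mul_assoc,
      Units.inv_mul]
    push_cast
    ring
  have h2 : (p : ℤ) ∣ (b q + j * q) - b p := by
    rw [← ZMod.intCast_zmod_eq_zero_iff_dvd]
    push_cast
    push_cast at h1
    rw [h1, sub_self]
  obtain ⟨i, hi⟩ := h2
  have hi0 : 0 ≤ i := by
    by_contra hneg
    push Not at hneg
    have h3 : (p : ℤ) * i < 0 := mul_neg_of_pos_of_neg (by exact_mod_cast hp) hneg
    have h4 : (0 : ℤ) ≤ (j : ℤ) * q := by positivity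
    omega
  obtain ⟨i', rfl⟩ := Int.eq_ofNat_of_zero_le hi0
  have hjq : (j : ℤ) * q + q ≤ p * q := by
    have : (j : ℤ) + 1 ≤ p := by exact_mod_cast hjp
    nlinarith [Int.natCast_nonneg q]
  have hi2 : i' < N p := by
    by_contra hge
    push Not at hge
    have h5 : (p : ℤ) * N p ≤ p * i' := by
      have : (N p : ℤ) ≤ i' := by exact_mod_cast hge
      nlinarith [Int.natCast_nonneg p]
    have := Int.natCast_nonneg q
    omega
  refine hdis i' hi2 j (by omega) ?_
  rw [mul_comm (i' : ℤ)]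
  omega

lemma lower_aux {N : ℕ → ℕ} {b : ℕ → ℤ} (P : Finset ℕ) :
    (∀ p ∈ P, p.Prime) → (∀ p ∈ P, ∀ q ∈ P, p ≤ N q) → (∀ p ∈ P, 0 ≤ b p) →
    (∀ p ∈ P, ∀ q ∈ P, p ≠ q → ∀ i < N p, ∀ j < N q, b p + i * p ≠ b q + j * q) →
    P = ∅ ∨ ∃ q ∈ P, (∀ p ∈ P, b p ≤ b q) ∧
      2 * ∑ p ∈ P.erase q, ((p : ℤ) * N p - p ^ 2) ≤ 2 * b q + q ^ 2 := by
  induction P using Finset.induction_on_max_value b with
  | empty => intros; exact Or.inl rfl
  | insert q s hq hmax ih =>
    intro hP hN hb hdis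
    right
    refine ⟨q, mem_insert_self _ _, ?_, ?_⟩
    · intro p hp
      rcases mem_insert.1 hp with rfl | hp
      · exact le_rfl
      · exact hmax p hp
    · rw [erase_insert hq]
      rcases ih (fun p hp => hP p (mem_insert_of_mem hp))
        (fun p hp r hr => hN p (mem_insert_of_mem hp) r (mem_insert_of_mem hr))
        (fun p hp => hb p (mem_insert_of_mem hp))
        (fun p hp r hr => hdis p (mem_insert_of_mem hp) r (mem_insert_of_mem hr))
        with h | ⟨p, hp, h1, h2⟩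
      · subst h
        have := hb q (mem_insert_self _ _)
        simp only [sum_empty, mul_zero]
        positivity
      · have hne : p ≠ q := fun h => hq (h ▸ hp)
        have hc : Nat.Coprime p q :=
          (Nat.coprime_primes (hP p (mem_insert_of_mem hp)) (hP q (mem_insert_self _ _))).2 hne
        have h3 := two_prog hc (hP p (mem_insert_of_mem hp)).pos
          (hN p (mem_insert_of_mem hp) q (mem_insert_self _ _)) (hmax p hp)
          (hdis p (mem_insert_of_mem hp) q (mem_insert_self _ _) hne)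
        rw [← Finset.add_sum_erase _ _ hp]
        nlinarith [sq_nonneg ((p : ℤ) - q)]

/-- the lower bound for the packing length -/
theorem lower_gen {P : Finset ℕ} (hP : ∀ p ∈ P, p.Prime) {N : ℕ → ℕ}
    (hN : ∀ p ∈ P, ∀ q ∈ P, p ≤ N q) {m : ℕ} (h : Packs P (fun p => mult p (N p)) m) :
    ∑ p ∈ P, ((p : ℤ) * N p - p ^ 2) ≤ m := by
  obtain ⟨s, h1, h2⟩ := h
  have hmem : ∀ p, ∀ i < N p, (i + 1) * p ∈ mult p (N p) := by
    intro p i hi
    unfold mult
    rw [mem_image]
    exact ⟨i + 1, by rw [mem_Icc]; omega, rfl⟩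
  have hpos : ∀ p ∈ P, 0 < N p := fun p hp => (hP p hp).pos.trans_le (hN p hp p hp)
  rcases lower_aux (N := N) (b := fun p => s p + p) P hP hN
    (by
      intro p hp
      have := h1 p hp _ (hmem p 0 (hpos p hp))
      push_cast at this
      show 0 ≤ s p + (p : ℤ)
      omega)
    (by
      intro p hp q hq hpq i hi j hj
      have := h2 p hp q hq hpq _ (hmem p i hi) _ (hmem q j hj)
      push_cast at this
      intro he
      apply this
      linarith) with h3 | ⟨q, hq, h4, h5⟩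
  · subst h3
    simp
  · rw [← Finset.add_sum_erase _ _ hq]
    have h6 := h1 q hq _ (hmem q (N q - 1) (by have := hpos q hq; omega))
    have h7 : ((N q - 1 + 1) * q : ℕ) = N q * q := by
      rw [Nat.sub_add_cancel (hpos q hq)]
    rw [h7] at h6
    push_cast at h6
    have h8 : (2 : ℤ) ≤ q := by exact_mod_cast (hP q hq).two_le
    nlinarith

/-- from starting points to packings -/
lemma packs_of_starts {P : Finset ℕ} {N : ℕ → ℕ} {m : ℕ} (a : ℕ → ℕ) (hP : ∀ p ∈ P, 0 < p)
    (h1 : ∀ p ∈ P, a p + p * N p ≤ m)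
    (h2 : ∀ p ∈ P, ∀ q ∈ P, p ≠ q → ∀ i < N p, ∀ j < N q, a p + i * p ≠ a q + j * q) :
    Packs P (fun p => mult p (N p)) m := by
  refine ⟨fun p => a p + 1 - p, ?_, ?_⟩
  · intro p hp x hx
    unfold mult at hx
    rw [mem_image] at hx
    obtain ⟨i, hi, rfl⟩ := hx
    rw [mem_Icc] at hi
    have h3 := h1 p hp
    have h4 := hP p hp
    have h5 : 1 * p ≤ i * p := Nat.mul_le_mul_right _ hi.1
    have h6 : i * p ≤ p * N p := by rw [mul_comm p]; exact Nat.mul_le_mul_right _ hi.2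
    push_cast
    have h7 : ((i * p : ℕ) : ℤ) = (i : ℤ) * p := by push_cast; ring
    rw [← h7]
    omega
  · intro p hp q hq hpq x hx y hy
    unfold mult at hx hy
    rw [mem_image] at hx hy
    obtain ⟨i, hi, rfl⟩ := hx
    obtain ⟨j, hj, rfl⟩ := hy
    rw [mem_Icc] at hi hj
    obtain ⟨i, rfl⟩ := Nat.exists_eq_add_of_le hi.1
    obtain ⟨j, rfl⟩ := Nat.exists_eq_add_of_le hj.1
    intro he
    refine h2 p hp q hq hpq i (by omega) j (by omega) ?_
    push_cast at he
    have : ((a p + i * p : ℕ) : ℤ) = ((a q + j * q : ℕ) : ℤ) := by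
      push_cast
      linarith
    exact_mod_cast this

/-- packings exist -/
lemma packs_exists {P : Finset ℕ} {N : ℕ → ℕ} (hP : ∀ p ∈ P, 0 < p) :
    ∃ m, Packs P (fun p => mult p (N p)) m := by
  set L := ∑ p ∈ P, p * N p with hL
  have hle : ∀ p ∈ P, p * N p ≤ L := fun p hp =>
    Finset.single_le_sum (f := fun p => p * N p) (fun _ _ => Nat.zero_le _) hp
  refine ⟨∑ p ∈ P, (p * L + p * N p), packs_of_starts (fun p => p * L) hP ?_ ?_⟩
  · intro p hp
    exact Finset.single_le_sum (f := fun p => p * L + p * N p) (fun _ _ => Nat.zero_le _) hp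
  · intro p hp q hq hpq i hi j hj
    have h1 : i * p < p * N p := by
      rw [mul_comm]; exact Nat.mul_lt_mul_of_pos_left hi (hP p hp)
    have h2 : j * q < q * N q := by
      rw [mul_comm]; exact Nat.mul_lt_mul_of_pos_left hj (hP q hq)
    have h3 := hle p hp
    have h4 := hle q hq
    rcases lt_or_gt_of_ne hpq with h | h
    · have h5 : (p + 1) * L ≤ q * L := Nat.mul_le_mul_right _ h
      rw [add_mul, one_mul] at h5
      omega
    · have h5 : (q + 1) * L ≤ p * L := Nat.mul_le_mul_right _ h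
      rw [add_mul, one_mul] at h5
      omega

/-- the error term in the upper bound -/
noncomputable def err (E R : ℕ) : ℝ :=
  (Nat.primeCounting R : ℝ) * ((R : ℝ) ^ 2 / E + 1 + R) +
    (2 * E * K0 E + Nat.primeCounting (R / E) + 2) * (2 * (R : ℝ) ^ 2)

/-- the primes up to `n` -/
def primesLE (n : ℕ) : Finset ℕ := (Finset.Icc 1 n).filter Nat.Prime

lemma card_primesLE (n : ℕ) : (primesLE n).card = Nat.primeCounting n := by
  unfold primesLE
  rw [Nat.primeCounting, Nat.primeCounting', Nat.count_eq_card_filter_range]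
  congr 1
  ext p
  simp only [mem_filter, mem_Icc, mem_range]
  constructor
  · rintro ⟨h1, h2⟩; exact ⟨by omega, h2⟩
  · rintro ⟨h1, h2⟩; exact ⟨⟨h2.one_lt.le, by omega⟩, h2⟩

/-- the upper bound for the packing length -/
theorem upper_packs {N : ℕ → ℕ} {R E : ℕ} (hE : 0 < E)
    (hb1 : E ^ ((2 * E + 2) + 1) * ((2 * E + 2) * Dc E) ≤ R) (hb2 : E * Dc E ≤ R)
    (hb3 : 16 * E ^ 2 ≤ R) (hN : ∀ p ∈ primesLE R, p ^ 2 ≤ p * N p)
    (hPN : ∀ p ∈ primesLE R, p * N p ≤ 2 * R ^ 2) :
    ∃ m : ℕ, Packs (primesLE R) (fun p => mult p (N p)) m ∧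
      (m : ℝ) ≤ ∑ p ∈ primesLE R, ((p : ℝ) * N p - (p : ℝ) ^ 2) + err E R := by
  have hPp : ∀ p ∈ primesLE R, p.Prime := fun p hp => (mem_filter.1 hp).2
  have hPR : ∀ p ∈ primesLE R, p ≤ R := fun p hp => (mem_Icc.1 (mem_filter.1 hp).1).2
  obtain ⟨a, h1, h2⟩ := upper_gen (N := N) hE hb1 hb2 hb3 (primesLE R) hPp hPR hPN
  refine ⟨_, packs_of_starts a (fun p hp => (hPp p hp).pos) h1 h2, ?_⟩
  have h3 : ((primesLE R).filter (fun p => E * p ≤ R)).card = Nat.primeCounting (R / E) := by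
    rw [← card_primesLE]
    congr 1
    ext p
    simp only [primesLE, mem_filter, mem_Icc]
    rw [Nat.le_div_iff_mul_le hE, mul_comm p E]
    constructor
    · rintro ⟨⟨⟨c1, c2⟩, c3⟩, c4⟩; exact ⟨⟨c1, c4⟩, c3⟩
    · rintro ⟨⟨c1, c2⟩, c3⟩
      exact ⟨⟨⟨c1, (Nat.le_mul_of_pos_left _ hE).trans c2⟩, c3⟩, c2⟩
  rw [h3]
  unfold err
  push_cast
  have h4 : ∑ p ∈ primesLE R, (st N R E p : ℝ) ≤
      ∑ p ∈ primesLE R, ((p : ℝ) * N p - (p : ℝ) ^ 2) +
        (Nat.primeCounting R : ℝ) * ((R : ℝ) ^ 2 / E + 1 + R) := by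
    rw [← card_primesLE, ← nsmul_eq_mul, ← Finset.sum_const, ← Finset.sum_add_distrib]
    apply Finset.sum_le_sum
    intro p hp
    unfold st
    push_cast [Nat.cast_sub (hN p hp)]
    have : ((R ^ 2 / E : ℕ) : ℝ) ≤ (R : ℝ) ^ 2 / E := by
      have := @Nat.cast_div_le ℝ _ _ _ (R ^ 2) E
      push_cast at this
      exact this
    linarith
  linarith

end Pool.Agent.V11185.PPack
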