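import Pool.Agent.V11185.PGrpB
import Pool.Agent.V11185.PPackD

/-!
Packing the progressions of all multiples up to `n`: the four kinds of differences.
-/

set_option autoImplicit false

namespace Pool.Agent.V11185.PGrp

open Finset Pool.Agent.V11185.PPack

/-- the progressions of the multiples up to `n` with differences in `D` pack into an interval of
length `L` -/
def PackN (D : Finset ℕ) (n L : ℕ) : Prop :=
  ∃ a : ℕ → ℕ, (∀ d ∈ D, ∀ i < n / d, a d + i * d < L) ∧
    ∀ d ∈ D, ∀ e ∈ D, d ≠ e → ∀ i < n / d, ∀ j < n / e, a d + i * d ≠ a e + j * e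

lemma PackN.mono {D D' : Finset ℕ} {n L L' : ℕ} (h : PackN D n L) (hD : D' ⊆ D) (hL : L ≤ L') :
    PackN D' n L' := by
  obtain ⟨a, h1, h2⟩ := h
  exact ⟨a, fun d hd i hi => (h1 d (hD hd) i hi).trans_le hL,
    fun d hd e he => h2 d (hD hd) e (hD he)⟩

lemma PackN.empty (n : ℕ) : PackN ∅ n 0 := ⟨fun _ => 0, by simp, by simp⟩

lemma PackN.union {D D' : Finset ℕ} {n L L' : ℕ} (h : PackN D n L) (h' : PackN D' n L') :
    PackN (D ∪ D') n (L + L') := by
  classical
  obtain ⟨a, h1, h2⟩ := h
  obtain ⟨b, h3, h4⟩ := h'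
  refine ⟨fun d => if d ∈ D then a d else L + b d, ?_, ?_⟩
  · intro d hd i hi
    by_cases hdD : d ∈ D
    · simp only [hdD, if_true]
      exact (h1 d hdD i hi).trans_le (Nat.le_add_right _ _)
    · simp only [hdD, if_false]
      have := h3 d ((Finset.mem_union.1 hd).resolve_left hdD) i hi
      omega
  · intro d hd e he hne i hi j hj
    by_cases hdD : d ∈ D
    · by_cases heD : e ∈ D
      · simp only [hdD, heD, if_true]
        exact h2 d hdD e heD hne i hi j hj
      · simp only [hdD, heD, if_true, if_false]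
        have := h1 d hdD i hi
        omega
    · by_cases heD : e ∈ D
      · simp only [hdD, heD, if_true, if_false]
        have := h1 e heD j hj
        omega
      · simp only [hdD, heD, if_false]
        have := h4 d ((Finset.mem_union.1 hd).resolve_left hdD) e
          ((Finset.mem_union.1 he).resolve_left heD) hne i hi j hj
        omega

lemma PackN.biUnion {κ : Type*} [DecidableEq κ] (K : Finset κ) (D : κ → Finset ℕ) (L : κ → ℕ)
    {n : ℕ} (h : ∀ k ∈ K, PackN (D k) n (L k)) : PackN (K.biUnion D) n (∑ k ∈ K, L k) := by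
  induction K using Finset.induction_on with
  | empty => simpa using PackN.empty n
  | insert k K hk ih =>
    rw [Finset.biUnion_insert, Finset.sum_insert hk]
    exact (h k (mem_insert_self _ _)).union (ih fun k' hk' => h k' (mem_insert_of_mem hk'))

/-- a group of multiples of `g` -/
lemma PackN.group {D : Finset ℕ} {n g k : ℕ} (hg : 0 < g)
    (h1 : ∀ d ∈ D, g ∣ d ∧ d / g / g = k) : PackN D n (n + g) := by
  refine ⟨fun d => d / g % g, ?_, ?_⟩
  · intro d hd i hi
    have h2 : d / g % g < g := Nat.mod_lt _ hg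
    have h3 : (i + 1) * d ≤ n := (Nat.mul_le_mul_right _ hi).trans (Nat.div_mul_le_self _ _)
    rw [add_mul, one_mul] at h3
    simp only
    omega
  · intro d hd e he hne i hi j hj heq
    simp only at heq
    obtain ⟨⟨u, rfl⟩, hu⟩ := h1 d hd
    obtain ⟨⟨v, rfl⟩, hv⟩ := h1 e he
    rw [Nat.mul_div_cancel_left _ hg] at heq hu hv
    rw [Nat.mul_div_cancel_left _ hg] at heq
    apply hne
    have h3 : u % g = v % g := by
      have h4 : (u % g + i * (g * u)) % g = (v % g + j * (g * v)) % g := by rw [heq]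
      have e1 : i * (g * u) = g * (i * u) := by ring
      have e2 : j * (g * v) = g * (j * v) := by ring
      rw [e1, e2, Nat.add_mul_mod_self_left, Nat.add_mul_mod_self_left, Nat.mod_mod,
        Nat.mod_mod] at h4
      exact h4
    have h5 := Nat.div_add_mod u g
    have h6 := Nat.div_add_mod v g
    rw [hu] at h5
    rw [hv] at h6
    have : u = v := by omega
    rw [this]

/-- greedy packing -/
lemma PackN.greedy (D : Finset ℕ) {n w T : ℕ} (hw : ∀ d ∈ D, n / d ≤ w)
    (hT : D.card * w ^ 2 < T) : PackN D n (T + n) := by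
  classical
  induction D using Finset.induction_on with
  | empty => exact (PackN.empty n).mono subset_rfl (Nat.zero_le _)
  | insert d D hd ih =>
    rw [Finset.card_insert_of_notMem hd] at hT
    have hT' : D.card * w ^ 2 < T := by
      have : D.card * w ^ 2 ≤ (D.card + 1) * w ^ 2 := Nat.mul_le_mul_right _ (by omega)
      omega
    obtain ⟨a, h1, h2⟩ := ih (fun e he => hw e (mem_insert_of_mem he)) hT'
    -- the bad shifts
    set B : Finset ℕ := (D ×ˢ (range w ×ˢ range w)).image
      (fun z => a z.1 + z.2.1 * z.1 - z.2.2 * d) with hB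
    have hBc : B.card < T := by
      refine (Finset.card_image_le).trans_lt ?_
      rw [Finset.card_product, Finset.card_product, Finset.card_range, ← sq]
      exact hT'
    obtain ⟨t, ht, htB⟩ : ∃ t ∈ range T, t ∉ B := by
      by_contra h
      push Not at h
      have := Finset.card_le_card (show range T ⊆ B from h)
      rw [Finset.card_range] at this
      omega
    rw [mem_range] at ht
    have hnew : ∀ e ∈ D, ∀ i < n / e, ∀ j < n / d, a e + i * e ≠ t + j * d := by
      intro e he i hi j hj heq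
      apply htB
      rw [hB, mem_image]
      refine ⟨(e, i, j), ?_, ?_⟩
      · rw [mem_product, mem_product, mem_range, mem_range]
        exact ⟨he, lt_of_lt_of_le hi (hw e (mem_insert_of_mem he)),
          lt_of_lt_of_le hj (hw d (mem_insert_self _ _))⟩
      · simp only
        omega
    refine ⟨fun e => if e = d then t else a e, ?_, ?_⟩
    · intro e he i hi
      by_cases hed : e = d
      · subst hed
        simp only [if_true]
        have h3 : (i + 1) * e ≤ n := (Nat.mul_le_mul_right _ hi).trans (Nat.div_mul_le_self _ _)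
        rw [add_mul, one_mul] at h3
        rcases Nat.eq_zero_or_pos e with h0 | h0
        · subst h0; simp at hi
        · omega
      · simp only [hed, if_false]
        exact h1 e ((mem_insert.1 he).resolve_left hed) i hi
    · intro e he e' he' hne i hi j hj
      by_cases hed : e = d
      · subst hed
        have hed' : e' ≠ e := fun h => hne h.symm
        simp only [if_true, hed', if_false]
        exact (hnew e' ((mem_insert.1 he').resolve_left hed') j hj i hi).symm
      · by_cases hed' : e' = d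
        · subst hed'
          simp only [if_true, hed, if_false]
          exact hnew e ((mem_insert.1 he).resolve_left hed) i hi j hj
        · simp only [hed, hed', if_false]
          exact h2 e ((mem_insert.1 he).resolve_left hed) e'
            ((mem_insert.1 he').resolve_left hed') hne i hi j hj

/-- the main groups -/
lemma PackN.main {n R E C : ℕ} (hE : 0 < E) (hn : n ≤ 2 * R ^ 2)
    (hb1 : E ^ ((2 * E + 2) + 1) * ((2 * E + 2) * D1 E C) ≤ R) (hb2 : E * D1 E C ≤ R)
    (hb3 : 16 * E * E1 E C ≤ R) (hb4 : 4 * E * (C + 1) ≤ R)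
    (P : Finset ℕ) (hPp : ∀ p ∈ P, p.Prime) (hPR : ∀ p ∈ P, p ≤ R)
    (hPE : ∀ p ∈ P, R < E * p) (D : Finset ℕ)
    (hD : ∀ d ∈ D, ∃ p ∈ P, ∃ c ∈ Icc 1 C, d = c * p) :
    PackN D n (∑ p ∈ P, stp n R E p + (4 * E * K1 E C + 2) * n) := by
  classical
  obtain ⟨f, hf1, hf2, hf3⟩ := upper_grp hE hn hb1 hb2 hb3 hb4 P hPp hPR hPE
  have hD' : ∀ d, ∃ z : ℕ × ℕ, d ∈ D → (z.1 ∈ P ∧ z.2 ∈ Icc 1 C ∧ d = z.2 * z.1) := by
    intro d
    by_cases hd : d ∈ D
    · obtain ⟨p, hp, c, hc, h⟩ := hD d hd
      exact ⟨(p, c), fun _ => ⟨hp, hc, h⟩⟩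
    · exact ⟨(0, 0), fun h => absurd h hd⟩
  choose z hz using hD'
  have key : ∀ d ∈ D, ∀ i, (f (z d).1).2.1 + (z d).2 * (f (z d).1).2.2 + i * d =
      el (f (z d).1) (z d).2 i := by
    intro d hd i
    obtain ⟨h1, h2, h3⟩ := hz d hd
    unfold el
    rw [hf1 _ h1]
    have h4 : i * d = i * ((z d).2 * (z d).1) := by rw [← h3]
    rw [h4]
    ring
  refine ⟨fun d => (f (z d).1).2.1 + (z d).2 * (f (z d).1).2.2, ?_, ?_⟩
  · intro d hd i hi
    obtain ⟨h1, h2, h3⟩ := hz d hd
    simp only
    rw [key d hd]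
    apply hf2 _ h1 _ h2
    rw [← h3]
    exact hi
  · intro d hd e he hne i hi j hj
    obtain ⟨h1, h2, h3⟩ := hz d hd
    obtain ⟨h4, h5, h6⟩ := hz e he
    simp only
    rw [key d hd, key e he]
    apply hf3 _ h1 _ h4 _ h2 _ h5
    · intro h
      apply hne
      rw [h3, h6]
      rw [Prod.mk.injEq] at h
      rw [h.1, h.2]
    · rw [← h3]; exact hi
    · rw [← h6]; exact hj

/-- numbers with only small prime factors have a divisor of prescribed size -/
lemma exists_div {y T d : ℕ} (hT : 0 < T) (hd : T < d) (hy : ∀ p, p.Prime → p ∣ d → p ≤ y) :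
    ∃ g, g ∣ d ∧ T < g ∧ g ≤ T * y := by
  classical
  -- the smallest divisor above `T`
  have hex : ∃ g, g ∣ d ∧ T < g := ⟨d, dvd_rfl, hd⟩
  set g := Nat.find hex with hg
  obtain ⟨h1, h2⟩ := Nat.find_spec hex
  rw [← hg] at h1 h2
  refine ⟨g, h1, h2, ?_⟩
  obtain ⟨p, hp, hpg⟩ := Nat.exists_prime_and_dvd (show g ≠ 1 by omega)
  obtain ⟨e, he⟩ := hpg
  have h3 : ¬ (e ∣ d ∧ T < e) := by
    apply Nat.find_min hex
    rw [← hg, he]
    have : 0 < e := by
      rcases Nat.eq_zero_or_pos e with h0 | h0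
      · subst h0; omega
      · exact h0
    nlinarith [hp.two_le]
  have h4 : e ∣ d := (Dvd.intro_left p he.symm).trans h1
  have h5 : e ≤ T := by
    by_contra h
    push Not at h
    exact h3 ⟨h4, h⟩
  have h6 : p ≤ y := hy p hp ((Dvd.intro e he.symm).trans h1)
  rw [he, mul_comm]
  exact Nat.mul_le_mul h5 h6

/-- differences with only small prime factors -/
lemma PackN.smooth {n r x H1 : ℕ} (hx : 2 ^ 16 ≤ x) (hr : r < 2 ^ 16 * x ^ 16) (hx2 : x ^ 15 ≤ n)
    (hrn : r ≤ n)
    (D : Finset ℕ) (hD0 : ∀ d ∈ D, 0 < d) (hD1 : ∀ d ∈ D, d ≤ r * x)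
    (hD2 : ∀ d ∈ D, ∀ p, p.Prime → p ∣ d → H1 * p ≤ r) (hH1 : 0 < H1) :
    PackN D n ((Nat.primeCounting (r / H1) + x ^ 9 * (2 ^ 16 * x ^ 5 + 1) + x ^ 15) * (2 * n)) := by
  classical
  set K : Finset (ℕ × ℕ) := ((primesLE (r / H1)).image (fun p => (p, 0)) ∪
    (Icc 1 (x ^ 9)) ×ˢ (range (2 ^ 16 * x ^ 5 + 1))) ∪ (Icc 1 (x ^ 15)).image (fun g => (g, 0))
    with hK
  have hKc : K.card ≤ Nat.primeCounting (r / H1) + x ^ 9 * (2 ^ 16 * x ^ 5 + 1) + x ^ 15 := by
    rw [hK]
    refine (Finset.card_union_le _ _).trans (Nat.add_le_add ((Finset.card_union_le _ _).trans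
      (Nat.add_le_add ?_ ?_)) ?_)
    · refine Finset.card_image_le.trans ?_
      rw [card_primesLE]
    · rw [Finset.card_product, Nat.card_Icc, Finset.card_range, Nat.add_sub_cancel]
    · refine Finset.card_image_le.trans ?_
      rw [Nat.card_Icc, Nat.add_sub_cancel]
  have hx0 : 0 < x := by omega
  have hK1 : ∀ z ∈ K, 0 < z.1 ∧ z.1 ≤ n := by
    intro z hz
    have h15 : x ^ 9 ≤ x ^ 15 := Nat.pow_le_pow_right hx0 (by omega)
    rw [hK, mem_union, mem_union] at hz
    rcases hz with (hz | hz) | hz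
    · obtain ⟨p, hp, rfl⟩ := mem_image.1 hz
      unfold primesLE at hp
      rw [mem_filter, mem_Icc] at hp
      exact ⟨hp.1.1, hp.1.2.trans ((Nat.div_le_self _ _).trans hrn)⟩
    · rw [mem_product, mem_Icc] at hz
      exact ⟨hz.1.1, hz.1.2.trans (h15.trans hx2)⟩
    · obtain ⟨g, hg, rfl⟩ := mem_image.1 hz
      rw [mem_Icc] at hg
      exact ⟨hg.1, hg.2.trans hx2⟩
  have hmem : ∀ d ∈ D, ∃ z ∈ K, z.1 ∣ d ∧ d / z.1 / z.1 = z.2 := by
    intro d hd
    have hdx : d < 2 ^ 16 * x ^ 17 := by
      calc d ≤ r * x := hD1 d hd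
        _ < (2 ^ 16 * x ^ 16) * x := Nat.mul_lt_mul_of_pos_right hr hx0
        _ = 2 ^ 16 * x ^ 17 := by ring
    have hd0 := hD0 d hd
    by_cases h1 : ∃ p, p.Prime ∧ p ∣ d ∧ x ^ 9 < p
    · obtain ⟨p, hp, hpd, hpx⟩ := h1
      refine ⟨(p, 0), ?_, hpd, ?_⟩
      · rw [hK, mem_union, mem_union]
        left; left
        rw [mem_image]
        refine ⟨p, ?_, rfl⟩
        unfold primesLE
        rw [mem_filter, mem_Icc, Nat.le_div_iff_mul_le hH1, mul_comm]
        exact ⟨⟨hp.pos, hD2 d hd p hp hpd⟩, hp⟩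
      · simp only
        rw [Nat.div_div_eq_div_mul, Nat.div_eq_zero_iff]
        right
        calc d < 2 ^ 16 * x ^ 17 := hdx
          _ ≤ x * x ^ 17 := Nat.mul_le_mul_right _ hx
          _ = x ^ 9 * x ^ 9 := by ring
          _ ≤ p * p := Nat.mul_le_mul hpx.le hpx.le
    · push Not at h1
      by_cases h2 : d = 1 ∨ ∃ p, p.Prime ∧ p ∣ d ∧ x ^ 6 < p
      · rcases h2 with rfl | ⟨p, hp, hpd, hpx⟩
        · refine ⟨(1, 1), ?_, one_dvd _, by simp⟩
          rw [hK, mem_union, mem_union]
          left; right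
          rw [mem_product, mem_Icc, mem_range]
          have : 0 < x ^ 9 := by positivity
          have : 0 < x ^ 5 := by positivity
          refine ⟨⟨le_rfl, by omega⟩, by omega⟩
        · refine ⟨(p, d / p / p), ?_, hpd, rfl⟩
          rw [hK, mem_union, mem_union]
          left; right
          rw [mem_product, mem_Icc, mem_range]
          refine ⟨⟨hp.pos, h1 p hp hpd⟩, ?_⟩
          simp only
          rw [Nat.lt_succ_iff, Nat.div_div_eq_div_mul]
          apply Nat.le_of_lt_succ
          rw [Nat.div_lt_iff_lt_mul (Nat.mul_pos hp.pos hp.pos)]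
          calc d < 2 ^ 16 * x ^ 17 := hdx
            _ = (2 ^ 16 * x ^ 5) * (x ^ 6 * x ^ 6) := by ring
            _ ≤ (2 ^ 16 * x ^ 5 + 1) * (p * p) :=
              Nat.mul_le_mul (by omega) (Nat.mul_le_mul hpx.le hpx.le)
      · push Not at h2
        obtain ⟨h2, h3⟩ := h2
        by_cases h4 : d ≤ x ^ 9
        · refine ⟨(d, 0), ?_, dvd_rfl, ?_⟩
          · rw [hK, mem_union]
            right
            rw [mem_image]
            refine ⟨d, ?_, rfl⟩
            rw [mem_Icc]
            exact ⟨hd0, h4.trans (Nat.pow_le_pow_right hx0 (by omega))⟩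
          · simp only
            rw [Nat.div_self hd0]
            exact Nat.div_eq_of_lt (by omega)
        · push Not at h4
          obtain ⟨g, hg1, hg2, hg3⟩ := exists_div (show 0 < x ^ 9 by positivity) h4 h3
          refine ⟨(g, 0), ?_, hg1, ?_⟩
          · rw [hK, mem_union]
            right
            rw [mem_image]
            refine ⟨g, ?_, rfl⟩
            rw [mem_Icc]
            refine ⟨by omega, hg3.trans (le_of_eq (by ring))⟩
          · simp only
            rw [Nat.div_div_eq_div_mul, Nat.div_eq_zero_iff]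
            right
            calc d < 2 ^ 16 * x ^ 17 := hdx
              _ ≤ x * x ^ 17 := Nat.mul_le_mul_right _ hx
              _ = x ^ 9 * x ^ 9 := by ring
              _ ≤ g * g := Nat.mul_le_mul hg2.le hg2.le
  have hpack := PackN.biUnion K (fun z => D.filter (fun d => z.1 ∣ d ∧ d / z.1 / z.1 = z.2))
    (fun z => n + z.1) (n := n) (fun z hz => PackN.group (k := z.2) (hK1 z hz).1
      (fun d hd => (mem_filter.1 hd).2))
  refine hpack.mono ?_ ?_
  · intro d hd
    obtain ⟨z, hz, h1⟩ := hmem d hd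
    rw [mem_biUnion]
    exact ⟨z, hz, mem_filter.2 ⟨hd, h1⟩⟩
  · calc ∑ z ∈ K, (n + z.1) ≤ ∑ _z ∈ K, (2 * n) := by
          apply Finset.sum_le_sum
          intro z hz
          have := (hK1 z hz).2
          omega
      _ = K.card * (2 * n) := by rw [Finset.sum_const, smul_eq_mul]
      _ ≤ _ := Nat.mul_le_mul_right _ hKc

/-- number of `d ≤ X` with a large prime factor -/
lemma card_large {X H1 r M : ℕ} (D : Finset ℕ) (hD0 : ∀ d ∈ D, 0 < d) (hD1 : ∀ d ∈ D, d ≤ X)
    (hD2 : ∀ d ∈ D, ∃ p, p.Prime ∧ p ∣ d ∧ r < H1 * p) (hM : X * H1 ≤ M * r) :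
    D.card ≤ ∑ c ∈ Icc 1 M, Nat.primeCounting (X / c) := by
  classical
  have hsub : D ⊆ (Icc 1 M).biUnion (fun c => (primesLE (X / c)).image (fun p => c * p)) := by
    intro d hd
    obtain ⟨p, hp, ⟨c, hc⟩, hpr⟩ := hD2 d hd
    have hd0 := hD0 d hd
    have hc0 : 0 < c := by
      rcases Nat.eq_zero_or_pos c with h | h
      · subst h; omega
      · exact h
    rw [mem_biUnion]
    refine ⟨c, ?_, ?_⟩
    · rw [mem_Icc]
      refine ⟨hc0, ?_⟩
      by_contra h
      push Not at h
      have h1 := hD1 d hd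
      have h2 : c * r < X * H1 := by
        calc c * r < c * (H1 * p) := Nat.mul_lt_mul_of_pos_left hpr hc0
          _ = p * c * H1 := by ring
          _ ≤ X * H1 := Nat.mul_le_mul_right _ (by omega)
      have h3 : M * r ≤ c * r := Nat.mul_le_mul_right _ h.le
      omega
    · rw [mem_image]
      refine ⟨p, ?_, by rw [hc, mul_comm]⟩
      unfold primesLE
      rw [mem_filter, mem_Icc, Nat.le_div_iff_mul_le hc0]
      exact ⟨⟨hp.pos, by rw [← hc]; exact hD1 d hd⟩, hp⟩
  refine (Finset.card_le_card hsub).trans (Finset.card_biUnion_le.trans ?_)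
  apply Finset.sum_le_sum
  intro c _
  refine Finset.card_image_le.trans ?_
  rw [card_primesLE]

end Pool.Agent.V11185.PGrp
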