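import Pool.Agent.V11185.PGrpC

/-!
Packing the progressions of all multiples up to `n`: the total length.
-/

set_option autoImplicit false

namespace Pool.Agent.V11185.PGrp

open Finset Pool.Agent.V11185.PPack

/-- bound for the number of differences of scale `j` -/
def cnt (r H0 H1 J j : ℕ) : ℕ :=
  if j < J then ∑ c ∈ Icc 1 (4 ^ (j + 1) * (H0 * H1)), Nat.primeCounting (4 ^ (j + 1) * (H0 * r) / c)
  else 4 ^ (j + 1) * (H0 * r)

/-- length used for scale `j` -/
def Tj (n r H0 H1 J j : ℕ) : ℕ := cnt r H0 H1 J j * (n / (4 ^ j * (H0 * r))) ^ 2 + 1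

lemma scale {a d k : ℕ} (h0 : a < d) (hk : d < 4 ^ k * a) :
    ∃ j < k, 4 ^ j * a < d ∧ d ≤ 4 ^ (j + 1) * a := by
  induction k with
  | zero => simp at hk; omega
  | succ k ih =>
    by_cases h : d < 4 ^ k * a
    · obtain ⟨j, h1, h2⟩ := ih h
      exact ⟨j, by omega, h2⟩
    · push Not at h
      rcases h.lt_or_eq with h1 | h1
      · exact ⟨k, by omega, h1, hk.le⟩
      · rcases k with _ | k
        · simp at h1; omega
        · refine ⟨k, by omega, ?_, h1.symm.le⟩
          rw [← h1]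
          have ha : 0 < a := by
            rcases Nat.eq_zero_or_pos a with h0' | h0'
            · subst h0'; simp at h1; omega
            · exact h0'
          apply Nat.mul_lt_mul_of_pos_right _ ha
          exact Nat.pow_lt_pow_right (by norm_num) (by omega)

/-- the total length -/
theorem total {n r x J Jm H0 H1 E : ℕ} (hr : 0 < r) (hH0 : 0 < H0) (hH1 : 0 < H1)
    (hEH : H0 * H1 ≤ E) (hn : n ≤ 2 * (H0 * r) ^ 2)
    (hb1 : E ^ ((2 * E + 2) + 1) * ((2 * E + 2) * D1 E (H0 * H1)) ≤ H0 * r)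
    (hb2 : E * D1 E (H0 * H1) ≤ H0 * r)
    (hb3 : 16 * E * E1 E (H0 * H1) ≤ H0 * r) (hb4 : 4 * E * (H0 * H1 + 1) ≤ H0 * r)
    (hx : 2 ^ 16 ≤ x) (hrx : r < 2 ^ 16 * x ^ 16) (hx2 : x ^ 15 ≤ n) (hrn : r ≤ n)
    (hJx : 4 ^ J * H0 ≤ x) (hJm : n < 4 ^ Jm * (H0 * r)) :
    PackN (Icc 1 n) n ((∑ p ∈ (primesLE (H0 * r)).filter (fun p => r < H1 * p),
        stp n (H0 * r) E p + (4 * E * K1 E (H0 * H1) + 2) * n) +
      (Nat.primeCounting (r / H1) + x ^ 9 * (2 ^ 16 * x ^ 5 + 1) + x ^ 15) * (2 * n) +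
      ∑ j ∈ range Jm, (Tj n r H0 H1 J j + n)) := by
  classical
  have hE : 0 < E := (Nat.mul_pos hH0 hH1).trans_le hEH
  set PP := (primesLE (H0 * r)).filter (fun p => r < H1 * p) with hPP
  have S1 := PackN.main (n := n) (R := H0 * r) (E := E) (C := H0 * H1) hE hn hb1 hb2 hb3 hb4 PP
    (fun p hp => (mem_filter.1 (mem_filter.1 hp).1).2)
    (fun p hp => (mem_Icc.1 (mem_filter.1 (mem_filter.1 hp).1).1).2)
    (by
      intro p hp
      have h1 := (mem_filter.1 hp).2
      calc H0 * r < H0 * (H1 * p) := Nat.mul_lt_mul_of_pos_left h1 hH0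
        _ = H0 * H1 * p := by ring
        _ ≤ E * p := Nat.mul_le_mul_right _ hEH)
    ((Icc 1 n).filter (fun d => d ≤ H0 * r ∧ ∃ p, p.Prime ∧ p ∣ d ∧ r < H1 * p))
    (by
      intro d hd
      rw [mem_filter, mem_Icc] at hd
      obtain ⟨⟨hd1, hdn⟩, hd2, p, hp, ⟨c, hc⟩, hpr⟩ := hd
      have hc0 : 0 < c := by
        rcases Nat.eq_zero_or_pos c with h | h
        · subst h; omega
        · exact h
      refine ⟨p, ?_, c, ?_, by rw [hc, mul_comm]⟩
      · rw [hPP, mem_filter]
        unfold primesLE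
        rw [mem_filter, mem_Icc]
        refine ⟨⟨⟨hp.pos, ?_⟩, hp⟩, hpr⟩
        calc p = p * 1 := (mul_one p).symm
          _ ≤ p * c := Nat.mul_le_mul_left _ hc0
          _ = d := hc.symm
          _ ≤ H0 * r := hd2
      · rw [mem_Icc]
        refine ⟨hc0, ?_⟩
        by_contra h
        push Not at h
        have h1 : H0 * H1 * r ≤ c * r := Nat.mul_le_mul_right _ h.le
        have h2 : c * r < c * (H1 * p) := Nat.mul_lt_mul_of_pos_left hpr hc0
        have h3 : c * (H1 * p) = H1 * (p * c) := by ring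
        have h4 : H1 * (p * c) ≤ H1 * (H0 * r) := Nat.mul_le_mul_left _ (by rw [← hc]; exact hd2)
        have h5 : H1 * (H0 * r) = H0 * H1 * r := by ring
        omega)
  have S2 := PackN.smooth (n := n) (r := r) (x := x) (H1 := H1) hx hrx hx2 hrn
    ((Icc 1 n).filter (fun d => d ≤ r * x ∧ ∀ p, p.Prime → p ∣ d → H1 * p ≤ r))
    (fun d hd => (mem_Icc.1 (mem_filter.1 hd).1).1)
    (fun d hd => (mem_filter.1 hd).2.1)
    (fun d hd => (mem_filter.1 hd).2.2) hH1
  have S3 := PackN.biUnion (n := n) (range Jm)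
    (fun j => (Icc 1 n).filter (fun d => (4 ^ j * (H0 * r) < d ∧ d ≤ 4 ^ (j + 1) * (H0 * r)) ∧
      (j < J → ∃ p, p.Prime ∧ p ∣ d ∧ r < H1 * p)))
    (fun j => Tj n r H0 H1 J j + n)
    (by
      intro j _
      apply PackN.greedy (w := n / (4 ^ j * (H0 * r)))
      · intro d hd
        rw [mem_filter] at hd
        exact Nat.div_le_div_left hd.2.1.1.le (by positivity)
      · unfold Tj
        rw [Nat.lt_succ_iff]
        apply Nat.mul_le_mul_right
        unfold cnt
        split_ifs with hj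
        · apply card_large (H1 := H1) (r := r)
          · intro d hd
            exact (mem_Icc.1 (mem_filter.1 hd).1).1
          · intro d hd
            exact (mem_filter.1 hd).2.1.2
          · intro d hd
            exact (mem_filter.1 hd).2.2 hj
          · exact le_of_eq (by ring)
        · calc _ ≤ (Icc 1 (4 ^ (j + 1) * (H0 * r))).card := by
                apply Finset.card_le_card
                intro d hd
                rw [mem_filter, mem_Icc] at hd
                rw [mem_Icc]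
                exact ⟨hd.1.1, hd.2.1.2⟩
            _ = _ := by rw [Nat.card_Icc, Nat.add_sub_cancel])
  refine ((S1.union S2).union S3).mono ?_ le_rfl
  intro d hd
  have hd' := mem_Icc.1 hd
  have hH0x : H0 ≤ x := by
    have : 1 * H0 ≤ 4 ^ J * H0 := Nat.mul_le_mul_right _ (Nat.one_le_pow _ _ (by norm_num))
    omega
  by_cases hbig : ∃ p, p.Prime ∧ p ∣ d ∧ r < H1 * p
  · by_cases h1 : d ≤ H0 * r
    · rw [mem_union, mem_union]
      left; left
      rw [mem_filter]
      exact ⟨hd, h1, hbig⟩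
    · push Not at h1
      obtain ⟨j, hj, hj1, hj2⟩ := scale h1 (hd'.2.trans_lt hJm)
      rw [mem_union]
      right
      rw [mem_biUnion]
      exact ⟨j, mem_range.2 hj, mem_filter.2 ⟨hd, ⟨hj1, hj2⟩, fun _ => hbig⟩⟩
  · have hsm : ∀ p, p.Prime → p ∣ d → H1 * p ≤ r := by
      intro p hp hpd
      by_contra h
      push Not at h
      exact hbig ⟨p, hp, hpd, h⟩
    by_cases h1 : d ≤ r * x
    · rw [mem_union, mem_union]
      left; right
      rw [mem_filter]
      exact ⟨hd, h1, hsm⟩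
    · push Not at h1
      have h2 : H0 * r < d := by
        have : H0 * r ≤ x * r := Nat.mul_le_mul_right _ hH0x
        have : x * r = r * x := mul_comm _ _
        omega
      obtain ⟨j, hj, hj1, hj2⟩ := scale h2 (hd'.2.trans_lt hJm)
      rw [mem_union]
      right
      rw [mem_biUnion]
      refine ⟨j, mem_range.2 hj, mem_filter.2 ⟨hd, ⟨hj1, hj2⟩, fun hjJ => ?_⟩⟩
      exfalso
      have h3 : 4 ^ (j + 1) * (H0 * r) ≤ 4 ^ J * (H0 * r) :=
        Nat.mul_le_mul_right _ (Nat.pow_le_pow_right (by norm_num) hjJ)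
      have h4 : 4 ^ J * (H0 * r) = (4 ^ J * H0) * r := by ring
      have h5 : (4 ^ J * H0) * r ≤ x * r := Nat.mul_le_mul_right _ hJx
      have : x * r = r * x := mul_comm _ _
      omega

/-- from positions to packings -/
lemma packs_of_PackN {n L : ℕ} (h : PackN (Icc 1 n) n L) :
    Packs (Icc 1 n) (fun d => mult d (n / d)) L := by
  obtain ⟨a, h1, h2⟩ := h
  refine ⟨fun d => a d + 1 - d, ?_, ?_⟩
  · intro d hd x hx
    unfold mult at hx
    rw [mem_image] at hx
    obtain ⟨i, hi, rfl⟩ := hx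
    rw [mem_Icc] at hi
    obtain ⟨i, rfl⟩ := Nat.exists_eq_add_of_le hi.1
    have h3 := h1 d hd i (by omega)
    have h4 : (((1 + i) * d : ℕ) : ℤ) = d + ((i * d : ℕ) : ℤ) := by push_cast; ring
    rw [h4]
    constructor
    · have : (0 : ℤ) ≤ ((i * d : ℕ) : ℤ) := Int.natCast_nonneg _
      have : (0 : ℤ) ≤ a d := Int.natCast_nonneg _
      linarith
    · have : ((a d + i * d : ℕ) : ℤ) < (L : ℤ) := by exact_mod_cast h3
      push_cast at this ⊢
      linarith
  · intro d hd e he hde x hx y hy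
    unfold mult at hx hy
    rw [mem_image] at hx hy
    obtain ⟨i, hi, rfl⟩ := hx
    obtain ⟨j, hj, rfl⟩ := hy
    rw [mem_Icc] at hi hj
    obtain ⟨i, rfl⟩ := Nat.exists_eq_add_of_le hi.1
    obtain ⟨j, rfl⟩ := Nat.exists_eq_add_of_le hj.1
    intro heq
    refine h2 d hd e he hde i (by omega) j (by omega) ?_
    push_cast at heq
    have : ((a d + i * d : ℕ) : ℤ) = ((a e + j * e : ℕ) : ℤ) := by
      push_cast
      linarith
    exact_mod_cast this

end Pool.Agent.V11185.PGrp
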