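import Pool.Agent.V11185.PGrpD
import Pool.Agent.V11185.PPackF

/-!
Packing the progressions of all multiples up to `n`: estimates.
-/

set_option autoImplicit false

namespace Pool.Agent.V11185.PGrp

open Finset Filter Topology Pool.Agent.V11185.PPack

def xr (r : ℕ) : ℕ := 2 ^ (Nat.log 2 r / 16)
def Jr (r : ℕ) : ℕ := 2 * (Nat.log 2 (Nat.log 2 r) + 1)
def Jmr (r : ℕ) : ℕ := 2 * Nat.log 2 r + 2

lemma xr_pow {r : ℕ} (hr : r ≠ 0) : xr r ^ 16 ≤ r := by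
  unfold xr
  rw [← pow_mul]
  calc 2 ^ (Nat.log 2 r / 16 * 16) ≤ 2 ^ (Nat.log 2 r) :=
        Nat.pow_le_pow_right (by norm_num) (Nat.div_mul_le_self _ _)
    _ ≤ r := Nat.pow_log_le_self 2 hr

lemma lt_xr (r : ℕ) : r < 2 ^ 16 * xr r ^ 16 := by
  unfold xr
  rw [← pow_mul, ← pow_add]
  calc r < 2 ^ (Nat.log 2 r + 1) := Nat.lt_pow_succ_log_self (by norm_num) r
    _ ≤ _ := Nat.pow_le_pow_right (by norm_num) (by omega)

lemma log_lt_natlog (r : ℕ) (hr : 1 ≤ r) : Real.log r ≤ (Nat.log 2 r : ℝ) + 1 := by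
  have h1 : (r : ℝ) ≤ (2 : ℝ) ^ (Nat.log 2 r + 1) := by
    exact_mod_cast (Nat.lt_pow_succ_log_self (by norm_num) r).le
  have hr' : (0 : ℝ) < r := by exact_mod_cast hr
  have h2 := Real.log_le_log hr' h1
  rw [Real.log_pow] at h2
  have h3 : Real.log 2 ≤ 1 := by
    have := Real.log_two_lt_d9; linarith
  have h4 : ((Nat.log 2 r + 1 : ℕ) : ℝ) * Real.log 2 ≤ ((Nat.log 2 r + 1 : ℕ) : ℝ) * 1 :=
    mul_le_mul_of_nonneg_left h3 (Nat.cast_nonneg _)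
  push_cast at h2 h4
  linarith

lemma natlog_le (r : ℕ) (hr : 1 ≤ r) : (Nat.log 2 r : ℝ) ≤ 2 * Real.log r := by
  have h1 : (2 : ℝ) ^ (Nat.log 2 r) ≤ r := by
    exact_mod_cast Nat.pow_log_le_self 2 (by omega)
  have h2 := Real.log_le_log (by positivity) h1
  rw [Real.log_pow] at h2
  have h3 : (1 / 2 : ℝ) ≤ Real.log 2 := by
    have := Real.log_two_gt_d9; linarith
  have h4 : ((Nat.log 2 r : ℕ) : ℝ) * (1 / 2) ≤ ((Nat.log 2 r : ℕ) : ℝ) * Real.log 2 :=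
    mul_le_mul_of_nonneg_left h3 (Nat.cast_nonneg _)
  linarith

lemma log_sq_le (r : ℕ) (hr : 1 ≤ r) : (Real.log r) ^ 2 ≤ (2 : ℝ) ^ Jr r := by
  have h1 : Nat.log 2 r < 2 ^ (Nat.log 2 (Nat.log 2 r) + 1) :=
    Nat.lt_pow_succ_log_self (by norm_num) _
  have h2 : (Nat.log 2 r : ℝ) + 1 ≤ (2 : ℝ) ^ (Nat.log 2 (Nat.log 2 r) + 1) := by
    exact_mod_cast h1
  have h3 := (log_lt_natlog r hr).trans h2
  have h4 : 0 ≤ Real.log r := Real.log_nonneg (by exact_mod_cast hr)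
  unfold Jr
  rw [mul_comm, pow_mul]
  exact pow_le_pow_left₀ h4 h3 2

lemma natlog_tendsto : Tendsto (fun r : ℕ => Nat.log 2 r) atTop atTop := by
  rw [tendsto_atTop]
  intro b
  filter_upwards [eventually_ge_atTop (2 ^ b)] with r hr
  exact Nat.le_log_of_pow_le (by norm_num) hr

lemma ev_x (H0 : ℕ) : ∀ᶠ r : ℕ in atTop, 4 ^ Jr r * H0 ≤ xr r := by
  -- in terms of `m = log r / 16`
  have h1 : Tendsto (fun m : ℕ => (m : ℝ) ^ 4 / (2 : ℝ) ^ m) atTop (𝓝 0) :=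
    tendsto_pow_const_div_const_pow_of_one_lt 4 (by norm_num)
  have h2 : ∀ᶠ m : ℕ in atTop, 16 * (31 * m) ^ 4 * H0 ≤ 2 ^ m := by
    have h3 := h1.eventually (gt_mem_nhds (show (0 : ℝ) < 1 / (16 * 31 ^ 4 * H0 + 1) by positivity))
    filter_upwards [h3] with m hm
    have hp : (0 : ℝ) < (2 : ℝ) ^ m := by positivity
    have hc : (0 : ℝ) < 16 * 31 ^ 4 * (H0 : ℝ) + 1 := by positivity
    rw [div_lt_div_iff₀ hp hc, one_mul] at hm
    have h5 : (0 : ℝ) ≤ (m : ℝ) ^ 4 := by positivity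
    have h4 : ((16 * (31 * m) ^ 4 * H0 : ℕ) : ℝ) ≤ ((2 ^ m : ℕ) : ℝ) := by
      push_cast
      have : (16 * (31 * (m : ℝ)) ^ 4 * H0) = (m : ℝ) ^ 4 * (16 * 31 ^ 4 * H0) := by ring
      rw [this]
      linarith
    exact_mod_cast h4
  have hm : Tendsto (fun r : ℕ => Nat.log 2 r / 16) atTop atTop := by
    rw [tendsto_atTop]
    intro b
    filter_upwards [natlog_tendsto.eventually_ge_atTop (16 * b)] with r hr
    omega
  filter_upwards [hm.eventually h2, hm.eventually_ge_atTop 1] with r hr hr1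
  have hl : Nat.log 2 r ≤ 31 * (Nat.log 2 r / 16) := by omega
  have hl0 : Nat.log 2 r ≠ 0 := by omega
  have h3 : 2 ^ (Nat.log 2 (Nat.log 2 r) + 1) ≤ 2 * Nat.log 2 r := by
    rw [pow_succ, mul_comm]
    exact Nat.mul_le_mul_left _ (Nat.pow_log_le_self 2 hl0)
  have h4 : 4 ^ Jr r = (2 ^ (Nat.log 2 (Nat.log 2 r) + 1)) ^ 4 := by
    unfold Jr
    rw [show (4 : ℕ) = 2 ^ 2 by norm_num, ← pow_mul, ← pow_mul]
    congr 1
    ring
  rw [h4]
  calc (2 ^ (Nat.log 2 (Nat.log 2 r) + 1)) ^ 4 * H0 ≤ (2 * Nat.log 2 r) ^ 4 * H0 :=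
        Nat.mul_le_mul_right _ (Nat.pow_le_pow_left h3 4)
    _ ≤ (2 * (31 * (Nat.log 2 r / 16))) ^ 4 * H0 :=
        Nat.mul_le_mul_right _ (Nat.pow_le_pow_left (Nat.mul_le_mul_left _ hl) 4)
    _ = 16 * (31 * (Nat.log 2 r / 16)) ^ 4 * H0 := by ring
    _ ≤ 2 ^ (Nat.log 2 r / 16) := hr
    _ = xr r := rfl

/-- crude Chebyshev bound -/
lemma ev_pi (H1 : ℕ) (hH1 : 0 < H1) : ∀ᶠ r : ℕ in atTop, ∀ m : ℕ, r / H1 ≤ m →
    (Nat.primeCounting m : ℝ) * Real.log r ≤ 4 * m := by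
  have h1 := pi_tendsto'.eventually (gt_mem_nhds (show (1 : ℝ) < 2 by norm_num))
  obtain ⟨N0, hN0⟩ := h1.exists_forall_of_atTop
  have ht : Tendsto (fun r : ℕ => r / H1) atTop atTop := by
    rw [tendsto_atTop]
    intro b
    filter_upwards [eventually_ge_atTop (H1 * b)] with r hr
    rw [Nat.le_div_iff_mul_le hH1, mul_comm]
    exact hr
  filter_upwards [ht.eventually_ge_atTop N0, ht.eventually_ge_atTop (2 * H1),
    ht.eventually_ge_atTop 2] with r h2 h3 h4 m hm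
  have h5 := hN0 m (h2.trans hm)
  have hm0 : (0 : ℝ) < m := by
    have : 0 < m := by omega
    exact_mod_cast this
  rw [div_lt_iff₀ hm0] at h5
  have h6 : r ≤ (r / H1) ^ 2 := by
    have h7 : r < H1 * (r / H1 + 1) := by
      have := Nat.lt_mul_div_succ r hH1
      simpa using this
    have h8 : H1 * (r / H1 + 1) ≤ 2 * H1 * (r / H1) := by nlinarith
    nlinarith
  have hr0 : (0 : ℝ) < r := by
    have : 0 < r := by
      rcases Nat.eq_zero_or_pos r with h | h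
      · subst h; simp at h4
      · exact h
    exact_mod_cast this
  have h7 : Real.log r ≤ 2 * Real.log m := by
    have h8 : (r : ℝ) ≤ (m : ℝ) ^ 2 := by
      have : r ≤ m ^ 2 := h6.trans (Nat.pow_le_pow_left hm 2)
      exact_mod_cast this
    have := Real.log_le_log hr0 h8
    rw [Real.log_pow] at this
    exact_mod_cast this
  have h8 : (0 : ℝ) ≤ Nat.primeCounting m := Nat.cast_nonneg _
  nlinarith

lemma harm (q : ℕ) (hq : 0 < q) : ∑ c ∈ Icc 1 (q * q), (1 : ℝ) / c ≤ 2 * q := by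
  have hq' : (0 : ℝ) < q := by exact_mod_cast hq
  have h1 : ∀ c ∈ Icc 1 (q * q), (1 : ℝ) / c ≤ (if c ≤ q then 1 else 0) + 1 / q := by
    intro c hc
    rw [mem_Icc] at hc
    have hc' : (1 : ℝ) ≤ c := by exact_mod_cast hc.1
    split_ifs with h
    · have h2 : (1 : ℝ) / c ≤ 1 := by
        rw [div_le_one (by linarith)]; exact hc'
      have : (0 : ℝ) ≤ 1 / q := by positivity
      linarith
    · push Not at h
      rw [zero_add]
      apply one_div_le_one_div_of_le hq'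
      exact_mod_cast h.le
  refine (Finset.sum_le_sum h1).trans ?_
  rw [Finset.sum_add_distrib, Finset.sum_const, Nat.card_Icc, Nat.add_sub_cancel, nsmul_eq_mul]
  have h2 : ∑ c ∈ Icc 1 (q * q), (if c ≤ q then (1 : ℝ) else 0) ≤ q := by
    rw [Finset.sum_boole]
    have h3 : ((Icc 1 (q * q)).filter (fun c => c ≤ q)).card ≤ (Icc 1 q).card := by
      apply Finset.card_le_card
      intro c hc
      rw [mem_filter, mem_Icc] at hc
      rw [mem_Icc]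
      exact ⟨hc.1.1, hc.2⟩
    rw [Nat.card_Icc, Nat.add_sub_cancel] at h3
    exact_mod_cast h3
  have h3 : ((q * q : ℕ) : ℝ) * (1 / q) = q := by
    push_cast
    field_simp
  rw [h3]
  linarith

/-- the bound for one scale -/
lemma Tj_bound {n r h J j : ℕ} (hh : 0 < h) (hr : 1 ≤ r) (hn : n ≤ 4 * r ^ 2)
    (hlog : 0 ≤ Real.log r)
    (hpi : ∀ m : ℕ, r / h ^ 2 ≤ m → (Nat.primeCounting m : ℝ) * Real.log r ≤ 4 * m) :
    (Tj n r (h ^ 6) (h ^ 2) J j : ℝ) * Real.log r ≤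
      1024 * (r : ℝ) ^ 3 / h ^ 2 * (1 / 2) ^ j +
      64 * (r : ℝ) ^ 3 * Real.log r * (1 / 2) ^ J * (1 / 2) ^ j + Real.log r := by
  have hr0 : (0 : ℝ) < r := by exact_mod_cast hr
  have hh0 : (0 : ℝ) < h := by exact_mod_cast hh
  have hw : ((n / (4 ^ j * (h ^ 6 * r)) : ℕ) : ℝ) ≤ 4 * r / (4 ^ j * (h : ℝ) ^ 6) := by
    refine (Nat.cast_div_le).trans ?_
    push_cast
    have hn' : (n : ℝ) ≤ 4 * (r : ℝ) ^ 2 := by exact_mod_cast hn
    calc (n : ℝ) / (4 ^ j * ((h : ℝ) ^ 6 * r)) ≤ 4 * (r : ℝ) ^ 2 / (4 ^ j * ((h : ℝ) ^ 6 * r)) := by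
          apply div_le_div_of_nonneg_right hn' (by positivity)
      _ = _ := by field_simp
  have hw2 : ((n / (4 ^ j * (h ^ 6 * r)) : ℕ) : ℝ) ^ 2 ≤ (4 * r / (4 ^ j * (h : ℝ) ^ 6)) ^ 2 :=
    pow_le_pow_left₀ (Nat.cast_nonneg _) hw 2
  have hT : (Tj n r (h ^ 6) (h ^ 2) J j : ℝ) * Real.log r ≤
      (cnt r (h ^ 6) (h ^ 2) J j : ℝ) * Real.log r * (4 * r / (4 ^ j * (h : ℝ) ^ 6)) ^ 2 +
        Real.log r := by
    unfold Tj
    push_cast
    have h1 : (0 : ℝ) ≤ (cnt r (h ^ 6) (h ^ 2) J j : ℝ) * Real.log r :=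
      mul_nonneg (Nat.cast_nonneg _) hlog
    have := mul_le_mul_of_nonneg_left hw2 h1
    push_cast at this
    linarith
  refine hT.trans ?_
  have e1 : (0 : ℝ) ≤ 1024 * (r : ℝ) ^ 3 / h ^ 2 * (1 / 2) ^ j := by positivity
  have e2 : (0 : ℝ) ≤ 64 * (r : ℝ) ^ 3 * Real.log r * (1 / 2) ^ J * (1 / 2) ^ j := by positivity
  have hsq : (0 : ℝ) ≤ (4 * r / (4 ^ j * (h : ℝ) ^ 6)) ^ 2 := by positivity
  by_cases hj : j < J
  · have hc : (cnt r (h ^ 6) (h ^ 2) J j : ℝ) * Real.log r ≤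
        4 * (4 ^ (j + 1) * ((h : ℝ) ^ 6 * r)) * (2 * (2 ^ (j + 1) * (h : ℝ) ^ 4)) := by
      unfold cnt
      rw [if_pos hj]
      push_cast
      rw [Finset.sum_mul]
      have hM : 4 ^ (j + 1) * (h ^ 6 * h ^ 2) = (2 ^ (j + 1) * h ^ 4) * (2 ^ (j + 1) * h ^ 4) := by
        rw [show (4 : ℕ) = 2 * 2 by norm_num, mul_pow]; ring
      have h1 : ∀ c ∈ Icc 1 (4 ^ (j + 1) * (h ^ 6 * h ^ 2)),
          (Nat.primeCounting (4 ^ (j + 1) * (h ^ 6 * r) / c) : ℝ) * Real.log r ≤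
          4 * (4 ^ (j + 1) * ((h : ℝ) ^ 6 * r)) * (1 / c) := by
        intro c hc
        rw [mem_Icc] at hc
        have h2 : r / h ^ 2 ≤ 4 ^ (j + 1) * (h ^ 6 * r) / c := by
          have h3 : 4 ^ (j + 1) * (h ^ 6 * r) / (4 ^ (j + 1) * (h ^ 6 * h ^ 2)) = r / h ^ 2 := by
            rw [← mul_assoc, ← mul_assoc, Nat.mul_div_mul_left _ _ (by positivity)]
          rw [← h3]
          exact Nat.div_le_div_left hc.2 (by omega)
        refine (hpi _ h2).trans ?_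
        have h4 : ((4 ^ (j + 1) * (h ^ 6 * r) / c : ℕ) : ℝ) ≤
            (4 ^ (j + 1) * ((h : ℝ) ^ 6 * r)) / c := by
          refine (Nat.cast_div_le).trans ?_
          push_cast
          exact le_rfl
        calc 4 * ((4 ^ (j + 1) * (h ^ 6 * r) / c : ℕ) : ℝ) ≤
            4 * ((4 ^ (j + 1) * ((h : ℝ) ^ 6 * r)) / c) := by linarith
          _ = _ := by ring
      refine (Finset.sum_le_sum h1).trans ?_
      rw [← Finset.mul_sum]
      apply mul_le_mul_of_nonneg_left _ (by positivity)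
      rw [hM]
      have := harm (2 ^ (j + 1) * h ^ 4) (by positivity)
      push_cast at this
      exact this
    have h2 := mul_le_mul_of_nonneg_right hc hsq
    have h3 : 4 * (4 ^ (j + 1) * ((h : ℝ) ^ 6 * r)) * (2 * (2 ^ (j + 1) * (h : ℝ) ^ 4)) *
        (4 * r / (4 ^ j * (h : ℝ) ^ 6)) ^ 2 = 1024 * (r : ℝ) ^ 3 / h ^ 2 * (1 / 2) ^ j := by
      have h44 : (4 : ℝ) ^ j = 2 ^ j * 2 ^ j := by rw [← mul_pow]; norm_num
      rw [pow_succ, pow_succ, h44, one_div, inv_pow]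
      field_simp
      ring
    rw [h3] at h2
    linarith
  · push Not at hj
    have hc : (cnt r (h ^ 6) (h ^ 2) J j : ℝ) = 4 ^ (j + 1) * ((h : ℝ) ^ 6 * r) := by
      unfold cnt
      rw [if_neg (by omega)]
      push_cast
      ring
    rw [hc]
    have h3 : 4 ^ (j + 1) * ((h : ℝ) ^ 6 * r) * Real.log r * (4 * r / (4 ^ j * (h : ℝ) ^ 6)) ^ 2 =
        64 * (r : ℝ) ^ 3 * Real.log r * (1 / 2) ^ j * (1 / 2) ^ j / h ^ 6 := by
      have h44 : (4 : ℝ) ^ j = 2 ^ j * 2 ^ j := by rw [← mul_pow]; norm_num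
      rw [pow_succ, h44, one_div, inv_pow]
      field_simp
      ring
    rw [h3]
    have h4 : ((1 : ℝ) / 2) ^ j ≤ (1 / 2) ^ J := pow_le_pow_of_le_one (by norm_num) (by norm_num) hj
    have h5 : 64 * (r : ℝ) ^ 3 * Real.log r * (1 / 2) ^ j * (1 / 2) ^ j / h ^ 6 ≤
        64 * (r : ℝ) ^ 3 * Real.log r * (1 / 2) ^ J * (1 / 2) ^ j := by
      have h6 : (1 : ℝ) ≤ (h : ℝ) ^ 6 := by
        apply one_le_pow₀
        exact_mod_cast hh
      calc _ ≤ 64 * (r : ℝ) ^ 3 * Real.log r * (1 / 2) ^ j * (1 / 2) ^ j :=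
            div_le_self (by positivity) h6
        _ ≤ _ := by
          apply mul_le_mul_of_nonneg_right _ (by positivity)
          apply mul_le_mul_of_nonneg_left h4 (by positivity)
    linarith

/-- the bound for all scales -/
lemma sum_Tj {n r h J Jm : ℕ} (hh : 0 < h) (hr : 1 ≤ r) (hn : n ≤ 4 * r ^ 2)
    (hlog : 0 ≤ Real.log r)
    (hpi : ∀ m : ℕ, r / h ^ 2 ≤ m → (Nat.primeCounting m : ℝ) * Real.log r ≤ 4 * m) :
    (∑ j ∈ range Jm, ((Tj n r (h ^ 6) (h ^ 2) J j + n : ℕ) : ℝ)) * Real.log r ≤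
      2048 * (r : ℝ) ^ 3 / h ^ 2 + 128 * (r : ℝ) ^ 3 * Real.log r * (1 / 2) ^ J +
        Jm * ((n + 1) * Real.log r) := by
  rw [Finset.sum_mul]
  have h1 : ∀ j ∈ range Jm, ((Tj n r (h ^ 6) (h ^ 2) J j + n : ℕ) : ℝ) * Real.log r ≤
      (1024 * (r : ℝ) ^ 3 / h ^ 2 + 64 * (r : ℝ) ^ 3 * Real.log r * (1 / 2) ^ J) * (1 / 2) ^ j +
        (n + 1) * Real.log r := by
    intro j _
    have := Tj_bound (J := J) (j := j) hh hr hn hlog hpi
    push_cast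
    linarith
  refine (Finset.sum_le_sum h1).trans ?_
  rw [Finset.sum_add_distrib, ← Finset.mul_sum, Finset.sum_const, card_range, nsmul_eq_mul]
  have h2 := sum_geometric_two_le Jm
  have h3 : (0 : ℝ) ≤ 1024 * (r : ℝ) ^ 3 / h ^ 2 + 64 * (r : ℝ) ^ 3 * Real.log r * (1 / 2) ^ J := by
    positivity
  have h4 := mul_le_mul_of_nonneg_left h2 h3
  have h5 : (1024 * (r : ℝ) ^ 3 / h ^ 2 + 64 * (r : ℝ) ^ 3 * Real.log r * (1 / 2) ^ J) * 2 =
      2048 * (r : ℝ) ^ 3 / h ^ 2 + 128 * (r : ℝ) ^ 3 * Real.log r * (1 / 2) ^ J := by ring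
  rw [h5] at h4
  linarith

end Pool.Agent.V11185.PGrp
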