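import Pool.Agent.V11185.PGrpE

/-!
Packing the progressions of all multiples up to `n`: asymptotics.
-/

set_option autoImplicit false

namespace Pool.Agent.V11185.PGrp

open Finset Filter Topology Pool.Agent.V11185.PPack

lemma inv_tendsto : Tendsto (fun n : ℕ => ((n : ℝ))⁻¹) atTop (𝓝 0) :=
  tendsto_inv_atTop_zero.comp tendsto_natCast_atTop_atTop

lemma log_tendsto : Tendsto (fun n : ℕ => Real.log n) atTop atTop :=
  Real.tendsto_log_atTop.comp tendsto_natCast_atTop_atTop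

lemma F1_tendsto : Tendsto (fun r : ℕ => ((Nat.primeCounting r : ℝ) * ((r : ℝ) ^ 2 + 2 * r) -
    ∑ p ∈ primesLE r, (p : ℝ) ^ 2) * Real.log r / (r : ℝ) ^ 3) atTop (𝓝 (2 / 3)) := by
  have h2 := psum_tendsto 2
  have hup : Tendsto (fun R : ℕ => ((Nat.primeCounting R : ℝ) * Real.log R / R) *
      ((1 : ℝ) + 2 * (R : ℝ)⁻¹) - (∑ p ∈ primesLE R, (p : ℝ) ^ 2) * Real.log R /
        (R : ℝ) ^ (2 + 1))
      atTop (𝓝 ((1 : ℝ) * ((1 : ℝ) + 2 * 0) - 1 / (((2 : ℕ) : ℝ) + 1))) :=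
    (pi_tendsto'.mul (tendsto_const_nhds.add (inv_tendsto.const_mul 2))).sub h2
  have e2 : (1 : ℝ) * ((1 : ℝ) + 2 * 0) - 1 / (((2 : ℕ) : ℝ) + 1) = 2 / 3 := by norm_num
  rw [e2] at hup
  refine hup.congr' ?_
  filter_upwards [eventually_ge_atTop 1] with r hr
  have hr0 : (r : ℝ) ≠ 0 := by positivity
  field_simp
  ring

lemma F2_tendsto {H0 E : ℕ} (hE : 0 < E) : Tendsto (fun r : ℕ =>
    (Nat.primeCounting (H0 * r) : ℝ) * (((H0 : ℝ) * r) ^ 2 / E + 1 + H0 * r) * Real.log r /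
      (r : ℝ) ^ 3) atTop (𝓝 ((H0 : ℝ) ^ 3 / E)) := by
  have hE' : (E : ℝ) ≠ 0 := by positivity
  have h1 : Tendsto (fun r : ℕ => ((Nat.primeCounting (H0 * r) : ℝ) * Real.log r / r) *
      ((H0 : ℝ) ^ 2 / E + (r : ℝ)⁻¹ * (r : ℝ)⁻¹ + H0 * (r : ℝ)⁻¹)) atTop
      (𝓝 ((H0 : ℝ) * ((H0 : ℝ) ^ 2 / E + 0 * 0 + H0 * 0))) := by
    refine Tendsto.mul ?_ ((tendsto_const_nhds.add (inv_tendsto.mul inv_tendsto)).add
      (inv_tendsto.const_mul _))
    refine (pi_mul_tendsto (H0 : ℝ) (Nat.cast_nonneg _)).congr fun r => ?_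
    have : ⌊(H0 : ℝ) * r⌋₊ = H0 * r := by
      have : (H0 : ℝ) * r = ((H0 * r : ℕ) : ℝ) := by push_cast; ring
      rw [this, Nat.floor_natCast]
    rw [this]
  have e : (H0 : ℝ) * ((H0 : ℝ) ^ 2 / E + 0 * 0 + H0 * 0) = (H0 : ℝ) ^ 3 / E := by
    field_simp
    ring
  rw [e] at h1
  refine h1.congr' ?_
  filter_upwards [eventually_ge_atTop 1] with r hr
  have hr0 : (r : ℝ) ≠ 0 := by positivity
  field_simp

lemma F3_tendsto (c : ℝ) : Tendsto (fun r : ℕ => c * ((r : ℝ) ^ 2 + 2 * r) * Real.log r /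
    (r : ℝ) ^ 3) atTop (𝓝 0) := by
  have h1 : Tendsto (fun r : ℕ => c * (((1 : ℝ) + 2 * (r : ℝ)⁻¹) * (Real.log r / r))) atTop
      (𝓝 (c * ((1 + 2 * 0) * 0))) :=
    ((tendsto_const_nhds.add (inv_tendsto.const_mul 2)).mul log_div_tendsto).const_mul c
  rw [mul_zero, mul_zero] at h1
  refine h1.congr' ?_
  filter_upwards [eventually_ge_atTop 1] with r hr
  have hr0 : (r : ℝ) ≠ 0 := by positivity
  field_simp

lemma F4_tendsto {H1 : ℕ} (hH1 : 0 < H1) : Tendsto (fun r : ℕ =>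
    (Nat.primeCounting (r / H1) : ℝ) * (2 * ((r : ℝ) ^ 2 + 2 * r)) * Real.log r /
      (r : ℝ) ^ 3) atTop (𝓝 ((2 : ℝ) / H1)) := by
  have h1 : Tendsto (fun r : ℕ => 2 * (((Nat.primeCounting (r / H1) : ℝ) * Real.log r / r) *
      ((1 : ℝ) + 2 * (r : ℝ)⁻¹))) atTop (𝓝 (2 * ((1 / (H1 : ℝ)) * (1 + 2 * 0)))) := by
    refine (Tendsto.mul ?_ (tendsto_const_nhds.add (inv_tendsto.const_mul 2))).const_mul 2
    refine (pi_mul_tendsto (1 / (H1 : ℝ)) (by positivity)).congr fun r => ?_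
    have e : ⌊(1 / (H1 : ℝ)) * r⌋₊ = r / H1 := by
      rw [one_div_mul_eq_div]
      exact Nat.floor_div_eq_div r H1
    rw [e]
  have e : 2 * ((1 / (H1 : ℝ)) * (1 + 2 * 0)) = 2 / H1 := by ring
  rw [e] at h1
  refine h1.congr' ?_
  filter_upwards [eventually_ge_atTop 1] with r hr
  have hr0 : (r : ℝ) ≠ 0 := by positivity
  field_simp

lemma logsq_tendsto : Tendsto (fun r : ℕ => (Real.log r) ^ 2 / r) atTop (𝓝 0) := by
  have h := (Real.tendsto_pow_log_div_mul_add_atTop 1 0 2 one_ne_zero).comp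
    (tendsto_natCast_atTop_atTop (R := ℝ))
  refine h.congr fun n => ?_
  simp

lemma invlog_tendsto : Tendsto (fun r : ℕ => (Real.log r)⁻¹) atTop (𝓝 0) :=
  tendsto_inv_atTop_zero.comp log_tendsto

lemma sum_stp {n r H0 H1 E : ℕ} (hH0 : 0 < H0) (h1 : r ^ 2 ≤ n) (h2 : n ≤ r ^ 2 + 2 * r) :
    ((∑ p ∈ (primesLE (H0 * r)).filter (fun p => r < H1 * p), stp n (H0 * r) E p : ℕ) : ℝ) ≤
      ((Nat.primeCounting r : ℝ) * ((r : ℝ) ^ 2 + 2 * r) - ∑ p ∈ primesLE r, (p : ℝ) ^ 2) +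
      (Nat.primeCounting (H0 * r) : ℝ) * (((H0 : ℝ) * r) ^ 2 / E + 1 + H0 * r) := by
  have hsub : primesLE r ⊆ primesLE (H0 * r) := by
    intro p hp
    unfold primesLE at hp ⊢
    rw [mem_filter, mem_Icc] at hp ⊢
    exact ⟨⟨hp.1.1, hp.1.2.trans (Nat.le_mul_of_pos_left _ hH0)⟩, hp.2⟩
  have hle : ∑ p ∈ (primesLE (H0 * r)).filter (fun p => r < H1 * p), stp n (H0 * r) E p ≤
      ∑ p ∈ primesLE (H0 * r), stp n (H0 * r) E p :=
    Finset.sum_le_sum_of_subset (Finset.filter_subset _ _)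
  have hsplit : ∑ p ∈ primesLE (H0 * r), stp n (H0 * r) E p =
      ∑ p ∈ primesLE (H0 * r), (n - p ^ 2) +
        Nat.primeCounting (H0 * r) * ((H0 * r) ^ 2 / E + 1 + H0 * r) := by
    have e : ∑ p ∈ primesLE (H0 * r), stp n (H0 * r) E p =
        ∑ p ∈ primesLE (H0 * r), ((n - p ^ 2) + ((H0 * r) ^ 2 / E + 1 + H0 * r)) := by
      apply Finset.sum_congr rfl
      intro p _
      unfold stp
      omega
    rw [e, Finset.sum_add_distrib, Finset.sum_const, card_primesLE, smul_eq_mul]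
  have hz : ∑ p ∈ primesLE (H0 * r), (n - p ^ 2) = ∑ p ∈ primesLE r, (n - p ^ 2) := by
    symm
    apply Finset.sum_subset hsub
    intro p hp hp'
    have h3 : r < p := by
      by_contra h
      push Not at h
      apply hp'
      unfold primesLE at hp ⊢
      rw [mem_filter, mem_Icc] at hp ⊢
      exact ⟨⟨hp.1.1, h⟩, hp.2⟩
    have h4 : (r + 1) ^ 2 ≤ p ^ 2 := Nat.pow_le_pow_left h3 2
    have h5 : (r + 1) ^ 2 = r ^ 2 + 2 * r + 1 := by ring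
    omega
  have hA : ((∑ p ∈ primesLE r, (n - p ^ 2) : ℕ) : ℝ) ≤
      (Nat.primeCounting r : ℝ) * ((r : ℝ) ^ 2 + 2 * r) - ∑ p ∈ primesLE r, (p : ℝ) ^ 2 := by
    rw [← card_primesLE, ← nsmul_eq_mul, ← Finset.sum_const, ← Finset.sum_sub_distrib]
    push_cast
    apply Finset.sum_le_sum
    intro p hp
    have h3 : p ^ 2 ≤ r ^ 2 := Nat.pow_le_pow_left (primesLE_le hp) 2
    have h4 : (n - p ^ 2) + p ^ 2 ≤ r ^ 2 + 2 * r := by omega
    have h5 : ((n - p ^ 2 : ℕ) : ℝ) + (p : ℝ) ^ 2 ≤ (r : ℝ) ^ 2 + 2 * r := by exact_mod_cast h4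
    linarith
  have hB : ((Nat.primeCounting (H0 * r) * ((H0 * r) ^ 2 / E + 1 + H0 * r) : ℕ) : ℝ) ≤
      (Nat.primeCounting (H0 * r) : ℝ) * (((H0 : ℝ) * r) ^ 2 / E + 1 + H0 * r) := by
    push_cast
    apply mul_le_mul_of_nonneg_left _ (Nat.cast_nonneg _)
    have := @Nat.cast_div_le ℝ _ _ _ ((H0 * r) ^ 2) E
    push_cast at this
    linarith
  have hle' : ((∑ p ∈ (primesLE (H0 * r)).filter (fun p => r < H1 * p),
      stp n (H0 * r) E p : ℕ) : ℝ) ≤ ((∑ p ∈ primesLE (H0 * r), stp n (H0 * r) E p : ℕ) : ℝ) := by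
    exact_mod_cast hle
  refine hle'.trans ?_
  rw [hsplit, hz, Nat.cast_add]
  exact add_le_add hA hB

/-- the upper bound with explicit error terms -/
lemma upper_n (h : ℕ) (hh : 0 < h) : ∀ᶠ n : ℕ in atTop, ∃ L : ℕ,
    PackN (Icc 1 n) n L ∧ (L : ℝ) * Real.log (Nat.sqrt n) / (Nat.sqrt n : ℝ) ^ 3 ≤
      2 / 3 + 2060 / (h : ℝ) ^ 2 := by
  have hR : Tendsto Nat.sqrt atTop atTop := by
    rw [tendsto_atTop]
    intro b
    filter_upwards [eventually_ge_atTop (b * b)] with n hn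
    exact Nat.le_sqrt.2 hn
  set H0 := h ^ 6 with hH0d
  set H1 := h ^ 2 with hH1d
  have hH0 : 0 < H0 := by positivity
  have hH1 : 0 < H1 := by positivity
  set E := H0 ^ 4 with hEd
  have hE : 0 < E := by positivity
  have hEH : H0 * H1 ≤ E := by
    have h1 : H1 ≤ H0 := Nat.pow_le_pow_right hh (by norm_num)
    have h2 : 1 ≤ H0 := hH0
    calc H0 * H1 ≤ H0 * H0 := Nat.mul_le_mul_left _ h1
      _ = H0 ^ 2 := by ring
      _ ≤ H0 ^ 4 := Nat.pow_le_pow_right hH0 (by norm_num)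
  have hH0r : Tendsto (fun r : ℕ => H0 * r) atTop atTop := by
    rw [tendsto_atTop]
    intro b
    filter_upwards [eventually_ge_atTop b] with r hr
    exact hr.trans (Nat.le_mul_of_pos_left _ hH0)
  have hxr : Tendsto xr atTop atTop := by
    rw [tendsto_atTop]
    intro b
    filter_upwards [natlog_tendsto.eventually_ge_atTop (16 * b)] with r hr
    unfold xr
    have : b ≤ Nat.log 2 r / 16 := by omega
    exact (Nat.lt_two_pow_self).le.trans (Nat.pow_le_pow_right (by norm_num) this)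
  -- the limit of the main error terms
  have hlim := (((F1_tendsto.add (F2_tendsto (H0 := H0) hE)).add
    (F3_tendsto ((4 * E * K1 E (H0 * H1) + 2 : ℕ) : ℝ))).add (F4_tendsto hH1)).add
    ((invlog_tendsto.const_mul 146).add (logsq_tendsto.const_mul 24))
  have hval : (2 / 3 : ℝ) + (H0 : ℝ) ^ 3 / E + 0 + 2 / H1 + (146 * 0 + 24 * 0) <
      2 / 3 + 12 / (h : ℝ) ^ 2 := by
    have hh' : (1 : ℝ) ≤ h := by exact_mod_cast hh
    have e1 : (H0 : ℝ) ^ 3 / E = 1 / (h : ℝ) ^ 6 := by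
      rw [hEd, hH0d]
      push_cast
      field_simp
    have e2 : (2 : ℝ) / H1 = 2 / (h : ℝ) ^ 2 := by
      rw [hH1d]; push_cast; ring
    have e3 : (1 : ℝ) / (h : ℝ) ^ 6 ≤ 1 / (h : ℝ) ^ 2 :=
      one_div_le_one_div_of_le (by positivity) (pow_le_pow_right₀ hh' (by norm_num))
    have e4 : (0 : ℝ) < 1 / (h : ℝ) ^ 2 := by positivity
    have e5 : (2 : ℝ) / (h : ℝ) ^ 2 = 2 * (1 / (h : ℝ) ^ 2) := by ring
    have e6 : (12 : ℝ) / (h : ℝ) ^ 2 = 12 * (1 / (h : ℝ) ^ 2) := by ring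
    rw [e1, e2, e5, e6]
    linarith
  have hev := hlim.eventually (gt_mem_nhds hval)
  have hlog1 := log_tendsto.eventually_ge_atTop 1
  have hall : ∀ᶠ r : ℕ in atTop, _ := (((hev.and hlog1).and ((ev_x H0).and (ev_pi H1 hH1))).and
    (((hH0r.eventually_ge_atTop
      (E ^ ((2 * E + 2) + 1) * ((2 * E + 2) * D1 E (H0 * H1)))).and
      (hH0r.eventually_ge_atTop (E * D1 E (H0 * H1)))).and
      ((hH0r.eventually_ge_atTop (16 * E * E1 E (H0 * H1))).and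
      (hH0r.eventually_ge_atTop (4 * E * (H0 * H1 + 1)))))).and
    ((hxr.eventually_ge_atTop (2 ^ 16)).and (eventually_ge_atTop 2))
  filter_upwards [hR.eventually hall] with n hn
  set r := Nat.sqrt n with hr
  obtain ⟨⟨⟨⟨hev, hlog1⟩, hx2, hpi⟩, ⟨hb1, hb2⟩, hb3, hb4⟩, hx1, hr2⟩ := hn
  have hn1 : r ^ 2 ≤ n := by rw [sq]; exact Nat.sqrt_le n
  have hn2 : n ≤ r ^ 2 + 2 * r := by
    have := Nat.sqrt_le_add n
    rw [← hr] at this
    rw [sq]; omega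
  have hr0 : 0 < r := by omega
  have hn3 : n ≤ 2 * (H0 * r) ^ 2 := by
    have h1 : r ^ 2 ≤ (H0 * r) ^ 2 := Nat.pow_le_pow_left (Nat.le_mul_of_pos_left _ hH0) 2
    nlinarith
  have hxp : xr r ^ 16 ≤ r := xr_pow (by omega)
  have hx0 : 0 < xr r := by unfold xr; positivity
  have hrn : r ≤ n := by nlinarith
  have hx15 : xr r ^ 15 ≤ n :=
    (Nat.pow_le_pow_right hx0 (by norm_num)).trans (hxp.trans hrn)
  have hJm : n < 4 ^ Jmr r * (H0 * r) := by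
    have h1 : r < 2 ^ (Nat.log 2 r + 1) := Nat.lt_pow_succ_log_self (by norm_num) r
    have h2 : n < (r + 1) ^ 2 := by
      have : (r + 1) ^ 2 = r ^ 2 + 2 * r + 1 := by ring
      omega
    have h3 : (r + 1) ^ 2 ≤ (2 ^ (Nat.log 2 r + 1)) ^ 2 := Nat.pow_le_pow_left h1 2
    have h4 : (2 ^ (Nat.log 2 r + 1)) ^ 2 ≤ 4 ^ Jmr r := by
      unfold Jmr
      rw [show (4 : ℕ) = 2 ^ 2 by norm_num, ← pow_mul, ← pow_mul]
      exact Nat.pow_le_pow_right (by norm_num) (by omega)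
    have h5 : 4 ^ Jmr r * 1 ≤ 4 ^ Jmr r * (H0 * r) :=
      Nat.mul_le_mul_left _ (Nat.mul_pos hH0 hr0)
    omega
  have hpack := total (n := n) (r := r) (x := xr r) (J := Jr r) (Jm := Jmr r) (H0 := H0)
    (H1 := H1) (E := E) hr0 hH0 hH1 hEH hn3 hb1 hb2 hb3 hb4 hx1 (lt_xr r) hx15 hrn hx2 hJm
  refine ⟨_, hpack, ?_⟩
  have hrr : (0 : ℝ) < r := by exact_mod_cast hr0
  have hlogpos : 0 < Real.log r := by linarith
  have hw : 0 < Real.log r / (r : ℝ) ^ 3 := by positivity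
  -- the pieces
  have p1 := sum_stp (n := n) (r := r) (H0 := H0) (H1 := H1) (E := E) hH0 hn1 hn2
  have hnr : (n : ℝ) ≤ (r : ℝ) ^ 2 + 2 * r := by exact_mod_cast hn2
  have p2 : (((4 * E * K1 E (H0 * H1) + 2) * n : ℕ) : ℝ) ≤
      ((4 * E * K1 E (H0 * H1) + 2 : ℕ) : ℝ) * ((r : ℝ) ^ 2 + 2 * r) := by
    rw [Nat.cast_mul]
    exact mul_le_mul_of_nonneg_left hnr (Nat.cast_nonneg _)
  have p3 : (((Nat.primeCounting (r / H1) + xr r ^ 9 * (2 ^ 16 * xr r ^ 5 + 1) + xr r ^ 15) *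
      (2 * n) : ℕ) : ℝ) ≤ (Nat.primeCounting (r / H1) : ℝ) * (2 * ((r : ℝ) ^ 2 + 2 * r)) +
      3 * (xr r : ℝ) ^ 15 * (2 * ((r : ℝ) ^ 2 + 2 * r)) := by
    have h1 : xr r ^ 9 * (2 ^ 16 * xr r ^ 5 + 1) ≤ 2 * xr r ^ 15 := by
      have h2 : 2 ^ 16 * xr r ^ 14 ≤ xr r * xr r ^ 14 := Nat.mul_le_mul_right _ hx1
      have h3 : xr r ^ 9 ≤ xr r ^ 15 := Nat.pow_le_pow_right hx0 (by norm_num)
      calc xr r ^ 9 * (2 ^ 16 * xr r ^ 5 + 1) = 2 ^ 16 * xr r ^ 14 + xr r ^ 9 := by ring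
        _ ≤ xr r * xr r ^ 14 + xr r ^ 15 := Nat.add_le_add h2 h3
        _ = 2 * xr r ^ 15 := by ring
    have h2 : Nat.primeCounting (r / H1) + xr r ^ 9 * (2 ^ 16 * xr r ^ 5 + 1) + xr r ^ 15 ≤
        Nat.primeCounting (r / H1) + 3 * xr r ^ 15 := by omega
    have h3 : (((Nat.primeCounting (r / H1) + xr r ^ 9 * (2 ^ 16 * xr r ^ 5 + 1) +
        xr r ^ 15 : ℕ)) : ℝ) ≤ (Nat.primeCounting (r / H1) : ℝ) + 3 * (xr r : ℝ) ^ 15 := by
      exact_mod_cast h2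
    rw [Nat.cast_mul]
    have h4 : (((2 * n : ℕ)) : ℝ) ≤ 2 * ((r : ℝ) ^ 2 + 2 * r) := by push_cast; linarith
    calc _ ≤ ((Nat.primeCounting (r / H1) : ℝ) + 3 * (xr r : ℝ) ^ 15) *
          (2 * ((r : ℝ) ^ 2 + 2 * r)) :=
        mul_le_mul h3 h4 (Nat.cast_nonneg _) (by positivity)
      _ = _ := by ring
  have hlogsq := log_sq_le r hr0
  have hJ1 : Real.log r * (1 / 2) ^ Jr r ≤ (Real.log r)⁻¹ := by
    rw [one_div, inv_pow, ← div_eq_mul_inv, div_le_iff₀ (by positivity), inv_mul_eq_div,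
      le_div_iff₀ hlogpos]
    nlinarith
  have hxl : (Real.log r) ^ 2 ≤ (xr r : ℝ) := by
    have h1 : (2 : ℝ) ^ Jr r ≤ (xr r : ℝ) := by
      have h2 : 2 ^ Jr r ≤ xr r := by
        calc 2 ^ Jr r ≤ 4 ^ Jr r := Nat.pow_le_pow_left (by norm_num) _
          _ = 4 ^ Jr r * 1 := (mul_one _).symm
          _ ≤ 4 ^ Jr r * H0 := Nat.mul_le_mul_left _ hH0
          _ ≤ xr r := hx2
      exact_mod_cast h2
    exact hlogsq.trans h1
  have p4 : 3 * (xr r : ℝ) ^ 15 * (2 * ((r : ℝ) ^ 2 + 2 * r)) * (Real.log r / (r : ℝ) ^ 3) ≤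
      18 * (Real.log r)⁻¹ := by
    have h1 : (xr r : ℝ) ^ 15 * (Real.log r) ^ 2 ≤ r := by
      calc (xr r : ℝ) ^ 15 * (Real.log r) ^ 2 ≤ (xr r : ℝ) ^ 15 * xr r :=
            mul_le_mul_of_nonneg_left hxl (by positivity)
        _ = (xr r : ℝ) ^ 16 := by ring
        _ ≤ r := by exact_mod_cast hxp
    have h2 : (r : ℝ) ^ 2 + 2 * r ≤ 3 * (r : ℝ) ^ 2 := by
      have : (1 : ℝ) ≤ r := by exact_mod_cast hr0
      nlinarith
    rw [mul_div_assoc', div_le_iff₀ (by positivity), mul_assoc 18, inv_mul_eq_div,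
      mul_div_assoc', le_div_iff₀ hlogpos]
    calc 3 * (xr r : ℝ) ^ 15 * (2 * ((r : ℝ) ^ 2 + 2 * r)) * Real.log r * Real.log r =
        6 * ((xr r : ℝ) ^ 15 * (Real.log r) ^ 2) * ((r : ℝ) ^ 2 + 2 * r) := by ring
      _ ≤ 6 * r * (3 * (r : ℝ) ^ 2) := by
        apply mul_le_mul _ h2 (by positivity) (by positivity)
        linarith
      _ = 18 * (r : ℝ) ^ 3 := by ring
  have hn4 : n ≤ 4 * r ^ 2 := by nlinarith
  have p5 := sum_Tj (n := n) (r := r) (h := h) (J := Jr r) (Jm := Jmr r) hh hr0 hn4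
    hlogpos.le hpi
  have hJmr : (Jmr r : ℝ) ≤ 6 * Real.log r := by
    have h1 := natlog_le r hr0
    unfold Jmr
    push_cast
    linarith
  have p6 : (Jmr r : ℝ) * ((n + 1) * Real.log r) ≤ 24 * (Real.log r) ^ 2 * (r : ℝ) ^ 2 := by
    have h1 : (n : ℝ) + 1 ≤ 4 * (r : ℝ) ^ 2 := by
      have h2 : n + 1 ≤ 4 * r ^ 2 := by nlinarith
      exact_mod_cast h2
    calc (Jmr r : ℝ) * ((n + 1) * Real.log r) ≤ (6 * Real.log r) * ((4 * (r : ℝ) ^ 2) *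
          Real.log r) := by
          apply mul_le_mul hJmr _ (by positivity) (by positivity)
          exact mul_le_mul_of_nonneg_right h1 hlogpos.le
      _ = _ := by ring
  have p7 : (∑ j ∈ range (Jmr r), ((Tj n r H0 H1 (Jr r) j + n : ℕ) : ℝ)) *
      (Real.log r / (r : ℝ) ^ 3) ≤ 2048 / (h : ℝ) ^ 2 + 128 * (Real.log r)⁻¹ +
        24 * ((Real.log r) ^ 2 / r) := by
    rw [mul_div_assoc', div_le_iff₀ (by positivity)]
    refine p5.trans ?_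
    have h1 : 128 * (r : ℝ) ^ 3 * Real.log r * (1 / 2) ^ Jr r ≤
        128 * (Real.log r)⁻¹ * (r : ℝ) ^ 3 := by
      have := mul_le_mul_of_nonneg_left hJ1 (show (0 : ℝ) ≤ 128 * (r : ℝ) ^ 3 by positivity)
      linarith
    have h2 : 24 * ((Real.log r) ^ 2 / r) * (r : ℝ) ^ 3 = 24 * (Real.log r) ^ 2 * (r : ℝ) ^ 2 := by
      field_simp
    have h3 : 2048 * (r : ℝ) ^ 3 / (h : ℝ) ^ 2 = 2048 / (h : ℝ) ^ 2 * (r : ℝ) ^ 3 := by ring
    rw [add_mul, add_mul, h2, h3]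
    linarith
  -- put together
  rw [mul_div_assoc]
  rw [Nat.cast_add, Nat.cast_add, Nat.cast_add, Nat.cast_sum (range (Jmr r))]
  have q1 := (mul_le_mul_of_nonneg_right p1 hw.le).trans (le_of_eq (add_mul _ _ _))
  have q2 := mul_le_mul_of_nonneg_right p2 hw.le
  have q3 := (mul_le_mul_of_nonneg_right p3 hw.le).trans (le_of_eq (add_mul _ _ _))
  have e12 : (12 : ℝ) / (h : ℝ) ^ 2 + 2048 / (h : ℝ) ^ 2 = 2060 / (h : ℝ) ^ 2 := by ring
  have g1 : ∀ a : ℝ, a * Real.log r / (r : ℝ) ^ 3 = a * (Real.log r / (r : ℝ) ^ 3) :=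
    fun a => mul_div_assoc _ _ _
  simp only [g1] at hev
  rw [← e12]
  rw [add_mul, add_mul, add_mul]
  linarith

end Pool.Agent.V11185.PGrp
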