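import Mathlib

/-!
Packing progressions with prime differences: equidistribution of shifts modulo a prime.
-/

set_option autoImplicit false

namespace Pool.Agent.V11185.PPack

open Finset

section
variable {p : ℕ} [hp : Fact p.Prime]

/-- the standard additive character modulo `p` -/
noncomputable abbrev e (p : ℕ) [Fact p.Prime] : AddChar (ZMod p) ℂ := ZMod.stdAddChar (N := p)

lemma norm_e (u : ZMod p) : ‖e p u‖ = 1 := AddChar.norm_apply _ _

lemma e_sum {ι : Type*} [DecidableEq ι] (s : Finset ι) (f : ι → ZMod p) :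
    e p (∑ i ∈ s, f i) = ∏ i ∈ s, e p (f i) := by
  induction s using Finset.induction_on with
  | empty => simp
  | insert a s ha ih => rw [Finset.sum_insert ha, Finset.prod_insert ha, AddChar.map_add_eq_mul, ih]

lemma e_natMul (k : ℕ) (u : ZMod p) : e p ((k : ZMod p) * u) = e p u ^ k := by
  rw [← nsmul_eq_mul, AddChar.map_nsmul_eq_pow]

/-- the exponential sum -/
noncomputable def Ssum (p : ℕ) [Fact p.Prime] (D : ℕ) (u : ZMod p) : ℂ :=
  ∑ k ∈ range D, e p ((k : ZMod p) * u)

lemma sin_lower {x : ℝ} (h0 : 0 ≤ x) (h1 : x ≤ 1 / 2) : 2 * x ≤ Real.sin (Real.pi * x) := by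
  have hpi := Real.pi_pos
  have := Real.mul_le_sin (x := Real.pi * x) (by positivity) (by nlinarith)
  calc 2 * x = 2 / Real.pi * (Real.pi * x) := by field_simp
    _ ≤ _ := this

lemma norm_e_sub_one (u : ZMod p) : 4 * (|(u.valMinAbs : ℝ)| / p) ≤ ‖e p u - 1‖ := by
  have hp0 : (0 : ℝ) < p := by exact_mod_cast hp.out.pos
  have h1 : e p u = Complex.exp (2 * Real.pi * Complex.I * (u.valMinAbs : ℤ) / p) := by
    have h2 : ((u.valMinAbs : ℤ) : ZMod p) = u := ZMod.coe_valMinAbs u
    conv_lhs => rw [← h2]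
    exact ZMod.stdAddChar_coe _
  have h3 : Complex.exp (2 * Real.pi * Complex.I * (u.valMinAbs : ℤ) / p) =
      Complex.exp (Complex.I * ((2 * Real.pi * (u.valMinAbs : ℤ) / p : ℝ) : ℂ)) := by
    congr 1
    push_cast
    ring
  rw [h1, h3, Complex.norm_exp_I_mul_ofReal_sub_one]
  have h4 : (2 * Real.pi * (u.valMinAbs : ℤ) / p : ℝ) / 2 = Real.pi * ((u.valMinAbs : ℝ) / p) := by
    ring
  rw [h4, norm_mul, Real.norm_eq_abs, Real.norm_eq_abs, abs_two]
  have h5 : |Real.sin (Real.pi * ((u.valMinAbs : ℝ) / p))| =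
      |Real.sin (Real.pi * (|(u.valMinAbs : ℝ)| / p))| := by
    rcases abs_cases (u.valMinAbs : ℝ) with h | h
    · rw [h.1]
    · rw [h.1, neg_div, mul_neg, Real.sin_neg, abs_neg]
  rw [h5]
  have h6 : |(u.valMinAbs : ℝ)| / p ≤ 1 / 2 := by
    rw [div_le_iff₀ hp0]
    have h7 := ZMod.natAbs_valMinAbs_le u
    have h8 : ((u.valMinAbs.natAbs : ℕ) : ℝ) ≤ ((p / 2 : ℕ) : ℝ) := by exact_mod_cast h7
    have h9 : ((p / 2 : ℕ) : ℝ) ≤ (p : ℝ) / 2 := Nat.cast_div_le
    rw [Nat.cast_natAbs] at h8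
    push_cast at h8
    linarith
  have h10 := sin_lower (x := |(u.valMinAbs : ℝ)| / p) (by positivity) h6
  have h11 := le_abs_self (Real.sin (Real.pi * (|(u.valMinAbs : ℝ)| / p)))
  linarith

/-- the exponential sum is small away from zero -/
lemma Ssum_small {D : ℕ} {u : ZMod p} {E : ℕ} (hE : 0 < E)
    (hu : (p : ℝ) / (8 * E) ≤ |(u.valMinAbs : ℝ)|) : ‖Ssum p D u‖ ^ 2 ≤ 16 * (E : ℝ) ^ 2 := by
  have hp0 : (0 : ℝ) < p := by exact_mod_cast hp.out.pos
  have hE0 : (0 : ℝ) < E := by exact_mod_cast hE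
  have h1 := norm_e_sub_one u
  have h2 : 1 / (2 * (E : ℝ)) ≤ ‖e p u - 1‖ := by
    refine le_trans ?_ h1
    calc 1 / (2 * (E : ℝ)) = 4 * ((p : ℝ) / (8 * E) / p) := by field_simp; norm_num
      _ ≤ _ := by gcongr
  have h3 : Ssum p D u * (e p u - 1) = e p u ^ D - 1 := by
    unfold Ssum
    simp_rw [e_natMul]
    exact geom_sum_mul _ _
  have h4 : ‖Ssum p D u‖ * ‖e p u - 1‖ ≤ 2 := by
    rw [← norm_mul, h3]
    refine (norm_sub_le _ _).trans ?_
    rw [norm_pow, norm_e, one_pow, norm_one]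
    norm_num
  have h5 : ‖Ssum p D u‖ * (1 / (2 * (E : ℝ))) ≤ 2 :=
    (mul_le_mul_of_nonneg_left h2 (norm_nonneg _)).trans h4
  have h6 : ‖Ssum p D u‖ ≤ 4 * E := by
    rw [mul_one_div, div_le_iff₀ (by positivity)] at h5
    linarith
  have := norm_nonneg (Ssum p D u)
  nlinarith

variable {ι : Type*} [Fintype ι] [DecidableEq ι]

/-- orthogonality -/
lemma parseval (α β : ι → ZMod p) (D : ι → ℕ)
    (hrel : ∀ c : ι → ℤ, (∀ i, |c i| < D i) → ∑ i, (c i : ZMod p) * α i = 0 → ∀ i, c i = 0) :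
    ∑ t : ZMod p, ∏ i, ‖Ssum p (D i) (t * α i + β i)‖ ^ 2 = p * ∏ i, (D i : ℝ) := by
  classical
  have key : ((∑ t : ZMod p, ∏ i, ‖Ssum p (D i) (t * α i + β i)‖ ^ 2 : ℝ) : ℂ) =
      ((p * ∏ i, (D i : ℝ) : ℝ) : ℂ) := by
    have hexp : ∀ t : ZMod p, ∏ i, Ssum p (D i) (t * α i + β i) =
        ∑ x ∈ Fintype.piFinset (fun i => range (D i)),
          e p (∑ i, (x i : ZMod p) * (t * α i + β i)) := by
      intro t
      unfold Ssum
      rw [Finset.prod_univ_sum]
      apply Finset.sum_congr rfl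
      intro x _
      rw [e_sum]
    have h1 : ∀ t : ZMod p, ((∏ i, ‖Ssum p (D i) (t * α i + β i)‖ ^ 2 : ℝ) : ℂ) =
        ∑ x ∈ Fintype.piFinset (fun i => range (D i)),
          ∑ y ∈ Fintype.piFinset (fun i => range (D i)),
            e p (t * (∑ i, (((x i : ℤ) - (y i : ℤ) : ℤ) : ZMod p) * α i)) *
              e p (∑ i, (((x i : ℤ) - (y i : ℤ) : ℤ) : ZMod p) * β i) := by
      intro t
      have h2 : ((∏ i, ‖Ssum p (D i) (t * α i + β i)‖ ^ 2 : ℝ) : ℂ) =
          (∏ i, Ssum p (D i) (t * α i + β i)) *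
            (starRingEnd ℂ) (∏ i, Ssum p (D i) (t * α i + β i)) := by
        rw [map_prod, ← Finset.prod_mul_distrib]
        push_cast
        apply Finset.prod_congr rfl
        intro i _
        rw [Complex.mul_conj']
      rw [h2, hexp, map_sum, Finset.sum_mul_sum]
      apply Finset.sum_congr rfl
      intro x _
      apply Finset.sum_congr rfl
      intro y _
      rw [← AddChar.map_neg_eq_conj, ← AddChar.map_add_eq_mul, ← AddChar.map_add_eq_mul]
      congr 1
      rw [Finset.mul_sum, ← Finset.sum_neg_distrib, ← Finset.sum_add_distrib,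
        ← Finset.sum_add_distrib]
      apply Finset.sum_congr rfl
      intro i _
      push_cast
      ring
    rw [Complex.ofReal_sum]
    simp_rw [h1]
    rw [Finset.sum_comm]
    have h3 : ∀ x ∈ Fintype.piFinset (fun i => range (D i)),
        ∑ t : ZMod p, ∑ y ∈ Fintype.piFinset (fun i => range (D i)),
            e p (t * (∑ i, (((x i : ℤ) - (y i : ℤ) : ℤ) : ZMod p) * α i)) *
              e p (∑ i, (((x i : ℤ) - (y i : ℤ) : ℤ) : ZMod p) * β i) = (p : ℂ) := by
      intro x hx
      rw [Finset.sum_comm, Finset.sum_eq_single_of_mem x hx]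
      · simp
      · intro y hy hyx
        rw [← Finset.sum_mul, AddChar.sum_mulShift _ (ZMod.isPrimitive_stdAddChar p)]
        rw [if_neg]
        · simp
        intro h0
        apply hyx
        have := hrel (fun i => (x i : ℤ) - (y i : ℤ)) (fun i => by
          have h4 := Finset.mem_range.1 (Fintype.mem_piFinset.1 hx i)
          have h5 := Finset.mem_range.1 (Fintype.mem_piFinset.1 hy i)
          rw [abs_lt]
          constructor <;> omega) h0
        funext i
        have := this i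
        omega
    rw [Finset.sum_congr rfl h3, Finset.sum_const, Fintype.card_piFinset]
    simp [mul_comm]
  exact_mod_cast key

/-- there is a shift avoiding all forbidden intervals -/
lemma exists_shift {E L D : ℕ} (hE : 0 < E) (hp16 : 16 * E ≤ p) (hL : Fintype.card ι ≤ L)
    (hD : 16 * E ^ 2 * L < D) (α γ : ι → ZMod p) (Y : ι → ℕ)
    (hY : ∀ i, p + 2 * E * Y i ≤ 2 * E * p)
    (hrel : ∀ c : ι → ℤ, (∀ i, |c i| < D) → ∑ i, (c i : ZMod p) * α i = 0 → ∀ i, c i = 0) :
    ∃ t : ZMod p, ∀ i, Y i ≤ (t * α i + γ i).val := by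
  classical
  by_contra hcon
  push Not at hcon
  have hp0 : (0 : ℝ) < p := by exact_mod_cast hp.out.pos
  have hE0 : (0 : ℝ) < E := by exact_mod_cast hE
  -- centres
  set w : ι → ℕ := fun i => Y i + (p - Y i) / 2 with hw
  set β : ι → ZMod p := fun i => γ i - (w i : ZMod p) with hβ
  have hfail : ∀ t : ZMod p, ∀ i, (t * α i + γ i).val < Y i →
      (p : ℝ) / (8 * E) ≤ |((t * α i + β i).valMinAbs : ℝ)| := by
    intro t i hlt
    by_contra hsm
    push Not at hsm
    set y := (t * α i + γ i).val with hy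
    set v := (t * α i + β i).valMinAbs with hv
    have hYi := hY i
    have hYp : Y i ≤ p := by
      by_contra h
      push Not at h
      have : 2 * E * p < 2 * E * Y i := by
        apply Nat.mul_lt_mul_of_pos_left h; omega
      omega
    have h1 : ((v : ℤ) : ZMod p) = (y : ZMod p) - (w i : ZMod p) := by
      rw [hv, ZMod.coe_valMinAbs, hy, ZMod.natCast_zmod_val, hβ]
      ring
    have h2 : ((v - (y : ℤ) + (w i : ℤ) : ℤ) : ZMod p) = 0 := by
      push_cast
      rw [h1]
      ring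
    rw [ZMod.intCast_zmod_eq_zero_iff_dvd] at h2
    -- bounds
    have h3 : |(v : ℝ)| * (8 * E) < p := by
      rw [lt_div_iff₀ (by positivity)] at hsm
      exact hsm
    have h4 : |v| * (8 * E) < p := by
      exact_mod_cast h3
    have h5 : (w i : ℤ) = Y i + ((p - Y i) / 2 : ℕ) := by rw [hw]; push_cast; ring
    have h6 : 2 * E * (p - Y i) ≥ p := by
      rw [Nat.mul_sub]; omega
    obtain ⟨m, hm⟩ : ∃ m, m = p - Y i := ⟨_, rfl⟩
    rw [← hm] at h6 h5
    have hm2 : (m / 2 : ℕ) ≤ m := Nat.div_le_self _ _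
    have h7 : 8 * E * ((m / 2 : ℕ) : ℤ) ≥ p := by
      have a1 : m ≤ 2 * (m / 2) + 1 := by omega
      have a2 : p ≤ 2 * E * (2 * (m / 2) + 1) := h6.trans (Nat.mul_le_mul_left _ a1)
      have a3 : 2 * E * (2 * (m / 2) + 1) = 4 * E * (m / 2) + 2 * E := by ring
      have a4 : 8 * E * (m / 2) = 2 * (4 * E * (m / 2)) := by ring
      have a5 : p ≤ 8 * E * (m / 2) := by omega
      exact_mod_cast a5
    have hYp' : (Y i : ℤ) + m = p := by omega
    have hv1 : |v| < ((m / 2 : ℕ) : ℤ) := by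
      by_contra h
      push Not at h
      have hE' : (0 : ℤ) < E := by exact_mod_cast hE
      nlinarith
    rw [abs_lt] at hv1
    have hy0 : (0 : ℤ) ≤ y := by positivity
    have hylt : (y : ℤ) < Y i := by exact_mod_cast hlt
    have hm3 : 2 * ((m / 2 : ℕ) : ℤ) ≤ m := by omega
    obtain ⟨c, hc⟩ := h2
    have hpp : (0 : ℤ) < p := by exact_mod_cast hp.out.pos
    have hc1 : 0 < v - (y : ℤ) + (w i : ℤ) := by omega
    have hc2 : v - (y : ℤ) + (w i : ℤ) < p := by omega
    rw [hc] at hc1 hc2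
    have : 0 < c := by
      by_contra h
      push Not at h
      nlinarith
    nlinarith
  have h1 := parseval α β (fun _ => D) hrel
  have hDpos : 0 < D := by omega
  have h2 : ∀ i0 : ι, ∑ t : ZMod p, ∏ i, ‖Ssum p (Function.update (fun _ => D) i0 1 i)
      (t * α i + β i)‖ ^ 2 = p * ∏ i, (Function.update (fun _ => D) i0 1 i : ℕ) := by
    intro i0
    have := parseval α β (Function.update (fun _ => D) i0 1) (by
      intro c hc h0
      apply hrel c _ h0
      intro i
      have := hc i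
      by_cases hi : i = i0
      · subst hi
        rw [Function.update_self] at this
        push_cast at this
        have : (1 : ℤ) ≤ D := by exact_mod_cast hDpos
        omega
      · rw [Function.update_of_ne hi] at this
        exact this)
    rw [this]
    push_cast
    rfl
  have h3 : ∀ t : ZMod p, ∏ i, ‖Ssum p D (t * α i + β i)‖ ^ 2 ≤
      ∑ i0 : ι, 16 * (E : ℝ) ^ 2 * ∏ i, ‖Ssum p (Function.update (fun _ => D) i0 1 i)
        (t * α i + β i)‖ ^ 2 := by
    intro t
    obtain ⟨i0, hi0⟩ := hcon t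
    have hs := hfail t i0 hi0
    have h4 := Ssum_small (D := D) hE hs
    have h5 : ∏ i, ‖Ssum p D (t * α i + β i)‖ ^ 2 ≤
        16 * (E : ℝ) ^ 2 * ∏ i, ‖Ssum p (Function.update (fun _ => D) i0 1 i)
        (t * α i + β i)‖ ^ 2 := by
      rw [← Finset.mul_prod_erase univ _ (Finset.mem_univ i0),
        ← Finset.mul_prod_erase univ (fun i => ‖Ssum p (Function.update (fun _ => D) i0 1 i)
        (t * α i + β i)‖ ^ 2) (Finset.mem_univ i0)]
      have h6 : ‖Ssum p (Function.update (fun _ => D) i0 1 i0) (t * α i0 + β i0)‖ ^ 2 = 1 := by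
        rw [Function.update_self]
        simp [Ssum]
      rw [h6, one_mul]
      have h7 : ∏ i ∈ univ.erase i0, ‖Ssum p (Function.update (fun _ => D) i0 1 i)
          (t * α i + β i)‖ ^ 2 = ∏ i ∈ univ.erase i0, ‖Ssum p D (t * α i + β i)‖ ^ 2 := by
        apply Finset.prod_congr rfl
        intro i hi
        rw [Function.update_of_ne (Finset.ne_of_mem_erase hi)]
      rw [h7]
      apply mul_le_mul_of_nonneg_right h4
      apply Finset.prod_nonneg
      intro i _
      positivity
    refine h5.trans ?_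
    apply Finset.single_le_sum (f := fun i0 => 16 * (E : ℝ) ^ 2 * ∏ i, ‖Ssum p
      (Function.update (fun _ => D) i0 1 i) (t * α i + β i)‖ ^ 2) _ (Finset.mem_univ i0)
    intro i _
    positivity
  have h8 : (p : ℝ) * ∏ _i : ι, (D : ℝ) ≤
      ∑ i0 : ι, 16 * (E : ℝ) ^ 2 * (p * ∏ i, (Function.update (fun _ => D) i0 1 i : ℕ)) := by
    rw [← h1]
    refine (Finset.sum_le_sum fun t _ => h3 t).trans ?_
    rw [Finset.sum_comm]
    apply Finset.sum_le_sum
    intro i0 _
    rw [← Finset.mul_sum, h2 i0]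
  have h9 : ∀ i0 : ι, ((∏ i, (Function.update (fun _ => D) i0 1 i : ℕ) : ℕ) : ℝ) * D =
      ∏ _i : ι, (D : ℝ) := by
    intro i0
    have : (∏ i, (Function.update (fun _ => D) i0 1 i : ℕ)) * D = ∏ _i : ι, D := by
      rw [← Finset.mul_prod_erase univ _ (Finset.mem_univ i0), Function.update_self, one_mul,
        ← Finset.mul_prod_erase univ (fun _ => D) (Finset.mem_univ i0), mul_comm]
      congr 1
      apply Finset.prod_congr rfl
      intro i hi
      rw [Function.update_of_ne (Finset.ne_of_mem_erase hi)]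
    exact_mod_cast this
  have hP : 0 < ∏ _i : ι, (D : ℝ) := Finset.prod_pos fun i _ => by exact_mod_cast hDpos
  have h10 : (p : ℝ) * (∏ _i : ι, (D : ℝ)) * D ≤
      ∑ _i0 : ι, 16 * (E : ℝ) ^ 2 * (p * ∏ _i : ι, (D : ℝ)) := by
    calc (p : ℝ) * (∏ _i : ι, (D : ℝ)) * D ≤
        (∑ i0 : ι, 16 * (E : ℝ) ^ 2 * (p * ∏ i, (Function.update (fun _ => D) i0 1 i : ℕ))) * D :=
          mul_le_mul_of_nonneg_right h8 (by positivity)
      _ = _ := by
        rw [Finset.sum_mul]
        apply Finset.sum_congr rfl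
        intro i0 _
        rw [← h9 i0]
        push_cast
        ring
  rw [Finset.sum_const, Finset.card_univ, nsmul_eq_mul] at h10
  have h11 : (D : ℝ) ≤ Fintype.card ι * (16 * (E : ℝ) ^ 2) := by
    have hPp : 0 < (p : ℝ) * ∏ _i : ι, (D : ℝ) := by positivity
    by_contra h
    push Not at h
    have := mul_lt_mul_of_pos_left h hPp
    nlinarith
  have h12 : (D : ℝ) ≤ L * (16 * (E : ℝ) ^ 2) := by
    refine h11.trans ?_
    have : (Fintype.card ι : ℝ) ≤ L := by exact_mod_cast hL
    gcongr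
  have h13 : D ≤ L * (16 * E ^ 2) := by exact_mod_cast h12
  have : L * (16 * E ^ 2) = 16 * E ^ 2 * L := by ring
  omega

end

end Pool.Agent.V11185.PPack
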