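import Pool.Agent.V11185.PPackA

/-!
Packing progressions with prime differences: the greedy placement.
-/

set_option autoImplicit false

namespace Pool.Agent.V11185.PPack

open Finset

/-! ### bad primes -/

/-- few primes in the range divide a fixed non-zero small integer -/
lemma few_divisors {E R M L' : ℕ} (hE : 0 < E) (G : Finset ℕ) (hG : ∀ p ∈ G, p.Prime)
    (hR : ∀ p ∈ G, R < E * p) (n : ℤ) (hn : n ≠ 0) (hnM : |n| ≤ M * R ^ L')
    (hbig : E ^ (L' + 1) * M ≤ R) : (G.filter (fun p : ℕ => (p : ℤ) ∣ n)).card ≤ L' := by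
  classical
  by_contra h
  push Not at h
  obtain ⟨T, hT, hTc⟩ := Finset.exists_subset_card_eq (show L' + 1 ≤ _ from h)
  have h1 : ∏ p ∈ T, p ∣ n.natAbs := by
    apply Finset.prod_primes_dvd
    · intro p hp
      exact (hG p (Finset.mem_filter.1 (hT hp)).1).prime
    · intro p hp
      exact Int.natCast_dvd.1 (Finset.mem_filter.1 (hT hp)).2
  have h2 : ∏ p ∈ T, p ≤ n.natAbs := Nat.le_of_dvd (by omega) h1
  have h3 : ∏ p ∈ T, (E * p) = E ^ (L' + 1) * ∏ p ∈ T, p := by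
    rw [Finset.prod_mul_distrib, Finset.prod_const, hTc]
  have hTne : T.Nonempty := by
    rw [← Finset.card_pos, hTc]; omega
  have h4 : R ^ (L' + 1) < ∏ p ∈ T, (E * p) := by
    rw [← hTc, ← Finset.prod_const]
    rcases Nat.eq_zero_or_pos R with h0 | h0
    · subst h0
      obtain ⟨x, hx⟩ := hTne
      rw [Finset.prod_const, zero_pow (by omega)]
      apply Finset.prod_pos
      intro p hp
      exact hR p (Finset.mem_filter.1 (hT hp)).1 |>.trans_le le_rfl
    · apply Finset.prod_lt_prod_of_nonempty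
      · intro i _; exact h0
      · intro p hp
        exact hR p (Finset.mem_filter.1 (hT hp)).1
      · exact hTne
  have h5 : n.natAbs ≤ M * R ^ L' := by
    have : (n.natAbs : ℤ) ≤ M * R ^ L' := by rw [Int.natCast_natAbs]; exact hnM
    exact_mod_cast this
  have h6 : R ^ (L' + 1) < E ^ (L' + 1) * (M * R ^ L') :=
    h4.trans_le (by rw [h3]; exact Nat.mul_le_mul_left _ (h2.trans h5))
  have h7 : E ^ (L' + 1) * (M * R ^ L') ≤ R * R ^ L' := by
    rw [← mul_assoc]; exact Nat.mul_le_mul_right _ hbig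
  rw [pow_succ'] at h6
  omega

section
variable {ι : Type*} [Fintype ι] [DecidableEq ι]

/-- the integer behind a relation -/
def rel (q : ι → ℕ) (c : ι → ℤ) : ℤ := ∑ i, c i * ∏ j ∈ univ.erase i, (q j : ℤ)

lemma rel_ne_zero {q : ι → ℕ} (hq : ∀ i, (q i).Prime) (hinj : Function.Injective q) {D : ℕ}
    (hD : ∀ i, D ≤ q i) {c : ι → ℤ} (hc : ∀ i, |c i| < D) {i0 : ι} (h0 : c i0 ≠ 0) :
    rel q c ≠ 0 := by
  intro h
  have h1 : (q i0 : ℤ) ∣ c i0 * ∏ j ∈ univ.erase i0, (q j : ℤ) := by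
    have h2 : rel q c = c i0 * ∏ j ∈ univ.erase i0, (q j : ℤ) +
        ∑ i ∈ univ.erase i0, c i * ∏ j ∈ univ.erase i, (q j : ℤ) := by
      unfold rel
      exact (Finset.add_sum_erase univ (fun i => c i * ∏ j ∈ univ.erase i, (q j : ℤ))
        (Finset.mem_univ i0)).symm
    have h3 : (q i0 : ℤ) ∣ ∑ i ∈ univ.erase i0, c i * ∏ j ∈ univ.erase i, (q j : ℤ) := by
      apply Finset.dvd_sum
      intro i hi
      apply Dvd.dvd.mul_left
      apply Finset.dvd_prod_of_mem
      exact Finset.mem_erase.2 ⟨(Finset.ne_of_mem_erase hi).symm, Finset.mem_univ _⟩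
    rw [h] at h2
    have h4 : c i0 * ∏ j ∈ univ.erase i0, (q j : ℤ) =
      -∑ i ∈ univ.erase i0, c i * ∏ j ∈ univ.erase i, (q j : ℤ) := by linarith
    rw [h4]
    exact (Int.dvd_neg).2 h3
  have hp : Prime (q i0 : ℤ) := Nat.prime_iff_prime_int.1 (hq i0)
  rcases hp.dvd_or_dvd h1 with h2 | h2
  · have := Int.le_of_dvd (abs_pos.2 h0) ((dvd_abs _ _).2 h2)
    have h3 := hc i0
    have h4 : (D : ℤ) ≤ q i0 := by exact_mod_cast hD i0
    omega
  · rw [hp.dvd_finsetProd_iff] at h2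
    obtain ⟨j, hj, hd⟩ := h2
    have h3 : q i0 ∣ q j := by exact_mod_cast hd
    rw [Nat.prime_dvd_prime_iff_eq (hq i0) (hq j)] at h3
    exact Finset.ne_of_mem_erase hj (hinj h3).symm

lemma rel_le {q : ι → ℕ} {R D L : ℕ} (hq : ∀ i, q i ≤ R) (hR : 1 ≤ R)
    (hL : Fintype.card ι ≤ L) {c : ι → ℤ} (hc : ∀ i, |c i| < D) :
    |rel q c| ≤ ((L * D : ℕ) : ℤ) * R ^ L := by
  unfold rel
  refine (Finset.abs_sum_le_sum_abs _ _).trans ?_
  have h1 : ∀ i ∈ (univ : Finset ι), |c i * ∏ j ∈ univ.erase i, (q j : ℤ)| ≤ (D : ℤ) * R ^ L := by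
    intro i _
    rw [abs_mul]
    apply mul_le_mul (hc i).le _ (abs_nonneg _) (by positivity)
    rw [Finset.abs_prod]
    calc ∏ j ∈ univ.erase i, |(q j : ℤ)| ≤ ∏ _j ∈ univ.erase i, (R : ℤ) := by
          apply Finset.prod_le_prod
          · intro j _; positivity
          · intro j _
            rw [Nat.abs_cast]
            exact_mod_cast hq j
      _ = (R : ℤ) ^ (univ.erase i).card := by rw [Finset.prod_const]
      _ ≤ (R : ℤ) ^ L := by
          apply pow_le_pow_right₀ (by exact_mod_cast hR)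
          refine (Finset.card_le_card (Finset.erase_subset _ _)).trans ?_
          rw [Finset.card_univ]; exact hL
  refine (Finset.sum_le_sum h1).trans ?_
  rw [Finset.sum_const, Finset.card_univ, nsmul_eq_mul]
  push_cast
  have : (Fintype.card ι : ℤ) ≤ L := by exact_mod_cast hL
  have h2 : (0 : ℤ) ≤ (D : ℤ) * R ^ L := by positivity
  nlinarith

lemma rel_dvd {q : ι → ℕ} {p : ℕ} [hp : Fact p.Prime] (hq : ∀ i, (q i : ZMod p) ≠ 0) {c : ι → ℤ}
    (h : ∑ i, (c i : ZMod p) * ((q i : ZMod p))⁻¹ = 0) : (p : ℤ) ∣ rel q c := by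
  rw [← ZMod.intCast_zmod_eq_zero_iff_dvd]
  unfold rel
  push_cast
  have h1 : ∀ i ∈ (univ : Finset ι), (c i : ZMod p) * ∏ j ∈ univ.erase i, (q j : ZMod p) =
      (∏ j, (q j : ZMod p)) * ((c i : ZMod p) * ((q i : ZMod p))⁻¹) := by
    intro i hi
    rw [← Finset.mul_prod_erase univ _ hi]
    have := hq i
    field_simp
  rw [Finset.sum_congr rfl h1, ← Finset.mul_sum, h, mul_zero]

/-- among many primes there is one without small relation -/
lemma exists_good_prime {E R L D : ℕ} (hE : 0 < E) {q : ι → ℕ} (hq : ∀ i, (q i).Prime)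
    (hinj : Function.Injective q) (hqR : ∀ i, q i ≤ R) (hqD : ∀ i, D ≤ q i)
    (hL : Fintype.card ι ≤ L) (hR : 1 ≤ R)
    (hbig : E ^ (L + 1) * (L * D) ≤ R)
    (G : Finset ℕ) (hG : ∀ p ∈ G, p.Prime) (hGR : ∀ p ∈ G, R < E * p)
    (hcard : (2 * D + 1) ^ L * L < G.card) :
    ∃ p ∈ G, ∀ c : ι → ℤ, (∀ i, |c i| < D) → (p : ℤ) ∣ rel q c → ∀ i, c i = 0 := by
  classical
  by_contra hcon
  push Not at hcon
  set C : Finset (ι → ℤ) := (Fintype.piFinset (fun _ : ι => Finset.Icc (-(D : ℤ)) D)).filter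
    (fun c => (∀ i, |c i| < D) ∧ ∃ i, c i ≠ 0) with hC
  have hsub : G ⊆ C.biUnion (fun c => G.filter (fun p : ℕ => (p : ℤ) ∣ rel q c)) := by
    intro p hp
    obtain ⟨c, h1, h2, i, h3⟩ := hcon p hp
    rw [Finset.mem_biUnion]
    refine ⟨c, ?_, Finset.mem_filter.2 ⟨hp, h2⟩⟩
    rw [hC, Finset.mem_filter, Fintype.mem_piFinset]
    refine ⟨fun i => ?_, h1, i, h3⟩
    have := abs_lt.1 (h1 i)
    rw [Finset.mem_Icc]
    constructor <;> omega
  have h1 := Finset.card_le_card hsub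
  have h2 : (C.biUnion (fun c => G.filter (fun p : ℕ => (p : ℤ) ∣ rel q c))).card ≤ C.card * L := by
    apply Finset.card_biUnion_le_card_mul
    intro c hc
    rw [hC, Finset.mem_filter] at hc
    obtain ⟨_, hc1, i, hi⟩ := hc
    exact few_divisors hE G hG hGR (rel q c) (rel_ne_zero hq hinj hqD hc1 hi)
      (rel_le hqR hR hL hc1) hbig
  have h3 : C.card ≤ (2 * D + 1) ^ L := by
    rw [hC]
    refine (Finset.card_filter_le _ _).trans ?_
    rw [Fintype.card_piFinset, Finset.prod_const, Int.card_Icc, Finset.card_univ]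
    have : ((D : ℤ) + 1 - -(D : ℤ)).toNat = 2 * D + 1 := by omega
    rw [this]
    exact Nat.pow_le_pow_right (by omega) hL
  have h4 : C.card * L ≤ (2 * D + 1) ^ L * L := Nat.mul_le_mul_right _ h3
  omega

end

end Pool.Agent.V11185.PPack
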