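import Pool.Agent.V11185.PPackB

/-!
Packing progressions with prime differences: the upper bound.
-/

set_option autoImplicit false

namespace Pool.Agent.V11185.PPack

open Finset

/-- degree of the exponential sums -/
def Dc (E : ℕ) : ℕ := 16 * E ^ 2 * (2 * E + 2) + 1

/-- number of primes which may be left over in one group -/
def K0 (E : ℕ) : ℕ := (2 * Dc E + 1) ^ (2 * E + 2) * (2 * E + 2)

/-- the length reserved for a prime -/
def st (N : ℕ → ℕ) (R E p : ℕ) : ℕ := (p * N p - p ^ 2) + (R ^ 2 / E + 1) + R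

structure Inv (N : ℕ → ℕ) (R E : ℕ) (S : Finset (ℕ × ℕ)) (X : ℕ) : Prop where
  pr : ∀ z ∈ S, z.1.Prime
  le : ∀ z ∈ S, z.1 ≤ R
  gt : ∀ z ∈ S, R < E * z.1
  st : ∀ z ∈ S, z.2 + (z.1 * N z.1 - z.1 ^ 2) + (R ^ 2 / E + 1) ≤ X
  sep : ∀ z ∈ S, ∀ z' ∈ S, z ≠ z' →
    z.2 + (R ^ 2 / E + 1) ≤ z'.2 ∨ z'.2 + (R ^ 2 / E + 1) ≤ z.2
  inj : ∀ z ∈ S, ∀ z' ∈ S, z.1 = z'.1 → z = z'
  dis : ∀ z ∈ S, ∀ z' ∈ S, z ≠ z' → ∀ i < N z.1, ∀ j < N z'.1,
    z.2 + i * z.1 ≠ z'.2 + j * z'.1

lemma sigma_big {R E : ℕ} (hE : 0 < E) : R ^ 2 < E * (R ^ 2 / E + 1) := by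
  have := Nat.div_add_mod (R ^ 2) E
  have h2 := Nat.mod_lt (R ^ 2) hE
  rw [mul_add, mul_one]
  omega

lemma active_card {N : ℕ → ℕ} {R E : ℕ} {S : Finset (ℕ × ℕ)} {X : ℕ} (hE : 0 < E)
    (h : Inv N R E S X) (hN : ∀ z ∈ S, z.1 * N z.1 ≤ 2 * R ^ 2) :
    (S.filter (fun z => X < z.2 + z.1 * N z.1)).card ≤ 2 * E + 2 := by
  have hb : R ^ 2 < E * (R ^ 2 / E + 1) := sigma_big hE
  have hσ0 : 0 < R ^ 2 / E + 1 := Nat.succ_pos _
  have hS1 := h.st
  have hS2 := h.sep
  generalize R ^ 2 / E + 1 = σ at hb hσ0 hS1 hS2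
  have h1 : (S.filter (fun z => X < z.2 + z.1 * N z.1)).card ≤ (range (2 * E + 2)).card := by
    apply Finset.card_le_card_of_injOn (fun z => (X - z.2) / σ)
    · intro z hz
      rw [Finset.mem_coe, Finset.mem_filter] at hz
      have h2 := hN z hz.1
      have h3 : X - z.2 < 2 * E * σ := by
        have : 2 * E * σ = 2 * (E * σ) := by ring
        omega
      rw [Finset.mem_coe, Finset.mem_range]
      have := (Nat.div_lt_iff_lt_mul hσ0).2 h3
      show (X - z.2) / σ < 2 * E + 2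
      omega
    · intro z hz z' hz' heq
      rw [Finset.mem_coe, Finset.mem_filter] at hz hz'
      by_contra hne
      have hX := hS1 z hz.1
      have hX' := hS1 z' hz'.1
      simp only at heq
      have e1 := Nat.div_add_mod (X - z.2) σ
      have e2 := Nat.div_add_mod (X - z'.2) σ
      have e3 := Nat.mod_lt (X - z.2) hσ0
      have e4 := Nat.mod_lt (X - z'.2) hσ0
      rw [heq] at e1
      generalize (X - z'.2) / σ = w at e1 e2
      rcases hS2 z hz.1 z' hz'.1 hne with h5 | h5 <;> omega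
  simpa using h1

lemma Y_bound {q a0 n X R E p j0 : ℕ} (hE : 0 < E) (hp : 0 < p) (hq : 0 < q) (hqR : q ≤ R)
    (hpR : p ≤ R)
    (hst : a0 + (q * n - q ^ 2) + (R ^ 2 / E + 1) ≤ X) (hj : X ≤ a0 + q * j0)
    (hstar : 2 * E * q ≤ 2 * E * p + R) :
    p + 2 * E * (n - j0) ≤ 2 * E * p := by
  have hb : R ^ 2 < E * (R ^ 2 / E + 1) := sigma_big hE
  have hσ0 : 0 < R ^ 2 / E + 1 := Nat.succ_pos _
  generalize R ^ 2 / E + 1 = σ at hb hσ0 hst
  rcases Nat.eq_zero_or_pos (n - j0) with h0 | h0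
  · rw [h0]
    nlinarith
  · obtain ⟨Y, hY⟩ : ∃ Y, n = j0 + Y := ⟨n - j0, by omega⟩
    subst hY
    rw [Nat.add_sub_cancel_left]
    have h1 : q * Y + σ ≤ q ^ 2 := by
      have h2 : q * (j0 + Y) = q * j0 + q * Y := by ring
      rw [h2] at hst
      omega
    have hYq : Y < q := by
      by_contra h
      push Not at h
      have : q ^ 2 ≤ q * Y := by nlinarith
      omega
    obtain ⟨u, hu⟩ : ∃ u, q = Y + u := ⟨q - Y, by omega⟩
    have h3 : σ ≤ q * u := by
      have : q ^ 2 = q * Y + q * u := by rw [sq]; nth_rewrite 2 [hu]; ring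
      omega
    have h4 : R ^ 2 < R * (E * u) := by
      calc R ^ 2 < E * σ := hb
        _ ≤ E * (q * u) := Nat.mul_le_mul_left _ h3
        _ ≤ E * (R * u) := Nat.mul_le_mul_left _ (Nat.mul_le_mul_right _ hqR)
        _ = R * (E * u) := by ring
    have h5 : R < E * u := by
      rw [sq] at h4
      exact Nat.lt_of_mul_lt_mul_left h4
    have h6 : 2 * E * q = 2 * E * Y + 2 * (E * u) := by rw [hu]; ring
    omega

lemma extend {N : ℕ → ℕ} {R E : ℕ} {S : Finset (ℕ × ℕ)} {X : ℕ} (hE : 0 < E)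
    (hb1 : E ^ ((2 * E + 2) + 1) * ((2 * E + 2) * Dc E) ≤ R) (hb2 : E * Dc E ≤ R)
    (hb3 : 16 * E ^ 2 ≤ R)
    (h : Inv N R E S X) (hN : ∀ z ∈ S, z.1 * N z.1 ≤ 2 * R ^ 2)
    (G : Finset ℕ) (hGp : ∀ p ∈ G, p.Prime) (hGle : ∀ p ∈ G, p ≤ R) (hGgt : ∀ p ∈ G, R < E * p)
    (hGS : ∀ p ∈ G, ∀ z ∈ S, z.1 ≠ p) (hstar : ∀ p ∈ G, ∀ z ∈ S, 2 * E * z.1 ≤ 2 * E * p + R)
    (hcard : K0 E < G.card) :
    ∃ p ∈ G, ∃ a, Inv N R E (insert (p, a) S) (X + st N R E p) := by
  classical
  set A := S.filter (fun z => X < z.2 + z.1 * N z.1) with hA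
  have hAc : Fintype.card {z // z ∈ A} ≤ 2 * E + 2 := by
    rw [Fintype.card_coe]
    exact active_card hE h hN
  have hAS : ∀ z : {z // z ∈ A}, z.1 ∈ S := fun z => (Finset.mem_filter.1 z.2).1
  have hR1 : 1 ≤ R := by
    have : 1 ≤ E ^ 2 := Nat.one_le_pow _ _ hE
    omega
  have hD0 : 0 < Dc E := by unfold Dc; omega
  obtain ⟨p, hpG, hgood⟩ := exists_good_prime (ι := {z // z ∈ A}) (E := E) (R := R)
    (L := 2 * E + 2) (D := Dc E) hE (q := fun z => z.1.1)
    (fun z => h.pr _ (hAS z))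
    (by
      intro z z' hzz
      exact Subtype.ext (h.inj _ (hAS z) _ (hAS z') hzz))
    (fun z => h.le _ (hAS z))
    (by
      intro z
      have h1 := h.gt _ (hAS z)
      by_contra hlt
      push Not at hlt
      have : E * z.1.1 ≤ E * Dc E := Nat.mul_le_mul_left _ hlt.le
      omega)
    hAc hR1 hb1 G hGp hGgt hcard
  have hpp := hGp p hpG
  have : Fact p.Prime := ⟨hpp⟩
  have hpR := hGle p hpG
  have hp16 : 16 * E ≤ p := by
    have h1 := hGgt p hpG
    have h2 : E * (16 * E) < E * p := by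
      have : E * (16 * E) = 16 * E ^ 2 := by ring
      omega
    exact (Nat.lt_of_mul_lt_mul_left h2).le
  have hq0 : ∀ z : {z // z ∈ A}, ((z.1.1 : ℕ) : ZMod p) ≠ 0 := by
    intro z hz
    rw [ZMod.natCast_eq_zero_iff, Nat.prime_dvd_prime_iff_eq hpp (h.pr _ (hAS z))] at hz
    exact hGS p hpG _ (hAS z) hz.symm
  set j0 : ℕ × ℕ → ℕ := fun z => (X - z.2 + z.1 - 1) / z.1 with hj0
  have hj : ∀ z ∈ S, X ≤ z.2 + z.1 * j0 z := by
    intro z hz
    have hzp := (h.pr z hz).pos
    have h1 := Nat.div_add_mod (X - z.2 + z.1 - 1) z.1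
    have h2 := Nat.mod_lt (X - z.2 + z.1 - 1) hzp
    simp only [hj0]
    omega
  have hj' : ∀ z ∈ S, ∀ i, X ≤ z.2 + i * z.1 → j0 z ≤ i := by
    intro z hz i hi
    have hzp := (h.pr z hz).pos
    simp only [hj0]
    rw [← Nat.lt_succ_iff, Nat.div_lt_iff_lt_mul hzp, Nat.succ_mul]
    omega
  obtain ⟨t, ht⟩ := exists_shift (p := p) (ι := {z // z ∈ A}) (E := E) (L := 2 * E + 2)
    (D := Dc E) hE hp16 hAc (by unfold Dc; omega)
    (fun z => ((z.1.1 : ℕ) : ZMod p)⁻¹)
    (fun z => ((X : ZMod p) - (z.1.2 : ℕ)) * ((z.1.1 : ℕ) : ZMod p)⁻¹ - (j0 z.1 : ℕ))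
    (fun z => N z.1.1 - j0 z.1)
    (by
      intro z
      exact Y_bound hE hpp.pos (h.pr _ (hAS z)).pos (h.le _ (hAS z)) hpR (h.st _ (hAS z))
        (hj _ (hAS z)) (hstar p hpG _ (hAS z)))
    (by
      intro c hc h0
      exact hgood c hc (rel_dvd hq0 h0))
  refine ⟨p, hpG, X + t.val, ?_⟩
  have htp : t.val < p := ZMod.val_lt t
  -- no collision
  have hcol : ∀ z ∈ S, ∀ i < N z.1, ∀ j < N p, z.2 + i * z.1 ≠ X + t.val + j * p := by
    intro z hz i hi j hj2 heq
    have hzp := (h.pr z hz).pos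
    by_cases hzA : z ∈ A
    · have h1 : j0 z ≤ i := hj' z hz i (by omega)
      have h2 := ht ⟨z, hzA⟩
      have hYp := Y_bound hE hpp.pos (h.pr _ hz).pos (h.le _ hz) hpR (h.st _ hz)
        (hj _ hz) (hstar p hpG _ hz)
      have hyp : i - j0 z < p := by
        have h3 : i - j0 z < N z.1 - j0 z := by omega
        by_contra hh
        push Not at hh
        have : 2 * E * p ≤ 2 * E * (N z.1 - j0 z) := Nat.mul_le_mul_left _ (by omega)
        have := hpp.pos
        omega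
      have h4 : (t * ((z.1 : ℕ) : ZMod p)⁻¹ + (((X : ZMod p) - (z.2 : ℕ)) *
          ((z.1 : ℕ) : ZMod p)⁻¹ - (j0 z : ℕ))) = ((i - j0 z : ℕ) : ZMod p) := by
        have h5 : ((z.2 + i * z.1 : ℕ) : ZMod p) = ((X + t.val + j * p : ℕ) : ZMod p) := by
          rw [heq]
        push_cast at h5
        rw [ZMod.natCast_zmod_val, ZMod.natCast_self, mul_zero, add_zero] at h5
        rw [Nat.cast_sub h1]
        have h6 := hq0 ⟨z, hzA⟩
        simp only at h6
        have h7 : t + (X : ZMod p) - (z.2 : ℕ) = (i : ZMod p) * (z.1 : ℕ) := by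
          rw [add_comm t, ← h5]; ring
        calc _ = (t + (X : ZMod p) - (z.2 : ℕ)) * ((z.1 : ℕ) : ZMod p)⁻¹ - (j0 z : ℕ) := by ring
          _ = _ := by rw [h7, mul_assoc, mul_inv_cancel₀ h6, mul_one]
      simp only at h2
      rw [h4, ZMod.val_natCast_of_lt hyp] at h2
      omega
    · rw [hA, Finset.mem_filter] at hzA
      push Not at hzA
      have h1 := hzA hz
      have h2 : i * z.1 < z.1 * N z.1 := by
        rw [mul_comm]; exact Nat.mul_lt_mul_of_pos_left hi hzp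
      omega
  have hnew : ∀ z ∈ S, z ≠ (p, X + t.val) := by
    intro z hz he
    exact hGS p hpG z hz (by rw [he])
  refine ⟨?_, ?_, ?_, ?_, ?_, ?_, ?_⟩
  · intro z hz
    rcases Finset.mem_insert.1 hz with rfl | hz
    · exact hpp
    · exact h.pr z hz
  · intro z hz
    rcases Finset.mem_insert.1 hz with rfl | hz
    · exact hpR
    · exact h.le z hz
  · intro z hz
    rcases Finset.mem_insert.1 hz with rfl | hz
    · exact hGgt p hpG
    · exact h.gt z hz
  · intro z hz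
    rcases Finset.mem_insert.1 hz with rfl | hz
    · simp only [PPack.st]
      omega
    · have := h.st z hz
      omega
  · intro z hz z' hz' hne
    rcases Finset.mem_insert.1 hz with rfl | hz
    · rcases Finset.mem_insert.1 hz' with rfl | hz'
      · exact absurd rfl hne
      · right
        have := h.st z' hz'
        simp only
        omega
    · rcases Finset.mem_insert.1 hz' with rfl | hz'
      · left
        have := h.st z hz
        simp only
        omega
      · exact h.sep z hz z' hz' hne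
  · intro z hz z' hz' he
    rcases Finset.mem_insert.1 hz with rfl | hz
    · rcases Finset.mem_insert.1 hz' with rfl | hz'
      · rfl
      · exact absurd he.symm (hGS p hpG z' hz')
    · rcases Finset.mem_insert.1 hz' with rfl | hz'
      · exact absurd he (hGS p hpG z hz)
      · exact h.inj z hz z' hz' he
  · intro z hz z' hz' hne i hi j hj2
    rcases Finset.mem_insert.1 hz with rfl | hz
    · rcases Finset.mem_insert.1 hz' with rfl | hz'
      · exact absurd rfl hne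
      · exact (hcol z' hz' j hj2 i hi).symm
    · rcases Finset.mem_insert.1 hz' with rfl | hz'
      · exact hcol z hz i hi j hj2
      · exact h.dis z hz z' hz' hne i hi j hj2

/-- one group of primes -/
lemma group {N : ℕ → ℕ} {R E : ℕ} (hE : 0 < E)
    (hb1 : E ^ ((2 * E + 2) + 1) * ((2 * E + 2) * Dc E) ≤ R) (hb2 : E * Dc E ≤ R)
    (hb3 : 16 * E ^ 2 ≤ R) (k : ℕ) : ∀ (S : Finset (ℕ × ℕ)) (X : ℕ) (G : Finset ℕ),
    G.card = k → Inv N R E S X → (∀ z ∈ S, z.1 * N z.1 ≤ 2 * R ^ 2) →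
    (∀ p ∈ G, p.Prime) → (∀ p ∈ G, p ≤ R) → (∀ p ∈ G, R < E * p) →
    (∀ p ∈ G, p * N p ≤ 2 * R ^ 2) →
    (∀ p ∈ G, ∀ z ∈ S, z.1 ≠ p) → (∀ p ∈ G, ∀ z ∈ S, 2 * E * z.1 ≤ 2 * E * p + R) →
    (∀ p ∈ G, ∀ q ∈ G, 2 * E * q ≤ 2 * E * p + R) →
    ∃ S' X', Inv N R E S' X' ∧ S ⊆ S' ∧ (∀ z ∈ S', z ∈ S ∨ z.1 ∈ G) ∧
      (G.filter (fun p => ¬ ∃ z ∈ S', z.1 = p)).card ≤ K0 E ∧
      X' ≤ X + ∑ p ∈ G, st N R E p := by
  induction k with
  | zero =>
    intro S X G hk h _ _ _ _ _ _ _ _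
    refine ⟨S, X, h, subset_rfl, fun z hz => Or.inl hz, ?_, Nat.le_add_right _ _⟩
    exact (Finset.card_filter_le _ _).trans (by omega)
  | succ k ih =>
    intro S X G hk h hN hGp hGle hGgt hGN hGS hst hGG
    by_cases hc : G.card ≤ K0 E
    · exact ⟨S, X, h, subset_rfl, fun z hz => Or.inl hz,
        (Finset.card_filter_le _ _).trans hc, Nat.le_add_right _ _⟩
    · push Not at hc
      obtain ⟨p, hp, a, h'⟩ := extend hE hb1 hb2 hb3 h hN G hGp hGle hGgt hGS hst hc
      obtain ⟨S', X', i1, i2, i3, i4, i5⟩ := ih (insert (p, a) S) (X + st N R E p) (G.erase p)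
        (by rw [Finset.card_erase_of_mem hp]; omega) h'
        (by
          intro z hz
          rcases Finset.mem_insert.1 hz with rfl | hz
          · exact hGN p hp
          · exact hN z hz)
        (fun q hq => hGp q (Finset.mem_of_mem_erase hq))
        (fun q hq => hGle q (Finset.mem_of_mem_erase hq))
        (fun q hq => hGgt q (Finset.mem_of_mem_erase hq))
        (fun q hq => hGN q (Finset.mem_of_mem_erase hq))
        (by
          intro q hq z hz
          rcases Finset.mem_insert.1 hz with rfl | hz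
          · exact (Finset.ne_of_mem_erase hq).symm
          · exact hGS q (Finset.mem_of_mem_erase hq) z hz)
        (by
          intro q hq z hz
          rcases Finset.mem_insert.1 hz with rfl | hz
          · exact hGG q (Finset.mem_of_mem_erase hq) p hp
          · exact hst q (Finset.mem_of_mem_erase hq) z hz)
        (fun q hq q' hq' => hGG q (Finset.mem_of_mem_erase hq) q' (Finset.mem_of_mem_erase hq'))
      refine ⟨S', X', i1, (Finset.subset_insert _ _).trans i2, ?_, ?_, ?_⟩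
      · intro z hz
        rcases i3 z hz with h1 | h1
        · rcases Finset.mem_insert.1 h1 with rfl | h1
          · exact Or.inr hp
          · exact Or.inl h1
        · exact Or.inr (Finset.mem_of_mem_erase h1)
      · refine le_trans (Finset.card_le_card ?_) i4
        intro q hq
        rw [Finset.mem_filter] at hq ⊢
        refine ⟨Finset.mem_erase.2 ⟨?_, hq.1⟩, hq.2⟩
        rintro rfl
        exact hq.2 ⟨(q, a), i2 (Finset.mem_insert_self _ _), rfl⟩
      · rw [← Finset.add_sum_erase _ _ hp]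
        omega

/-- all groups of primes -/
lemma groups {N : ℕ → ℕ} {R E : ℕ} (hE : 0 < E)
    (hb1 : E ^ ((2 * E + 2) + 1) * ((2 * E + 2) * Dc E) ≤ R) (hb2 : E * Dc E ≤ R)
    (hb3 : 16 * E ^ 2 ≤ R) (P : Finset ℕ) (hPp : ∀ p ∈ P, p.Prime) (hPR : ∀ p ∈ P, p ≤ R)
    (hPN : ∀ p ∈ P, p * N p ≤ 2 * R ^ 2) (g : ℕ) :
    ∃ S X, Inv N R E S X ∧ (∀ z ∈ S, z.1 ∈ P ∧ 2 * E * z.1 ≤ g * R) ∧
      ((P.filter (fun p => R < E * p ∧ 2 * E * p ≤ g * R)).filter
        (fun p => ¬ ∃ z ∈ S, z.1 = p)).card ≤ g * K0 E ∧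
      X ≤ ∑ p ∈ P.filter (fun p => R < E * p ∧ 2 * E * p ≤ g * R), st N R E p := by
  induction g with
  | zero =>
    refine ⟨∅, 0, ?_, by simp, ?_, Nat.zero_le _⟩
    · refine ⟨?_, ?_, ?_, ?_, ?_, ?_, ?_⟩ <;> simp
    · rw [Finset.card_eq_zero.2]
      · omega
      · rw [Finset.filter_eq_empty_iff]
        intro p hp
        rw [Finset.mem_filter] at hp
        have h1 := (hPp p hp.1).pos
        have h2 : 0 < 2 * E * p := by positivity
        omega
  | succ g ih =>
    obtain ⟨S, X, h, h1, h2, h3⟩ := ih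
    set G := P.filter (fun p => R < E * p ∧ g * R < 2 * E * p ∧ 2 * E * p ≤ (g + 1) * R) with hG
    obtain ⟨S', X', i1, i2, i3, i4, i5⟩ := group (N := N) hE hb1 hb2 hb3 G.card S X G rfl h
      (fun z hz => hPN _ (h1 z hz).1)
      (fun p hp => hPp p (Finset.mem_filter.1 hp).1)
      (fun p hp => hPR p (Finset.mem_filter.1 hp).1)
      (fun p hp => (Finset.mem_filter.1 hp).2.1)
      (fun p hp => hPN p (Finset.mem_filter.1 hp).1)
      (by
        intro p hp z hz he
        have a1 := (Finset.mem_filter.1 hp).2.2.1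
        have a2 := (h1 z hz).2
        rw [he] at a2
        omega)
      (by
        intro p hp z hz
        have a1 := (Finset.mem_filter.1 hp).2.2.1
        have a2 := (h1 z hz).2
        omega)
      (by
        intro p hp q hq
        have a1 := (Finset.mem_filter.1 hp).2.2.1
        have a2 := (Finset.mem_filter.1 hq).2.2.2
        rw [add_mul, one_mul] at a2
        omega)
    have hle : g * R ≤ (g + 1) * R := Nat.mul_le_mul_right _ (by omega)
    have hunion : P.filter (fun p => R < E * p ∧ 2 * E * p ≤ (g + 1) * R) =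
        P.filter (fun p => R < E * p ∧ 2 * E * p ≤ g * R) ∪ G := by
      ext p
      simp only [hG, Finset.mem_union, Finset.mem_filter]
      constructor
      · rintro ⟨b1, b2, b3⟩
        by_cases hh : 2 * E * p ≤ g * R
        · exact Or.inl ⟨b1, b2, hh⟩
        · exact Or.inr ⟨b1, b2, by omega, b3⟩
      · rintro (⟨b1, b2, b3⟩ | ⟨b1, b2, b3, b4⟩)
        · exact ⟨b1, b2, by omega⟩
        · exact ⟨b1, b2, b4⟩
    have hdis : Disjoint (P.filter (fun p => R < E * p ∧ 2 * E * p ≤ g * R)) G := by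
      rw [Finset.disjoint_left]
      intro p hp hp'
      rw [Finset.mem_filter] at hp
      have := (Finset.mem_filter.1 hp').2.2.1
      omega
    refine ⟨S', X', i1, ?_, ?_, ?_⟩
    · intro z hz
      rcases i3 z hz with b | b
      · have := h1 z b
        exact ⟨this.1, by omega⟩
      · exact ⟨(Finset.mem_filter.1 b).1, (Finset.mem_filter.1 b).2.2.2⟩
    · rw [hunion, Finset.filter_union]
      refine (Finset.card_union_le _ _).trans ?_
      have : ((P.filter (fun p => R < E * p ∧ 2 * E * p ≤ g * R)).filter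
        (fun p => ¬ ∃ z ∈ S', z.1 = p)).card ≤ g * K0 E := by
        refine le_trans (Finset.card_le_card ?_) h2
        intro p hp
        rw [Finset.mem_filter] at hp ⊢
        refine ⟨hp.1, ?_⟩
        rintro ⟨z, hz, hz2⟩
        exact hp.2 ⟨z, i2 hz, hz2⟩
      rw [add_mul, one_mul]
      omega
    · rw [hunion, Finset.sum_union hdis]
      omega

/-- the upper bound -/
theorem upper_gen {N : ℕ → ℕ} {R E : ℕ} (hE : 0 < E)
    (hb1 : E ^ ((2 * E + 2) + 1) * ((2 * E + 2) * Dc E) ≤ R) (hb2 : E * Dc E ≤ R)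
    (hb3 : 16 * E ^ 2 ≤ R) (P : Finset ℕ) (hPp : ∀ p ∈ P, p.Prime) (hPR : ∀ p ∈ P, p ≤ R)
    (hPN : ∀ p ∈ P, p * N p ≤ 2 * R ^ 2) :
    ∃ a : ℕ → ℕ, (∀ p ∈ P, a p + p * N p ≤ ∑ p ∈ P, st N R E p +
        (2 * E * K0 E + (P.filter (fun p => E * p ≤ R)).card + 2) * (2 * R ^ 2)) ∧
      ∀ p ∈ P, ∀ q ∈ P, p ≠ q → ∀ i < N p, ∀ j < N q, a p + i * p ≠ a q + j * q := by
  classical
  obtain ⟨S, X, h, h1, h2, h3⟩ := groups (N := N) hE hb1 hb2 hb3 P hPp hPR hPN (2 * E)
  set U := P.filter (fun p => ¬ ∃ z ∈ S, z.1 = p) with hU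
  set Λ := 2 * R ^ 2 with hΛ
  have hUc : U.card ≤ 2 * E * K0 E + (P.filter (fun p => E * p ≤ R)).card := by
    have hsub : U ⊆ ((P.filter (fun p => R < E * p ∧ 2 * E * p ≤ 2 * E * R)).filter
        (fun p => ¬ ∃ z ∈ S, z.1 = p)) ∪ P.filter (fun p => E * p ≤ R) := by
      intro p hp
      rw [hU, Finset.mem_filter] at hp
      rw [Finset.mem_union, Finset.mem_filter, Finset.mem_filter, Finset.mem_filter]
      by_cases hh : E * p ≤ R
      · exact Or.inr ⟨hp.1, hh⟩
      · exact Or.inl ⟨⟨hp.1, by omega, Nat.mul_le_mul_left _ (hPR p hp.1)⟩, hp.2⟩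
    exact (Finset.card_le_card hsub).trans ((Finset.card_union_le _ _).trans (by omega))
  have hX : X ≤ ∑ p ∈ P, st N R E p :=
    h3.trans (Finset.sum_le_sum_of_subset (Finset.filter_subset _ _))
  set idx : ℕ → ℕ := fun p => (U.filter (fun q => q < p)).card with hidx
  have hidx1 : ∀ p ∈ U, idx p < U.card := by
    intro p hp
    apply Finset.card_lt_card
    rw [Finset.ssubset_iff_of_subset (Finset.filter_subset _ _)]
    exact ⟨p, hp, by simp⟩
  have hidx2 : ∀ p ∈ U, ∀ q ∈ U, p < q → idx p < idx q := by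
    intro p hp q hq hpq
    apply Finset.card_lt_card
    rw [Finset.ssubset_iff_of_subset]
    · exact ⟨p, Finset.mem_filter.2 ⟨hp, hpq⟩, by simp⟩
    · intro r hr
      rw [Finset.mem_filter] at hr ⊢
      exact ⟨hr.1, hr.2.trans hpq⟩
  -- the starting points
  have hex : ∀ p, ∃ a, (∀ z ∈ S, z.1 = p → a = z.2) ∧ ((¬ ∃ z ∈ S, z.1 = p) →
      a = X + Λ + idx p * Λ) := by
    intro p
    by_cases hh : ∃ z ∈ S, z.1 = p
    · obtain ⟨z, hz, hzp⟩ := hh
      refine ⟨z.2, ?_, fun hn => absurd ⟨z, hz, hzp⟩ hn⟩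
      intro z' hz' hzp'
      rw [h.inj z' hz' z hz (hzp'.trans hzp.symm)]
    · exact ⟨_, fun z hz hzp => absurd ⟨z, hz, hzp⟩ hh, fun _ => rfl⟩
  choose a ha1 ha2 using hex
  have hin : ∀ z ∈ S, z.2 + z.1 * N z.1 ≤ X + Λ := by
    intro z hz
    have b1 := h.st z hz
    have b2 := hPN _ (h1 z hz).1
    have b3 : z.1 ^ 2 ≤ R ^ 2 := Nat.pow_le_pow_left (h.le z hz) 2
    generalize R ^ 2 / E + 1 = σ at b1
    omega
  have hlt : ∀ p ∈ P, ∀ i < N p, i * p < p * N p := by
    intro p hp i hi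
    rw [mul_comm]
    exact Nat.mul_lt_mul_of_pos_left hi (hPp p hp).pos
  refine ⟨a, ?_, ?_⟩
  · intro p hp
    by_cases hh : ∃ z ∈ S, z.1 = p
    · obtain ⟨z, hz, rfl⟩ := hh
      rw [ha1 z.1 z hz rfl]
      have := hin z hz
      have b3 : Λ ≤ (2 * E * K0 E + (P.filter (fun p => E * p ≤ R)).card + 2) * Λ :=
        Nat.le_mul_of_pos_left _ (by omega)
      omega
    · rw [ha2 p hh]
      have hpU : p ∈ U := Finset.mem_filter.2 ⟨hp, hh⟩
      have b1 := hidx1 p hpU
      have b2 := hPN p hp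
      have b3 : (idx p + 2) * Λ ≤
          (2 * E * K0 E + (P.filter (fun p => E * p ≤ R)).card + 2) * Λ :=
        Nat.mul_le_mul_right _ (by omega)
      have b4 : (idx p + 2) * Λ = idx p * Λ + 2 * Λ := by ring
      omega
  · intro p hp q hq hpq i hi j hj
    by_cases hh : ∃ z ∈ S, z.1 = p
    · obtain ⟨z, hz, rfl⟩ := hh
      rw [ha1 z.1 z hz rfl]
      by_cases hh' : ∃ z ∈ S, z.1 = q
      · obtain ⟨z', hz', rfl⟩ := hh'
        rw [ha1 z'.1 z' hz' rfl]
        exact h.dis z hz z' hz' (fun hne => hpq (by rw [hne])) i hi j hj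
      · rw [ha2 q hh']
        have c1 := hin z hz
        have c2 := hlt z.1 hp i hi
        omega
    · rw [ha2 p hh]
      by_cases hh' : ∃ z ∈ S, z.1 = q
      · obtain ⟨z', hz', rfl⟩ := hh'
        rw [ha1 z'.1 z' hz' rfl]
        have c1 := hin z' hz'
        have c2 := hlt z'.1 hq j hj
        omega
      · rw [ha2 q hh']
        have hpU : p ∈ U := Finset.mem_filter.2 ⟨hp, hh⟩
        have hqU : q ∈ U := Finset.mem_filter.2 ⟨hq, hh'⟩
        have c1 := hlt p hp i hi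
        have c2 := hlt q hq j hj
        have c3 := hPN p hp
        have c4 := hPN q hq
        rcases lt_or_gt_of_ne hpq with hlt' | hlt'
        · have c5 := hidx2 p hpU q hqU hlt'
          have c6 : (idx p + 1) * Λ ≤ idx q * Λ := Nat.mul_le_mul_right _ (by omega)
          rw [add_mul, one_mul] at c6
          omega
        · have c5 := hidx2 q hqU p hpU hlt'
          have c6 : (idx q + 1) * Λ ≤ idx p * Λ := Nat.mul_le_mul_right _ (by omega)
          rw [add_mul, one_mul] at c6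
          omega

end Pool.Agent.V11185.PPack
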