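import Pool.Agent.V11185.PPackD
import Pool.Agent.Cov.PNT

/-!
Packing progressions with prime differences: sums over primes from the prime number theorem.
-/

set_option autoImplicit false

namespace Pool.Agent.V11185.PPack

open Finset Filter Topology

/-- `π(⌊t n⌋) log n / n → t` -/
lemma pi_mul_tendsto (t : ℝ) (ht : 0 ≤ t) :
    Tendsto (fun n : ℕ => (Nat.primeCounting ⌊t * n⌋₊ : ℝ) * Real.log n / n) atTop (𝓝 t) := by
  rcases ht.eq_or_lt with rfl | ht
  · simp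
  · have h1 : Tendsto (fun n : ℕ => t * (n : ℝ)) atTop atTop :=
      (tendsto_natCast_atTop_atTop (R := ℝ)).const_mul_atTop ht
    have h2 := Pool.Agent.Cov.PNT.pi_tendsto.comp h1
    have hlog : Tendsto (fun n : ℕ => Real.log n) atTop atTop :=
      Real.tendsto_log_atTop.comp tendsto_natCast_atTop_atTop
    have h3 : Tendsto (fun n : ℕ => Real.log (t * n) / Real.log n) atTop (𝓝 1) := by
      have h4 : Tendsto (fun n : ℕ => 1 + Real.log t * (Real.log n)⁻¹) atTop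
          (𝓝 (1 + Real.log t * 0)) :=
        tendsto_const_nhds.add ((tendsto_inv_atTop_zero.comp hlog).const_mul _)
      rw [mul_zero, add_zero] at h4
      refine h4.congr' ?_
      filter_upwards [eventually_ge_atTop 2] with n hn
      have hn0 : (n : ℝ) ≠ 0 := by positivity
      have hl : Real.log n ≠ 0 := (Real.log_pos (by exact_mod_cast hn)).ne'
      rw [Real.log_mul ht.ne' hn0, add_div, div_self hl]
      ring
    have h5 := ((h2.div h3 one_ne_zero).const_mul t)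
    rw [div_one, mul_one] at h5
    refine h5.congr' ?_
    filter_upwards [eventually_ge_atTop 2, (Real.tendsto_log_atTop.comp h1).eventually_gt_atTop 0]
      with n hn hl2
    have hn0 : (n : ℝ) ≠ 0 := by positivity
    have hl : Real.log n ≠ 0 := (Real.log_pos (by exact_mod_cast hn)).ne'
    have hl3 : Real.log (t * n) ≠ 0 := hl2.ne'
    simp only [Function.comp_apply, Pi.div_apply]
    field_simp

/-- the sum of the `k`-th powers of the primes up to `x` -/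
noncomputable def psum (k : ℕ) (x : ℝ) : ℝ := ∑ p ∈ primesLE ⌊x⌋₊, (p : ℝ) ^ k

lemma psum_step (k : ℕ) {x y : ℝ} (hx : 0 ≤ x) (hxy : x ≤ y) :
    psum k y - psum k x ≤ y ^ k * ((Nat.primeCounting ⌊y⌋₊ : ℝ) - Nat.primeCounting ⌊x⌋₊) ∧
    x ^ k * ((Nat.primeCounting ⌊y⌋₊ : ℝ) - Nat.primeCounting ⌊x⌋₊) ≤ psum k y - psum k x := by
  have hsub : primesLE ⌊x⌋₊ ⊆ primesLE ⌊y⌋₊ := by
    intro p hp
    unfold primesLE at hp ⊢
    rw [mem_filter, mem_Icc] at hp ⊢
    exact ⟨⟨hp.1.1, hp.1.2.trans (Nat.floor_mono hxy)⟩, hp.2⟩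
  have h1 : psum k y - psum k x = ∑ p ∈ primesLE ⌊y⌋₊ \ primesLE ⌊x⌋₊, (p : ℝ) ^ k := by
    unfold psum
    rw [← Finset.sum_sdiff hsub]
    ring
  have h2 : ((Nat.primeCounting ⌊y⌋₊ : ℝ) - Nat.primeCounting ⌊x⌋₊) =
      ((primesLE ⌊y⌋₊ \ primesLE ⌊x⌋₊).card : ℝ) := by
    rw [Finset.card_sdiff_of_subset hsub, Nat.cast_sub (Finset.card_le_card hsub),
      card_primesLE, card_primesLE]
  have hmem : ∀ p ∈ primesLE ⌊y⌋₊ \ primesLE ⌊x⌋₊, x ≤ (p : ℝ) ∧ (p : ℝ) ≤ y := by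
    intro p hp
    unfold primesLE at hp
    rw [Finset.mem_sdiff, Finset.mem_filter, Finset.mem_filter, Finset.mem_Icc, Finset.mem_Icc] at hp
    obtain ⟨⟨⟨a1, a2⟩, a3⟩, a4⟩ := hp
    constructor
    · have : ⌊x⌋₊ < p := by
        by_contra h
        push Not at h
        exact a4 ⟨⟨a1, h⟩, a3⟩
      exact ((Nat.floor_lt hx).1 this).le
    · exact (Nat.le_floor_iff (hx.trans hxy)).1 a2
  rw [h1, h2]
  constructor
  · rw [mul_comm, ← nsmul_eq_mul]
    apply Finset.sum_le_card_nsmul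
    intro p hp
    exact pow_le_pow_left₀ (Nat.cast_nonneg _) (hmem p hp).2 k
  · rw [mul_comm, ← nsmul_eq_mul]
    apply Finset.card_nsmul_le_sum
    intro p hp
    exact pow_le_pow_left₀ hx (hmem p hp).1 k

lemma pow_diff (k : ℕ) (j : ℝ) (hj : 0 ≤ j) :
    (j + 1) ^ (k + 1) - j ^ (k + 1) ≤ (k + 1) * (j + 1) ^ k ∧
    (k + 1) * j ^ k ≤ (j + 1) ^ (k + 1) - j ^ (k + 1) := by
  induction k with
  | zero => simp
  | succ k ih =>
    obtain ⟨h1, h2⟩ := ih
    have e : (j + 1) ^ (k + 1 + 1) - j ^ (k + 1 + 1) =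
        (j + 1) * ((j + 1) ^ (k + 1) - j ^ (k + 1)) + j ^ (k + 1) := by ring
    have e' : (j + 1) ^ (k + 1 + 1) - j ^ (k + 1 + 1) =
        j * ((j + 1) ^ (k + 1) - j ^ (k + 1)) + (j + 1) ^ (k + 1) := by ring
    have hjj : j ^ (k + 1) ≤ (j + 1) ^ (k + 1) := pow_le_pow_left₀ hj (by linarith) _
    constructor
    · rw [e]
      have := mul_le_mul_of_nonneg_left h1 (by linarith : 0 ≤ j + 1)
      have e2 : ((k + 1 : ℕ) : ℝ) + 1 = (k : ℝ) + 1 + 1 := by push_cast; ring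
      rw [e2]
      have e3 : ((k : ℝ) + 1 + 1) * (j + 1) ^ (k + 1) =
          (j + 1) * (((k : ℝ) + 1) * (j + 1) ^ k) + (j + 1) ^ (k + 1) := by ring
      rw [e3]
      linarith
    · rw [e']
      have := mul_le_mul_of_nonneg_left h2 hj
      have e2 : ((k + 1 : ℕ) : ℝ) + 1 = (k : ℝ) + 1 + 1 := by push_cast; ring
      rw [e2]
      have e3 : ((k : ℝ) + 1 + 1) * j ^ (k + 1) =
          j * (((k : ℝ) + 1) * j ^ k) + j ^ (k + 1) := by ring
      rw [e3]
      linarith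

lemma riemann (k J : ℕ) (hJ : 0 < J) :
    ∑ j ∈ range J, (((j + 1 : ℕ) : ℝ) / J) ^ k * (1 / J) ≤ 1 / (k + 1) + 1 / J ∧
    1 / (k + 1) - 1 / J ≤ ∑ j ∈ range J, ((j : ℝ) / J) ^ k * (1 / J) := by
  have hJ' : (0 : ℝ) < J := by exact_mod_cast hJ
  have hk : (0 : ℝ) < (k : ℝ) + 1 := by positivity
  -- difference of the two sums
  have h1 : ∑ j ∈ range J, (((j + 1 : ℕ) : ℝ) / J) ^ k * (1 / J) -
      ∑ j ∈ range J, ((j : ℝ) / J) ^ k * (1 / J) ≤ 1 / J := by
    rw [← Finset.sum_sub_distrib, Finset.sum_range_sub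
      (fun j : ℕ => ((j : ℝ) / J) ^ k * (1 / J)) J, div_self hJ'.ne', one_pow, one_mul]
    have : 0 ≤ (((0 : ℕ) : ℝ) / J) ^ k * (1 / J) := by positivity
    linarith
  have h2 : ∑ j ∈ range J, ((j : ℝ) / J) ^ k * (1 / J) ≤ 1 / (k + 1) := by
    have e : ∀ j ∈ range J, ((j : ℝ) / J) ^ k * (1 / J) ≤
        (((j + 1 : ℕ) : ℝ) ^ (k + 1) - (j : ℝ) ^ (k + 1)) / ((k + 1) * J ^ (k + 1)) := by
      intro j _
      have := (pow_diff k j (Nat.cast_nonneg _)).2
      rw [div_pow, div_mul_div_comm, mul_one, ← pow_succ,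
        div_le_div_iff₀ (by positivity) (by positivity)]
      push_cast
      calc (j : ℝ) ^ k * ((k + 1) * J ^ (k + 1)) = ((k + 1) * j ^ k) * J ^ (k + 1) := by ring
        _ ≤ _ := mul_le_mul_of_nonneg_right this (by positivity)
    refine (Finset.sum_le_sum e).trans ?_
    rw [← Finset.sum_div, Finset.sum_range_sub (fun j : ℕ => (j : ℝ) ^ (k + 1)) J]
    rw [div_le_div_iff₀ (by positivity) hk]
    simp only [Nat.cast_zero, zero_pow (Nat.succ_ne_zero k), sub_zero, one_mul]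
    exact le_of_eq (by ring)
  have h3 : 1 / (k + 1) ≤ ∑ j ∈ range J, (((j + 1 : ℕ) : ℝ) / J) ^ k * (1 / J) := by
    have e : ∀ j ∈ range J, (((j + 1 : ℕ) : ℝ) ^ (k + 1) - (j : ℝ) ^ (k + 1)) /
        ((k + 1) * J ^ (k + 1)) ≤ (((j + 1 : ℕ) : ℝ) / J) ^ k * (1 / J) := by
      intro j _
      have := (pow_diff k j (Nat.cast_nonneg _)).1
      rw [div_pow, div_mul_div_comm, mul_one, ← pow_succ,
        div_le_div_iff₀ (by positivity) (by positivity)]
      push_cast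
      calc (((j : ℝ) + 1) ^ (k + 1) - (j : ℝ) ^ (k + 1)) * J ^ (k + 1) ≤
          ((k + 1) * (j + 1) ^ k) * J ^ (k + 1) :=
            mul_le_mul_of_nonneg_right this (by positivity)
        _ = _ := by ring
    refine le_trans ?_ (Finset.sum_le_sum e)
    rw [← Finset.sum_div, Finset.sum_range_sub (fun j : ℕ => (j : ℝ) ^ (k + 1)) J]
    rw [div_le_div_iff₀ hk (by positivity)]
    simp only [Nat.cast_zero, zero_pow (Nat.succ_ne_zero k), sub_zero, one_mul]
    exact le_of_eq (by ring)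
  constructor <;> linarith

/-- `(∑_{p ≤ n} p ^ k) log n / n ^ (k + 1) → 1 / (k + 1)` -/
theorem psum_tendsto (k : ℕ) :
    Tendsto (fun n : ℕ => (∑ p ∈ primesLE n, (p : ℝ) ^ k) * Real.log n / (n : ℝ) ^ (k + 1))
      atTop (𝓝 (1 / (k + 1))) := by
  rw [Metric.tendsto_atTop']
  intro ε hε
  obtain ⟨J', hJ'⟩ := exists_nat_one_div_lt (half_pos hε)
  set J := J' + 1 with hJdef
  have hJ0 : 0 < J := Nat.succ_pos _
  have hJr : (0 : ℝ) < J := by exact_mod_cast hJ0
  have hJe : (1 : ℝ) / J < ε / 2 := by rw [hJdef]; push_cast; exact hJ'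
  set u : ℕ → ℕ → ℝ := fun j n =>
    (Nat.primeCounting ⌊((j : ℝ) / J) * n⌋₊ : ℝ) * Real.log n / n with hu
  have hut : ∀ j, Tendsto (u j) atTop (𝓝 ((j : ℝ) / J)) := fun j =>
    pi_mul_tendsto _ (by positivity)
  have hup : Tendsto (fun n => ∑ j ∈ range J, (((j + 1 : ℕ) : ℝ) / J) ^ k * (u (j + 1) n - u j n))
      atTop (𝓝 (∑ j ∈ range J, (((j + 1 : ℕ) : ℝ) / J) ^ k * (1 / J))) := by
    apply tendsto_finsetSum
    intro j _
    have := ((hut (j + 1)).sub (hut j)).const_mul ((((j + 1 : ℕ) : ℝ) / J) ^ k)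
    have e : (((j + 1 : ℕ) : ℝ) / J) - (j : ℝ) / J = 1 / J := by push_cast; ring
    rwa [e] at this
  have hlo : Tendsto (fun n => ∑ j ∈ range J, ((j : ℝ) / J) ^ k * (u (j + 1) n - u j n))
      atTop (𝓝 (∑ j ∈ range J, ((j : ℝ) / J) ^ k * (1 / J))) := by
    apply tendsto_finsetSum
    intro j _
    have := ((hut (j + 1)).sub (hut j)).const_mul (((j : ℝ) / J) ^ k)
    have e : (((j + 1 : ℕ) : ℝ) / J) - (j : ℝ) / J = 1 / J := by push_cast; ring
    rwa [e] at this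
  obtain ⟨hr1, hr2⟩ := riemann k J hJ0
  have h1 := hup.eventually (gt_mem_nhds (show _ < _ + ε / 2 from lt_add_of_pos_right _ (half_pos hε)))
  have h2 := hlo.eventually (lt_mem_nhds (show _ - ε / 2 < _ from sub_lt_self _ (half_pos hε)))
  obtain ⟨n0, hn0⟩ := ((h1.and h2).and (eventually_ge_atTop 2)).exists_forall_of_atTop
  refine ⟨n0, fun n hn => ?_⟩
  obtain ⟨⟨h1, h2⟩, hn2⟩ := hn0 n hn.le
  have hn1 : (0 : ℝ) < n := by positivity
  have hlog : 0 < Real.log n := Real.log_pos (by exact_mod_cast hn2)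
  have hsum : ∑ p ∈ primesLE n, (p : ℝ) ^ k =
      ∑ j ∈ range J, (psum k (((j + 1 : ℕ) : ℝ) / J * n) - psum k (((j : ℕ) : ℝ) / J * n)) := by
    rw [Finset.sum_range_sub (fun j : ℕ => psum k ((j : ℝ) / J * n)) J, div_self hJr.ne', one_mul]
    unfold psum
    simp [primesLE]
  have hc : ∀ x : ℝ, (x * n) ^ k * Real.log n / (n : ℝ) ^ (k + 1) = x ^ k * (Real.log n / n) := by
    intro x
    rw [mul_pow, pow_succ]
    field_simp
  have hpos : 0 < Real.log n / (n : ℝ) ^ (k + 1) := by positivity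
  have hA : (∑ p ∈ primesLE n, (p : ℝ) ^ k) * Real.log n / (n : ℝ) ^ (k + 1) ≤
      ∑ j ∈ range J, (((j + 1 : ℕ) : ℝ) / J) ^ k * (u (j + 1) n - u j n) := by
    rw [hsum, mul_div_assoc, Finset.sum_mul]
    apply Finset.sum_le_sum
    intro j _
    have hxy : ((j : ℕ) : ℝ) / J * n ≤ ((j + 1 : ℕ) : ℝ) / J * n := by
      apply mul_le_mul_of_nonneg_right _ hn1.le
      apply div_le_div_of_nonneg_right _ hJr.le
      exact_mod_cast Nat.le_succ j
    have := mul_le_mul_of_nonneg_right (psum_step k (by positivity) hxy).1 hpos.le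
    refine this.trans (le_of_eq ?_)
    have h3 := hc (((j + 1 : ℕ) : ℝ) / J)
    simp only [hu]
    calc _ = ((((j + 1 : ℕ) : ℝ) / J * n) ^ k * Real.log n / (n : ℝ) ^ (k + 1)) *
        ((Nat.primeCounting ⌊((j + 1 : ℕ) : ℝ) / J * n⌋₊ : ℝ) -
          Nat.primeCounting ⌊((j : ℕ) : ℝ) / J * n⌋₊) := by ring
      _ = _ := by rw [h3]; ring
  have hB : ∑ j ∈ range J, ((j : ℝ) / J) ^ k * (u (j + 1) n - u j n) ≤
      (∑ p ∈ primesLE n, (p : ℝ) ^ k) * Real.log n / (n : ℝ) ^ (k + 1) := by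
    rw [hsum, mul_div_assoc, Finset.sum_mul]
    apply Finset.sum_le_sum
    intro j _
    have hxy : ((j : ℕ) : ℝ) / J * n ≤ ((j + 1 : ℕ) : ℝ) / J * n := by
      apply mul_le_mul_of_nonneg_right _ hn1.le
      apply div_le_div_of_nonneg_right _ hJr.le
      exact_mod_cast Nat.le_succ j
    have := mul_le_mul_of_nonneg_right (psum_step k (by positivity) hxy).2 hpos.le
    refine le_trans (le_of_eq ?_) this
    have h3 := hc (((j : ℕ) : ℝ) / J)
    simp only [hu]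
    symm
    calc _ = ((((j : ℕ) : ℝ) / J * n) ^ k * Real.log n / (n : ℝ) ^ (k + 1)) *
        ((Nat.primeCounting ⌊((j + 1 : ℕ) : ℝ) / J * n⌋₊ : ℝ) -
          Nat.primeCounting ⌊((j : ℕ) : ℝ) / J * n⌋₊) := by ring
      _ = _ := by rw [h3]; ring
  rw [Real.dist_eq, abs_lt]
  constructor <;> linarith

end Pool.Agent.V11185.PPack
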