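import Pool.Agent.V11185.PPackF

/-!
Packing the progressions with all differences up to `n`: a lower bound beating `1 / 6`.
-/

set_option autoImplicit false

namespace Pool.Agent.V11185.PPack

open Finset Filter Topology

/-- two disjoint progressions which are compatible modulo the gcd of the differences: the later
one must start late -/
lemma two_prog' {d e n : ℕ} (hd : 0 < d) (hde : d ≤ n) {b c : ℤ} (hle : b ≤ c)
    (hg : (Nat.gcd d e : ℤ) ∣ b - c)
    (hdis : ∀ i < n, ∀ j < n, b + i * d ≠ c + j * e) :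
    b + d * n ≤ c + d * e := by
  by_contra hlt
  push Not at hlt
  obtain ⟨k, hk⟩ := hg
  have hbez := Nat.gcd_eq_gcd_ab d e
  rw [hbez] at hk
  have hd' : (0 : ℤ) < d := by exact_mod_cast hd
  set j : ℤ := (Nat.gcdB d e * k) % d with hj
  have hj0 : 0 ≤ j := Int.emod_nonneg _ hd'.ne'
  have hj1 : j < d := Int.emod_lt_of_pos _ hd'
  have h2 : (d : ℤ) ∣ (c + j * e) - b := by
    have h3 : Nat.gcdB d e * k = d * ((Nat.gcdB d e * k) / d) + j := by
      rw [hj]; exact (Int.mul_ediv_add_emod _ _).symm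
    refine ⟨-(Nat.gcdA d e * k) - (e : ℤ) * ((Nat.gcdB d e * k) / d), ?_⟩
    have h4 : j = Nat.gcdB d e * k - d * ((Nat.gcdB d e * k) / d) := by omega
    rw [h4]
    have h5 : c = b - (↑d * Nat.gcdA d e + ↑e * Nat.gcdB d e) * k := by
      rw [← hk]; ring
    rw [h5]
    ring
  obtain ⟨i, hi⟩ := h2
  have hje : 0 ≤ j * e := mul_nonneg hj0 (Int.natCast_nonneg _)
  have hi0 : 0 ≤ i := by
    by_contra hneg
    push Not at hneg
    have h3 : (d : ℤ) * i < 0 := mul_neg_of_pos_of_neg hd' hneg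
    omega
  have hje2 : j * e ≤ d * e := mul_le_mul_of_nonneg_right hj1.le (Int.natCast_nonneg _)
  have hje3 : j * e + e ≤ d * e := by nlinarith [Int.natCast_nonneg e]
  have hi2 : i < n := by
    by_contra hge
    push Not at hge
    have h5 : (d : ℤ) * n ≤ d * i := mul_le_mul_of_nonneg_left hge hd'.le
    have := Int.natCast_nonneg e
    omega
  obtain ⟨i', rfl⟩ := Int.eq_ofNat_of_zero_le hi0
  obtain ⟨j', hj'⟩ := Int.eq_ofNat_of_zero_le hj0
  rw [hj'] at hi hj1
  refine hdis i' (by exact_mod_cast hi2) j' (by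
    have : (j' : ℤ) < d := hj1
    have : j' < d := by exact_mod_cast this
    omega) ?_
  rw [mul_comm (i' : ℤ)]
  linarith

lemma lower_aux' {n : ℕ} {d : ℕ → ℕ} {b : ℕ → ℤ} (P : Finset ℕ) :
    (∀ p ∈ P, 0 < d p) → (∀ p ∈ P, d p ≤ n) → (∀ p ∈ P, 0 ≤ b p) →
    (∀ p ∈ P, ∀ q ∈ P, p ≠ q → (Nat.gcd (d p) (d q) : ℤ) ∣ b p - b q) →
    (∀ p ∈ P, ∀ q ∈ P, p ≠ q → ∀ i < n, ∀ j < n, b p + i * d p ≠ b q + j * d q) →
    P = ∅ ∨ ∃ q ∈ P, (∀ p ∈ P, b p ≤ b q) ∧
      2 * ∑ p ∈ P.erase q, ((d p : ℤ) * n - d p ^ 2) ≤ 2 * b q + d q ^ 2 := by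
  induction P using Finset.induction_on_max_value b with
  | empty => intros; exact Or.inl rfl
  | insert q s hq hmax ih =>
    intro hP hN hb hg hdis
    right
    refine ⟨q, mem_insert_self _ _, ?_, ?_⟩
    · intro p hp
      rcases mem_insert.1 hp with rfl | hp
      · exact le_rfl
      · exact hmax p hp
    · rw [erase_insert hq]
      rcases ih (fun p hp => hP p (mem_insert_of_mem hp))
        (fun p hp => hN p (mem_insert_of_mem hp))
        (fun p hp => hb p (mem_insert_of_mem hp))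
        (fun p hp r hr => hg p (mem_insert_of_mem hp) r (mem_insert_of_mem hr))
        (fun p hp r hr => hdis p (mem_insert_of_mem hp) r (mem_insert_of_mem hr))
        with h | ⟨p, hp, h1, h2⟩
      · subst h
        have := hb q (mem_insert_self _ _)
        simp only [sum_empty, mul_zero]
        positivity
      · have hne : p ≠ q := fun h => hq (h ▸ hp)
        have h3 := two_prog' (hP p (mem_insert_of_mem hp)) (hN p (mem_insert_of_mem hp))
          (hmax p hp) (hg p (mem_insert_of_mem hp) q (mem_insert_self _ _) hne)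
          (hdis p (mem_insert_of_mem hp) q (mem_insert_self _ _) hne)
        rw [← Finset.add_sum_erase _ _ hp]
        nlinarith [sq_nonneg ((d p : ℤ) - d q)]

/-- the lower bound for compatible families -/
theorem lower_gen' {n : ℕ} {d : ℕ → ℕ} {b : ℕ → ℤ} (P : Finset ℕ) (m : ℤ)
    (hm : 0 ≤ m) (hP : ∀ p ∈ P, 2 ≤ d p) (hn : ∀ p ∈ P, d p ≤ n) (hb : ∀ p ∈ P, 0 ≤ b p)
    (hg : ∀ p ∈ P, ∀ q ∈ P, p ≠ q → (Nat.gcd (d p) (d q) : ℤ) ∣ b p - b q)
    (hdis : ∀ p ∈ P, ∀ q ∈ P, p ≠ q → ∀ i < n, ∀ j < n, b p + i * d p ≠ b q + j * d q)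
    (hbm : ∀ p ∈ P, b p + d p * n ≤ m + d p) :
    ∑ p ∈ P, ((d p : ℤ) * n - d p ^ 2) ≤ m := by
  rcases lower_aux' P (fun p hp => by have := hP p hp; omega) hn hb hg hdis with
    h | ⟨q, hq, h4, h5⟩
  · subst h
    simpa using hm
  · rw [← Finset.add_sum_erase _ _ hq]
    have h6 := hbm q hq
    have h8 : (2 : ℤ) ≤ d q := by exact_mod_cast hP q hq
    nlinarith

/-- odd primes up to `n` -/
def oddP (n : ℕ) : Finset ℕ := (primesLE n).erase 2

lemma oddP_prime {n p : ℕ} (h : p ∈ oddP n) : p.Prime ∧ p ≠ 2 ∧ p ≤ n :=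
  ⟨(mem_filter.1 (mem_of_mem_erase h)).2, ne_of_mem_erase h, primesLE_le (mem_of_mem_erase h)⟩

lemma gcd_two_mul {p q : ℕ} (hp : p.Prime) (hq : q.Prime) (hpq : p ≠ q) :
    Nat.gcd (2 * p) (2 * q) = 2 := by
  rw [Nat.gcd_mul_left, (Nat.coprime_primes hp hq).2 hpq]

lemma gcd_two_mul' {p q : ℕ} (hp : p.Prime) (hq : q.Prime) (hpq : p ≠ q) (hq2 : q ≠ 2) :
    Nat.gcd (2 * p) q = 1 := by
  have h1 : Nat.Coprime 2 q := (Nat.coprime_primes Nat.prime_two hq).2 (Ne.symm hq2)
  have h2 : Nat.Coprime p q := (Nat.coprime_primes hp hq).2 hpq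
  exact Nat.Coprime.mul_left h1 h2

/-- one parity class -/
lemma parity_bound {n : ℕ} {m : ℕ} {b : ℕ → ℤ} (hb : ∀ d ∈ Icc 1 n, 0 ≤ b d)
    (hbm : ∀ d ∈ Icc 1 n, b d + d * n ≤ m + d)
    (hdis : ∀ d ∈ Icc 1 n, ∀ e ∈ Icc 1 n, d ≠ e → ∀ i < n, ∀ j < n, b d + i * d ≠ b e + j * e)
    (T : Finset ℕ) (hT : T ⊆ oddP n) (hT2 : ∀ p ∈ T, 2 * p ≤ n) (ε : ℤ)
    (hpar : ∀ p ∈ T, (2 : ℤ) ∣ b (2 * p) - ε) :
    ∑ p ∈ oddP n, ((p : ℤ) * n - p ^ 2) + ∑ p ∈ T, ((p : ℤ) * n - 3 * p ^ 2) ≤ m := by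
  classical
  set d : ℕ → ℕ := fun p => if p ∈ T then 2 * p else p with hd
  have hd1 : ∀ p ∈ oddP n, d p ∈ Icc 1 n := by
    intro p hp
    obtain ⟨h1, h2, h3⟩ := oddP_prime hp
    have := h1.pos
    simp only [hd]
    split_ifs with h
    · have := hT2 p h
      rw [mem_Icc]; omega
    · rw [mem_Icc]; omega
  have hdinj : ∀ p ∈ oddP n, ∀ q ∈ oddP n, p ≠ q → d p ≠ d q := by
    intro p hp q hq hpq
    obtain ⟨h1, h2, h3⟩ := oddP_prime hp
    obtain ⟨h1', h2', h3'⟩ := oddP_prime hq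
    have o1 := h1.odd_of_ne_two h2
    have o2 := h1'.odd_of_ne_two h2'
    obtain ⟨u, hu⟩ := o1
    obtain ⟨v, hv⟩ := o2
    simp only [hd]
    split_ifs <;> omega
  have key := lower_gen' (n := n) (d := d) (b := fun p => b (d p)) (oddP n) (m : ℤ)
    (Int.natCast_nonneg _)
    (by
      intro p hp
      obtain ⟨h1, h2, h3⟩ := oddP_prime hp
      have := h1.two_le
      simp only [hd]
      split_ifs <;> omega)
    (fun p hp => (mem_Icc.1 (hd1 p hp)).2)
    (fun p hp => hb _ (hd1 p hp))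
    (by
      intro p hp q hq hpq
      obtain ⟨h1, h2, h3⟩ := oddP_prime hp
      obtain ⟨h1', h2', h3'⟩ := oddP_prime hq
      by_cases hpT : p ∈ T
      · by_cases hqT : q ∈ T
        · have e1 : d p = 2 * p := if_pos hpT
          have e2 : d q = 2 * q := if_pos hqT
          rw [e1, e2, gcd_two_mul h1 h1' hpq]
          have := dvd_sub (hpar p hpT) (hpar q hqT)
          simpa using this
        · have e1 : d p = 2 * p := if_pos hpT
          have e2 : d q = q := if_neg hqT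
          rw [e1, e2, gcd_two_mul' h1 h1' hpq h2']
          simp
      · by_cases hqT : q ∈ T
        · have e1 : d p = p := if_neg hpT
          have e2 : d q = 2 * q := if_pos hqT
          rw [e1, e2, Nat.gcd_comm, gcd_two_mul' h1' h1 (Ne.symm hpq) h2]
          simp
        · have e1 : d p = p := if_neg hpT
          have e2 : d q = q := if_neg hqT
          rw [e1, e2, (Nat.coprime_primes h1 h1').2 hpq]
          simp)
    (fun p hp q hq hpq => hdis _ (hd1 p hp) _ (hd1 q hq) (hdinj p hp q hq hpq))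
    (fun p hp => hbm _ (hd1 p hp))
  refine le_trans (le_of_eq ?_) key
  have h1 : ∑ p ∈ T, ((p : ℤ) * n - 3 * p ^ 2) =
      ∑ p ∈ oddP n, (if p ∈ T then ((p : ℤ) * n - 3 * p ^ 2) else 0) := by
    rw [Finset.sum_ite_mem, Finset.inter_eq_right.2 hT]
  rw [h1, ← Finset.sum_add_distrib]
  apply Finset.sum_congr rfl
  intro p _
  simp only [hd]
  split_ifs
  · push_cast; ring
  · ring

/-- the lower bound for the family of all differences -/
theorem all_lower {n m : ℕ} (h : Packs (Icc 1 n) (fun d => mult d n) m) :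
    2 * ∑ p ∈ oddP n, ((p : ℤ) * n - p ^ 2) + ∑ p ∈ oddP (n / 3), ((p : ℤ) * n - 3 * p ^ 2) ≤
      2 * m := by
  classical
  obtain ⟨s, h1, h2⟩ := h
  have hmem : ∀ p, ∀ i < n, (i + 1) * p ∈ mult p n := by
    intro p i hi
    unfold mult
    rw [mem_image]
    exact ⟨i + 1, by rw [mem_Icc]; omega, rfl⟩
  set b : ℕ → ℤ := fun d => s d + d with hb
  have hb0 : ∀ d ∈ Icc 1 n, 0 ≤ b d := by
    intro d hd
    have hn : 0 < n := by rw [mem_Icc] at hd; omega
    have := h1 d hd _ (hmem d 0 hn)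
    push_cast at this
    simp only [hb]
    omega
  have hbm : ∀ d ∈ Icc 1 n, b d + d * n ≤ m + d := by
    intro d hd
    have hn : 0 < n := by rw [mem_Icc] at hd; omega
    have := h1 d hd _ (hmem d (n - 1) (by omega))
    rw [Nat.sub_add_cancel hn] at this
    push_cast at this
    simp only [hb]
    rw [mul_comm (n : ℤ)] at this
    omega
  have hdis : ∀ d ∈ Icc 1 n, ∀ e ∈ Icc 1 n, d ≠ e → ∀ i < n, ∀ j < n,
      b d + i * d ≠ b e + j * e := by
    intro d hd e he hde i hi j hj heq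
    have := h2 d hd e he hde _ (hmem d i hi) _ (hmem e j hj)
    apply this
    simp only [hb] at heq
    push_cast
    linarith
  have hsub : oddP (n / 3) ⊆ oddP n := by
    intro p hp
    have h3 := oddP_prime hp
    unfold oddP primesLE
    rw [mem_erase, mem_filter, mem_Icc]
    exact ⟨h3.2.1, ⟨h3.1.pos, h3.2.2.trans (Nat.div_le_self _ _)⟩, h3.1⟩
  have hT2 : ∀ p ∈ oddP (n / 3), 2 * p ≤ n := by
    intro p hp
    have h3 := (oddP_prime hp).2.2
    omega
  have k0 := parity_bound hb0 hbm hdis ((oddP (n / 3)).filter (fun p => (2 : ℤ) ∣ b (2 * p)))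
    ((filter_subset _ _).trans hsub) (fun p hp => hT2 p (mem_filter.1 hp).1) 0
    (fun p hp => by simpa using (mem_filter.1 hp).2)
  have k1 := parity_bound hb0 hbm hdis ((oddP (n / 3)).filter (fun p => ¬ (2 : ℤ) ∣ b (2 * p)))
    ((filter_subset _ _).trans hsub) (fun p hp => hT2 p (mem_filter.1 hp).1) 1
    (fun p hp => by
      have := (mem_filter.1 hp).2
      omega)
  have k2 := Finset.sum_filter_add_sum_filter_not (oddP (n / 3))
    (fun p => (2 : ℤ) ∣ b (2 * p)) (fun p => ((p : ℤ) * n - 3 * p ^ 2))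
  linarith

end Pool.Agent.V11185.PPack
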