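import Mathlib
import Pool.Agent.Helper236.Lin

/-!
# The deletion complex of connected simple regular matroids
-/

set_option autoImplicit false

namespace Pool.Agent.V11185.RegComplex

open Set Pool.Agent.Helper236

/-- `M` is regular: representable over every field. -/
def IsRegular {α : Type} (M : Matroid α) : Prop := ∀ (F : Type) [Field F], Representable F M

/-- `M` is connected: nonempty and not a direct sum of two nonempty matroids. -/
def IsConnected {α : Type} (M : Matroid α) : Prop :=
  M.E.Nonempty ∧ ∀ A B : Set α, A.Nonempty → B.Nonempty → Disjoint A B → A ∪ B = M.E →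
    ¬ ∀ I ⊆ M.E, M.Indep I ↔ M.Indep (I ∩ A) ∧ M.Indep (I ∩ B)

/-- A generating symbol `[M, η]` of `C n`: a connected simple regular matroid `M` with `n` elements
(labelled by natural numbers) and the orientation `η = l 0 ∧ l 1 ∧ ⋯ ∧ l (n - 1)`, where `l` lists
the elements of `M` without repetition. -/
structure Symb (n : ℕ) where
  M : Matroid ℕ
  l : Fin n → ℕ
  inj : Function.Injective l
  ground : range l = M.E
  simple : IsSimple M
  regular : IsRegular M
  connected : IsConnected M

/-- The bijection `l i ↦ l' (σ i)` is an isomorphism of the underlying matroids; it maps the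
orientation of `s` to `sign σ` times the orientation of `s'`. -/
def IsoVia {n : ℕ} (σ : Equiv.Perm (Fin n)) (s s' : Symb n) : Prop :=
  ∀ I : Set (Fin n), s.M.Indep (s.l '' I) ↔ s'.M.Indep (s'.l '' (σ '' I))

/-- The relations `[M, η] = [M', φ η]` for isomorphisms `φ : M → M'`, where `[M', -η'] = -[M', η']`:
if `l i ↦ l' (σ i)` is an isomorphism, then `[M, l] = sign σ • [M', l']`. -/
noncomputable def relations (n : ℕ) : Submodule ℚ (Symb n →₀ ℚ) :=
  Submodule.span ℚ {x | ∃ (σ : Equiv.Perm (Fin n)) (s s' : Symb n), IsoVia σ s s' ∧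
    x = Finsupp.single s 1 - Finsupp.single s' (((Equiv.Perm.sign σ : ℤˣ) : ℤ) : ℚ)}

/-- The vector space `C n`. -/
abbrev Chain (n : ℕ) : Type := (Symb n →₀ ℚ) ⧸ relations n

/-- The class of a symbol in `C n`. -/
noncomputable def cls {n : ℕ} (s : Symb n) : Chain n :=
  (relations n).mkQ (Finsupp.single s 1)

theorem IsSimple.delete {α : Type} {M : Matroid α} (h : IsSimple M) (D : Set α) :
    IsSimple (M.delete D) := by
  intro e he f hf
  rw [Matroid.delete_ground] at he hf
  rw [Matroid.delete_indep_iff]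
  refine ⟨h e he.1 f hf.1, ?_⟩
  rw [disjoint_left]
  rintro x (rfl | rfl)
  · exact he.2
  · exact hf.2

theorem IsRegular.delete {α : Type} {M : Matroid α} (h : IsRegular M) (D : Set α) :
    IsRegular (M.delete D) := by
  intro F _
  obtain ⟨n, v, hv⟩ := h F
  refine ⟨n, v, fun I hI => ?_⟩
  rw [Matroid.delete_ground] at hI
  rw [Matroid.delete_indep_iff, hv I (hI.trans sdiff_subset)]
  refine and_iff_left ?_
  rw [disjoint_left]
  exact fun x hx => (hI hx).2

/-- The symbol `[M \ l x, l 0 ∧ ⋯ (without l x) ⋯ ∧ l n]`. -/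
def Symb.del {n : ℕ} (s : Symb (n + 1)) (x : Fin (n + 1))
    (h : IsConnected (s.M.delete {s.l x})) : Symb n where
  M := s.M.delete {s.l x}
  l := s.l ∘ x.succAbove
  inj := s.inj.comp (Fin.succAbove_right_injective)
  ground := by
    rw [range_comp, Fin.range_succAbove, Matroid.delete_ground, ← s.ground,
      image_compl_eq_range_sdiff_image s.inj, image_singleton]
  simple := IsSimple.delete s.simple _
  regular := IsRegular.delete s.regular _
  connected := h

open Classical in
/-- The term `[M \ l x, l 0 ∧ ⋯ (without l x) ⋯ ∧ l n]`, which is zero if `l x` is a coloop of `M`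
or `M \ l x` is disconnected. -/
noncomputable def term {n : ℕ} (s : Symb (n + 1)) (x : Fin (n + 1)) : Chain n :=
  if h : ¬ s.M.IsColoop (s.l x) ∧ IsConnected (s.M.delete {s.l x}) then cls (s.del x h.2) else 0

/-- The boundary of a symbol: the sum of `[M \ e, ι_e η]` over all elements `e` that are not
coloops; for `e = l x` and `η = l 0 ∧ ⋯ ∧ l n` the interior product `ι_e η` is `(-1) ^ x` times
`l 0 ∧ ⋯ (without l x) ⋯ ∧ l n`. -/
noncomputable def bd {n : ℕ} (s : Symb (n + 1)) : Chain n :=
  ∑ x : Fin (n + 1), (-1 : ℚ) ^ (x : ℕ) • term s x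

/-! ### Relations -/

theorem cls_eq {n : ℕ} {σ : Equiv.Perm (Fin n)} {s s' : Symb n} (h : IsoVia σ s s') :
    cls s = (((Equiv.Perm.sign σ : ℤˣ) : ℤ) : ℚ) • cls s' := by
  rw [cls, cls, ← map_smul, Submodule.mkQ_apply, Submodule.mkQ_apply, Submodule.Quotient.eq]
  refine Submodule.subset_span ⟨σ, s, s', h, ?_⟩
  rw [Finsupp.smul_single, smul_eq_mul, mul_one]

/-- connectedness in terms of a listing of the elements -/
def ConnFin {n : ℕ} (P : Set (Fin n) → Prop) : Prop :=
  Nonempty (Fin n) ∧ ∀ A B : Set (Fin n), A.Nonempty → B.Nonempty → Disjoint A B →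
    A ∪ B = univ → ¬ ∀ I : Set (Fin n), P I ↔ P (I ∩ A) ∧ P (I ∩ B)

theorem isConnected_iff {n : ℕ} {M : Matroid ℕ} {l : Fin n → ℕ} (hl : Function.Injective l)
    (hr : range l = M.E) : IsConnected M ↔ ConnFin fun I : Set (Fin n) => M.Indep (l '' I) := by
  rw [IsConnected, ConnFin, ← hr, range_nonempty_iff_nonempty]
  refine and_congr_right fun _ => ?_
  constructor
  · intro h A B hA hB hAB hU hI
    refine h (l '' A) (l '' B) (hA.image l) (hB.image l) ((disjoint_image_iff hl).2 hAB) ?_ ?_
    · rw [← image_union, hU, image_univ]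
    · intro I hIr
      obtain ⟨J, rfl⟩ := subset_range_iff_exists_image_eq.1 hIr
      rw [← image_inter hl, ← image_inter hl]
      exact hI J
  · intro h A B hA hB hAB hU hI
    obtain ⟨A', rfl⟩ := subset_range_iff_exists_image_eq.1 (subset_union_left.trans hU.subset)
    obtain ⟨B', rfl⟩ := subset_range_iff_exists_image_eq.1 (subset_union_right.trans hU.subset)
    refine h A' B' (image_nonempty.1 hA) (image_nonempty.1 hB) ((disjoint_image_iff hl).1 hAB) ?_ ?_
    · apply hl.image_injective
      rw [image_union, hU, image_univ]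
    · intro J
      rw [image_inter hl, image_inter hl]
      exact hI _ (image_subset_range _ _)

theorem ConnFin.congr {n : ℕ} {P Q : Set (Fin n) → Prop} (π : Equiv.Perm (Fin n))
    (h : ∀ I, P I ↔ Q (π '' I)) (hP : ConnFin P) : ConnFin Q := by
  refine ⟨hP.1, ?_⟩
  intro A B hA hB hAB hU hI
  refine hP.2 (π ⁻¹' A) (π ⁻¹' B) (hA.preimage π.surjective) (hB.preimage π.surjective)
    (hAB.preimage _) ?_ ?_
  · rw [← preimage_union, hU, preimage_univ]
  · intro I
    rw [h, h, h, image_inter π.injective, image_inter π.injective,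
      image_preimage_eq _ π.surjective, image_preimage_eq _ π.surjective]
    exact hI _

theorem connFin_congr {n : ℕ} {P Q : Set (Fin n) → Prop} (π : Equiv.Perm (Fin n))
    (h : ∀ I, P I ↔ Q (π '' I)) : ConnFin P ↔ ConnFin Q := by
  refine ⟨ConnFin.congr π h, ConnFin.congr π.symm fun I => ?_⟩
  rw [h, ← image_comp]
  simp

theorem isColoop_iff {n : ℕ} (s : Symb n) (x : Fin n) :
    s.M.IsColoop (s.l x) ↔ ∀ I : Set (Fin n), s.M.Indep (s.l '' I) →
      s.M.Indep (s.l '' (insert x I)) := by
  constructor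
  · intro h I hI
    rw [image_insert_eq]
    exact h.insert_indep_of_indep hI
  · intro h
    rw [Matroid.isColoop_iff_forall_mem_isBase]
    intro B hB
    obtain ⟨J, hJ⟩ := subset_range_iff_exists_image_eq.1 (hB.subset_ground.trans s.ground.symm.subset)
    have h1 := h J (by rw [hJ]; exact hB.indep)
    rw [image_insert_eq, hJ] at h1
    exact hB.mem_of_insert_indep h1

theorem indep_del {n : ℕ} (s : Symb (n + 1)) (x : Fin (n + 1)) (I : Set (Fin n)) :
    (s.M.delete {s.l x}).Indep ((s.l ∘ x.succAbove) '' I) ↔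
      s.M.Indep ((s.l ∘ x.succAbove) '' I) := by
  rw [Matroid.delete_indep_iff]
  refine and_iff_left ?_
  rw [disjoint_left]
  rintro _ ⟨i, _, rfl⟩ h
  exact Fin.succAbove_ne x i (s.inj h)

/-- isomorphic deletions -/
theorem term_eq {n : ℕ} {s s' : Symb (n + 1)} {x x' : Fin (n + 1)} (π : Equiv.Perm (Fin n))
    (hc : s.M.IsColoop (s.l x) ↔ s'.M.IsColoop (s'.l x'))
    (h : ∀ I : Set (Fin n), s.M.Indep ((s.l ∘ x.succAbove) '' I) ↔
      s'.M.Indep ((s'.l ∘ x'.succAbove) '' (π '' I))) :
    term s x = (((Equiv.Perm.sign π : ℤˣ) : ℤ) : ℚ) • term s' x' := by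
  have hr : ∀ (s : Symb (n + 1)) (x : Fin (n + 1)),
      range (s.l ∘ x.succAbove) = (s.M.delete {s.l x}).E := by
    intro s x
    rw [range_comp, Fin.range_succAbove, Matroid.delete_ground, ← s.ground,
      image_compl_eq_range_sdiff_image s.inj, image_singleton]
  have hconn : IsConnected (s.M.delete {s.l x}) ↔ IsConnected (s'.M.delete {s'.l x'}) := by
    rw [isConnected_iff (s.inj.comp (Fin.succAbove_right_injective (p := x))) (hr s x),
      isConnected_iff (s'.inj.comp (Fin.succAbove_right_injective (p := x'))) (hr s' x')]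
    apply connFin_congr π
    intro I
    rw [indep_del, indep_del]
    exact h I
  by_cases hx : ¬ s.M.IsColoop (s.l x) ∧ IsConnected (s.M.delete {s.l x})
  · have hx' : ¬ s'.M.IsColoop (s'.l x') ∧ IsConnected (s'.M.delete {s'.l x'}) := by
      rw [← hc, ← hconn]
      exact hx
    rw [term, term, dif_pos hx, dif_pos hx']
    apply cls_eq
    intro I
    change (s.M.delete {s.l x}).Indep ((s.l ∘ x.succAbove) '' I) ↔
      (s'.M.delete {s'.l x'}).Indep ((s'.l ∘ x'.succAbove) '' (π '' I))
    rw [indep_del, indep_del]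
    exact h I
  · have hx' : ¬ (¬ s'.M.IsColoop (s'.l x') ∧ IsConnected (s'.M.delete {s'.l x'})) := by
      rw [← hc, ← hconn]
      exact hx
    rw [term, term, dif_neg hx, dif_neg hx', smul_zero]

/-- the permutation induced on the complement of a point -/
def induced {n : ℕ} (σ : Equiv.Perm (Fin (n + 1))) (x : Fin (n + 1)) : Equiv.Perm (Fin n) :=
  (finSuccAboveEquiv x).trans ((σ.subtypeEquiv fun y => by
    rw [not_iff_not, σ.apply_eq_iff_eq]).trans (finSuccAboveEquiv (σ x)).symm)

theorem induced_spec {n : ℕ} (σ : Equiv.Perm (Fin (n + 1))) (x : Fin (n + 1)) (i : Fin n) :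
    (σ x).succAbove (induced σ x i) = σ (x.succAbove i) := by
  have h1 : finSuccAboveEquiv (σ x) (induced σ x i) =
      (σ.subtypeEquiv fun y => by rw [not_iff_not, σ.apply_eq_iff_eq]) (finSuccAboveEquiv x i) := by
    rw [induced, Equiv.trans_apply, Equiv.trans_apply, Equiv.apply_symm_apply]
  have h2 := congrArg Subtype.val h1
  rw [finSuccAboveEquiv_apply] at h2
  exact h2

theorem sign_induced {n : ℕ} (σ : Equiv.Perm (Fin (n + 1))) (x : Fin (n + 1)) :
    Equiv.Perm.sign (induced σ x) =
      (-1) ^ (x : ℕ) * (-1) ^ ((σ x : Fin (n + 1)) : ℕ) * Equiv.Perm.sign σ := by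
  have h1 : x.cycleRange.symm.trans (σ.trans (σ x).cycleRange) =
      Equiv.Perm.decomposeFin.symm (0, induced σ x) := by
    ext i
    refine Fin.cases ?_ (fun j => ?_) i
    · rw [Equiv.Perm.decomposeFin_symm_apply_zero]
      simp
    · rw [Equiv.Perm.decomposeFin_symm_apply_succ, Equiv.swap_self, Equiv.refl_apply]
      simp only [Equiv.trans_apply]
      have h2 : x.cycleRange.symm j.succ = x.succAbove j := by
        rw [Equiv.symm_apply_eq, Fin.cycleRange_succAbove]
      rw [h2, ← induced_spec, Fin.cycleRange_succAbove]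
  have h3 := congrArg Equiv.Perm.sign h1
  rw [Equiv.Perm.sign_trans, Equiv.Perm.sign_trans, Equiv.Perm.sign_symm, Fin.sign_cycleRange,
    Fin.sign_cycleRange, Equiv.Perm.decomposeFin.symm_sign, if_pos rfl, one_mul] at h3
  rw [← h3]
  ac_rfl

theorem bd_eq {n : ℕ} {σ : Equiv.Perm (Fin (n + 1))} {s s' : Symb (n + 1)} (h : IsoVia σ s s') :
    bd s = (((Equiv.Perm.sign σ : ℤˣ) : ℤ) : ℚ) • bd s' := by
  rw [bd, bd, Finset.smul_sum, ← Equiv.sum_comp σ (fun x =>
    (((Equiv.Perm.sign σ : ℤˣ) : ℤ) : ℚ) • ((-1 : ℚ) ^ (x : ℕ) • term s' x))]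
  refine Finset.sum_congr rfl fun x _ => ?_
  have hc : s.M.IsColoop (s.l x) ↔ s'.M.IsColoop (s'.l (σ x)) := by
    rw [isColoop_iff, isColoop_iff]
    constructor
    · intro h1 I hI
      have h2 := h1 (σ ⁻¹' I) (by rw [h, image_preimage_eq _ σ.surjective]; exact hI)
      rw [h, image_insert_eq, image_preimage_eq _ σ.surjective] at h2
      exact h2
    · intro h1 I hI
      rw [h, image_insert_eq]
      exact h1 _ ((h I).1 hI)
  have h1 := term_eq (s := s) (s' := s') (x := x) (x' := σ x) (induced σ x) hc (by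
    intro I
    have h2 : (s'.l ∘ (σ x).succAbove) '' (induced σ x '' I) =
        s'.l '' (σ '' (x.succAbove '' I)) := by
      rw [← image_comp, ← image_comp, ← image_comp]
      apply image_congr
      intro i _
      simp only [Function.comp_apply, induced_spec]
    rw [h2, ← h, image_comp])
  rw [h1, sign_induced, smul_smul, smul_smul]
  congr 1
  push_cast
  have h3 : ((-1 : ℚ) ^ (x : ℕ)) * (-1) ^ (x : ℕ) = 1 := by
    rw [← mul_pow]
    norm_num
  linear_combination ((-1 : ℚ) ^ ((σ x : Fin (n + 1)) : ℕ) *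
    (((Equiv.Perm.sign σ : ℤˣ) : ℤ) : ℚ)) * h3

/-- The boundary map `C (n + 1) → C n`. -/
noncomputable def boundary (n : ℕ) : Chain (n + 1) →ₗ[ℚ] Chain n :=
  (relations (n + 1)).liftQ (Finsupp.linearCombination ℚ bd) (by
    rw [relations, Submodule.span_le]
    rintro _ ⟨σ, s, s', h, rfl⟩
    rw [SetLike.mem_coe, LinearMap.mem_ker, map_sub, Finsupp.linearCombination_single,
      Finsupp.linearCombination_single, one_smul, sub_eq_zero]
    exact bd_eq h)

theorem boundary_cls {n : ℕ} (s : Symb (n + 1)) : boundary n (cls s) = bd s := by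
  rw [boundary, cls, Submodule.mkQ_apply, Submodule.liftQ_apply, Finsupp.linearCombination_single,
    one_smul]

/-! ### The special classes -/

/-- `M` is isomorphic to `U_{1,1}`: it has one element, which is a coloop. -/
def IsU11 (M : Matroid ℕ) : Prop := ∃ e, M.E = {e} ∧ M.Indep {e}

/-- The edges of the wheel with `g` spokes: `Sum.inl i` is the spoke joining the hub `none` to the
rim vertex `some i`, and `Sum.inr i` is the rim edge joining `some i` and `some (i + 1)`. -/
def wheelEdge (g : ℕ) : ZMod g ⊕ ZMod g → Sym2 (Option (ZMod g))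
  | Sum.inl i => s(none, some i)
  | Sum.inr i => s(some i, some (i + 1))

/-- `M` is isomorphic to the cycle matroid of the wheel with `g` spokes (`g ≥ 3`): its elements
correspond to the edges so that a set is independent iff the edges form a forest. -/
def IsWheel (g : ℕ) (M : Matroid ℕ) : Prop :=
  ∃ e : M.E ≃ ZMod g ⊕ ZMod g, ∀ I : Set M.E, M.Indep ((↑) '' I) ↔
    (SimpleGraph.fromEdgeSet (wheelEdge g '' (e '' I))).IsAcyclic

/-- The classes of `U_{1,1}` and of the wheels of odd genus, with all orientations. -/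
def special (n : ℕ) : Set (Chain n) :=
  {c | ∃ s : Symb n, (IsU11 s.M ∨ ∃ k ≥ 1, IsWheel (2 * k + 1) s.M) ∧ c = cls s}

theorem special_odd {n : ℕ} (hn : Odd n) (h1 : n ≠ 1) : special n = ∅ := by
  rw [eq_empty_iff_forall_notMem]
  rintro c ⟨s, hs, -⟩
  have hcard : s.M.E.ncard = n := by
    rw [← s.ground, ← image_univ, ncard_image_of_injective _ s.inj, ncard_univ, Nat.card_fin]
  rcases hs with ⟨e, he, -⟩ | ⟨k, -, e, -⟩
  · rw [he, ncard_singleton] at hcard
    exact h1 hcard.symm
  · rw [← Nat.card_coe_set_eq, Nat.card_congr e, Nat.card_sum, Nat.card_zmod] at hcard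
    rw [← hcard] at hn
    exact (Nat.not_odd_iff_even.2 ⟨2 * k + 1, rfl⟩) hn

end Pool.Agent.V11185.RegComplex
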