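import Pool.Agent.V11185.RegLin

/-!
# The five duals of cubic graphs: tables
-/

set_option autoImplicit false

namespace Pool.Agent.V11185.RegData

open Pool.Agent.V11185.RegLin

def posT : List (List ℕ) := [
  [1, 2, 4, 8, 16, 32, 4, 3, 40, 16, 4, 1, 8, 16, 0],
  [1, 2, 4, 8, 16, 32, 16, 40, 5, 2, 16, 0, 40, 1, 0],
  [1, 2, 4, 8, 16, 32, 36, 10, 17, 4, 32, 10, 0, 1, 0],
  [1, 2, 4, 8, 16, 32, 56, 3, 0, 24, 3, 0, 4, 8, 0],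
  [1, 2, 4, 8, 16, 32, 33, 18, 8, 36, 1, 16, 8, 1, 0]]

def negT : List (List ℕ) := [
  [0, 0, 0, 0, 0, 0, 11, 32, 4, 10, 17, 32, 4, 8, 17],
  [0, 0, 0, 0, 0, 0, 9, 20, 32, 9, 2, 20, 0, 32, 9],
  [0, 0, 0, 0, 0, 0, 19, 36, 8, 3, 16, 0, 36, 8, 3],
  [0, 0, 0, 0, 0, 0, 1, 32, 26, 1, 0, 14, 16, 1, 12],
  [0, 0, 0, 0, 0, 0, 16, 9, 34, 0, 20, 9, 32, 16, 9]]

def liftT : List (List ℕ) := [
  [0, 0, 0, 2, 0, 0, 0, 2, 0, 8, 8, 2, 0, 0, 12, 2, 0, 16, 0, 18, 0, 16, 0, 18, 0, 24, 24, 26, 0, 28, 0, 30, 0, 0, 0, 2, 0, 0, 0, 0, 32, 8, 8, 8, 0, 0, 12, 2, 0, 16, 0, 18, 0, 16, 0, 18, 32, 24, 24, 24, 0, 28, 0, 30],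
  [0, 0, 0, 0, 0, 4, 0, 4, 0, 8, 0, 8, 0, 12, 0, 12, 0, 0, 0, 0, 16, 4, 4, 4, 0, 24, 0, 26, 24, 12, 4, 12, 0, 0, 0, 0, 0, 0, 0, 0, 32, 8, 32, 8, 8, 8, 36, 8, 0, 0, 0, 0, 16, 4, 36, 4, 32, 8, 32, 8, 24, 24, 36, 12],
  [0, 0, 0, 2, 0, 0, 0, 6, 0, 0, 8, 2, 0, 0, 8, 2, 0, 16, 16, 18, 0, 16, 0, 22, 0, 16, 24, 2, 0, 0, 24, 2, 0, 0, 0, 34, 32, 32, 32, 34, 0, 0, 8, 2, 32, 32, 40, 34, 0, 48, 0, 50, 48, 48, 48, 50, 0, 0, 56, 2, 56, 48, 56, 50],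
  [0, 0, 0, 2, 0, 0, 4, 2, 0, 0, 8, 2, 8, 4, 8, 6, 0, 0, 16, 2, 0, 0, 20, 2, 16, 16, 8, 2, 8, 20, 8, 22, 0, 0, 0, 2, 0, 0, 4, 2, 32, 0, 8, 2, 8, 4, 8, 6, 32, 0, 16, 2, 32, 0, 20, 2, 16, 16, 8, 34, 8, 20, 8, 22],
  [0, 0, 0, 0, 0, 0, 0, 0, 0, 8, 0, 10, 0, 8, 0, 10, 0, 0, 16, 0, 16, 0, 16, 0, 0, 8, 0, 10, 24, 8, 4, 10, 0, 32, 32, 32, 32, 32, 32, 32, 0, 40, 0, 40, 40, 40, 4, 40, 0, 0, 48, 32, 48, 32, 48, 32, 0, 40, 0, 42, 56, 40, 56, 42]]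

def coefT : List ℤ := [-3, 3, 6, 2, -4]

def repT : List (ℕ × ℕ) := [(0, 0), (0, 1), (0, 2), (0, 3), (0, 2), (0, 5), (0, 1), (0, 7), (0, 1), (0, 9), (0, 10), (0, 1), (0, 12), (0, 13), (0, 3), (1, 0), (1, 1), (1, 2), (1, 3), (1, 4), (1, 5), (1, 4), (1, 2), (1, 2), (1, 9), (1, 10), (1, 2), (1, 4), (1, 4), (0, 7), (2, 0), (2, 1), (2, 2), (2, 3), (2, 4), (1, 4), (1, 4), (2, 7), (2, 2), (2, 9), (2, 10), (0, 3), (2, 12), (0, 1), (0, 1), (2, 2), (2, 2), (2, 10), (2, 10), (2, 2), (3, 5), (3, 6), (3, 7), (0, 2), (0, 2), (0, 2), (2, 2), (2, 2), (2, 2), (2, 10), (4, 0), (4, 1), (4, 2), (1, 2), (4, 4), (1, 2), (2, 10), (4, 7), (4, 8), (4, 9), (4, 10), (2, 10), (1, 2), (2, 10), (4, 14)]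

def sgT : List ℤ := [0, 1, 1, 1, 1, 0, 1, 1, 1, 0, 0, 1, 0, 0, 1, 0, 0, 1, 0, 1, 0, 1, 1, 1, 0, 0, 1, 1, 1, 1, 0, 0, 1, 0, 0, -1, -1, 0, 1, 0, 1, 1, 0, 1, 1, -1, -1, 1, 1, -1, 0, 0, 0, 1, 1, 1, -1, -1, -1, 1, 0, 0, 0, 1, 0, 1, 1, 0, 0, 0, 0, 1, 1, 1, 0]

def piT : List (List ℕ) := [
  [6, 1, 11, 4, 3, 8, 0, 12, 5, 9, 10, 2, 7, 13],
  [0, 1, 2, 3, 4, 5, 6, 7, 8, 9, 10, 11, 12, 13],
  [0, 1, 2, 3, 4, 5, 6, 7, 8, 9, 10, 11, 12, 13],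
  [0, 1, 2, 3, 4, 5, 6, 7, 8, 9, 10, 11, 12, 13],
  [11, 5, 3, 13, 4, 1, 6, 10, 8, 12, 7, 0, 9, 2],
  [0, 5, 3, 2, 13, 1, 6, 10, 8, 12, 7, 11, 9, 4],
  [11, 5, 3, 13, 1, 4, 6, 10, 8, 12, 7, 0, 9, 2],
  [0, 1, 2, 3, 4, 5, 6, 7, 8, 9, 10, 11, 12, 13],
  [9, 7, 3, 2, 1, 8, 10, 6, 4, 0, 5, 12, 11, 13],
  [11, 6, 13, 4, 3, 5, 1, 7, 10, 9, 8, 0, 12, 2],
  [0, 11, 9, 12, 4, 10, 6, 8, 7, 2, 5, 1, 3, 13],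
  [12, 10, 1, 13, 3, 8, 7, 6, 5, 4, 11, 9, 0, 2],
  [13, 9, 5, 3, 4, 2, 7, 6, 8, 1, 11, 10, 12, 0],
  [6, 1, 2, 3, 9, 8, 0, 11, 5, 4, 13, 7, 12, 10],
  [12, 10, 2, 13, 3, 8, 7, 6, 5, 4, 11, 1, 9, 0],
  [0, 1, 4, 3, 2, 5, 6, 7, 8, 9, 10, 11, 12, 13],
  [0, 1, 2, 3, 4, 5, 6, 7, 9, 8, 10, 11, 12, 13],
  [0, 1, 2, 3, 4, 5, 6, 7, 8, 9, 10, 11, 12, 13],
  [4, 1, 2, 3, 0, 5, 6, 7, 8, 9, 10, 11, 12, 13],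
  [0, 1, 2, 3, 4, 5, 6, 7, 8, 9, 10, 11, 12, 13],
  [3, 1, 2, 0, 4, 5, 6, 7, 8, 9, 10, 11, 12, 13],
  [3, 8, 6, 0, 5, 4, 2, 10, 1, 9, 7, 12, 11, 13],
  [2, 8, 6, 0, 5, 4, 3, 10, 1, 9, 7, 12, 11, 13],
  [0, 8, 7, 2, 5, 4, 3, 10, 1, 9, 6, 11, 12, 13],
  [0, 9, 2, 3, 4, 5, 6, 7, 8, 1, 10, 11, 12, 13],
  [0, 9, 2, 3, 4, 5, 6, 7, 8, 1, 10, 11, 12, 13],
  [8, 0, 7, 1, 12, 9, 11, 10, 6, 2, 4, 3, 5, 13],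
  [8, 3, 6, 1, 11, 9, 12, 2, 7, 0, 4, 10, 5, 13],
  [1, 0, 2, 8, 12, 9, 11, 6, 10, 3, 4, 7, 5, 13],
  [7, 6, 2, 10, 9, 5, 12, 4, 3, 1, 8, 13, 0, 11],
  [2, 1, 0, 3, 4, 5, 6, 7, 8, 9, 10, 11, 12, 13],
  [2, 1, 0, 3, 4, 5, 6, 7, 8, 9, 10, 11, 12, 13],
  [0, 1, 2, 3, 4, 5, 6, 7, 8, 9, 10, 11, 12, 13],
  [1, 0, 2, 3, 4, 5, 6, 7, 8, 9, 10, 11, 12, 13],
  [3, 1, 11, 0, 4, 5, 8, 9, 6, 7, 13, 2, 12, 10],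
  [0, 3, 1, 4, 2, 5, 6, 7, 8, 9, 11, 10, 12, 13],
  [3, 4, 6, 0, 8, 5, 2, 1, 10, 9, 12, 7, 13, 11],
  [0, 1, 8, 3, 4, 9, 11, 7, 2, 5, 10, 6, 12, 13],
  [0, 2, 7, 1, 8, 5, 4, 11, 3, 9, 10, 6, 13, 12],
  [1, 0, 9, 3, 11, 5, 6, 8, 7, 2, 12, 4, 10, 13],
  [0, 1, 2, 3, 4, 5, 6, 7, 8, 9, 10, 11, 12, 13],
  [13, 2, 8, 3, 10, 1, 7, 11, 4, 5, 6, 12, 0, 9],
  [0, 1, 2, 3, 8, 7, 10, 5, 4, 9, 6, 11, 12, 13],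
  [8, 5, 1, 6, 12, 2, 0, 4, 10, 13, 3, 7, 11, 9],
  [8, 6, 10, 5, 13, 0, 2, 11, 1, 12, 3, 7, 4, 9],
  [4, 5, 8, 6, 1, 2, 0, 12, 10, 13, 3, 7, 11, 9],
  [4, 5, 9, 7, 0, 2, 1, 10, 12, 13, 11, 6, 3, 8],
  [7, 11, 6, 4, 3, 0, 1, 13, 12, 10, 2, 9, 8, 5],
  [9, 2, 6, 8, 0, 3, 1, 10, 12, 13, 11, 7, 4, 5],
  [3, 7, 8, 9, 0, 1, 2, 10, 13, 12, 6, 11, 4, 5],
  [12, 4, 13, 3, 1, 5, 6, 7, 9, 8, 11, 10, 0, 2],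
  [1, 0, 2, 13, 11, 5, 6, 8, 7, 9, 12, 4, 10, 3],
  [11, 2, 1, 10, 9, 5, 6, 12, 8, 4, 3, 0, 7, 13],
  [10, 4, 5, 6, 8, 3, 2, 13, 12, 0, 11, 9, 1, 7],
  [4, 10, 5, 7, 9, 13, 2, 3, 12, 0, 1, 8, 11, 6],
  [9, 11, 6, 5, 1, 2, 3, 13, 0, 12, 4, 10, 8, 7],
  [6, 11, 9, 5, 3, 2, 0, 1, 13, 12, 10, 4, 7, 8],
  [7, 3, 8, 5, 11, 2, 1, 0, 13, 10, 12, 4, 6, 9],
  [11, 6, 9, 8, 4, 1, 0, 2, 12, 13, 10, 7, 3, 5],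
  [2, 9, 6, 5, 7, 1, 3, 0, 12, 10, 13, 4, 8, 11],
  [0, 1, 2, 13, 4, 5, 6, 7, 8, 9, 10, 11, 12, 3],
  [0, 1, 2, 3, 4, 5, 7, 6, 8, 9, 10, 11, 12, 13],
  [0, 1, 2, 3, 4, 5, 6, 7, 9, 8, 10, 11, 12, 13],
  [7, 4, 9, 6, 3, 13, 2, 0, 1, 8, 11, 12, 5, 10],
  [13, 1, 2, 3, 4, 5, 6, 7, 8, 9, 10, 11, 12, 0],
  [9, 0, 7, 3, 8, 11, 2, 4, 10, 6, 13, 12, 5, 1],
  [3, 2, 8, 10, 0, 7, 9, 5, 6, 4, 13, 11, 12, 1],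
  [0, 7, 2, 3, 4, 5, 6, 1, 8, 9, 10, 11, 12, 13],
  [0, 7, 2, 3, 4, 5, 6, 1, 8, 9, 10, 11, 12, 13],
  [0, 1, 9, 3, 4, 5, 6, 7, 8, 2, 10, 11, 12, 13],
  [0, 1, 9, 3, 4, 5, 6, 7, 8, 2, 10, 11, 12, 13],
  [2, 6, 1, 11, 9, 10, 12, 4, 8, 3, 0, 7, 13, 5],
  [0, 10, 1, 12, 2, 3, 5, 6, 7, 9, 8, 11, 13, 4],
  [6, 3, 5, 7, 4, 11, 13, 0, 1, 2, 9, 12, 10, 8],
  [4, 1, 2, 3, 0, 5, 6, 7, 8, 9, 10, 11, 12, 13]]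

def gT : List (List ℕ) := [
  [49, 35, 4, 12, 32, 16],
  [1, 2, 4, 8, 16, 32],
  [1, 2, 4, 8, 16, 32],
  [1, 2, 4, 8, 16, 32],
  [12, 15, 16, 17, 4, 32],
  [1, 15, 8, 4, 17, 45],
  [12, 15, 16, 17, 4, 32],
  [1, 2, 4, 8, 16, 32],
  [21, 44, 16, 8, 4, 26],
  [12, 15, 17, 16, 8, 32],
  [1, 12, 26, 24, 16, 33],
  [24, 33, 4, 17, 16, 26],
  [17, 26, 32, 8, 16, 4],
  [15, 2, 4, 8, 26, 44],
  [24, 33, 4, 17, 16, 26],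
  [41, 2, 4, 32, 16, 8],
  [1, 27, 4, 8, 16, 32],
  [1, 2, 4, 8, 16, 32],
  [32, 2, 4, 41, 16, 1],
  [1, 2, 4, 8, 16, 32],
  [8, 2, 4, 1, 16, 41],
  [8, 11, 60, 1, 25, 32],
  [8, 11, 60, 1, 25, 32],
  [1, 11, 37, 8, 25, 32],
  [1, 18, 4, 8, 16, 32],
  [1, 11, 4, 8, 16, 32],
  [11, 1, 37, 2, 33, 18],
  [11, 8, 60, 2, 40, 18],
  [2, 1, 4, 11, 33, 18],
  [44, 15, 4, 33, 21, 32],
  [11, 8, 4, 2, 16, 32],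
  [8, 11, 4, 1, 16, 32],
  [1, 2, 4, 8, 16, 32],
  [2, 1, 4, 11, 16, 32],
  [8, 2, 36, 1, 57, 32],
  [1, 8, 2, 32, 4, 22],
  [8, 32, 60, 1, 11, 25],
  [1, 2, 7, 8, 16, 48],
  [1, 8, 25, 2, 7, 55],
  [2, 1, 48, 8, 36, 32],
  [1, 2, 4, 8, 16, 32],
  [17, 4, 26, 16, 33, 2],
  [1, 2, 4, 8, 25, 46],
  [26, 15, 4, 35, 24, 8],
  [26, 35, 33, 15, 17, 1],
  [35, 32, 55, 7, 46, 2],
  [32, 35, 55, 48, 25, 1],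
  [46, 36, 23, 55, 16, 8],
  [7, 4, 55, 23, 25, 1],
  [16, 25, 7, 48, 35, 1],
  [9, 16, 12, 8, 2, 58],
  [2, 1, 4, 12, 20, 32],
  [20, 4, 2, 14, 3, 32],
  [33, 32, 15, 35, 26, 16],
  [32, 33, 15, 44, 21, 17],
  [21, 12, 35, 15, 2, 8],
  [46, 36, 48, 55, 16, 8],
  [25, 16, 7, 55, 36, 8],
  [36, 46, 48, 7, 32, 2],
  [4, 7, 55, 32, 46, 2],
  [24, 2, 4, 8, 9, 32],
  [1, 51, 4, 8, 16, 32],
  [1, 2, 53, 8, 16, 32],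
  [37, 32, 18, 49, 60, 16],
  [9, 2, 4, 8, 24, 32],
  [18, 1, 37, 16, 11, 49],
  [8, 4, 25, 10, 1, 46],
  [1, 42, 4, 8, 16, 32],
  [1, 27, 4, 8, 16, 32],
  [1, 2, 21, 8, 16, 32],
  [1, 2, 36, 8, 16, 32],
  [4, 55, 2, 36, 7, 10],
  [1, 20, 2, 33, 8, 16],
  [55, 8, 32, 46, 16, 36],
  [16, 2, 4, 8, 1, 32]]

def gInvT : List (List ℕ) := [
  [49, 35, 4, 12, 32, 16],
  [1, 2, 4, 8, 16, 32],
  [1, 2, 4, 8, 16, 32],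
  [1, 2, 4, 8, 16, 32],
  [12, 15, 16, 17, 4, 32],
  [1, 15, 8, 4, 17, 45],
  [12, 15, 16, 17, 4, 32],
  [1, 2, 4, 8, 16, 32],
  [21, 44, 16, 8, 4, 26],
  [12, 15, 17, 16, 8, 32],
  [1, 12, 26, 24, 16, 33],
  [24, 33, 4, 17, 16, 26],
  [17, 26, 32, 8, 16, 4],
  [15, 2, 4, 8, 26, 44],
  [24, 33, 4, 17, 16, 26],
  [41, 2, 4, 32, 16, 8],
  [1, 27, 4, 8, 16, 32],
  [1, 2, 4, 8, 16, 32],
  [32, 2, 4, 41, 16, 1],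
  [1, 2, 4, 8, 16, 32],
  [8, 2, 4, 1, 16, 41],
  [8, 11, 60, 1, 25, 32],
  [8, 11, 60, 1, 25, 32],
  [1, 11, 37, 8, 25, 32],
  [1, 18, 4, 8, 16, 32],
  [1, 11, 4, 8, 16, 32],
  [2, 8, 20, 11, 40, 18],
  [11, 8, 60, 2, 40, 18],
  [2, 1, 4, 11, 33, 18],
  [40, 11, 4, 37, 60, 32],
  [11, 8, 4, 2, 16, 32],
  [8, 11, 4, 1, 16, 32],
  [1, 2, 4, 8, 16, 32],
  [2, 1, 4, 11, 16, 32],
  [8, 2, 36, 1, 57, 32],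
  [1, 4, 16, 2, 52, 8],
  [8, 25, 46, 1, 41, 2],
  [1, 2, 7, 8, 16, 48],
  [1, 8, 25, 2, 7, 55],
  [2, 1, 48, 8, 36, 32],
  [1, 2, 4, 8, 16, 32],
  [9, 32, 2, 44, 8, 25],
  [1, 2, 4, 8, 25, 46],
  [55, 17, 4, 32, 48, 46],
  [32, 6, 25, 55, 48, 36],
  [35, 32, 11, 57, 14, 2],
  [32, 35, 15, 57, 9, 1],
  [57, 35, 14, 32, 16, 12],
  [32, 35, 2, 57, 9, 12],
  [32, 57, 29, 35, 1, 9],
  [9, 16, 12, 8, 2, 58],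
  [2, 1, 4, 12, 20, 32],
  [20, 4, 2, 14, 3, 32],
  [3, 9, 55, 57, 32, 2],
  [3, 14, 48, 57, 35, 1],
  [26, 16, 34, 32, 57, 14],
  [57, 35, 22, 32, 16, 20],
  [35, 57, 30, 32, 2, 14],
  [57, 32, 17, 35, 20, 16],
  [35, 32, 1, 57, 14, 8],
  [24, 2, 4, 8, 9, 32],
  [1, 51, 4, 8, 16, 32],
  [1, 2, 53, 8, 16, 32],
  [42, 36, 41, 27, 32, 2],
  [9, 2, 4, 8, 24, 32],
  [2, 9, 44, 27, 8, 42],
  [16, 9, 2, 1, 21, 42],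
  [1, 42, 4, 8, 16, 32],
  [1, 27, 4, 8, 16, 32],
  [1, 2, 21, 8, 16, 32],
  [1, 2, 36, 8, 16, 32],
  [21, 4, 1, 36, 27, 9],
  [1, 4, 34, 16, 32, 9],
  [27, 42, 36, 2, 16, 4],
  [16, 2, 4, 8, 1, 32]]

def tailT : List ℕ := [6, 2, 5, 7, 8, 3, 0, 0, 0, 1, 1, 2, 3, 4, 5]

def headT : List ℕ := [9, 4, 7, 8, 9, 6, 1, 2, 3, 4, 5, 6, 7, 8, 9]

def sideT : List ℕ := [0, 0, 0, 0, 0, 0, 205, 955, 887, 751, 479, 959, 895, 767, 511]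

def hypT : List (ℕ × List ℕ) := [(1, [1, 2, 3, 4, 5]), (2, [0, 2, 3, 4, 5]), (4, [0, 1, 3, 4, 5]), (7, [3, 4, 5, 7, 10]), (8, [0, 1, 2, 4, 5]), (9, [1, 2, 4, 5, 6]), (11, [2, 4, 5, 7, 9]), (16, [0, 1, 2, 3, 5]), (21, [1, 3, 5, 6, 14]), (26, [0, 2, 5, 6, 13]), (32, [0, 1, 2, 3, 4]), (43, [2, 4, 8, 9, 11]), (45, [1, 4, 7, 10, 12]), (52, [0, 1, 3, 8, 10]), (55, [3, 8, 9, 11, 14]), (56, [0, 1, 2, 8, 9]), (63, [6, 11, 12, 13, 14])]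

def connT : List (List ℕ) := [
  [0, 4, 3, 2, 5, 8, 6, 7, 1, 9, 10, 11, 12, 13, 14],
  [0, 3, 5, 12, 7, 6, 4, 1, 2, 8, 9, 10, 11, 13, 14],
  [0, 1, 3, 11, 7, 6, 8, 4, 5, 2, 9, 10, 12, 13, 14],
  [0, 1, 3, 2, 4, 9, 5, 6, 7, 8, 10, 11, 12, 13, 14],
  [0, 3, 4, 5, 2, 6, 7, 1, 8, 9, 10, 11, 12, 13, 14]]

def adjT : List ℕ := [18480, 10880, 21512, 12308, 24585, 6401, 1920, 2370, 4320, 9282, 16964, 163, 300, 538, 1045]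

def ordT : List ℕ := [2, 3, 12, 4, 14, 0, 5, 8, 10, 1, 6, 7, 9, 11, 13]

/-! ### Columns -/

def pos (k i : ℕ) : ℕ := (posT.getD k []).getD i 0

def neg (k i : ℕ) : ℕ := (negT.getD k []).getD i 0

def ent (p n r : ℕ) : ℤ := if p.testBit r then 1 else if n.testBit r then -1 else 0

/-- the columns of the matrices -/
def A (k : Fin 5) (i : Fin 15) (r : Fin 6) : ℤ := ent (pos k i) (neg k i) r

/-- the columns modulo two, as bit masks -/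
def B (k i : ℕ) : ℕ := pos k i ||| neg k i

def vec (m : ℕ) (r : Fin 6) : ZMod 2 := if m.testBit r then 1 else 0

theorem col_eq (k : Fin 5) (i : Fin 15) : col (ZMod 2) (A k) i = vec (B k i) := by
  ext r
  rw [col, A, ent, vec, B, Nat.testBit_or]
  cases (pos k i).testBit r <;> cases (neg k i).testBit r <;> simp

theorem vec_xor (a b : ℕ) : vec (a ^^^ b) = vec a + vec b := by
  ext r
  rw [Pi.add_apply, vec, vec, vec, Nat.testBit_xor]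
  cases a.testBit r <;> cases b.testBit r <;> simp
  decide

def lft (k m : ℕ) : ℕ := (liftT.getD k []).getD m 0

/-- the lift of the functional `m` -/
def lf (k m : ℕ) (r : Fin 6) : ℤ :=
  if m.testBit r then (if (lft k m).testBit r then -1 else 1) else 0

theorem lf_cast (k m : ℕ) (r : Fin 6) : ((lf k m r : ℤ) : ZMod 2) = vec m r := by
  rw [lf, vec]
  cases m.testBit r <;> cases (lft k m).testBit r <;> simp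

def small6 (z : ℤ) : Bool := z == 0 || z == 1 || z == -1

theorem fact_lift : ∀ k : Fin 5, ∀ m : Fin 64, ∀ i : Fin 15,
    small6 (lf k m 0 * A k i 0 + lf k m 1 * A k i 1 + lf k m 2 * A k i 2 + lf k m 3 * A k i 3 +
      lf k m 4 * A k i 4 + lf k m 5 * A k i 5) = true := by
  decide +kernel

theorem fact_vec : ∀ h : Fin 6 → ZMod 2, ∃ m : Fin 64, vec m = h := by
  decide +kernel

theorem A_lift (k : Fin 5) : Lift (A k) := by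
  intro h
  obtain ⟨m, rfl⟩ := fact_vec h
  refine ⟨lf k m, lf_cast k m, fun i => ?_⟩
  have h1 := fact_lift k m i
  rw [Fin.sum_univ_six]
  simp only [small6, Bool.or_eq_true, beq_iff_eq] at h1
  rcases h1 with (h1 | h1) | h1 <;> rw [h1] <;> decide

theorem fact_units : ∀ k : Fin 5, ∀ r s : Fin 6,
    A k (Fin.castLE (by decide) r) s = if s = r then 1 else 0 := by
  decide +kernel

theorem A_units (k : Fin 5) : Units (A k) := by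
  intro r
  refine ⟨Fin.castLE (by decide) r, ?_⟩
  ext s
  rw [fact_units, Pi.single_apply]

/-! ### Adjacency: being in a common triangle -/

/-- `a` and `b` are in a common three-element circuit -/
def adjc (k : Fin 5) (a b : Fin 15) : Bool :=
  a != b && (List.finRange 15).any fun c => c != a && c != b && (B k a ^^^ B k b) == B k c

theorem fact_distinct : ∀ k : Fin 5, ∀ a b : Fin 15, a ≠ b → B k a ≠ B k b := by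
  decide +kernel

theorem fact_nonzero : ∀ k : Fin 5, ∀ a : Fin 15, B k a ≠ 0 ∧ B k a < 64 := by
  decide +kernel

theorem fact_conn : ∀ k : Fin 5, ∀ m : Fin 15, m = 0 ∨ ∃ j : Fin 15, j < m ∧
    adjc k (Fin.ofNat 15 ((connT.getD k []).getD j 0))
      (Fin.ofNat 15 ((connT.getD k []).getD m 0)) = true := by
  decide +kernel

theorem fact_conn_surj : ∀ k : Fin 5, ∀ i : Fin 15, ∃ m : Fin 15,
    Fin.ofNat 15 ((connT.getD k []).getD m 0) = i := by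
  decide +kernel

theorem fact_deg0 : ∀ a : Fin 15, ((List.finRange 15).filter fun b => adjc 0 a b).length = 4 := by
  decide +kernel

theorem fact_degk : ∀ k : Fin 5, k ≠ 0 → ∃ a : Fin 15,
    ((List.finRange 15).filter fun b => adjc k a b).length ≠ 4 := by
  decide +kernel

/-! ### Even automorphisms -/

def adjB (a b : ℕ) : Bool := (adjT.getD a 0).testBit b

theorem fact_adj : ∀ a b : Fin 15, adjc 0 a b = adjB a b := by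
  decide +kernel

def okExt (s : List (ℕ × ℕ)) (i y : ℕ) : Bool :=
  s.all fun p => p.2 != y && (adjB p.1 i == adjB p.2 y)

def stepExt (L : List (List (ℕ × ℕ))) (i : ℕ) : List (List (ℕ × ℕ)) :=
  L.flatMap fun s => ((List.range 15).filter (okExt s i)).map fun y => (i, y) :: s

def lookup (s : List (ℕ × ℕ)) (i : ℕ) : ℕ :=
  match s with
  | [] => 0
  | p :: s => if p.1 = i then p.2 else lookup s i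

def signOf (n : ℕ) (f : ℕ → ℕ) : ℤ :=
  ((List.range n).map fun j => ((List.range j).map fun i =>
    if f i < f j then (1 : ℤ) else -1).prod).prod

theorem fact_aut : ∀ s ∈ ordT.foldl stepExt [[]], signOf 15 (lookup s) = 1 := by
  decide +kernel

/-! ### Certificates -/

def xorsum (m : ℕ) (G : List ℕ) : ℕ :=
  (if m.testBit 0 then G.getD 0 0 else 0) ^^^ (if m.testBit 1 then G.getD 1 0 else 0) ^^^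
  (if m.testBit 2 then G.getD 2 0 else 0) ^^^ (if m.testBit 3 then G.getD 3 0 else 0) ^^^
  (if m.testBit 4 then G.getD 4 0 else 0) ^^^ (if m.testBit 5 then G.getD 5 0 else 0)

def idx (k : Fin 5) (x : Fin 15) : ℕ := 15 * k + x

def rep (k : Fin 5) (x : Fin 15) : Fin 5 × Fin 15 :=
  (Fin.ofNat 5 (repT.getD (idx k x) (0, 0)).1, Fin.ofNat 15 (repT.getD (idx k x) (0, 0)).2)

def sg (k : Fin 5) (x : Fin 15) : ℤ := sgT.getD (idx k x) 0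

def piN (k : Fin 5) (x : Fin 15) (i : ℕ) : ℕ := (piT.getD (idx k x) []).getD i 0

def piF (k : Fin 5) (x : Fin 15) (i : Fin 14) : Fin 14 := Fin.ofNat 14 (piN k x i)

def coef (k : Fin 5) : ℤ := coefT.getD k 0

theorem fact_pi_lt : ∀ k : Fin 5, ∀ x : Fin 15, ∀ i : Fin 14, piN k x i < 14 := by
  decide +kernel

theorem fact_pi_inj : ∀ k : Fin 5, ∀ x : Fin 15, ∀ i j : Fin 14, piN k x i = piN k x j → i = j := by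
  decide +kernel

theorem fact_cert : ∀ k : Fin 5, ∀ x : Fin 15, ∀ i : Fin 14,
    xorsum (B k (x.succAbove i)) (gT.getD (idx k x) []) =
      B (rep k x).1 ((rep k x).2.succAbove (piF k x i)) := by
  decide +kernel

theorem fact_inv : ∀ k : Fin 5, ∀ x : Fin 15, ∀ r : Fin 6,
    xorsum ((gT.getD (idx k x) []).getD r 0) (gInvT.getD (idx k x) []) = 2 ^ (r : ℕ) := by
  decide +kernel

theorem fact_sign : ∀ k : Fin 5, ∀ x : Fin 15,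
    (sg k x = (-1) ^ (x : ℕ) * (-1) ^ ((rep k x).2 : ℕ) * signOf 14 (piN k x)) ∨
    (sg k x = 0 ∧ rep k x = (k, x) ∧ signOf 14 (piN k x) = -1) := by
  decide +kernel

theorem fact_total : ∀ q : Fin 5 × Fin 15,
    ((List.finRange 5).map fun k => ((List.finRange 15).map fun x =>
      if rep k x = q then coef k * sg k x else 0).sum).sum = 0 := by
  decide +kernel

theorem fact_coef : coef 0 ≠ 0 := by decide +kernel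

end Pool.Agent.V11185.RegData
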