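import Pool.Agent.V11185.RegData

/-!
# The first matroid: tables
-/

set_option autoImplicit false

namespace Pool.Agent.V11185.RegData

open Pool.Agent.V11185.RegLin

/-! ### The structure of the first matroid -/

def tl (e : Fin 15) : Fin 10 := Fin.ofNat 10 (tailT.getD e 0)

def hd (e : Fin 15) : Fin 10 := Fin.ofNat 10 (headT.getD e 0)

def inc (u : Fin 10) (e : Fin 15) : ℤ := if u = tl e then 1 else if u = hd e then -1 else 0

def sd (j : Fin 15) (u : Fin 10) : ℤ := if (sideT.getD j 0).testBit u then 1 else 0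

theorem fact_tl_ne : ∀ e, tl e ≠ hd e := by decide +kernel

theorem fact_tree : ∀ u : Fin 10, u ≠ 0 → ∃ e, tl e < u ∧ hd e = u := by decide +kernel

theorem fact_side : ∀ j e : Fin 15, ((List.finRange 10).map fun u => sd j u * inc u e).sum =
    (if e = j then 1 else 0) - (if h : (e : ℕ) < 6 then A 0 j ⟨e, h⟩ else 0) := by
  decide +kernel

def star (v : Fin 10) : Finset (Fin 15) := Finset.univ.filter fun e => inc v e ≠ 0

theorem fact_star : ∀ v, (star v).Nonempty ∧ ∑ i ∈ star v, vec (B 0 i) = 0 := by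
  decide +kernel

/-! ### Independence of lists of columns -/

theorem vec_zero : vec 0 = 0 := by
  ext r
  simp [vec]

theorem vec_ne_zero {n : ℕ} (h : n % 64 ≠ 0) : vec n ≠ 0 := by
  intro h0
  apply h
  apply Nat.eq_of_testBit_eq
  intro i
  rw [show 64 = 2 ^ 6 from rfl, Nat.testBit_mod_two_pow, Nat.zero_testBit]
  by_cases hi : i < 6
  · have h1 := congrFun h0 ⟨i, hi⟩
    rw [vec] at h1
    simp only [Pi.zero_apply, ite_eq_right_iff, one_ne_zero, imp_false] at h1
    simp [h1]
  · simp [hi]

/-- no sum of `acc` and some of the columns in the list vanishes -/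
def chkI : List (Fin 15) → ℕ → Bool
  | [], acc => acc % 64 != 0
  | i :: L, acc => chkI L acc && chkI L (acc ^^^ B 0 i)

/-- no nonempty sum of columns in the list vanishes -/
def chkS : List (Fin 15) → Bool
  | [] => true
  | i :: L => chkI L (B 0 i) && chkS L

theorem chkI_spec (L : List (Fin 15)) : ∀ acc : ℕ, chkI L acc = true →
    ∀ T : Finset (Fin 15), (∀ i ∈ T, i ∈ L) → vec acc + ∑ i ∈ T, vec (B 0 i) ≠ 0 := by
  induction L with
  | nil =>
    intro acc h T hT
    have hT0 : T = ∅ := Finset.eq_empty_of_forall_notMem fun i hi => by simpa using hT i hi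
    rw [hT0, Finset.sum_empty, add_zero]
    apply vec_ne_zero
    simpa [chkI] using h
  | cons a L ih =>
    intro acc h T hT
    rw [chkI, Bool.and_eq_true] at h
    by_cases ha : a ∈ T
    · rw [← Finset.add_sum_erase T _ ha, ← add_assoc, ← vec_xor]
      apply ih _ h.2
      intro i hi
      have h1 := hT i (Finset.mem_of_mem_erase hi)
      rw [List.mem_cons] at h1
      exact h1.resolve_left (Finset.ne_of_mem_erase hi)
    · apply ih _ h.1
      intro i hi
      have h1 := hT i hi
      rw [List.mem_cons] at h1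
      refine h1.resolve_left ?_
      rintro rfl
      exact ha hi

theorem chkS_spec (L : List (Fin 15)) : chkS L = true →
    ∀ T : Finset (Fin 15), (∀ i ∈ T, i ∈ L) → T.Nonempty → ∑ i ∈ T, vec (B 0 i) ≠ 0 := by
  induction L with
  | nil =>
    intro _ T hT hne
    obtain ⟨i, hi⟩ := hne
    exact absurd (hT i hi) (by simp)
  | cons a L ih =>
    intro h T hT hne
    rw [chkS, Bool.and_eq_true] at h
    by_cases ha : a ∈ T
    · rw [← Finset.add_sum_erase T _ ha]
      apply chkI_spec L _ h.1
      intro i hi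
      have h1 := hT i (Finset.mem_of_mem_erase hi)
      rw [List.mem_cons] at h1
      exact h1.resolve_left (Finset.ne_of_mem_erase hi)
    · refine ih h.2 T ?_ hne
      intro i hi
      have h1 := hT i hi
      rw [List.mem_cons] at h1
      refine h1.resolve_left ?_
      rintro rfl
      exact ha hi

theorem chkS_indep {L : List (Fin 15)} (h : chkS L = true) :
    LinearIndepOn (ZMod 2) (fun i : Fin 15 => vec (B 0 i)) {i | i ∈ L} := by
  have h1 : ({i | i ∈ L} : Set (Fin 15)) = (L.toFinset : Set (Fin 15)) := by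
    ext i
    simp
  rw [h1, indep_two_iff]
  intro T hT hne
  apply chkS_spec L h T _ hne
  intro i hi
  have h2 := Finset.mem_powerset.1 hT hi
  simpa using h2

def stL (v : Fin 10) : List (Fin 15) := (List.finRange 15).filter fun e => inc v e != 0

theorem fact_star_erase : ∀ v, ∀ e ∈ stL v, chkS ((stL v).erase e) = true := by
  decide +kernel

theorem fact_base : chkS ((List.finRange 15).filter fun i : Fin 15 => (i : ℕ) < 6) = true := by
  decide +kernel

def hm (h : Fin 17) : ℕ := (hypT.getD h (0, [])).1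

def hL (h : Fin 17) : List (Fin 15) :=
  (hypT.getD h (0, [])).2.map fun j => Fin.ofNat 15 j

theorem fact_hL : ∀ h, chkS (hL h) = true ∧ (hL h).length = 5 ∧ (hL h).Nodup := by
  decide +kernel

theorem fact_hL_zero : ∀ h, ∀ j ∈ hL h,
    lf 0 (hm h) 0 * A 0 j 0 + lf 0 (hm h) 1 * A 0 j 1 + lf 0 (hm h) 2 * A 0 j 2 +
      lf 0 (hm h) 3 * A 0 j 3 + lf 0 (hm h) 4 * A 0 j 4 + lf 0 (hm h) 5 * A 0 j 5 = 0 := by
  decide +kernel

theorem fact_hm_ne : ∀ h : Fin 17, ∃ r : Fin 6, lf 0 (hm h) r = 1 ∨ lf 0 (hm h) r = -1 := by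
  decide +kernel

/-- the coordinate functionals -/
theorem fact_coord : ∀ r : Fin 6, ∃ h : Fin 17, ∀ s : Fin 6,
    lf 0 (hm h) s = if s = r then 1 else 0 := by
  decide +kernel

def bit (a : ℕ) : ℤ := if a = 0 then 0 else 1

def chk (a b c d e f : ℕ) : Bool :=
  (a == 0 && b == 0 && c == 0 && d == 0 && e == 0 && f == 0) ||
  ((List.finRange 17).any fun h =>
    decide (2 ∣ lf 0 (hm h) 0 * bit a + lf 0 (hm h) 1 * bit b + lf 0 (hm h) 2 * bit c +
      lf 0 (hm h) 3 * bit d + lf 0 (hm h) 4 * bit e + lf 0 (hm h) 5 * bit f) !=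
    decide (3 ∣ lf 0 (hm h) 0 * a + lf 0 (hm h) 1 * b + lf 0 (hm h) 2 * c +
      lf 0 (hm h) 3 * d + lf 0 (hm h) 4 * e + lf 0 (hm h) 5 * f)) ||
  ((List.finRange 15).any fun i =>
    (B 0 i).testBit 0 == (a != 0) && (B 0 i).testBit 1 == (b != 0) &&
    (B 0 i).testBit 2 == (c != 0) && (B 0 i).testBit 3 == (d != 0) &&
    (B 0 i).testBit 4 == (e != 0) && (B 0 i).testBit 5 == (f != 0))

theorem fact_chk : ∀ a b c d e f : Fin 3, chk a b c d e f = true := by
  decide +kernel

end Pool.Agent.V11185.RegData
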