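import Mathlib

/-!
# Integer matrices representing regular matroids
-/

set_option autoImplicit false

namespace Pool.Agent.V11185.RegLin

open Set Submodule Module

variable {ι : Type}

/-- the columns of an integer matrix, read in a field -/
def col (K : Type) [Field K] (A : ι → Fin 6 → ℤ) (i : ι) : Fin 6 → K := fun r => (A i r : K)

/-- the functional with integer coefficients `f` -/
def fn (K : Type) [Field K] (f : Fin 6 → ℤ) : (Fin 6 → K) →ₗ[K] K :=
  ∑ r, (f r : K) • LinearMap.proj r

theorem fn_apply (K : Type) [Field K] (f : Fin 6 → ℤ) (y : Fin 6 → K) :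
    fn K f y = ∑ r, (f r : K) * y r := by
  simp [fn]

theorem fn_col (K : Type) [Field K] (A : ι → Fin 6 → ℤ) (f : Fin 6 → ℤ) (i : ι) :
    fn K f (col K A i) = ((∑ r, f r * A i r : ℤ) : K) := by
  rw [fn_apply]
  push_cast
  rfl

theorem small {z : ℤ} (h : |z| ≤ 1) (K : Type) [Field K] : (z : K) = 0 ↔ z = 0 := by
  rw [abs_le] at h
  have h1 : z = -1 ∨ z = 0 ∨ z = 1 := by omega
  rcases h1 with rfl | rfl | rfl <;> simp

/-- every binary functional has an integer lift with small values on the columns -/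
def Lift (A : ι → Fin 6 → ℤ) : Prop :=
  ∀ h : Fin 6 → ZMod 2, ∃ f : Fin 6 → ℤ, (∀ r, ((f r : ℤ) : ZMod 2) = h r) ∧
    ∀ i, |∑ r, f r * A i r| ≤ 1

/-- the unit vectors are columns -/
def Units (A : ι → Fin 6 → ℤ) : Prop := ∀ r, ∃ i, A i = Pi.single r 1

theorem exists_fn {g : (Fin 6 → ZMod 2) →ₗ[ZMod 2] ZMod 2} {A : ι → Fin 6 → ℤ} (hA : Lift A) :
    ∃ f : Fin 6 → ℤ, fn (ZMod 2) f = g ∧ ∀ i, |∑ r, f r * A i r| ≤ 1 := by
  obtain ⟨f, hf, hf1⟩ := hA fun r => g (Pi.single r 1)
  refine ⟨f, ?_, hf1⟩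
  apply LinearMap.pi_ext
  intro r x
  have hx : (Pi.single r x : Fin 6 → ZMod 2) = x • Pi.single r 1 := by
    rw [← Pi.single_smul, smul_eq_mul, mul_one]
  rw [hx, map_smul, map_smul, ← hf, fn_apply, Finset.sum_eq_single r]
  · simp
  · intro b _ hb
    rw [Pi.single_eq_of_ne hb, mul_zero]
  · intro h
    exact absurd (Finset.mem_univ _) h

theorem span_units {A : ι → Fin 6 → ℤ} (hU : Units A) (K : Type) [Field K] :
    span K (col K A '' univ) = ⊤ := by
  rw [eq_top_iff, ← (Pi.basisFun K (Fin 6)).span_eq, span_le]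
  rintro _ ⟨r, rfl⟩
  obtain ⟨i, hi⟩ := hU r
  apply subset_span
  refine ⟨i, mem_univ _, ?_⟩
  ext k
  rw [Pi.basisFun_apply, col, hi]
  by_cases h : k = r
  · subst h
    simp
  · simp [h]

theorem indep_of_two {A : ι → Fin 6 → ℤ} (hA : Lift A) (K : Type) [Field K] {I : Set ι}
    (h : LinearIndepOn (ZMod 2) (col (ZMod 2) A) I) : LinearIndepOn K (col K A) I := by
  rw [linearIndepOn_iff_notMem_span] at h ⊢
  intro e he hmem
  obtain ⟨g, hg, hle⟩ := Submodule.exists_le_ker_of_notMem (h e he)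
  obtain ⟨f, rfl, hf⟩ := exists_fn (g := g) hA
  have h1 : ∀ i ∈ I \ {e}, ∑ r, f r * A i r = 0 := by
    intro i hi
    have h2 : fn (ZMod 2) f (col (ZMod 2) A i) = 0 := hle (subset_span ⟨i, hi, rfl⟩)
    rw [fn_col] at h2
    exact (small (hf i) (ZMod 2)).1 h2
  have h3 : span K (col K A '' (I \ {e})) ≤ LinearMap.ker (fn K f) := by
    rw [span_le]
    rintro _ ⟨i, hi, rfl⟩
    rw [SetLike.mem_coe, LinearMap.mem_ker, fn_col, h1 i hi, Int.cast_zero]
  have h4 : fn K f (col K A e) = 0 := h3 hmem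
  rw [fn_col, small (hf e) K] at h4
  apply hg
  rw [fn_col, h4, Int.cast_zero]

theorem indep_iff_two {A : ι → Fin 6 → ℤ} (hA : Lift A) (hU : Units A) (K : Type) [Field K]
    (I : Set ι) :
    LinearIndepOn K (col K A) I ↔ LinearIndepOn (ZMod 2) (col (ZMod 2) A) I := by
  refine ⟨fun h => ?_, indep_of_two hA K⟩
  obtain ⟨B, -, hIB, hspan, hB⟩ := exists_linearIndepOn_extension h (subset_univ I)
  have hB' : span K (col K A '' B) = ⊤ := by
    rw [eq_top_iff, ← span_units hU K]
    exact span_le.2 hspan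
  have hfin : Finite B := by
    have := LinearIndependent.finite (R := K) hB
    exact this
  have : Fintype B := Fintype.ofFinite B
  have hcard : Fintype.card B = 6 := by
    have h1 := finrank_span_eq_card (R := K) (b := fun x : B => col K A x) hB
    have h2 : range (fun x : B => col K A x) = col K A '' B := by
      rw [image_eq_range]
    rw [h2, hB', finrank_top, Module.finrank_fin_fun] at h1
    exact h1.symm
  by_cases htop : span (ZMod 2) (col (ZMod 2) A '' B) = ⊤
  · have h1 : LinearIndependent (ZMod 2) (fun x : B => col (ZMod 2) A x) := by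
      apply linearIndependent_of_top_le_span_of_card_eq_finrank
      · rw [← image_eq_range, htop]
      · rw [hcard, Module.finrank_fin_fun]
    have h2 : LinearIndepOn (ZMod 2) (col (ZMod 2) A) B := h1
    exact h2.mono hIB
  · exfalso
    obtain ⟨w, hw⟩ : ∃ w, w ∉ span (ZMod 2) (col (ZMod 2) A '' B) := by
      by_contra hcon
      push Not at hcon
      exact htop (eq_top_iff.2 fun w _ => hcon w)
    obtain ⟨g, hg, hle⟩ := Submodule.exists_le_ker_of_notMem hw
    obtain ⟨f, rfl, hf⟩ := exists_fn (g := g) hA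
    have h3 : span K (col K A '' B) ≤ LinearMap.ker (fn K f) := by
      rw [span_le]
      rintro _ ⟨i, hi, rfl⟩
      have h2 : fn (ZMod 2) f (col (ZMod 2) A i) = 0 := hle (subset_span ⟨i, hi, rfl⟩)
      rw [fn_col] at h2
      rw [SetLike.mem_coe, LinearMap.mem_ker, fn_col, (small (hf i) (ZMod 2)).1 h2, Int.cast_zero]
    rw [hB'] at h3
    apply hg
    have h4 : ∀ r, f r = 0 := by
      intro r
      obtain ⟨i, hi⟩ := hU r
      have h5 : ∑ k, f k * A i k = f r := by
        rw [hi, Finset.sum_eq_single r]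
        · simp
        · intro b _ hb
          rw [Pi.single_eq_of_ne hb, mul_zero]
        · intro h
          exact absurd (Finset.mem_univ _) h
      have h6 : fn K f (col K A i) = 0 := h3 trivial
      rw [fn_col, small (hf i) K, h5] at h6
      exact h6
    rw [fn_apply]
    refine Finset.sum_eq_zero fun r _ => ?_
    rw [h4, Int.cast_zero, zero_mul]

theorem indep_two_iff [DecidableEq ι] {W : Type} [AddCommGroup W] [Module (ZMod 2) W] (v : ι → W)
    (S : Finset ι) : LinearIndepOn (ZMod 2) v (S : Set ι) ↔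
      ∀ T ∈ S.powerset, T.Nonempty → ∑ i ∈ T, v i ≠ 0 := by
  rw [linearIndepOn_finset_iff]
  constructor
  · intro h T hT hne hsum
    obtain ⟨e, he⟩ := hne
    have h1 := h (fun i => if i ∈ T then 1 else 0) (by
      simp only [ite_smul, one_smul, zero_smul]
      rw [Finset.sum_ite_mem, Finset.inter_eq_right.2 (Finset.mem_powerset.1 hT)]
      exact hsum) e (Finset.mem_powerset.1 hT he)
    rw [if_pos he] at h1
    exact one_ne_zero h1
  · intro h g hg i hi
    by_contra hgi
    have h2 : ∀ x : ZMod 2, x ≠ 0 → x = 1 := by decide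
    refine h (S.filter fun i => g i ≠ 0) (Finset.mem_powerset.2 (Finset.filter_subset _ _))
      ⟨i, Finset.mem_filter.2 ⟨hi, hgi⟩⟩ ?_
    rw [Finset.sum_filter]
    refine Eq.trans (Finset.sum_congr rfl fun j _ => ?_) hg
    split_ifs with h3
    · rw [h2 _ h3, one_smul]
    · rw [not_not.1 h3, zero_smul]

/-- the coefficients of a circuit -/
theorem circuit_coeff {K V : Type} [Field K] [AddCommGroup V] [Module K V] [Fintype ι]
    [DecidableEq ι] {t : ι → V} {S : Finset ι} (hS : ¬ LinearIndepOn K t (S : Set ι))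
    (h : ∀ e ∈ S, LinearIndepOn K t ((S.erase e : Finset ι) : Set ι)) :
    ∃ ρ : ι → K, (∀ e, ρ e ≠ 0 ↔ e ∈ S) ∧ ∑ e, ρ e • t e = 0 := by
  rw [linearIndepOn_finset_iff] at hS
  push Not at hS
  obtain ⟨g, hg, e, he, hge⟩ := hS
  refine ⟨fun i => if i ∈ S then g i else 0, ?_, ?_⟩
  · intro i
    by_cases hi : i ∈ S
    · simp only [hi, if_true, iff_true]
      intro hgi
      have h1 := h i hi
      rw [linearIndepOn_finset_iff] at h1
      refine hge (h1 g ?_ e (Finset.mem_erase.2 ⟨?_, he⟩))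
      · rw [← hg, ← Finset.add_sum_erase S _ hi, hgi, zero_smul, zero_add]
      · rintro rfl
        exact hge hgi
    · simp [hi]
  · simp only [ite_smul, zero_smul]
    rw [Finset.sum_ite_mem, Finset.univ_inter]
    exact hg

end Pool.Agent.V11185.RegLin
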