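import Pool.Agent.V11185.RegData2

/-!
# Uniqueness of the representations of the first matroid
-/

set_option autoImplicit false

namespace Pool.Agent.V11185.RegUnique

open Set Submodule Module Pool.Agent.V11185.RegLin Pool.Agent.V11185.RegData

/-- the columns modulo two -/
def vcol (k : Fin 5) (i : Fin 15) : Fin 6 → ZMod 2 := vec (B k i)

theorem indep_vcol (k : Fin 5) (K : Type) [Field K] (I : Set (Fin 15)) :
    LinearIndepOn K (col K (A k)) I ↔ LinearIndepOn (ZMod 2) (vcol k) I := by
  rw [indep_iff_two (A_lift k) (A_units k) K I]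
  have h : col (ZMod 2) (A k) = vcol k := by
    funext i
    exact col_eq k i
  rw [h]

theorem mem_stL (v : Fin 10) (e : Fin 15) : e ∈ stL v ↔ e ∈ RegData.star v := by
  simp [stL, RegData.star]

theorem star_indep (v : Fin 10) : ¬ LinearIndepOn (ZMod 2) (vcol 0) (RegData.star v : Set (Fin 15)) ∧
    ∀ e ∈ RegData.star v, LinearIndepOn (ZMod 2) (vcol 0) (((RegData.star v).erase e : Finset (Fin 15)) :
      Set (Fin 15)) := by
  constructor
  · rw [indep_two_iff]
    intro h
    exact h (RegData.star v) (Finset.mem_powerset_self _) (fact_star v).1 (fact_star v).2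
  · intro e he
    refine (chkS_indep (fact_star_erase v e ((mem_stL v e).2 he))).mono ?_
    intro i hi
    rw [Finset.mem_coe, Finset.mem_erase] at hi
    have hnd : (stL v).Nodup := (List.nodup_finRange 15).filter _
    exact hnd.mem_erase_iff.2 ⟨hi.1, (mem_stL v i).2 hi.2⟩

theorem base_indep : LinearIndepOn (ZMod 2) (vcol 0)
    ((Finset.univ.filter fun i : Fin 15 => (i : ℕ) < 6 : Finset (Fin 15)) : Set (Fin 15)) := by
  refine (chkS_indep fact_base).mono ?_
  intro i hi
  rw [Finset.coe_filter] at hi
  exact List.mem_filter.2 ⟨List.mem_finRange i, by simpa using hi.2⟩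

variable {K V : Type} [Field K] [AddCommGroup V] [Module K V]

/-- the representations of the first matroid over any field are equivalent -/
theorem unique_rep (t : Fin 15 → V)
    (ht : ∀ I : Set (Fin 15), LinearIndepOn K t I ↔ LinearIndepOn (ZMod 2) (vcol 0) I) :
    ∃ (s : Fin 15 → K) (L : (Fin 6 → K) →ₗ[K] V), (∀ j, s j ≠ 0) ∧ Function.Injective L ∧
      ∀ j, s j • t j = L (col K (A 0) j) := by
  classical
  -- the coefficients of the vertex relations
  have h1 : ∀ v : Fin 10, ∃ ρ : Fin 15 → K, (∀ e, ρ e ≠ 0 ↔ e ∈ RegData.star v) ∧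
      ∑ e, ρ e • t e = 0 := by
    intro v
    apply circuit_coeff
    · rw [ht]
      exact (star_indep v).1
    · intro e he
      rw [ht]
      exact (star_indep v).2 e he
  choose ρ hρ hρ0 using h1
  -- the relation space has dimension at most nine
  let T : (Fin 15 → K) →ₗ[K] V := Fintype.linearCombination K t
  have hTapp : ∀ c : Fin 15 → K, T c = ∑ e, c e • t e := fun c => Fintype.linearCombination_apply _ _ _
  have hrank : 6 ≤ finrank K (LinearMap.range T) := by
    have h2 : LinearIndepOn K t ((Finset.univ.filter fun i : Fin 15 => (i : ℕ) < 6 :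
      Finset (Fin 15)) : Set (Fin 15)) := (ht _).2 base_indep
    have h3 := finrank_span_finset_eq_card (R := K)
      (s := (Finset.univ.filter fun i : Fin 15 => (i : ℕ) < 6).image t) (by
        rw [Finset.coe_image]
        exact h2.id_image)
    have h4 : ((Finset.univ.filter fun i : Fin 15 => (i : ℕ) < 6).image t).card = 6 := by
      rw [Finset.card_image_of_injOn]
      · decide
      · intro a ha b hb hab
        exact h2.injOn ha hb hab
    rw [h4] at h3
    rw [← h3]
    apply Submodule.finrank_mono
    rw [span_le]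
    intro x hx
    rw [Finset.coe_image] at hx
    obtain ⟨i, -, rfl⟩ := hx
    refine ⟨Pi.single i 1, ?_⟩
    rw [hTapp, Finset.sum_eq_single i]
    · rw [Pi.single_eq_same, one_smul]
    · intro j _ hj
      rw [Pi.single_eq_of_ne hj, zero_smul]
    · intro h
      exact absurd (Finset.mem_univ _) h
  have hker : finrank K (LinearMap.ker T) ≤ 9 := by
    have h2 := LinearMap.finrank_range_add_finrank_ker T
    rw [Module.finrank_fin_fun] at h2
    omega
  -- a dependency between the vertex relations
  have hdep : ∃ l : Fin 10 → K, (∑ v, l v • ρ v = 0) ∧ ∃ v, l v ≠ 0 := by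
    by_contra hcon
    push Not at hcon
    have h2 : LinearIndependent K (fun v : Fin 10 => (⟨ρ v, by
        rw [LinearMap.mem_ker, hTapp]
        exact hρ0 v⟩ : LinearMap.ker T)) := by
      rw [Fintype.linearIndependent_iff]
      intro l hl
      refine hcon l ?_
      have h3 := congrArg Subtype.val hl
      rw [Submodule.coe_sum] at h3
      exact h3
    have h3 := h2.fintype_card_le_finrank
    rw [Fintype.card_fin] at h3
    omega
  obtain ⟨l, hl, v₀, hv₀⟩ := hdep
  -- the sum over the two ends of an edge
  have hmem : ∀ (e : Fin 15) (u : Fin 10), e ∈ RegData.star u ↔ u = tl e ∨ u = hd e := by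
    intro e u
    rw [RegData.star, Finset.mem_filter, inc]
    by_cases h1 : u = tl e
    · simp [h1]
    · by_cases h2 : u = hd e
      · simp [h2, (fact_tl_ne e).symm]
      · simp [h1, h2]
  have hzero : ∀ (e : Fin 15) (u : Fin 10), u ≠ tl e → u ≠ hd e → ρ u e = 0 := by
    intro e u h1 h2
    by_contra h3
    rw [← ne_eq, hρ, hmem] at h3
    exact h3.elim h1 h2
  have hedge : ∀ e : Fin 15, l (tl e) * ρ (tl e) e + l (hd e) * ρ (hd e) e = 0 := by
    intro e
    have h2 := congrFun hl e
    rw [Finset.sum_apply, Pi.zero_apply] at h2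
    rw [← h2, Finset.sum_eq_add (tl e) (hd e) (fact_tl_ne e)]
    · rfl
    · intro u _ hu
      rw [Pi.smul_apply, hzero e u hu.1 hu.2, smul_zero]
    · intro h
      exact absurd (Finset.mem_univ _) h
    · intro h
      exact absurd (Finset.mem_univ _) h
  have hiff : ∀ e : Fin 15, l (tl e) = 0 ↔ l (hd e) = 0 := by
    intro e
    have h2 : ρ (tl e) e ≠ 0 := (hρ _ _).2 ((hmem _ _).2 (Or.inl rfl))
    have h3 : ρ (hd e) e ≠ 0 := (hρ _ _).2 ((hmem _ _).2 (Or.inr rfl))
    have h4 := hedge e
    constructor
    · intro h5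
      rw [h5, zero_mul, zero_add] at h4
      exact (mul_eq_zero.1 h4).resolve_right h3
    · intro h5
      rw [h5, zero_mul, add_zero] at h4
      exact (mul_eq_zero.1 h4).resolve_right h2
  have hall : ∀ u : Fin 10, l u = 0 ↔ l 0 = 0 := by
    have h2 : ∀ n : ℕ, ∀ u : Fin 10, (u : ℕ) = n → (l u = 0 ↔ l 0 = 0) := by
      intro n
      induction n using Nat.strong_induction_on with
      | _ n ih =>
        intro u hu
        by_cases h3 : u = 0
        · rw [h3]
        · obtain ⟨e, he, hee⟩ := fact_tree u h3
          rw [← hee, ← hiff]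
          have h4 : ((tl e : Fin 10) : ℕ) < (u : ℕ) := he
          exact ih (tl e) (by omega) (tl e) rfl
    exact fun u => h2 u u rfl
  have hne : ∀ u : Fin 10, l u ≠ 0 := by
    intro u hu
    exact hv₀ ((hall v₀).2 ((hall u).1 hu))
  -- the scalars
  let s : Fin 15 → K := fun e => l (tl e) * ρ (tl e) e
  have hs : ∀ e, s e ≠ 0 := fun e =>
    mul_ne_zero (hne _) ((hρ _ _).2 ((hmem _ _).2 (Or.inl rfl)))
  have hsρ : ∀ (u : Fin 10) (e : Fin 15), l u * ρ u e = (inc u e : K) * s e := by
    intro u e
    by_cases h1 : u = tl e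
    · rw [inc, if_pos h1, Int.cast_one, one_mul, h1]
    · by_cases h2 : u = hd e
      · rw [inc, if_neg h1, if_pos h2, h2]
        push_cast
        linear_combination hedge e
      · rw [inc, if_neg h1, if_neg h2, hzero e u h1 h2]
        simp
  have hrel : ∀ u : Fin 10, ∑ e, ((inc u e : K) * s e) • t e = 0 := by
    intro u
    have h2 : ∑ e, ((inc u e : K) * s e) • t e = l u • ∑ e, ρ u e • t e := by
      rw [Finset.smul_sum]
      refine Finset.sum_congr rfl fun e _ => ?_
      rw [← hsρ, mul_smul]
    rw [h2, hρ0, smul_zero]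
  -- the map
  let b6 : Fin 6 → Fin 15 := Fin.castLE (by decide)
  let L : (Fin 6 → K) →ₗ[K] V := Fintype.linearCombination K fun i => s (b6 i) • t (b6 i)
  have hLapp : ∀ c : Fin 6 → K, L c = ∑ i, c i • (s (b6 i) • t (b6 i)) :=
    fun c => Fintype.linearCombination_apply _ _ _
  refine ⟨s, L, hs, ?_, ?_⟩
  · -- injectivity
    have h2 : LinearIndepOn K t (range b6) := by
      refine ((ht _).2 base_indep).mono ?_
      rintro _ ⟨i, rfl⟩
      rw [Finset.coe_filter]
      exact ⟨Finset.mem_univ _, i.2⟩
    have h3 : LinearIndependent K (fun i => t (b6 i)) := by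
      have h4 := h2.comp (fun i : Fin 6 => (⟨b6 i, i, rfl⟩ : range b6)) (by
        intro i j hij
        have h7 : b6 i = b6 j := congrArg Subtype.val hij
        have h8 : ((b6 i : Fin 15) : ℕ) = ((b6 j : Fin 15) : ℕ) := congrArg Fin.val h7
        exact Fin.ext h8)
      exact h4
    have h5 : LinearIndependent K (fun i => s (b6 i) • t (b6 i)) := by
      have h6 := h3.units_smul fun i => Units.mk0 (s (b6 i)) (hs _)
      exact h6
    rw [← LinearMap.ker_eq_bot, LinearMap.ker_eq_bot']
    intro c hc
    rw [hLapp] at hc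
    rw [Fintype.linearIndependent_iff] at h5
    ext i
    exact h5 c hc i
  · intro j
    have h2 : ∀ e : Fin 15, (∑ u, (sd j u : K) * (inc u e : K)) =
        (if e = j then 1 else 0) - (if h : (e : ℕ) < 6 then (A 0 j ⟨e, h⟩ : K) else 0) := by
      intro e
      have h3 := congrArg (Int.cast : ℤ → K) (fact_side j e)
      rw [← Fin.sum_univ_def] at h3
      push_cast at h3
      rw [h3]
      congr 1
      split_ifs <;> simp
    have h3 : ∑ e, ((∑ u, (sd j u : K) * (inc u e : K)) * s e) • t e = 0 := by
      have h4 : ∀ e, ((∑ u, (sd j u : K) * (inc u e : K)) * s e) • t e =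
          ∑ u, (sd j u : K) • (((inc u e : K) * s e) • t e) := by
        intro e
        rw [Finset.sum_mul, Finset.sum_smul]
        refine Finset.sum_congr rfl fun u _ => ?_
        rw [smul_smul, mul_assoc]
      rw [Finset.sum_congr rfl fun e _ => h4 e, Finset.sum_comm]
      refine Finset.sum_eq_zero fun u _ => ?_
      rw [← Finset.smul_sum, hrel, smul_zero]
    have h5 : ∑ e, ((∑ u, (sd j u : K) * (inc u e : K)) * s e) • t e =
        s j • t j - ∑ e : Fin 15, (if h : (e : ℕ) < 6 then
          (A 0 j ⟨e, h⟩ : K) • (s e • t e) else 0) := by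
      have h6 : ∀ e : Fin 15, ((∑ u, (sd j u : K) * (inc u e : K)) * s e) • t e =
          (if e = j then s e • t e else 0) - (if h : (e : ℕ) < 6 then
            (A 0 j ⟨e, h⟩ : K) • (s e • t e) else 0) := by
        intro e
        rw [h2, sub_mul, sub_smul]
        congr 1
        · split_ifs <;> simp
        · split_ifs <;> simp [mul_smul]
      rw [Finset.sum_congr rfl fun e _ => h6 e, Finset.sum_sub_distrib, Finset.sum_ite_eq',
        if_pos (Finset.mem_univ _)]
    rw [h3] at h5
    have h7 : s j • t j = ∑ e : Fin 15, (if h : (e : ℕ) < 6 then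
          (A 0 j ⟨e, h⟩ : K) • (s e • t e) else 0) := (sub_eq_zero.1 h5.symm)
    rw [h7, hLapp]
    -- reindex
    symm
    refine Finset.sum_of_injOn b6 ?_ ?_ ?_ ?_
    · intro a _ b _ hab
      exact Fin.castLE_injective _ hab
    · intro a _
      exact Finset.mem_coe.2 (Finset.mem_univ _)
    · intro e _ he
      rw [dif_neg]
      intro h
      exact he ⟨⟨e, h⟩, Finset.mem_coe.2 (Finset.mem_univ _), rfl⟩
    · intro i _
      rw [dif_pos (show ((b6 i : Fin 15) : ℕ) < 6 from i.2)]
      rfl

end Pool.Agent.V11185.RegUnique
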