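import Pool.Agent.V11185.RegComplex
import Pool.Agent.V11185.RegUnique

/-!
# The five symbols, and the maximality of the first matroid
-/

set_option autoImplicit false

namespace Pool.Agent.V11185.RegMax

open Set Submodule Module Pool.Agent.Helper236 Pool.Agent.V11185.RegLin Pool.Agent.V11185.RegData
  Pool.Agent.V11185.RegUnique Pool.Agent.V11185.RegComplex

/-! ### Independence under injections -/

theorem indepOn_image {K V ι κ : Type} [Field K] [AddCommGroup V] [Module K V] (v : κ → V)
    {f : ι → κ} (hf : Function.Injective f) (I : Set ι) :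
    LinearIndepOn K v (f '' I) ↔ LinearIndepOn K (v ∘ f) I :=
  ⟨fun h => h.comp_of_image hf.injOn, fun h => LinearIndepOn.image_of_comp f v h⟩

theorem indepOn_map {K V W ι : Type} [Field K] [AddCommGroup V] [Module K V] [AddCommGroup W]
    [Module K W] (v : ι → V) {g : V →ₗ[K] W} (hg : Function.Injective g) (I : Set ι) :
    LinearIndepOn K (g ∘ v) I ↔ LinearIndepOn K v I :=
  g.linearIndepOn_iff_of_injOn hg.injOn

/-! ### The matroids -/

/-- the vectors of the `k`-th matroid -/
def wv (k : Fin 5) (i : ℕ) : Fin 6 → ZMod 2 := vec (B k i)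

/-- the `k`-th matroid -/
noncomputable def mat (k : Fin 5) : Matroid ℕ :=
  linMatroid (ZMod 2) (wv k) (range (Fin.val : Fin 15 → ℕ)) (finite_range _)

theorem mat_indep (k : Fin 5) (I : Set (Fin 15)) :
    (mat k).Indep (Fin.val '' I) ↔ LinearIndepOn (ZMod 2) (vcol k) I := by
  rw [mat, linMatroid_indep, and_iff_right (image_subset_range _ _),
    indepOn_image _ Fin.val_injective]
  rfl

theorem fact_vec_inj : ∀ a b : Fin 64, vec a = vec b → a = b := by
  decide +kernel

theorem B_lt (k : Fin 5) (a : Fin 15) : B k a < 64 := (fact_nonzero k a).2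

theorem vec_inj {a b : ℕ} (ha : a < 64) (hb : b < 64) (h : vec a = vec b) : a = b :=
  congrArg Fin.val (fact_vec_inj ⟨a, ha⟩ ⟨b, hb⟩ h)

theorem vcol_ne_zero (k : Fin 5) (a : Fin 15) : vcol k a ≠ 0 := by
  intro h
  rw [vcol, ← vec_zero] at h
  exact (fact_nonzero k a).1 (vec_inj (B_lt k a) (by norm_num) h)

theorem vcol_inj (k : Fin 5) : Function.Injective (vcol k) := by
  intro a b h
  by_contra hab
  exact fact_distinct k a b hab (vec_inj (B_lt k a) (B_lt k b) h)

theorem zmod2_cases (x : ZMod 2) : x = 0 ∨ x = 1 := by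
  revert x
  decide

theorem add_self_vec (v : Fin 6 → ZMod 2) : v + v = 0 := by
  ext r
  have h : ∀ x : ZMod 2, x + x = 0 := by decide
  exact h _

theorem pair_indep (k : Fin 5) (a b : Fin 15) : LinearIndepOn (ZMod 2) (vcol k) {a, b} := by
  have h1 : ({a, b} : Set (Fin 15)) = (({a, b} : Finset (Fin 15)) : Set (Fin 15)) := by simp
  rw [h1, indep_two_iff]
  intro T hT hne
  rw [Finset.mem_powerset] at hT
  by_cases ha : a ∈ T
  · by_cases hb : b ∈ T
    · have hTe : T = {a, b} := Finset.Subset.antisymm hT (by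
        intro x hx
        rw [Finset.mem_insert, Finset.mem_singleton] at hx
        rcases hx with rfl | rfl <;> assumption)
      by_cases hab : a = b
      · subst hab
        rw [hTe, Finset.pair_eq_singleton, Finset.sum_singleton]
        exact vcol_ne_zero k a
      · rw [hTe, Finset.sum_pair hab]
        intro h
        apply hab
        apply vcol_inj k
        have h2 : vcol k a + vcol k b + vcol k b = vcol k b := by rw [h, zero_add]
        rw [add_assoc, add_self_vec, add_zero] at h2
        exact h2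
    · have hTe : T = {a} := by
        apply Finset.Subset.antisymm
        · intro x hx
          have h2 := hT hx
          rw [Finset.mem_insert, Finset.mem_singleton] at h2
          rw [Finset.mem_singleton]
          refine h2.resolve_right ?_
          rintro rfl
          exact hb hx
        · intro x hx
          rw [Finset.mem_singleton] at hx
          rw [hx]
          exact ha
      rw [hTe, Finset.sum_singleton]
      exact vcol_ne_zero k a
  · have hTe : T = {b} := by
      apply Finset.Subset.antisymm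
      · intro x hx
        have h2 := hT hx
        rw [Finset.mem_insert, Finset.mem_singleton] at h2
        rw [Finset.mem_singleton]
        refine h2.resolve_left ?_
        rintro rfl
        exact ha hx
      · intro x hx
        rw [Finset.mem_singleton] at hx
        rw [hx]
        obtain ⟨y, hy⟩ := hne
        have h2 := hT hy
        rw [Finset.mem_insert, Finset.mem_singleton] at h2
        rcases h2 with rfl | rfl
        · exact absurd hy ha
        · exact hy
    rw [hTe, Finset.sum_singleton]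
    exact vcol_ne_zero k b

theorem triple_dep_iff (k : Fin 5) {a b c : Fin 15} (hab : a ≠ b) (hac : a ≠ c) (hbc : b ≠ c) :
    ¬ LinearIndepOn (ZMod 2) (vcol k) {a, b, c} ↔ B k a ^^^ B k b = B k c := by
  have h1 : ({a, b, c} : Set (Fin 15)) = (({a, b, c} : Finset (Fin 15)) : Set (Fin 15)) := by simp
  have hsum : ∑ i ∈ ({a, b, c} : Finset (Fin 15)), vcol k i = vcol k a + vcol k b + vcol k c := by
    rw [Finset.sum_insert (by simp [hab, hac]), Finset.sum_pair hbc, add_assoc]
  have hiff : vcol k a + vcol k b + vcol k c = 0 ↔ B k a ^^^ B k b = B k c := by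
    rw [vcol, vcol, vcol, ← vec_xor]
    constructor
    · intro h
      apply vec_inj _ (B_lt k c)
      · have h2 : vec (B k a ^^^ B k b) + vec (B k c) + vec (B k c) = vec (B k c) := by
          rw [h, zero_add]
        rw [add_assoc, add_self_vec, add_zero] at h2
        exact h2
      · have h3 : 64 = 2 ^ 6 := rfl
        rw [h3]
        exact Nat.xor_lt_two_pow (B_lt k a) (B_lt k b)
    · intro h
      rw [h, add_self_vec]
  rw [← hiff]
  constructor
  · intro h
    rw [h1, indep_two_iff] at h
    push Not at h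
    obtain ⟨T, hT, hne, h0⟩ := h
    rw [Finset.mem_powerset] at hT
    by_cases hTe : T = {a, b, c}
    · rw [hTe, hsum] at h0
      exact h0
    · exfalso
      -- `T` misses an element
      obtain ⟨x, hx, hxT⟩ : ∃ x ∈ ({a, b, c} : Finset (Fin 15)), x ∉ T := by
        by_contra hcon
        push Not at hcon
        exact hTe (Finset.Subset.antisymm hT hcon)
      have hpair : ∃ y z : Fin 15, T ⊆ {y, z} := by
        rw [Finset.mem_insert, Finset.mem_insert, Finset.mem_singleton] at hx
        rcases hx with rfl | rfl | rfl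
        · refine ⟨b, c, fun y hy => ?_⟩
          have h2 := hT hy
          rw [Finset.mem_insert] at h2
          refine h2.resolve_left ?_
          rintro rfl
          exact hxT hy
        · refine ⟨a, c, fun y hy => ?_⟩
          have h2 := hT hy
          rw [Finset.mem_insert, Finset.mem_insert, Finset.mem_singleton] at h2
          rw [Finset.mem_insert, Finset.mem_singleton]
          rcases h2 with rfl | rfl | rfl
          · exact Or.inl rfl
          · exact absurd hy hxT
          · exact Or.inr rfl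
        · refine ⟨a, b, fun y hy => ?_⟩
          have h2 := hT hy
          rw [Finset.mem_insert, Finset.mem_insert, Finset.mem_singleton] at h2
          rw [Finset.mem_insert, Finset.mem_singleton]
          rcases h2 with rfl | rfl | rfl
          · exact Or.inl rfl
          · exact Or.inr rfl
          · exact absurd hy hxT
      obtain ⟨y, z, hyz⟩ := hpair
      have h2 := pair_indep k y z
      have h3 : ({y, z} : Set (Fin 15)) = (({y, z} : Finset (Fin 15)) : Set (Fin 15)) := by simp
      rw [h3, indep_two_iff] at h2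
      exact h2 T (Finset.mem_powerset.2 hyz) hne h0
  · intro h h2
    rw [h1, indep_two_iff] at h2
    exact h2 {a, b, c} (Finset.mem_powerset_self _) (by simp) (by rw [hsum, h])

/-! ### Adjacency -/

/-- `a` and `b` are in a common three-element dependent set -/
def adjI (P : Set (Fin 15) → Prop) (a b : Fin 15) : Prop :=
  a ≠ b ∧ ∃ c, c ≠ a ∧ c ≠ b ∧ ¬ P {a, b, c}

theorem adjI_iff (k : Fin 5) (a b : Fin 15) :
    adjI (fun I => LinearIndepOn (ZMod 2) (vcol k) I) a b ↔ adjc k a b = true := by
  rw [adjI, adjc, Bool.and_eq_true, bne_iff_ne, List.any_eq_true]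
  refine and_congr_right fun hab => ?_
  refine exists_congr fun c => ?_
  rw [Bool.and_eq_true, Bool.and_eq_true, bne_iff_ne, bne_iff_ne, beq_iff_eq]
  constructor
  · rintro ⟨h1, h2, h3⟩
    exact ⟨List.mem_finRange c, ⟨h1, h2⟩, (triple_dep_iff k hab h1.symm h2.symm).1 h3⟩
  · rintro ⟨-, ⟨h1, h2⟩, h3⟩
    exact ⟨h1, h2, (triple_dep_iff k hab h1.symm h2.symm).2 h3⟩

theorem adjI_congr {P Q : Set (Fin 15) → Prop} (σ : Equiv.Perm (Fin 15))
    (h : ∀ I, P I ↔ Q (σ '' I)) (a b : Fin 15) : adjI P a b ↔ adjI Q (σ a) (σ b) := by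
  rw [adjI, adjI, σ.injective.ne_iff]
  refine and_congr_right fun _ => ?_
  constructor
  · rintro ⟨c, h1, h2, h3⟩
    refine ⟨σ c, σ.injective.ne h1, σ.injective.ne h2, ?_⟩
    rw [h, image_insert_eq, image_insert_eq, image_singleton] at h3
    exact h3
  · rintro ⟨c, h1, h2, h3⟩
    obtain ⟨d, rfl⟩ := σ.surjective c
    refine ⟨d, σ.injective.ne_iff.1 h1, σ.injective.ne_iff.1 h2, ?_⟩
    rw [h, image_insert_eq, image_insert_eq, image_singleton]
    exact h3

theorem adjc_congr {k k' : Fin 5} (σ : Equiv.Perm (Fin 15))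
    (h : ∀ I : Set (Fin 15), LinearIndepOn (ZMod 2) (vcol k) I ↔
      LinearIndepOn (ZMod 2) (vcol k') (σ '' I)) (a b : Fin 15) :
    adjc k a b = adjc k' (σ a) (σ b) := by
  have h1 := adjI_congr (P := fun I => LinearIndepOn (ZMod 2) (vcol k) I)
    (Q := fun I => LinearIndepOn (ZMod 2) (vcol k') I) σ h a b
  rw [adjI_iff, adjI_iff] at h1
  exact Bool.eq_iff_iff.2 h1

/-! ### The symbols -/

theorem mat_simple (k : Fin 5) : IsSimple (mat k) := by
  rintro _ ⟨a, rfl⟩ _ ⟨b, rfl⟩
  have h : ({(a : ℕ), (b : ℕ)} : Set ℕ) = Fin.val '' ({a, b} : Set (Fin 15)) := by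
    rw [image_insert_eq, image_singleton]
  rw [h, mat_indep]
  exact pair_indep k a b

theorem mat_regular (k : Fin 5) : IsRegular (mat k) := by
  intro F _
  refine ⟨6, fun i => if h : i < 15 then col F (A k) ⟨i, h⟩ else 0, fun I hI => ?_⟩
  obtain ⟨J, rfl⟩ := subset_range_iff_exists_image_eq.1 hI
  rw [mat_indep, indepOn_image _ Fin.val_injective, ← indep_vcol k F]
  have h : (fun i : ℕ => if h : i < 15 then col F (A k) ⟨i, h⟩ else 0) ∘ (Fin.val : Fin 15 → ℕ) =
      col F (A k) := by
    funext i
    simp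
  rw [h]

theorem mat_connected (k : Fin 5) : IsConnected (mat k) := by
  rw [isConnected_iff Fin.val_injective rfl]
  refine ⟨⟨0⟩, ?_⟩
  intro X Y hX hY hXY hU hI
  simp only [mat_indep] at hI
  -- adjacent elements are on the same side
  have key : ∀ (X Y : Set (Fin 15)), Disjoint X Y → X ∪ Y = univ →
      (∀ I : Set (Fin 15), LinearIndepOn (ZMod 2) (vcol k) I ↔
        LinearIndepOn (ZMod 2) (vcol k) (I ∩ X) ∧ LinearIndepOn (ZMod 2) (vcol k) (I ∩ Y)) →
      ∀ a b, adjc k a b = true → a ∈ X → b ∈ X := by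
    intro X Y hXY hU hI a b hab ha
    by_contra hb
    have hbY : b ∈ Y := by
      have h1 : b ∈ X ∪ Y := by
        rw [hU]
        trivial
      exact h1.resolve_left hb
    have haY : a ∉ Y := fun h => disjoint_left.1 hXY ha h
    rw [← adjI_iff] at hab
    obtain ⟨-, c, -, -, hc⟩ := hab
    apply hc
    rw [hI]
    have hcXY : c ∈ X ∪ Y := by
      rw [hU]
      trivial
    rcases hcXY with hcX | hcY
    · have hcY : c ∉ Y := fun h => disjoint_left.1 hXY hcX h
      constructor
      · refine (pair_indep k a c).mono ?_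
        rintro x ⟨hx, hxX⟩
        rcases hx with rfl | rfl | rfl
        · exact Or.inl rfl
        · exact absurd hxX hb
        · exact Or.inr rfl
      · refine (pair_indep k b b).mono ?_
        rintro x ⟨hx, hxY⟩
        rcases hx with rfl | rfl | rfl
        · exact absurd hxY haY
        · exact Or.inl rfl
        · exact absurd hxY hcY
    · have hcX : c ∉ X := fun h => disjoint_left.1 hXY h hcY
      constructor
      · refine (pair_indep k a a).mono ?_
        rintro x ⟨hx, hxX⟩
        rcases hx with rfl | rfl | rfl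
        · exact Or.inl rfl
        · exact absurd hxX hb
        · exact absurd hxX hcX
      · refine (pair_indep k b c).mono ?_
        rintro x ⟨hx, hxY⟩
        rcases hx with rfl | rfl | rfl
        · exact absurd hxY haY
        · exact Or.inl rfl
        · exact Or.inr rfl
  let co : Fin 15 → Fin 15 := fun m => Fin.ofNat 15 ((connT.getD k []).getD m 0)
  -- the side of the first element contains everything
  have key2 : ∀ (X Y : Set (Fin 15)), Disjoint X Y → X ∪ Y = univ →
      (∀ I : Set (Fin 15), LinearIndepOn (ZMod 2) (vcol k) I ↔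
        LinearIndepOn (ZMod 2) (vcol k) (I ∩ X) ∧ LinearIndepOn (ZMod 2) (vcol k) (I ∩ Y)) →
      co 0 ∈ X → X = univ := by
    intro X Y hXY hU hI h0
    have h1 : ∀ n : ℕ, ∀ m : Fin 15, (m : ℕ) = n → co m ∈ X := by
      intro n
      induction n using Nat.strong_induction_on with
      | _ n ih =>
        intro m hm
        rcases fact_conn k m with h2 | ⟨j, hj, hadj⟩
        · rw [h2]
          exact h0
        · have h3 : (j : ℕ) < (m : ℕ) := hj
          exact key X Y hXY hU hI _ _ hadj (ih j (by omega) j rfl)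
    rw [eq_univ_iff_forall]
    intro i
    obtain ⟨m, rfl⟩ := fact_conn_surj k i
    exact h1 m m rfl
  have h0 : co 0 ∈ X ∪ Y := by
    rw [hU]
    trivial
  rcases h0 with h0 | h0
  · have h1 := key2 X Y hXY hU hI h0
    obtain ⟨y, hy⟩ := hY
    exact disjoint_left.1 hXY (h1 ▸ mem_univ y) hy
  · have h1 := key2 Y X hXY.symm (by rw [union_comm]; exact hU)
      (fun I => by rw [and_comm]; exact hI I) h0
    obtain ⟨x, hx⟩ := hX
    exact disjoint_left.1 hXY hx (h1 ▸ mem_univ x)

/-- the symbol of the `k`-th matroid -/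
noncomputable def S (k : Fin 5) : Symb 15 where
  M := mat k
  l := Fin.val
  inj := Fin.val_injective
  ground := rfl
  simple := mat_simple k
  regular := mat_regular k
  connected := mat_connected k

theorem S_indep (k : Fin 5) (I : Set (Fin 15)) :
    (S k).M.Indep ((S k).l '' I) ↔ LinearIndepOn (ZMod 2) (vcol k) I := mat_indep k I

theorem fact_tri : ∀ k : Fin 5, ∀ x : Fin 15, ∃ y z : Fin 15, x ≠ y ∧ x ≠ z ∧ y ≠ z ∧
    B k x ^^^ B k y = B k z := by
  decide +kernel

theorem S_coloop (k : Fin 5) (x : Fin 15) : ¬ (S k).M.IsColoop ((S k).l x) := by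
  rw [isColoop_iff]
  intro h
  obtain ⟨y, z, hxy, hxz, hyz, htri⟩ := fact_tri k x
  have h1 := h {y, z} (by rw [S_indep]; exact pair_indep k y z)
  rw [S_indep] at h1
  exact (triple_dep_iff k hxy hxz hyz).2 htri h1

/-! ### Maximality of the first matroid -/

section Max

variable (N : Symb 16) (x : Fin 16) (σ : Equiv.Perm (Fin 15))

/-- the element of `N` corresponding to the `j`-th column -/
def lab (j : Fin 15) : ℕ := N.l (x.succAbove (σ.symm j))

theorem lab_inj : Function.Injective (lab N x σ) :=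
  N.inj.comp (Fin.succAbove_right_injective.comp σ.symm.injective)

theorem lab_indep (h : ∀ I : Set (Fin 15), N.M.Indep ((N.l ∘ x.succAbove) '' I) ↔
    LinearIndepOn (ZMod 2) (vcol 0) (σ '' I)) (J : Set (Fin 15)) :
    N.M.Indep (lab N x σ '' J) ↔ LinearIndepOn (ZMod 2) (vcol 0) J := by
  have h1 := h (σ.symm '' J)
  have h2 : σ '' (σ.symm '' J) = J := by
    rw [← image_comp]
    simp
  rw [h2, ← image_comp] at h1
  exact h1

theorem ext_rep (h : ∀ I : Set (Fin 15), N.M.Indep ((N.l ∘ x.succAbove) '' I) ↔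
    LinearIndepOn (ZMod 2) (vcol 0) (σ '' I)) (hx : ¬ N.M.IsColoop (N.l x))
    (K : Type) [Field K] : ∃ u : Fin 6 → K, ∀ J : Set (Fin 15),
      LinearIndepOn (ZMod 2) (vcol 0) J →
      (N.M.Indep (insert (N.l x) (lab N x σ '' J)) ↔ u ∉ span K (col K (A 0) '' J)) := by
  obtain ⟨n, t, ht⟩ := N.regular K
  have hE : ∀ i, N.l i ∈ N.M.E := fun i => by
    rw [← N.ground]
    exact mem_range_self i
  have hlabE : ∀ J : Set (Fin 15), lab N x σ '' J ⊆ N.M.E := by
    rintro J _ ⟨j, _, rfl⟩
    exact hE _
  have ht' : ∀ J : Set (Fin 15), LinearIndepOn K (t ∘ lab N x σ) J ↔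
      LinearIndepOn (ZMod 2) (vcol 0) J := by
    intro J
    rw [← indepOn_image t (lab_inj N x σ), ← ht _ (hlabE J), lab_indep N x σ h]
  obtain ⟨s, L, hs, hL, hsL⟩ := unique_rep (t ∘ lab N x σ) ht'
  have hspan : ∀ J : Set (Fin 15), span K (t '' (lab N x σ '' J)) =
      (span K (col K (A 0) '' J)).map L := by
    intro J
    rw [Submodule.map_span, ← image_comp, ← image_comp]
    apply le_antisymm
    · rw [span_le]
      rintro _ ⟨j, hj, rfl⟩
      have h1 := hsL j
      have h2 : (t ∘ lab N x σ) j = (s j)⁻¹ • L (col K (A 0) j) := by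
        rw [← h1, smul_smul, inv_mul_cancel₀ (hs j), one_smul]
      rw [SetLike.mem_coe, h2]
      exact smul_mem _ _ (subset_span ⟨j, hj, rfl⟩)
    · rw [span_le]
      rintro _ ⟨j, hj, rfl⟩
      rw [SetLike.mem_coe, Function.comp_apply, ← hsL j]
      exact smul_mem _ _ (subset_span ⟨j, hj, rfl⟩)
  have hlx : ∀ J : Set (Fin 15), N.l x ∉ lab N x σ '' J := by
    rintro J ⟨j, _, hj⟩
    exact Fin.succAbove_ne x _ (N.inj hj)
  -- the vector of the new element
  obtain ⟨u, hu⟩ : ∃ u, L u = t (N.l x) := by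
    rw [isColoop_iff] at hx
    push Not at hx
    obtain ⟨I, hI, hIx⟩ := hx
    have hxI : x ∉ I := by
      intro h1
      rw [insert_eq_of_mem h1] at hIx
      exact hIx hI
    rw [image_insert_eq] at hIx
    rw [ht _ (by rintro _ ⟨i, _, rfl⟩; exact hE i)] at hI
    rw [ht _ (by
      rintro y (rfl | ⟨i, _, rfl⟩)
      · exact hE x
      · exact hE i), linearIndepOn_insert (by
      rintro ⟨i, hi, hix⟩
      exact hxI (N.inj hix ▸ hi)), and_iff_right hI, not_not] at hIx
    have h1 : N.l '' I ⊆ lab N x σ '' univ := by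
      rintro _ ⟨i, hi, rfl⟩
      have hix : i ≠ x := by
        rintro rfl
        exact hxI hi
      obtain ⟨j, hj⟩ := Fin.exists_succAbove_eq hix
      refine ⟨σ j, mem_univ _, ?_⟩
      rw [lab, Equiv.symm_apply_apply, hj]
    have h2 := span_mono (R := K) (image_mono (f := t) h1) hIx
    rw [hspan] at h2
    obtain ⟨u, -, hu⟩ := h2
    exact ⟨u, hu⟩
  refine ⟨u, fun J hJ => ?_⟩
  have hins : insert (N.l x) (lab N x σ '' J) ⊆ N.M.E := by
    rintro y (rfl | hy)
    · exact hE x
    · exact hlabE J hy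
  rw [ht _ hins, linearIndepOn_insert (hlx J), indepOn_image t (lab_inj N x σ),
    and_iff_right ((ht' J).2 hJ), hspan, ← hu, not_iff_not]
  constructor
  · rintro ⟨w, hw, hwu⟩
    rwa [hL hwu] at hw
  · intro hw
    exact ⟨u, hw, rfl⟩

end Max

/-- the hyperplanes of the first matroid -/
theorem span_hyp (K : Type) [Field K] (i : Fin 17) :
    span K (col K (A 0) '' {j | j ∈ hL i}) = LinearMap.ker (fn K (lf 0 (hm i))) := by
  classical
  have hind : LinearIndepOn K (col K (A 0)) {j | j ∈ hL i} :=
    (indep_vcol 0 K _).2 (chkS_indep (fact_hL i).1)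
  have hle : span K (col K (A 0) '' {j | j ∈ hL i}) ≤ LinearMap.ker (fn K (lf 0 (hm i))) := by
    rw [span_le]
    rintro _ ⟨j, hj, rfl⟩
    rw [SetLike.mem_coe, LinearMap.mem_ker, fn_col, Fin.sum_univ_six, fact_hL_zero i j hj,
      Int.cast_zero]
  have hset : ({j | j ∈ hL i} : Set (Fin 15)) = ((hL i).toFinset : Set (Fin 15)) := by
    ext j
    simp
  have hcard : (hL i).toFinset.card = 5 := by
    rw [List.toFinset_card_of_nodup (fact_hL i).2.2, (fact_hL i).2.1]
  have hfin : finrank K (span K (col K (A 0) '' {j | j ∈ hL i})) = 5 := by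
    have h3 := finrank_span_finset_eq_card (R := K) (s := (hL i).toFinset.image (col K (A 0)))
      (by
        rw [Finset.coe_image, ← hset]
        exact hind.id_image)
    rw [Finset.coe_image, ← hset, Finset.card_image_of_injOn (by
      rw [← hset]
      exact hind.injOn), hcard] at h3
    exact h3
  have hker : finrank K (LinearMap.ker (fn K (lf 0 (hm i)))) = 5 := by
    have hne : fn K (lf 0 (hm i)) ≠ 0 := by
      intro h0
      obtain ⟨r, hr⟩ := fact_hm_ne i
      have h1 := LinearMap.congr_fun h0 (Pi.single r 1)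
      rw [fn_apply, LinearMap.zero_apply, Finset.sum_eq_single r] at h1
      · rw [Pi.single_eq_same, mul_one] at h1
        rcases hr with hr | hr <;> rw [hr] at h1 <;> simp at h1
      · intro b _ hb
        rw [Pi.single_eq_of_ne hb, mul_zero]
      · intro h
        exact absurd (Finset.mem_univ _) h
    have h1 := LinearMap.finrank_range_add_finrank_ker (fn K (lf 0 (hm i)))
    have h2 : finrank K (LinearMap.range (fn K (lf 0 (hm i)))) = 1 := by
      rw [LinearMap.range_eq_top.2 (LinearMap.surjective hne), finrank_top, finrank_self]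
    rw [Module.finrank_fin_fun] at h1
    omega
  exact Submodule.eq_of_le_of_finrank_eq hle (by rw [hfin, hker])

theorem fn_unit (K : Type) [Field K] {f : Fin 6 → ℤ} {r : Fin 6}
    (hf : ∀ s : Fin 6, f s = if s = r then 1 else 0) (y : Fin 6 → K) : fn K f y = y r := by
  rw [fn_apply, Finset.sum_eq_single r]
  · rw [hf, if_pos rfl, Int.cast_one, one_mul]
  · intro b _ hb
    rw [hf, if_neg hb, Int.cast_zero, zero_mul]
  · intro h
    exact absurd (Finset.mem_univ _) h

/-- the first matroid has no simple regular extension of the same rank -/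
theorem maximal (N : Symb 16) (x : Fin 16) (σ : Equiv.Perm (Fin 15))
    (h : ∀ I : Set (Fin 15), N.M.Indep ((N.l ∘ x.succAbove) '' I) ↔
      LinearIndepOn (ZMod 2) (vcol 0) (σ '' I)) : N.M.IsColoop (N.l x) := by
  by_contra hx
  obtain ⟨v, hv⟩ := ext_rep N x σ h hx (ZMod 2)
  obtain ⟨u, hu⟩ := ext_rep N x σ h hx (ZMod 3)
  have hE : ∀ i, N.l i ∈ N.M.E := fun i => by
    rw [← N.ground]
    exact mem_range_self i
  -- hyperplanes
  have hh : ∀ i : Fin 17, fn (ZMod 2) (lf 0 (hm i)) v = 0 ↔ fn (ZMod 3) (lf 0 (hm i)) u = 0 := by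
    intro i
    have h1 := hv {j | j ∈ hL i} (chkS_indep (fact_hL i).1)
    have h2 := hu {j | j ∈ hL i} (chkS_indep (fact_hL i).1)
    rw [h1, span_hyp, span_hyp, not_iff_not, LinearMap.mem_ker, LinearMap.mem_ker] at h2
    exact h2
  have hcoord : ∀ r : Fin 6, v r = 0 ↔ u r = 0 := by
    intro r
    obtain ⟨i, hi⟩ := fact_coord r
    have h1 := hh i
    rwa [fn_unit (ZMod 2) hi, fn_unit (ZMod 3) hi] at h1
  -- the new element is not a loop
  have hu0 : u ≠ 0 := by
    rintro rfl
    have h1 := (hu ∅ (linearIndepOn_empty _ _)).1 (by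
      rw [image_empty, insert_empty_eq]
      have h2 := N.simple _ (hE x) _ (hE x)
      rwa [pair_eq_singleton] at h2)
    exact h1 (zero_mem _)
  -- it is not parallel to another element
  have hvi : ∀ i : Fin 15, v ≠ vec (B 0 i) := by
    intro i hvi
    have h1 := (hv {i} ((pair_indep 0 i i).mono (by simp))).1 (by
      rw [image_singleton]
      exact N.simple _ (hE x) _ (hE _))
    apply h1
    rw [image_singleton, col_eq, hvi]
    exact mem_span_singleton_self _
  -- the integers of `u`
  let a : Fin 6 → ℕ := fun r => (u r).val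
  have ha : ∀ r, ((a r : ℤ) : ZMod 3) = u r := by
    intro r
    rw [Int.cast_natCast]
    exact ZMod.natCast_zmod_val (u r)
  have ha0 : ∀ r, a r = 0 ↔ u r = 0 := fun r => ZMod.val_eq_zero (u r)
  have hbit : ∀ r, ((bit (a r) : ℤ) : ZMod 2) = v r := by
    intro r
    rw [bit]
    by_cases h1 : a r = 0
    · rw [if_pos h1, Int.cast_zero]
      exact ((hcoord r).2 ((ha0 r).1 h1)).symm
    · rw [if_neg h1, Int.cast_one]
      have h2 : v r ≠ 0 := fun h3 => h1 ((ha0 r).2 ((hcoord r).1 h3))
      exact ((zmod2_cases (v r)).resolve_left h2).symm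
  have hlt : ∀ r, a r < 3 := fun r => ZMod.val_lt (u r)
  have hchk := fact_chk ⟨a 0, hlt 0⟩ ⟨a 1, hlt 1⟩ ⟨a 2, hlt 2⟩ ⟨a 3, hlt 3⟩ ⟨a 4, hlt 4⟩ ⟨a 5, hlt 5⟩
  simp only [chk, Bool.or_eq_true, Bool.and_eq_true, beq_iff_eq, List.any_eq_true] at hchk
  rcases hchk with (hchk | ⟨i, -, hi⟩) | ⟨i, -, hi⟩
  · apply hu0
    ext r
    rw [Pi.zero_apply, ← ha0]
    obtain ⟨⟨⟨⟨⟨h0, h1⟩, h2⟩, h3⟩, h4⟩, h5⟩ := hchk
    fin_cases r <;> assumption
  · rw [bne_iff_ne] at hi
    apply hi
    have h1 := hh i
    rw [decide_eq_decide]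
    have h2 : fn (ZMod 2) (lf 0 (hm i)) v = ((lf 0 (hm i) 0 * bit (a 0) +
        lf 0 (hm i) 1 * bit (a 1) + lf 0 (hm i) 2 * bit (a 2) + lf 0 (hm i) 3 * bit (a 3) +
        lf 0 (hm i) 4 * bit (a 4) + lf 0 (hm i) 5 * bit (a 5) : ℤ) : ZMod 2) := by
      rw [fn_apply, Fin.sum_univ_six]
      push_cast
      rw [← hbit 0, ← hbit 1, ← hbit 2, ← hbit 3, ← hbit 4, ← hbit 5]
    have h3 : fn (ZMod 3) (lf 0 (hm i)) u = ((lf 0 (hm i) 0 * (a 0 : ℕ) +
        lf 0 (hm i) 1 * (a 1 : ℕ) + lf 0 (hm i) 2 * (a 2 : ℕ) + lf 0 (hm i) 3 * (a 3 : ℕ) +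
        lf 0 (hm i) 4 * (a 4 : ℕ) + lf 0 (hm i) 5 * (a 5 : ℕ) : ℤ) : ZMod 3) := by
      rw [fn_apply, Fin.sum_univ_six]
      simp only [Int.cast_add, Int.cast_mul, ha]
    rw [h2, h3, ZMod.intCast_zmod_eq_zero_iff_dvd, ZMod.intCast_zmod_eq_zero_iff_dvd] at h1
    exact h1
  · apply hvi i
    have h1 : ∀ r : Fin 6, (B 0 i).testBit r = (a r != 0) := by
      obtain ⟨⟨⟨⟨⟨h0, h1⟩, h2⟩, h3⟩, h4⟩, h5⟩ := hi
      intro r
      fin_cases r <;> assumption
    ext r
    rw [vec, h1, ← hbit, bit]
    by_cases h2 : a r = 0 <;> simp [h2]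

end Pool.Agent.V11185.RegMax
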